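import Pool.Agent.Lib.H82OG.AL
import Pool.Agent.Lib.H22M.TE
import Pool.Agent.Lib.H82OT.FN5

/-!
# Project H82OG, chunk AE: condition (D) for finitely generated extensions of the group of eigenvalues
-/

open MeasureTheory Filter Topology Finset ProbabilityTheory
open scoped ENNReal ComplexConjugate Matrix

namespace Pool.Agent.Lib.H82OG

open Pool.Agent.Lib.H22M Pool.Agent.Lib.H82T Pool.Agent.Lib.H82OT Pool.Agent.Lib.H82OF

/-- Removing finitely many primes does not change the divergence. -/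
private theorem AE_not_summable_diff (P : Set ℕ) (P0 : Finset ℕ)
    (h : ¬ Summable (P.indicator fun p : ℕ => 1 / (p : ℝ))) :
    ¬ Summable ((P \ (P0 : Set ℕ)).indicator fun p : ℕ => 1 / (p : ℝ)) := by
  intro h1
  apply h
  refine (summable_congr_cofinite ?_).1 h1
  have h2 : ∀ᶠ p : ℕ in cofinite, p ∉ (P0 : Set ℕ) := P0.finite_toSet.compl_mem_cofinite
  filter_upwards [h2] with p hp
  by_cases hpP : p ∈ P
  · rw [Set.indicator_of_mem (show p ∈ P \ (P0 : Set ℕ) from ⟨hpP, hp⟩), Set.indicator_of_mem hpP]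
  · rw [Set.indicator_of_notMem (fun h3 : p ∈ P \ (P0 : Set ℕ) => hpP h3.1),
      Set.indicator_of_notMem hpP]

/-- The eigenvalues form a group. Proof. `IsEigenvalue.mul`, `IsEigenvalue.inv` (`H22M/EG.lean`). -/
theorem exists_eig_subgroup {Y : Type*} [MeasurableSpace Y] {m : Measure Y}
    [IsProbabilityMeasure m] {R : Y → Y} (hR : MeasurePreserving R m m) :
    ∃ Λ : Subgroup ℂˣ, ∀ x : ℂˣ, x ∈ Λ ↔ IsEigenvalue m R (x : ℂ) := by
  refine ⟨{ carrier := {x | IsEigenvalue m R (x : ℂ)}
            mul_mem' := ?_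
            one_mem' := ?_
            inv_mem' := ?_ }, fun x => Iff.rfl⟩
  · intro a b ha hb
    have h := IsEigenvalue.mul ha hb
    simpa using h
  · have h : IsEigenvalue m R ((1 : ℂˣ) : ℂ) :=
      ⟨fun _ => 1, measurable_const, Eventually.of_forall fun y => by simp,
        Eventually.of_forall fun y => by simp⟩
    exact h
  · intro a ha
    have h := IsEigenvalue.inv hR ha
    simpa using h

/-- Proof. `Λ` from `exists_eig_subgroup` for `R`; it is torsion free by `eq_one_of_root hD`. `N` and the rest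
from `alg_fg` with `A = ℂˣ`. `Tors`: eigenvalues are units (`IsEigenvalue.norm_eq`). `ManyT`: let `F` be a
finite set without roots of unity; only the elements `≠ 0` matter (eigenvalues have modulus one); for
`x ∈ F` let `P0 x` be the finite set of `alg_fg`; put `F' = {x ^ N : x ∈ F}`, `1 ∉ F'`. A prime in
`goodPrimes m R F'` outside `⋃ P0 x` is in `goodPrimes mb T F`: if `l` is an eigenvalue of `T` and
`l ^ p = x ∈ F` then `x ^ N = z ^ p` for an eigenvalue `z` of `R`, contradiction. So
`goodPrimes m R F' \ ⋃ P0 x ⊆ goodPrimes mb T F`, and the sum over the smaller set diverges (`hD`,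
`FN5_not_summable_diff` in `H82OT/FN5.lean`; comparison of nonnegative series). -/
theorem tors_manyT {Y B : Type*} [MeasurableSpace Y] [MeasurableSpace B] {m : Measure Y}
    [IsProbabilityMeasure m] {R : Y → Y} (hR : Ergodic R m) {mb : Measure B}
    [IsProbabilityMeasure mb] {T : B → B} (hT : MeasurePreserving T mb mb)
    (hD : ManyGoodPrimes m R) (S : Finset ℂˣ)
    (hfg : ∀ x : ℂˣ, IsEigenvalue mb T (x : ℂ) →
      x ∈ Subgroup.closure ((S : Set ℂˣ) ∪ {y : ℂˣ | IsEigenvalue m R (y : ℂ)})) :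
    (∃ N : ℕ, Tors mb T N) ∧ ManyT mb T := by
  classical
  obtain ⟨Λ, hΛ⟩ := exists_eig_subgroup hR.toMeasurePreserving
  have hset : {y : ℂˣ | IsEigenvalue m R (y : ℂ)} = (Λ : Set ℂˣ) := by
    ext y
    exact (hΛ y).symm
  rw [hset] at hfg
  have htf : ∀ c ∈ Λ, ∀ n : ℕ, 1 ≤ n → c ^ n = 1 → c = 1 := by
    intro c hc n hn h
    have h1 : (c : ℂ) ^ n = 1 := by
      have := congrArg (fun u : ℂˣ => (u : ℂ)) h
      simpa using this
    have h2 := eq_one_of_root hD (c : ℂ) ((hΛ c).1 hc) n hn h1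
    exact Units.ext (by simpa using h2)
  obtain ⟨N, hN1, hNt, hNx⟩ := alg_fg Λ S htf
  have hne : ∀ e : ℂ, IsEigenvalue mb T e → e ≠ 0 := by
    intro e he h0
    have := IsEigenvalue.norm_eq hT he
    rw [h0, norm_zero] at this
    exact zero_ne_one this
  have hmem : ∀ e : ℂ, (he : IsEigenvalue mb T e) →
      Units.mk0 e (hne e he) ∈ Subgroup.closure ((S : Set ℂˣ) ∪ (Λ : Set ℂˣ)) := by
    intro e he
    exact hfg _ (by simpa using he)
  refine ⟨⟨N, hN1, fun c hc n hn h => ?_⟩, fun F hF => ?_⟩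
  · have h1 : (Units.mk0 c (hne c hc)) ^ n = 1 := Units.ext (by simpa using h)
    have h2 := hNt _ (hmem c hc) n hn h1
    have := congrArg (fun u : ℂˣ => (u : ℂ)) h2
    simpa using this
  · have hP : ∀ c : ℂ, ∃ P : Finset ℕ, c ∈ F → ∀ p : ℕ, p.Prime → p ∉ P →
        ∀ e : ℂ, IsEigenvalue mb T e → e ^ p = c → ∃ z : ℂ, IsEigenvalue m R z ∧ z ^ p = c ^ N := by
      intro c
      by_cases hcF : c ∈ F
      · by_cases hc0 : c = 0
        · refine ⟨∅, fun _ p hp _ e he hec => ?_⟩
          exfalso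
          exact pow_ne_zero p (hne e he) (by rw [hec, hc0])
        · obtain ⟨P, hP⟩ := hNx (Units.mk0 c hc0) (fun n hn h => hF c hcF n hn (by
            have := congrArg (fun u : ℂˣ => (u : ℂ)) h
            simpa using this))
          refine ⟨P, fun _ p hp hpP e he hec => ?_⟩
          obtain ⟨z, hz, hzp⟩ := hP p hp hpP
            ⟨Units.mk0 e (hne e he), hmem e he, Units.ext (by simpa using hec)⟩
          refine ⟨z, (hΛ z).1 hz, ?_⟩
          have := congrArg (fun u : ℂˣ => (u : ℂ)) hzp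
          simpa using this
      · exact ⟨∅, fun h => absurd h hcF⟩
    choose P hP using hP
    have h1 : (1 : ℂ) ∉ F.image (fun c => c ^ N) := by
      intro h
      obtain ⟨c, hc, hc1⟩ := Finset.mem_image.1 h
      exact hF c hc N hN1 hc1
    have h2 := AE_not_summable_diff _ (F.biUnion P) (hD _ h1)
    intro h3
    apply h2
    have hsub : goodPrimes m R (F.image fun c => c ^ N) \ ((F.biUnion P : Finset ℕ) : Set ℕ)
        ⊆ goodPrimes mb T F := by
      intro p hp
      obtain ⟨⟨hp1, hp2⟩, hp3⟩ := hp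
      refine ⟨hp1, fun c hc e he hec => ?_⟩
      have hpc : p ∉ P c := fun h => hp3 (Finset.mem_coe.2 (Finset.mem_biUnion.2 ⟨c, hc, h⟩))
      obtain ⟨z, hz, hzp⟩ := hP c hc p hp1 hpc e he hec
      exact hp2 (c ^ N) (Finset.mem_image_of_mem _ hc) z hz hzp
    refine Summable.of_nonneg_of_le (fun p => ?_) (fun p => ?_) h3
    · exact Set.indicator_nonneg (fun q _ => by positivity) p
    · exact Set.indicator_le_indicator_of_subset hsub (fun q => by positivity) p

end Pool.Agent.Lib.H82OG
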