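import Pool.Agent.Lib.H82OG.Defs

/-!
# Project H82OG, chunk AL: finitely generated extensions of a torsion free group
-/

open MeasureTheory Filter Topology Finset ProbabilityTheory
open scoped ENNReal ComplexConjugate Matrix

namespace Pool.Agent.Lib.H82OG

open Pool.Agent.Lib.H22M Pool.Agent.Lib.H82T Pool.Agent.Lib.H82OT Pool.Agent.Lib.H82OF

private theorem al_struct (A : Type*) [CommGroup A] [hA : Group.FG A] :
    ∃ (n : ℕ) (T : Type) (_ : AddCommGroup T) (_ : Finite T),
      Nonempty (Additive A ≃+ (Fin n →₀ ℤ) × T) := by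
  haveI : AddGroup.FG (Additive A) := inferInstance
  obtain ⟨n, ι, hι, p, hp, e, ⟨f⟩⟩ := AddCommGroup.equiv_free_prod_directSum_zmod (Additive A)
  classical
  haveI : ∀ i, NeZero (p i ^ e i) := fun i => ⟨pow_ne_zero _ (hp i).ne_zero⟩
  haveI : Finite (DirectSum ι fun i => ZMod (p i ^ e i)) :=
    Finite.of_equiv _ (DirectSum.addEquivProd (fun i => ZMod (p i ^ e i))).symm.toEquiv
  exact ⟨n, DirectSum ι fun i => ZMod (p i ^ e i), inferInstance, inferInstance, ⟨f⟩⟩

/-- In a finitely generated commutative group an element of infinite order is a `p`-th power for finitely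
many primes `p` only. Proof. Let `t` be the torsion subgroup; `A ⧸ t` is finitely generated and torsion free,
so (additively) a free `ℤ`-module of finite rank (`Module.free_of_finite_type_torsion_free'`-type
instance); the image of `x` is not `0`, some coordinate `k` of it in a basis is a nonzero integer; if
`x = y ^ p` then `p ∣ k`. So `P0 = range (|k| + 1)`. -/
theorem finite_divisors {A : Type*} [CommGroup A] [hA : Group.FG A] (x : A)
    (hx : ∀ n : ℕ, 1 ≤ n → x ^ n ≠ 1) :
    ∃ P0 : Finset ℕ, ∀ p : ℕ, p.Prime → p ∉ P0 → ∀ y : A, y ^ p ≠ x := by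
  obtain ⟨n, T, hT, hfin, ⟨f⟩⟩ := al_struct A
  set v := (f (Additive.ofMul x)).1 with hv
  have hv0 : v ≠ 0 := by
    intro h0
    refine hx (Nat.card T) (Nat.card_pos) ?_
    have h1 : f (Nat.card T • Additive.ofMul x) = 0 := by
      rw [map_nsmul]
      refine Prod.ext ?_ ?_
      · simp [← hv, h0]
      · simp
    have h2 : Nat.card T • Additive.ofMul x = 0 := by
      have := congrArg f.symm h1
      simpa using this
    have h3 : Additive.ofMul (x ^ Nat.card T) = Additive.ofMul 1 := by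
      rw [ofMul_pow]; simpa using h2
    exact Additive.ofMul.injective h3
  obtain ⟨k, hk⟩ := Finsupp.ne_iff.1 hv0
  refine ⟨Finset.range ((v k).natAbs + 1), fun p hp hpP y hy => ?_⟩
  have h1 : p • Additive.ofMul y = Additive.ofMul x := by
    rw [← ofMul_pow, hy]
  have h2 : (p : ℤ) * (f (Additive.ofMul y)).1 k = v k := by
    rw [hv, ← h1, map_nsmul]
    simp
  have h3 : (p : ℤ) ∣ v k := ⟨_, h2.symm⟩
  have h4 : p ∣ (v k).natAbs := Int.natCast_dvd.1 h3
  have h5 : p ≤ (v k).natAbs := Nat.le_of_dvd (Int.natAbs_pos.2 hk) h4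
  exact hpP (Finset.mem_range.2 (by omega))

/-- The torsion elements of a finitely generated commutative group have bounded order. Proof. The torsion
subgroup is finitely generated (a subgroup of a finitely generated commutative group; Noetherian `ℤ`-module)
and torsion, so finite (`CommGroup.finite_of_fg_torsion`); `N` = its cardinality. -/
theorem exists_torsion_bound (A : Type*) [CommGroup A] [hA : Group.FG A] :
    ∃ N : ℕ, 1 ≤ N ∧ ∀ x : A, ∀ n : ℕ, 1 ≤ n → x ^ n = 1 → x ^ N = 1 := by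
  obtain ⟨n, T, hT, hfin, ⟨f⟩⟩ := al_struct A
  refine ⟨Nat.card T, Nat.card_pos, fun x k hk hxk => ?_⟩
  have h1 : k • Additive.ofMul x = 0 := by
    rw [← ofMul_pow, hxk]; rfl
  have h2 : (f (Additive.ofMul x)).1 = 0 := by
    have h3 : k • f (Additive.ofMul x) = 0 := by rw [← map_nsmul, h1, map_zero]
    have h4 : k • (f (Additive.ofMul x)).1 = 0 := by
      have := congrArg Prod.fst h3
      simpa using this
    ext i
    have h5 := DFunLike.congr_fun h4 i
    have h6 : (k : ℤ) * (f (Additive.ofMul x)).1 i = 0 := by simpa using h5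
    rcases mul_eq_zero.1 h6 with h7 | h7
    · exfalso
      have : k = 0 := by exact_mod_cast h7
      omega
    · simpa using h7
  have h3 : f (Nat.card T • Additive.ofMul x) = 0 := by
    rw [map_nsmul]
    refine Prod.ext ?_ ?_
    · simp [h2]
    · simp
  have h4 : Nat.card T • Additive.ofMul x = 0 := by
    have := congrArg f.symm h3
    simpa using this
  have h5 : Additive.ofMul (x ^ Nat.card T) = Additive.ofMul 1 := by
    rw [ofMul_pow]; simpa using h4
  exact Additive.ofMul.injective h5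

/-- Proof. Let `G = closure (S ∪ Λ)` and `A = G ⧸ Λ` (`Λ.subgroupOf G`), finitely generated (by the images of
`S`). `N` from `exists_torsion_bound`. If `c ∈ G`, `c ^ n = 1`: the image in `A` has `N`-th power `1`, so
`c ^ N ∈ Λ` is a root of unity, so `c ^ N = 1` (`htf`). For `x` of infinite order: if `x ∉ G` then
`P0 = ∅` works (`y ∈ G` gives `y ^ p ∈ G`). If `x ∈ G` and the image `x̄` in `A` has infinite order:
`finite_divisors` for `x̄`. If `x̄` is torsion and `y ^ p = x`, `y ∈ G`, `p` prime (`p ≥ 1`): the image of `y` is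
torsion, so `y ^ N ∈ Λ` and `(y ^ N) ^ p = x ^ N`; `P0 = ∅`. -/
theorem alg_fg {A : Type*} [CommGroup A] (Λ : Subgroup A) (S : Finset A)
    (htf : ∀ c ∈ Λ, ∀ n : ℕ, 1 ≤ n → c ^ n = 1 → c = 1) :
    ∃ N : ℕ, 1 ≤ N ∧
      (∀ c ∈ Subgroup.closure ((S : Set A) ∪ Λ), ∀ n : ℕ, 1 ≤ n → c ^ n = 1 → c ^ N = 1) ∧
      ∀ x : A, (∀ n : ℕ, 1 ≤ n → x ^ n ≠ 1) → ∃ P0 : Finset ℕ, ∀ p : ℕ, p.Prime → p ∉ P0 →
        (∃ y ∈ Subgroup.closure ((S : Set A) ∪ Λ), y ^ p = x) → ∃ z ∈ Λ, z ^ p = x ^ N := by
  set π : A →* A ⧸ Λ := QuotientGroup.mk' Λ with hπ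
  set H : Subgroup (A ⧸ Λ) := Subgroup.closure (π '' (S : Set A)) with hH
  haveI hfg : Group.FG H := by
    rw [Group.fg_iff_subgroup_fg]
    exact ⟨(S.finite_toSet.image π).toFinset, by simp [hH]⟩
  have hcl : ∀ c ∈ Subgroup.closure ((S : Set A) ∪ Λ), π c ∈ H := by
    intro c hc
    have h1 : Subgroup.closure ((S : Set A) ∪ Λ) ≤ H.comap π := by
      rw [Subgroup.closure_le]
      rintro a (ha | ha)
      · exact Subgroup.subset_closure ⟨a, ha, rfl⟩
      · have : π a = 1 := (QuotientGroup.eq_one_iff a).2 ha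
        change π a ∈ H
        rw [this]; exact H.one_mem
    exact h1 hc
  obtain ⟨N, hN1, hN⟩ := exists_torsion_bound H
  have hpow : ∀ c : A, (hc : π c ∈ H) → ∀ n : ℕ, 1 ≤ n → (π c) ^ n = 1 → c ^ N ∈ Λ := by
    intro c hc n hn h
    have h1 := hN ⟨π c, hc⟩ n hn (Subtype.ext (by simpa using h))
    have h2 : (π c) ^ N = 1 := by simpa using congrArg Subtype.val h1
    rw [← map_pow] at h2
    exact (QuotientGroup.eq_one_iff _).1 h2
  refine ⟨N, hN1, fun c hc n hn h => ?_, fun x hx => ?_⟩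
  · have h1 : c ^ N ∈ Λ := hpow c (hcl c hc) n hn (by rw [← map_pow, h, map_one])
    exact htf _ h1 n hn (by rw [← pow_mul, mul_comm, pow_mul, h, one_pow])
  · by_cases hxH : π x ∈ H
    · by_cases hfo : ∀ n : ℕ, 1 ≤ n → (⟨π x, hxH⟩ : H) ^ n ≠ 1
      · obtain ⟨P0, hP0⟩ := finite_divisors (⟨π x, hxH⟩ : H) hfo
        refine ⟨P0, fun p hp hpP hy => ?_⟩
        obtain ⟨y, hy, hyx⟩ := hy
        exact absurd (Subtype.ext (by simpa using (by rw [← map_pow, hyx] : (π y) ^ p = π x)))
          (hP0 p hp hpP ⟨π y, hcl y hy⟩)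
      · push Not at hfo
        obtain ⟨n, hn, hxn⟩ := hfo
        refine ⟨∅, fun p hp _ hy => ?_⟩
        obtain ⟨y, hy, hyx⟩ := hy
        have h1 : (π x) ^ n = 1 := by simpa using congrArg Subtype.val hxn
        have h2 : y ^ N ∈ Λ := hpow y (hcl y hy) (p * n)
          (Nat.mul_pos hp.pos hn) (by rw [pow_mul, ← map_pow, hyx, h1])
        exact ⟨y ^ N, h2, by rw [← pow_mul, mul_comm, pow_mul, hyx]⟩
    · refine ⟨∅, fun p hp _ hy => ?_⟩
      obtain ⟨y, hy, hyx⟩ := hy
      exfalso
      apply hxH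
      rw [← hyx, map_pow]
      exact H.pow_mem (hcl y hy) p

end Pool.Agent.Lib.H82OG
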