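import Pool.Agent.Lib.H82OF.Defs

/-!
# Project H82OG (MP_10e165_an): definitions

Moebius disjointness in order three with a general second step: the second level is a factor of a
compact group extension `Z × K` of a rotation, whose eigenvalue group may have finite torsion.
Continuation of the project H82OF.
-/

open MeasureTheory Filter Topology Finset ProbabilityTheory
open scoped ENNReal ComplexConjugate Matrix

namespace Pool.Agent.Lib.H82OG

open Pool.Agent.Lib.H22M Pool.Agent.Lib.H82T Pool.Agent.Lib.H82OT Pool.Agent.Lib.H82OF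

/-- `R = skew α φ` on `Z × K` is ergodic and its eigenfunctions are functions of `z`. -/
structure Base0 {Z K : Type*} [CommGroup Z] [MeasurableSpace Z] [Group K] [MeasurableSpace K]
    (lam : Measure Z) (muK : Measure K) (α : Z) (φ : Z → K) : Prop where
  meas : Measurable φ
  erg : Ergodic (skew (M := K) α φ) (lam.prod muK)
  kron : ∀ (e : Z × K → ℂ) (l : ℂ), BM e →
    (∀ᵐ y ∂(lam.prod muK), e (skew α φ y) = l * e y) →
    ∃ g : Z → ℂ, BM g ∧ ∀ᵐ y ∂(lam.prod muK), e y = g y.1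

/-- The eigenvalues which are roots of unity have order dividing `N`. -/
def Tors {Y : Type*} [MeasurableSpace Y] (m : Measure Y) (R : Y → Y) (N : ℕ) : Prop :=
  1 ≤ N ∧ ∀ c : ℂ, IsEigenvalue m R c → ∀ n : ℕ, 1 ≤ n → c ^ n = 1 → c ^ N = 1

/-- `c` is not a root of unity. -/
def NR (c : ℂ) : Prop := ∀ n : ℕ, 1 ≤ n → c ^ n ≠ 1

/-- For every finite set `F` of complex numbers which are not roots of unity, the primes `p` such that
no element of `F` is the `p`-th power of an eigenvalue have a divergent sum of reciprocals. -/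
def ManyT {Y : Type*} [MeasurableSpace Y] (m : Measure Y) (R : Y → Y) : Prop :=
  ∀ F : Finset ℂ, (∀ c ∈ F, NR c) →
    ¬ Summable (Set.indicator (goodPrimes m R F) (fun p : ℕ => 1 / (p : ℝ)))

/-- For every `ε` and every good prime `p` at most `m0` primes `q` are bad in the sense of `BadJ`. -/
def SmT {B : Type*} [MeasurableSpace B] (m : Measure B) (R : B → B) (a b : B → ℂ) : Prop :=
  ∀ ε : ℝ, 0 < ε → ∃ F0 : Finset ℂ, (∀ c ∈ F0, NR c) ∧ ∃ (P0 : Finset ℕ) (m0 : ℕ),
    ∀ p ∈ goodPrimes m R F0, p ∉ P0 → ∀ Q : Finset ℕ,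
      (∀ q ∈ Q, q.Prime ∧ q ≠ p ∧ BadJ m R a b ε p q) → Q.card ≤ m0

/-- For every `ε` and every prime `p` which is good for `(mb, T)` (outside a finite set) at most `m0`
primes are bad for the pair `f, g` of functions on `(Y, m, R)`. -/
def PST {Y B : Type*} [MeasurableSpace Y] [MeasurableSpace B] (m : Measure Y) (R : Y → Y)
    (mb : Measure B) (T : B → B) (f g : Y → ℂ) : Prop :=
  ∀ ε : ℝ, 0 < ε → ∃ F0 : Finset ℂ, (∀ c ∈ F0, NR c) ∧ ∃ (P0 : Finset ℕ) (m0 : ℕ),
    ∀ p ∈ goodPrimes mb T F0, p ∉ P0 → ∀ Q : Finset ℕ,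
      (∀ q ∈ Q, q.Prime ∧ q ≠ p ∧ BadP m R f g ε p q) → Q.card ≤ m0

/-- For the primes `p` in a set with divergent sum of reciprocals at most `m0` primes `q` are bad. -/
def BDD {Y : Type*} [MeasurableSpace Y] (m : Measure Y) (R : Y → Y) (f : Y → ℂ) (ε : ℝ) : Prop :=
  ∃ S : Set ℕ, (∀ p ∈ S, p.Prime) ∧ ¬ Summable (Set.indicator S (fun p : ℕ => 1 / (p : ℝ))) ∧
    ∃ m0 : ℕ, ∀ p ∈ S, ∀ Q : Finset ℕ,
      (∀ q ∈ Q, q.Prime ∧ q ≠ p ∧ BadP m R f f ε p q) → Q.card ≤ m0

/-- A level. `P` is a factor map of `(Y, m, R)` onto `(B, mb, T)`, `θ` a factor map of the group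
extension `skew α φ` of the rotation by `α` onto `(B, mb, T)`, and all eigenfunctions of `R` are
functions of `π ∘ P`, where `π` maps `B` onto a rotation `(W, c)`. -/
structure LevG {Y Z K B W : Type*} [MeasurableSpace Y] [CommGroup Z] [MeasurableSpace Z] [Group K]
    [MeasurableSpace K] [MeasurableSpace B] [Mul W] [MeasurableSpace W] (m : Measure Y)
    (R : Y → Y) (lam : Measure Z) (muK : Measure K) (α : Z) (φ : Z → K) (mb : Measure B)
    (T : B → B) (P : Y → B) (θ : Z × K → B) (π : B → W) (c : W) : Prop where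
  base : Base0 lam muK α φ
  presP : MeasurePreserving P m mb
  equiP : ∀ y, P (R y) = T (P y)
  preθ : MeasurePreserving θ (lam.prod muK) mb
  equiθ : ∀ᵐ x ∂(lam.prod muK), θ (skew (M := K) α φ x) = T (θ x)
  measπ : Measurable π
  equiπ : ∀ x, π (T x) = c * π x
  kron : ∀ (e : Y → ℂ) (l : ℂ), BM e → (∀ᵐ y ∂m, e (R y) = l * e y) →
    ∃ g : W → ℂ, BM g ∧ ∀ᵐ y ∂m, e y = g (π (P y))

end Pool.Agent.Lib.H82OG
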