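import Pool.Agent.Lib.H82OG.Defs
import Pool.Agent.Lib.H82OF.SA

/-!
# Project H82OG, chunk EC2: equivariant matrices over the rotation
-/

open MeasureTheory Filter Topology Finset ProbabilityTheory
open scoped ENNReal ComplexConjugate Matrix

namespace Pool.Agent.Lib.H82OG

open Pool.Agent.Lib.H22M Pool.Agent.Lib.H82T Pool.Agent.Lib.H82OT Pool.Agent.Lib.H82OF

section

variable {Z K : Type*} [CommGroup Z] [TopologicalSpace Z] [IsTopologicalGroup Z]
  [CompactSpace Z] [T2Space Z] [SecondCountableTopology Z] [MeasurableSpace Z] [BorelSpace Z]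
  [Group K] [TopologicalSpace K] [IsTopologicalGroup K] [CompactSpace K] [T2Space K]
  [SecondCountableTopology K] [MeasurableSpace K] [BorelSpace K]

omit [TopologicalSpace Z] [IsTopologicalGroup Z] [CompactSpace Z] [T2Space Z]
  [SecondCountableTopology Z] [BorelSpace Z] [IsTopologicalGroup K] [CompactSpace K] [T2Space K]
  [SecondCountableTopology K] in
private theorem ec2_bmm {d : ℕ} {π : K → Matrix (Fin d) (Fin d) ℂ} (hπ : Rep π)
    {V : Z → Matrix (Fin d) (Fin d) ℂ} (hV : BMM V) :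
    BMM fun y : Z × K => (π y.2)ᴴ * V y.1 * π y.2 :=
  ((hπ.bmm.comp measurable_snd).conj.mul (hV.comp measurable_fst)).mul
    (hπ.bmm.comp measurable_snd)

omit [TopologicalSpace Z] [IsTopologicalGroup Z] [CompactSpace Z] [T2Space Z]
  [SecondCountableTopology Z] [BorelSpace Z] [IsTopologicalGroup K] [CompactSpace K] [T2Space K]
  [SecondCountableTopology K] [BorelSpace K] in
private theorem ec2_equiv (lam : Measure Z) [IsProbabilityMeasure lam]
    (muK : Measure K) [IsProbabilityMeasure muK] {α : Z} {φ : Z → K} {d : ℕ}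
    {π : K → Matrix (Fin d) (Fin d) ℂ} (hπ : Rep π) (ζ : ℂ)
    (V : Z → Matrix (Fin d) (Fin d) ℂ)
    (hVS : ∀ᵐ z ∂lam, V (α * z) = ζ • (π (φ z) * V z * (π (φ z))ᴴ)) :
    ∀ᵐ y ∂(lam.prod muK),
      (π (skew (M := K) α φ y).2)ᴴ * V (skew (M := K) α φ y).1 * π (skew (M := K) α φ y).2 =
        ζ • ((π y.2)ᴴ * V y.1 * π y.2) := by
  have h1 : ∀ᵐ y ∂(lam.prod muK), V (α * y.1) = ζ • (π (φ y.1) * V y.1 * (π (φ y.1))ᴴ) :=
    (Measure.quasiMeasurePreserving_fst (μ := lam) (ν := muK)).ae hVS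
  filter_upwards [h1] with y hy
  have h2 : (skew (M := K) α φ y).1 = α * y.1 := rfl
  have h3 : (skew (M := K) α φ y).2 = φ y.1 * y.2 := rfl
  have hu := hπ.unit' (φ y.1)
  rw [h2, h3, hy, hπ.mul, Matrix.conjTranspose_mul, Matrix.mul_smul, Matrix.smul_mul]
  congr 1
  calc (π y.2)ᴴ * (π (φ y.1))ᴴ * (π (φ y.1) * V y.1 * (π (φ y.1))ᴴ) * (π (φ y.1) * π y.2)
      = (π y.2)ᴴ * ((π (φ y.1))ᴴ * π (φ y.1)) * V y.1 * ((π (φ y.1))ᴴ * π (φ y.1)) * π y.2 := by
        simp only [Matrix.mul_assoc]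
    _ = (π y.2)ᴴ * V y.1 * π y.2 := by rw [hu, Matrix.mul_one, Matrix.mul_one]

omit [TopologicalSpace Z] [IsTopologicalGroup Z] [CompactSpace Z] [T2Space Z]
  [SecondCountableTopology Z] [BorelSpace Z] [IsTopologicalGroup K] [CompactSpace K] [T2Space K]
  [SecondCountableTopology K] [MeasurableSpace Z] [CommGroup Z] [MeasurableSpace K]
  [BorelSpace K] in
private theorem ec2_back {d : ℕ} {π : K → Matrix (Fin d) (Fin d) ℂ} (hπ : Rep π)
    (W : Matrix (Fin d) (Fin d) ℂ) (k : K) :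
    W = π k * ((π k)ᴴ * W * π k) * (π k)ᴴ := by
  have hu := hπ.unit k
  calc W = (π k * (π k)ᴴ) * W * (π k * (π k)ᴴ) := by rw [hu, Matrix.one_mul, Matrix.mul_one]
    _ = π k * ((π k)ᴴ * W * π k) * (π k)ᴴ := by simp only [Matrix.mul_assoc]

/-- Proof. The entries of `n(z, k) = π(k)ᴴ V(z) π(k)` satisfy `n(R y) = ζ n(y)` a.e. (`R = skew α φ`,
`π(φ(z) k) = π(φ z) π(k)`). If `ζ` is not an eigenvalue and `‖ζ‖ = 1`, `isEigenvalue_of_eigen`
(`H22M/EG.lean`) gives `n = 0` a.e. -/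
theorem equiv_zero (lam : Measure Z) [IsProbabilityMeasure lam]
    (muK : Measure K) [IsProbabilityMeasure muK] {α : Z} {φ : Z → K}
    (hB : Base0 lam muK α φ) {d : ℕ} {π : K → Matrix (Fin d) (Fin d) ℂ} (hπ : Rep π) (ζ : ℂ)
    (hζ1 : ‖ζ‖ = 1) (hζ : ¬ IsEigenvalue (lam.prod muK) (skew (M := K) α φ) ζ)
    (V : Z → Matrix (Fin d) (Fin d) ℂ) (hV : BMM V)
    (hVS : ∀ᵐ z ∂lam, V (α * z) = ζ • (π (φ z) * V z * (π (φ z))ᴴ)) :
    ∀ᵐ z ∂lam, V z = 0 := by
  have hn := ec2_bmm hπ hV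
  have hE := ec2_equiv lam muK hπ ζ V hVS
  have h0 : ∀ i j, ∀ᵐ y ∂(lam.prod muK), ((π y.2)ᴴ * V y.1 * π y.2) i j = 0 := by
    intro i j
    by_contra hne
    refine hζ (isEigenvalue_of_eigen hB.erg (fun y => ((π y.2)ᴴ * V y.1 * π y.2) i j)
      (hn i j).1 ζ hζ1 ?_ hne)
    filter_upwards [hE] with y hy
    have h1 := congrFun (congrFun hy i) j
    rw [Matrix.smul_apply, smul_eq_mul] at h1
    exact h1
  have h1 : ∀ᵐ y ∂(lam.prod muK), V y.1 = 0 := by
    have h2 : ∀ᵐ y ∂(lam.prod muK), ∀ i j, ((π y.2)ᴴ * V y.1 * π y.2) i j = 0 := by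
      rw [ae_all_iff]
      intro i
      rw [ae_all_iff]
      exact h0 i
    filter_upwards [h2] with y hy
    have h3 : (π y.2)ᴴ * V y.1 * π y.2 = 0 := by
      ext i j
      exact hy i j
    rw [ec2_back hπ (V y.1) y.2, h3, Matrix.mul_zero, Matrix.zero_mul]
  have h4 := Measure.ae_ae_of_ae_prod h1
  filter_upwards [h4] with z hz
  exact hz.exists.choose_spec

/-- Proof. As before the entries of `n(z, k) = π(k)ᴴ V(z) π(k)` are invariant, so constant a.e.
(`const_of_invariant`): `V(z) = π(k) n π(k)ᴴ` for almost every `(z, k)`; integrate over `k`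
(`schur_same`): `V z = (trace n / d) • 1` for a.e. `z`. -/
theorem equiv_scalar (lam : Measure Z) [IsProbabilityMeasure lam]
    (muK : Measure K) [muK.IsHaarMeasure] [IsProbabilityMeasure muK] {α : Z} {φ : Z → K}
    (hB : Base0 lam muK α φ) {d : ℕ} {π : K → Matrix (Fin d) (Fin d) ℂ} (hπ : Irr π)
    (V : Z → Matrix (Fin d) (Fin d) ℂ) (hV : BMM V)
    (hVS : ∀ᵐ z ∂lam, V (α * z) = π (φ z) * V z * (π (φ z))ᴴ) :
    ∃ c : ℂ, ∀ᵐ z ∂lam, V z = c • 1 := by
  have hn := ec2_bmm hπ.toRep hV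
  have hVS' : ∀ᵐ z ∂lam, V (α * z) = (1 : ℂ) • (π (φ z) * V z * (π (φ z))ᴴ) := by
    filter_upwards [hVS] with z hz
    rw [one_smul, hz]
  have hE := ec2_equiv lam muK hπ.toRep 1 V hVS'
  have h0 : ∀ i j, ∃ c : ℂ, ∀ᵐ y ∂(lam.prod muK), ((π y.2)ᴴ * V y.1 * π y.2) i j = c := by
    intro i j
    refine const_of_invariant hB.erg (fun y => ((π y.2)ᴴ * V y.1 * π y.2) i j)
      (hn i j).1 ?_
    filter_upwards [hE] with y hy
    have h1 := congrFun (congrFun hy i) j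
    rw [Matrix.smul_apply, smul_eq_mul, one_mul] at h1
    exact h1
  choose n hnc using h0
  have h1 : ∀ᵐ y ∂(lam.prod muK), V y.1 = π y.2 * (Matrix.of n) * (π y.2)ᴴ := by
    have h2 : ∀ᵐ y ∂(lam.prod muK), ∀ i j, ((π y.2)ᴴ * V y.1 * π y.2) i j = n i j := by
      rw [ae_all_iff]
      intro i
      rw [ae_all_iff]
      exact hnc i
    filter_upwards [h2] with y hy
    have h3 : (π y.2)ᴴ * V y.1 * π y.2 = Matrix.of n := by
      ext i j
      exact hy i j
    rw [← h3]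
    exact ec2_back hπ.toRep (V y.1) y.2
  refine ⟨(Matrix.of n).trace / d, ?_⟩
  have h4 := Measure.ae_ae_of_ae_prod h1
  filter_upwards [h4] with z hz
  ext i j
  have h5 : V z i j = ∫ k, (π k * (Matrix.of n) * (π k)ᴴ) i j ∂muK := by
    have h6 : ∀ᵐ k ∂muK, (π k * (Matrix.of n) * (π k)ᴴ) i j = V z i j := by
      filter_upwards [hz] with k hk
      have h7 : V z = π k * (Matrix.of n) * (π k)ᴴ := hk
      rw [← h7]
    rw [integral_congr_ae h6]
    simp
  rw [h5, schur_same muK hπ (Matrix.of n) i j, Matrix.smul_apply, smul_eq_mul, Matrix.one_apply]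
  split_ifs <;> simp

end

end Pool.Agent.Lib.H82OG
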