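import Pool.Agent.Lib.H82OF.EC1
import Pool.Agent.Lib.H82OG.EC2

/-!
# Project H82OG, chunk EC3: equivariant kernels
-/

open MeasureTheory Filter Topology Finset ProbabilityTheory
open scoped ENNReal ComplexConjugate Matrix

namespace Pool.Agent.Lib.H82OG

open Pool.Agent.Lib.H22M Pool.Agent.Lib.H82T Pool.Agent.Lib.H82OT Pool.Agent.Lib.H82OF

section

variable {Z K : Type*} [CommGroup Z] [TopologicalSpace Z] [IsTopologicalGroup Z]
  [CompactSpace Z] [T2Space Z] [SecondCountableTopology Z] [MeasurableSpace Z] [BorelSpace Z]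
  [Group K] [TopologicalSpace K] [IsTopologicalGroup K] [CompactSpace K] [T2Space K]
  [SecondCountableTopology K] [MeasurableSpace K] [BorelSpace K]

/-- Proof. `exists_fst_cond` for every `ψ`, `equiv_zero`: `V = 0` a.e., so all the integrals of
`ae_zero_of_psi` vanish for every entry. -/
theorem kernel_zero (lam : Measure Z) [lam.IsHaarMeasure] [IsProbabilityMeasure lam]
    (muK : Measure K) [IsProbabilityMeasure muK] {α : Z} {φ : Z → K}
    (hB : Base0 lam muK α φ) (μ : Measure (Z × Z)) [IsProbabilityMeasure μ]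
    (hμ1 : μ.map Prod.fst = lam)
    (hμ : MeasurePreserving (fun w : Z × Z => (α * w.1, α * w.2)) μ μ) {d : ℕ}
    {π : K → Matrix (Fin d) (Fin d) ℂ} (hπ : Rep π) (ζ : ℂ)
    (hζ1 : ‖ζ‖ = 1) (hζ : ¬ IsEigenvalue (lam.prod muK) (skew (M := K) α φ) ζ)
    (N : Z × Z → Matrix (Fin d) (Fin d) ℂ) (hN : BMM N)
    (hNS : ∀ᵐ w ∂μ, N (α * w.1, α * w.2) = ζ • (π (φ w.1) * N w * (π (φ w.1))ᴴ)) :
    ∀ᵐ w ∂μ, N w = 0 := by
  have hΦ : BMM fun z : Z => π (φ z) := hπ.bmm.comp hB.meas
  have key : ∀ i j : Fin d, ∀ᵐ w ∂μ, N w i j = 0 := by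
    intro i j
    refine ae_zero_of_psi μ (fun w => N w i j) (hN i j) fun h ψ hh => ?_
    obtain ⟨V, hV, hint, hVS⟩ := exists_fst_cond lam α μ hμ1 hμ (fun z => π (φ z)) hΦ ζ N hN
      hNS ψ
    have hV0 := equiv_zero lam muK hB hπ ζ hζ1 hζ V hV hVS
    rw [hint h i j hh]
    have h1 : (fun z => h z * V z i j) =ᵐ[lam] fun _ => 0 := by
      filter_upwards [hV0] with z hz
      rw [hz, Matrix.zero_apply, mul_zero]
    rw [integral_congr_ae h1, integral_zero]
  have h2 : ∀ᵐ w ∂μ, ∀ i j : Fin d, N w i j = 0 := by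
    rw [ae_all_iff]
    intro i
    rw [ae_all_iff]
    exact key i
  filter_upwards [h2] with w hw
  ext i j
  exact hw i j

/-- Proof. Let `N₀ w = N w - (trace (N w) / d) • 1` (`d = 0`: nothing to prove): bounded, measurable,
traceless, with the same equivariance (the trace is invariant under conjugation by the unitary `π`).
For every `ψ`: `V` from `exists_fst_cond` for `N₀` (`ζ = 1`); `V = c • 1` by `equiv_scalar`, and
`∫ h trace V dlam = ∫ h(w.1) ψ(…) trace N₀ dμ = 0` for all `h`, so `c = 0`. `ae_zero_of_psi`. -/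
theorem kernel_scalar (lam : Measure Z) [lam.IsHaarMeasure] [IsProbabilityMeasure lam]
    (muK : Measure K) [muK.IsHaarMeasure] [IsProbabilityMeasure muK] {α : Z} {φ : Z → K}
    (hB : Base0 lam muK α φ) (μ : Measure (Z × Z)) [IsProbabilityMeasure μ]
    (hμ1 : μ.map Prod.fst = lam)
    (hμ : MeasurePreserving (fun w : Z × Z => (α * w.1, α * w.2)) μ μ) {d : ℕ}
    {π : K → Matrix (Fin d) (Fin d) ℂ} (hπ : Irr π)
    (N : Z × Z → Matrix (Fin d) (Fin d) ℂ) (hN : BMM N)
    (hNS : ∀ᵐ w ∂μ, N (α * w.1, α * w.2) = π (φ w.1) * N w * (π (φ w.1))ᴴ) :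
    ∀ᵐ w ∂μ, N w = ((N w).trace / d) • 1 := by
  rcases Nat.eq_zero_or_pos d with hd | hd
  · subst hd
    exact Eventually.of_forall fun w => Subsingleton.elim _ _
  have hdC : (d : ℂ) ≠ 0 := by exact_mod_cast hd.ne'
  have hΦ : BMM fun z : Z => π (φ z) := hπ.toRep.bmm.comp hB.meas
  have htr : BM fun w => (N w).trace := by
    unfold Matrix.trace
    exact BM.sum _ fun i _ => hN i i
  let N₀ : Z × Z → Matrix (Fin d) (Fin d) ℂ := fun w => N w - ((N w).trace / d) • 1
  have hN₀ : BMM N₀ := by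
    intro i j
    have h1 : (fun w => N₀ w i j) =
        fun w => N w i j - (N w).trace * ((d : ℂ)⁻¹ * (1 : Matrix (Fin d) (Fin d) ℂ) i j) := by
      funext w
      simp only [N₀, Matrix.sub_apply, Matrix.smul_apply, smul_eq_mul]
      ring
    rw [h1]
    exact (hN i j).sub (htr.mul (BM.const _))
  have hN₀S : ∀ᵐ w ∂μ, N₀ (α * w.1, α * w.2) =
      (1 : ℂ) • (π (φ w.1) * N₀ w * (π (φ w.1))ᴴ) := by
    filter_upwards [hNS] with w hw
    have h1 : (N (α * w.1, α * w.2)).trace = (N w).trace := by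
      rw [hw, Matrix.trace_mul_comm, ← Matrix.mul_assoc, hπ.toRep.unit', Matrix.one_mul]
    have h2 : π (φ w.1) * (((N w).trace / d) • (1 : Matrix (Fin d) (Fin d) ℂ)) *
        (π (φ w.1))ᴴ = ((N w).trace / d) • 1 := by
      rw [Matrix.mul_smul, Matrix.mul_one, Matrix.smul_mul, hπ.toRep.unit]
    simp only [N₀]
    rw [h1, hw, one_smul, Matrix.mul_sub, Matrix.sub_mul, h2]
  have htr0 : ∀ w, ∑ i, N₀ w i i = 0 := by
    intro w
    have h1 : ∑ i, N₀ w i i = (N₀ w).trace := rfl
    rw [h1]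
    simp only [N₀, Matrix.trace_sub, Matrix.trace_smul, Matrix.trace_one, Fintype.card_fin,
      smul_eq_mul]
    rw [div_mul_cancel₀ _ hdC, sub_self]
  have key : ∀ i j : Fin d, ∀ᵐ w ∂μ, N₀ w i j = 0 := by
    intro i j
    refine ae_zero_of_psi μ (fun w => N₀ w i j) (hN₀ i j) fun h ψ hh => ?_
    obtain ⟨V, hV, hint, hVS⟩ := exists_fst_cond lam α μ hμ1 hμ (fun z => π (φ z)) hΦ 1 N₀ hN₀
      hN₀S ψ
    have hVS' : ∀ᵐ z ∂lam, V (α * z) = π (φ z) * V z * (π (φ z))ᴴ := by
      filter_upwards [hVS] with z hz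
      rw [hz, one_smul]
    obtain ⟨c, hc⟩ := equiv_scalar lam muK hB hπ V hV hVS'
    have hψ : BM fun w : Z × Z => ((ψ (w.2 * w.1⁻¹) : Circle) : ℂ) := by
      refine ⟨?_, 1, fun w => (Circle.norm_coe _).le⟩
      have hcont : Continuous fun w : Z × Z => ((ψ (w.2 * w.1⁻¹) : Circle) : ℂ) :=
        continuous_subtype_val.comp ((map_continuous ψ).comp
          (continuous_snd.mul continuous_fst.inv))
      exact hcont.measurable
    have hc0 : c = 0 := by
      have h1 : ∑ i : Fin d, ∫ w, (fun _ : Z => (1 : ℂ)) w.1 *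
          (((ψ (w.2 * w.1⁻¹) : Circle) : ℂ) * N₀ w i i) ∂μ = 0 := by
        rw [← integral_finsetSum]
        · have h2 : (fun w : Z × Z => ∑ i : Fin d, (fun _ : Z => (1 : ℂ)) w.1 *
              (((ψ (w.2 * w.1⁻¹) : Circle) : ℂ) * N₀ w i i)) = fun _ => 0 := by
            funext w
            simp only [one_mul]
            rw [← Finset.mul_sum, htr0, mul_zero]
          rw [h2, integral_zero]
        · intro i _
          exact ((BM.const (Y := Z × Z) 1).mul (hψ.mul (hN₀ i i))).integrable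
      have h3 : ∀ i : Fin d, ∫ w, (fun _ : Z => (1 : ℂ)) w.1 *
          (((ψ (w.2 * w.1⁻¹) : Circle) : ℂ) * N₀ w i i) ∂μ = c := by
        intro i
        rw [hint (fun _ : Z => (1 : ℂ)) i i (BM.const 1)]
        have h4 : (fun z => (fun _ : Z => (1 : ℂ)) z * V z i i) =ᵐ[lam] fun _ => c := by
          filter_upwards [hc] with z hz
          rw [hz, Matrix.smul_apply, Matrix.one_apply_eq]
          simp
        rw [integral_congr_ae h4, integral_const]
        simp
      rw [Finset.sum_congr rfl fun i _ => h3 i, Finset.sum_const, Finset.card_univ,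
        Fintype.card_fin, nsmul_eq_mul] at h1
      exact (mul_eq_zero.mp h1).resolve_left hdC
    rw [hint h i j hh]
    have h1 : (fun z => h z * V z i j) =ᵐ[lam] fun _ => 0 := by
      filter_upwards [hc] with z hz
      rw [hz, hc0, zero_smul, Matrix.zero_apply, mul_zero]
    rw [integral_congr_ae h1, integral_zero]
  have h2 : ∀ᵐ w ∂μ, ∀ i j : Fin d, N₀ w i j = 0 := by
    rw [ae_all_iff]
    intro i
    rw [ae_all_iff]
    exact key i
  filter_upwards [h2] with w hw
  have h3 : N₀ w = 0 := by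
    ext i j
    exact hw i j
  exact sub_eq_zero.mp h3

end

end Pool.Agent.Lib.H82OG
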