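import Pool.Agent.Lib.H82OG.Defs

/-!
# Project H82OG, chunk ER: ergodicity of the iterates
-/

open MeasureTheory Filter Topology Finset ProbabilityTheory
open scoped ENNReal ComplexConjugate Matrix

namespace Pool.Agent.Lib.H82OG

open Pool.Agent.Lib.H22M Pool.Agent.Lib.H82T Pool.Agent.Lib.H82OT Pool.Agent.Lib.H82OF

/-- The proof of `ergodic_iterate` (`H22M/TE.lean`) with the hypothesis for one `n`. -/
theorem ergodic_iterate_one {Y : Type*} [MeasurableSpace Y] {m : Measure Y} {R : Y → Y}
    [IsProbabilityMeasure m] (hR : Ergodic R m) (n : ℕ) (hn : 1 ≤ n)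
    (hroot : ∀ c : ℂ, IsEigenvalue m R c → c ^ n = 1 → c = 1) : Ergodic (R^[n]) m := by
  refine ⟨hR.toMeasurePreserving.iterate n, ⟨fun s hs hinv => ?_⟩⟩
  have hRm : Measurable R := hR.measurable
  set f : Y → ℂ := s.indicator (fun _ => 1) with hf
  have hfm : Measurable f := measurable_const.indicator hs
  have hfinv : ∀ y, f (R^[n] y) = f y := by
    intro y
    have hy : R^[n] y ∈ s ↔ y ∈ s := by
      conv_rhs => rw [← hinv]
      rfl
    by_cases h1 : y ∈ s
    · simp [hf, h1, hy.mpr h1]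
    · have h2 : R^[n] y ∉ s := fun h2 => h1 (hy.mp h2)
      rw [hf, Set.indicator_of_notMem h1, Set.indicator_of_notMem h2]
  have hζ := Complex.isPrimitiveRoot_exp n (by omega)
  set ζ : ℂ := Complex.exp (2 * Real.pi * Complex.I / n) with hζdef
  have hζ0 : ζ ≠ 0 := hζ.ne_zero (by omega)
  have hζn : ‖ζ‖ = 1 := Complex.norm_eq_one_of_pow_eq_one hζ.pow_eq_one (by omega)
  set F : ℕ → Y → ℂ := fun j y => ∑ i ∈ range n, ((ζ ^ j)⁻¹) ^ i * f (R^[i] y) with hF
  have hFm : ∀ j, Measurable (F j) := by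
    intro j
    apply Finset.measurable_sum
    intro i _
    exact (hfm.comp (hRm.iterate i)).const_mul _
  have hFR : ∀ j y, F j (R y) = ζ ^ j * F j y := by
    intro j y
    have hw0 : ζ ^ j ≠ 0 := pow_ne_zero _ hζ0
    set g : ℕ → ℂ := fun i => ((ζ ^ j)⁻¹) ^ i * f (R^[i] y) with hg
    have hgn : g n = g 0 := by
      simp only [hg, pow_zero, Function.iterate_zero, id, hfinv]
      rw [inv_pow, ← pow_mul, Nat.mul_comm, pow_mul, hζ.pow_eq_one, one_pow, inv_one]
    have h1 : F j (R y) = ζ ^ j * ∑ i ∈ range n, g (i + 1) := by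
      simp only [hF, hg]
      rw [Finset.mul_sum]
      apply Finset.sum_congr rfl
      intro i _
      rw [Function.iterate_succ_apply, pow_succ]
      field_simp
    have h2 : ∑ i ∈ range n, g (i + 1) = ∑ i ∈ range n, g i := by
      have h3 := Finset.sum_range_succ g n
      have h4 := Finset.sum_range_succ' g n
      rw [h3, hgn] at h4
      exact (add_right_cancel h4).symm
    rw [h1, h2]
  have hzero : ∀ j, 0 < j → j < n → ∀ᵐ y ∂m, F j y = 0 := by
    intro j hj0 hjn
    by_contra hne
    have hE := isEigenvalue_of_eigen hR (F j) (hFm j) (ζ ^ j) (by rw [norm_pow, hζn, one_pow])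
      (Eventually.of_forall (hFR j)) hne
    have h1 := hroot _ hE (by rw [← pow_mul, Nat.mul_comm, pow_mul, hζ.pow_eq_one, one_pow])
    exact hζ.pow_ne_one_of_pos_of_lt (by omega) hjn h1
  have hsum : ∀ y, ∑ j ∈ range n, F j y = n * f y := by
    intro y
    simp only [hF]
    rw [Finset.sum_comm]
    have h1 : ∀ i ∈ range n, ∑ j ∈ range n, ((ζ ^ j)⁻¹) ^ i * f (R^[i] y)
        = if i = 0 then (n : ℂ) * f y else 0 := by
      intro i hi
      rw [← Finset.sum_mul]
      by_cases hi0 : i = 0
      · subst hi0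
        simp
      · rw [if_neg hi0]
        have hx : ζ⁻¹ ^ i ≠ 1 := by
          intro h2
          rw [inv_pow, inv_eq_one] at h2
          exact hζ.pow_ne_one_of_pos_of_lt hi0 (Finset.mem_range.mp hi) h2
        have h3 : ∑ j ∈ range n, ((ζ ^ j)⁻¹) ^ i = ∑ j ∈ range n, (ζ⁻¹ ^ i) ^ j := by
          apply Finset.sum_congr rfl
          intro j _
          rw [← inv_pow, ← pow_mul, ← pow_mul, Nat.mul_comm]
        rw [h3, geom_sum_eq hx, ← pow_mul, Nat.mul_comm, pow_mul, inv_pow, hζ.pow_eq_one]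
        simp
    rw [Finset.sum_congr rfl h1, Finset.sum_ite_eq' (range n) 0]
    simp [show 0 < n by omega]
  obtain ⟨c, hc⟩ := const_of_invariant hR (F 0) (hFm 0)
    (Eventually.of_forall fun y => by rw [hFR 0 y, pow_zero, one_mul])
  have hall : ∀ᵐ y ∂m, ∀ j ∈ range n, 0 < j → F j y = 0 := by
    refine (ae_ball_iff (S := ((range n : Finset ℕ) : Set ℕ)) (Finset.countable_toSet _)
      (p := fun y j _ => 0 < j → F j y = 0)).mpr ?_
    intro j hj
    rw [Finset.mem_coe] at hj
    by_cases hj0 : 0 < j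
    · filter_upwards [hzero j hj0 (Finset.mem_range.mp hj)] with y hy _
      exact hy
    · exact Eventually.of_forall fun y h => absurd h hj0
  have hn0 : (n : ℂ) ≠ 0 := by exact_mod_cast (by omega : n ≠ 0)
  have hval : ∀ᵐ y ∂m, f y = c / n := by
    filter_upwards [hc, hall] with y hy hy2
    have h1 := hsum y
    rw [Finset.sum_eq_single_of_mem 0 (Finset.mem_range.mpr (by omega))
      (fun j hj hj0 => hy2 j hj (Nat.pos_of_ne_zero hj0)), hy] at h1
    rw [h1]
    field_simp
  rw [Filter.eventuallyConst_set]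
  by_cases hc1 : c / n = 1
  · left
    filter_upwards [hval] with y hy
    by_contra hys
    rw [hc1] at hy
    simp [hf, hys] at hy
  · right
    filter_upwards [hval] with y hy hys
    apply hc1
    rw [← hy]
    simp [hf, hys]

/-- The converse. -/
theorem eq_one_of_ergodic_iterate {Y : Type*} [MeasurableSpace Y] {m : Measure Y} {R : Y → Y}
    [IsProbabilityMeasure m] (hR : MeasurePreserving R m m) (n : ℕ) (h : Ergodic (R^[n]) m)
    (c : ℂ) (hc : IsEigenvalue m R c) (hcn : c ^ n = 1) : c = 1 := by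
  obtain ⟨f, hf, hf1, hfR⟩ := hc
  have hit : ∀ k : ℕ, ∀ᵐ y ∂m, f (R^[k] y) = c ^ k * f y := by
    intro k
    induction k with
    | zero => exact Eventually.of_forall fun y => by simp
    | succ k ih =>
      filter_upwards [hR.quasiMeasurePreserving.ae ih, hfR] with y h1 h2
      rw [Function.iterate_succ_apply, h1, h2, pow_succ]
      ring
  have hinv : ∀ᵐ y ∂m, f (R^[n] y) = f y := by
    filter_upwards [hit n] with y hy
    rw [hy, hcn, one_mul]
  obtain ⟨a, ha⟩ := const_of_invariant h f hf hinv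
  have h3 : ∀ᵐ y ∂m, c = 1 := by
    filter_upwards [ha, hR.quasiMeasurePreserving.ae ha, hf1, hfR] with y e1 e2 e3 e4
    rw [e2, e1] at e4
    rw [e1] at e3
    have ha0 : a ≠ 0 := by
      intro h0
      rw [h0, norm_zero] at e3
      exact zero_ne_one e3
    have : (c - 1) * a = 0 := by linear_combination -e4
    rcases mul_eq_zero.1 this with h | h
    · exact sub_eq_zero.1 h
    · exact absurd h ha0
  exact h3.exists.choose_spec

/-- If all eigenvalues which are roots of unity have order dividing `N` and `n` is a prime not dividing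
`N`, then `R^[n]` is ergodic. -/
theorem Tors.ergodic {Y : Type*} [MeasurableSpace Y] {m : Measure Y} {R : Y → Y}
    [IsProbabilityMeasure m] (hR : Ergodic R m) {N : ℕ} (hN : Tors m R N) (p : ℕ)
    (hp : p.Prime) (hpN : ¬ p ∣ N) : Ergodic (R^[p]) m := by
  refine ergodic_iterate_one hR p hp.one_le fun c hc h => ?_
  have h1 := hN.2 c hc p hp.one_le h
  have h2 : orderOf c ∣ p := orderOf_dvd_of_pow_eq_one h
  have h3 : orderOf c ∣ N := orderOf_dvd_of_pow_eq_one h1
  have h4 : orderOf c ∣ 1 := by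
    have h5 := Nat.dvd_gcd h2 h3
    have h6 : Nat.gcd p N = 1 := (Nat.Prime.coprime_iff_not_dvd hp).2 hpN
    rwa [h6] at h5
  exact orderOf_eq_one_iff.mp (Nat.dvd_one.mp h4)

end Pool.Agent.Lib.H82OG
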