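import Pool.Agent.Lib.H82OG.Defs
import Pool.Agent.Lib.H82OF.Defs
import Pool.Agent.Lib.H22M.SZ

/-!
# Project H82OG, chunk ET2: the p-th power of the difference is trivial
-/

open MeasureTheory Filter Topology Finset ProbabilityTheory
open scoped ENNReal ComplexConjugate Matrix

namespace Pool.Agent.Lib.H82OG

open Pool.Agent.Lib.H22M Pool.Agent.Lib.H82T Pool.Agent.Lib.H82OT Pool.Agent.Lib.H82OF

private theorem et2_pow {Z : Type*} [CommGroup Z] [TopologicalSpace Z] (χ : PontryaginDual Z)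
    (p : ℕ) (z : Z) : (χ ^ p : PontryaginDual Z) z = χ z ^ p := by
  induction p with
  | zero =>
    rw [pow_zero, pow_zero]
    rfl
  | succ n ih =>
    rw [pow_succ, pow_succ, ← ih]
    rfl

section

variable {Z K : Type*} [CommGroup Z] [TopologicalSpace Z] [IsTopologicalGroup Z]
  [CompactSpace Z] [T2Space Z] [SecondCountableTopology Z] [MeasurableSpace Z] [BorelSpace Z]
  [Group K] [TopologicalSpace K] [IsTopologicalGroup K] [CompactSpace K] [T2Space K]
  [SecondCountableTopology K] [MeasurableSpace K] [BorelSpace K]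

/-- Proof. For every character `χ` the integral of `χ((w.2 w.1⁻¹)^p) = (χ^(-p))(w.1) (χ^p)(w.2)` is `1` by
`sigmaZ_integral` (`χ^p(α) = χ(α)^p` is the `p`-th power of the eigenvalue `χ(α)`), so
`χ((w.2 w.1⁻¹)^p) = 1` a.e. (a function of modulus `1` with integral `1`). The characters are countably
many (second countable `Z`; or use a countable separating family) and separate the points
(`Pool.Agent.Lib.CompactAbelian`); alternatively: the law of `(w.2 w.1⁻¹)^p` has all Fourier coefficients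
`1`, so it is the point mass at `1` (uniqueness of Fourier coefficients for measures on `Z`). -/
theorem pow_eq_one_ae (lam : Measure Z) [lam.IsHaarMeasure] [IsProbabilityMeasure lam]
    (muK : Measure K) [muK.IsHaarMeasure] [IsProbabilityMeasure muK] {α : Z} {φ : Z → K}
    (hB : Base0 lam muK α φ) (p q : ℕ) (ρ σ : Measure ((Z × K) × (Z × K)))
    (hσ : RelSq (lam.prod muK) (skew α φ) p q ρ σ) :
    ∀ᵐ w ∂(prZ σ), (w.2 * w.1⁻¹) ^ p = 1 := by
  classical
  have hprob := hσ.prob
  have hproj : Measurable (Prod.map (Prod.fst : Z × K → Z) (Prod.fst : Z × K → Z)) :=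
    measurable_fst.prodMap measurable_fst
  have hprobZ : IsProbabilityMeasure (prZ σ) := Measure.isProbabilityMeasure_map hproj.aemeasurable
  have hg : Measurable fun w : Z × Z => (w.2 * w.1⁻¹) ^ p := by fun_prop
  have hprobg : IsProbabilityMeasure ((prZ σ).map fun w : Z × Z => (w.2 * w.1⁻¹) ^ p) :=
    Measure.isProbabilityMeasure_map hg.aemeasurable
  have hν : (prZ σ).map (fun w : Z × Z => (w.2 * w.1⁻¹) ^ p) = Measure.dirac (1 : Z) := by
    refine measure_ext_char _ _ fun χ => ?_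
    have h1 : ∫ w, ((χ w : Circle) : ℂ) ∂(Measure.dirac (1 : Z)) = 1 := by
      rw [integral_dirac, map_one, Circle.coe_one]
    rw [h1, integral_map hg.aemeasurable (sz_meas_char χ).aestronglyMeasurable]
    have h2 : ∀ w : Z × Z, ((χ ((w.2 * w.1⁻¹) ^ p) : Circle) : ℂ) =
        ((((χ ^ p)⁻¹ : PontryaginDual Z) w.1 : Circle) : ℂ) *
          (((χ ^ p : PontryaginDual Z) w.2 : Circle) : ℂ) := by
      intro w
      have e0 : ((χ ^ p)⁻¹ : PontryaginDual Z) w.1 = ((χ ^ p : PontryaginDual Z) w.1)⁻¹ := rfl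
      have e1 : (χ ^ p : PontryaginDual Z) w.1 = χ w.1 ^ p := et2_pow χ p w.1
      have e2 : (χ ^ p : PontryaginDual Z) w.2 = χ w.2 ^ p := et2_pow χ p w.2
      rw [e0, e1, e2, ← Circle.coe_mul, map_pow, map_mul, map_inv, mul_pow, inv_pow, mul_comm]
    simp_rw [h2]
    have h3 := sigmaZ_integral lam muK α φ p q ρ σ hσ ((χ ^ p)⁻¹) (χ ^ p)
    unfold prZ
    rw [h3, if_pos]
    refine ⟨inv_mul_cancel _, ((χ α)⁻¹ : Circle), ?_, ?_⟩
    · refine ⟨fun y => (((χ⁻¹ : PontryaginDual Z) y.1 : Circle) : ℂ),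
        (sz_bm_char (M := K) χ⁻¹).1, Eventually.of_forall fun y => Circle.norm_coe _,
        Eventually.of_forall fun y => ?_⟩
      have e1 : (χ⁻¹ : PontryaginDual Z) (skew α φ y).1 = (χ (α * y.1))⁻¹ := rfl
      have e2 : (χ⁻¹ : PontryaginDual Z) y.1 = (χ y.1)⁻¹ := rfl
      show (((χ⁻¹ : PontryaginDual Z) (skew α φ y).1 : Circle) : ℂ) =
        (((χ α)⁻¹ : Circle) : ℂ) * (((χ⁻¹ : PontryaginDual Z) y.1 : Circle) : ℂ)
      rw [e1, e2, ← Circle.coe_mul, map_mul, mul_inv]
    · have e0 : ((χ ^ p)⁻¹ : PontryaginDual Z) α = ((χ ^ p : PontryaginDual Z) α)⁻¹ := rfl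
      have e1 : (χ ^ p : PontryaginDual Z) α = χ α ^ p := et2_pow χ p α
      rw [e0, e1, ← Circle.coe_pow, inv_pow]
  have h4 : ∀ᵐ z ∂((prZ σ).map fun w : Z × Z => (w.2 * w.1⁻¹) ^ p), z = 1 := by
    rw [hν, ae_dirac_eq]
    exact Filter.eventually_pure.2 rfl
  exact ae_of_ae_map hg.aemeasurable h4

end

end Pool.Agent.Lib.H82OG
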