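import Pool.Agent.Lib.H82OG.EC3
import Pool.Agent.Lib.H82OG.ET
import Pool.Agent.Lib.H82OG.ER

/-!
# Project H82OG, chunk EX: the components for the nontrivial roots of unity vanish
-/

open MeasureTheory Filter Topology Finset ProbabilityTheory
open scoped ENNReal ComplexConjugate Matrix

namespace Pool.Agent.Lib.H82OG

open Pool.Agent.Lib.H22M Pool.Agent.Lib.H82T Pool.Agent.Lib.H82OT Pool.Agent.Lib.H82OF

section

variable {Z K : Type*} [CommGroup Z] [TopologicalSpace Z] [IsTopologicalGroup Z]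
  [CompactSpace Z] [T2Space Z] [SecondCountableTopology Z] [MeasurableSpace Z] [BorelSpace Z]
  [Group K] [TopologicalSpace K] [IsTopologicalGroup K] [CompactSpace K] [T2Space K]
  [SecondCountableTopology K] [MeasurableSpace K] [BorelSpace K]

/-- Proof. Write `Φ z = π(φ z)`; `tw (α * ·) Φ X = κ X` means
`X(α z, α z') = κ Φ(z) X(z, z') Φ(z')ᴴ` a.e. (`Φ` unitary).
(1) `N = X Xᴴ` satisfies `N(α z, α z') = Φ(z) N Φ(z)ᴴ` a.e. (`‖κ‖ = 1`), so `N = s • 1` a.e. with
`s w = trace (N w) / d` (`kernel_scalar`; `prZ σ` is invariant and has first marginal `lam`: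
`sigmaZ_invariant`, `sigmaZ_marginals` in `H22M/SZ.lean`), `s` invariant, so `s(th i w) = s w` a.e.
(`inv_th`).
(2) `V_j w = X(th 0 w) X(th 1 w) ⋯ X(th (j-1) w)` (ordered product). The relation for `X` holds at
`th i w` for a.e. `w` (`th_preserves`; `th i (α w.1, α w.2) = (α z c^i, α z c^(i+1))`), the second
coordinate of `th i w` is the first coordinate of `th (i+1) w`, so
`V_j(α z, α z') = κ^j Φ(z) V_j(w) Φ(z c^j)ᴴ` a.e. For `j = p`: `c^p = 1` a.e. (`pow_eq_one_ae`), so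
`V_p(α z, α z') = κ^p Φ(z) V_p Φ(z)ᴴ`; `(κ^p)^q = 1`, `κ^p ≠ 1` (`p, q` different primes, `κ^q = 1 ≠ κ`),
so `κ^p` is not an eigenvalue (`Base.root`) and `V_p = 0` a.e. (`kernel_zero`).
(3) `V_j V_jᴴ = s^j • 1` a.e. by induction (`V_(j+1) V_(j+1)ᴴ = V_j (X Xᴴ)(th j w) V_jᴴ`). So `s^p = 0`,
`s = 0`, `X Xᴴ = 0`, `X = 0` a.e. (`d = 0`: trivial.) -/
theorem component_zero (lam : Measure Z) [lam.IsHaarMeasure] [IsProbabilityMeasure lam]
    (muK : Measure K) [muK.IsHaarMeasure] [IsProbabilityMeasure muK] {α : Z} {φ : Z → K}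
    (hB : Base0 lam muK α φ) (p q : ℕ) (hp : p.Prime) (hq : q.Prime) (hpq : q ≠ p)
    (hTq : Ergodic ((skew (M := K) α φ)^[q]) (lam.prod muK))
    (ρ σ : Measure ((Z × K) × (Z × K)))
    (hσ : RelSq (lam.prod muK) (skew α φ) p q ρ σ) {d : ℕ}
    {π : K → Matrix (Fin d) (Fin d) ℂ} (hπ : Irr π) (κ : ℂ) (hκ : κ ^ q = 1) (hκ1 : κ ≠ 1)
    (X : Z × Z → Matrix (Fin d) (Fin d) ℂ) (hX : BMM X)
    (hXS : ∀ᵐ w ∂(prZ σ), tw (fun z => α * z) (fun z => π (φ z)) X w = κ • X w) :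
    ∀ᵐ w ∂(prZ σ), X w = 0 := by
  rcases Nat.eq_zero_or_pos d with hd | hd
  · subst hd
    exact Eventually.of_forall fun w => Subsingleton.elim _ _
  have hdC : (d : ℂ) ≠ 0 := by exact_mod_cast hd.ne'
  have hpσ : IsProbabilityMeasure σ := hσ.prob
  have hpμ : IsProbabilityMeasure (prZ σ) :=
    Measure.isProbabilityMeasure_map (measurable_fst.prodMap measurable_fst).aemeasurable
  have hμS : MeasurePreserving (fun w : Z × Z => (α * w.1, α * w.2)) (prZ σ) (prZ σ) :=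
    sigmaZ_invariant lam muK α φ p q ρ σ hσ
  have hμ1 : (prZ σ).map Prod.fst = lam := (sigmaZ_marginals lam muK α φ p q ρ σ hσ).1
  have hκn : ‖κ‖ = 1 := by
    have h1 : ‖κ‖ ^ q = 1 := by rw [← norm_pow, hκ, norm_one]
    exact (pow_eq_one_iff_of_nonneg (norm_nonneg _) hq.ne_zero).mp h1
  have hκκ : κ * conj κ = 1 := by
    rw [Complex.mul_conj, Complex.normSq_eq_norm_sq, hκn]
    norm_num
  have hu := hπ.toRep.unit
  have hu' := hπ.toRep.unit'
  -- the equivariance of X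
  have hXE : ∀ᵐ w ∂(prZ σ), X (α * w.1, α * w.2) =
      κ • (π (φ w.1) * X w * (π (φ w.2))ᴴ) := by
    filter_upwards [hXS] with w hw
    have h1 : (π (φ w.1))ᴴ * X (α * w.1, α * w.2) * π (φ w.2) = κ • X w := hw
    calc X (α * w.1, α * w.2)
        = (π (φ w.1) * (π (φ w.1))ᴴ) * X (α * w.1, α * w.2) *
            (π (φ w.2) * (π (φ w.2))ᴴ) := by rw [hu, hu, Matrix.one_mul, Matrix.mul_one]
      _ = π (φ w.1) * ((π (φ w.1))ᴴ * X (α * w.1, α * w.2) * π (φ w.2)) *
            (π (φ w.2))ᴴ := by simp only [Matrix.mul_assoc]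
      _ = κ • (π (φ w.1) * X w * (π (φ w.2))ᴴ) := by
          rw [h1, Matrix.mul_smul, Matrix.smul_mul]
  -- step (1)
  have hN : BMM fun w => X w * (X w)ᴴ := hX.mul hX.conj
  have hNE : ∀ᵐ w ∂(prZ σ), (fun w => X w * (X w)ᴴ) (α * w.1, α * w.2) =
      π (φ w.1) * (fun w => X w * (X w)ᴴ) w * (π (φ w.1))ᴴ := by
    filter_upwards [hXE] with w hw
    show X (α * w.1, α * w.2) * (X (α * w.1, α * w.2))ᴴ =
      π (φ w.1) * (X w * (X w)ᴴ) * (π (φ w.1))ᴴ
    rw [hw, Matrix.conjTranspose_smul, Matrix.conjTranspose_mul, Matrix.conjTranspose_mul,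
      Matrix.conjTranspose_conjTranspose, Matrix.smul_mul, Matrix.mul_smul, smul_smul]
    have h2 : κ * star κ = 1 := hκκ
    rw [h2, one_smul]
    calc π (φ w.1) * X w * (π (φ w.2))ᴴ * (π (φ w.2) * ((X w)ᴴ * (π (φ w.1))ᴴ))
        = π (φ w.1) * X w * ((π (φ w.2))ᴴ * π (φ w.2)) * ((X w)ᴴ * (π (φ w.1))ᴴ) := by
          simp only [Matrix.mul_assoc]
      _ = π (φ w.1) * (X w * (X w)ᴴ) * (π (φ w.1))ᴴ := by
          rw [hu', Matrix.mul_one]
          simp only [Matrix.mul_assoc]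
  have hNs := kernel_scalar lam muK hB (prZ σ) hμ1 hμS hπ _ hN hNE
  have hsBM : BM fun w => (X w * (X w)ᴴ).trace / d := by
    have h1 : BM fun w => (X w * (X w)ᴴ).trace := by
      unfold Matrix.trace
      exact BM.sum _ fun i _ => hN i i
    have h2 := h1.mul (BM.const (Y := Z × Z) ((d : ℂ)⁻¹))
    simpa only [div_eq_mul_inv] using h2
  have hsInv : ∀ᵐ w ∂(prZ σ), (fun w => (X w * (X w)ᴴ).trace / (d : ℂ)) (α * w.1, α * w.2) =
      (fun w => (X w * (X w)ᴴ).trace / (d : ℂ)) w := by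
    filter_upwards [hNE] with w hw
    have h1 : X (α * w.1, α * w.2) * (X (α * w.1, α * w.2))ᴴ =
      π (φ w.1) * (X w * (X w)ᴴ) * (π (φ w.1))ᴴ := hw
    show (X (α * w.1, α * w.2) * (X (α * w.1, α * w.2))ᴴ).trace / (d : ℂ) =
      (X w * (X w)ᴴ).trace / (d : ℂ)
    rw [h1, Matrix.trace_mul_comm, ← Matrix.mul_assoc, hu', Matrix.one_mul]
  have hsth : ∀ i, ∀ᵐ w ∂(prZ σ), (X (th i w) * (X (th i w))ᴴ).trace / (d : ℂ) =
      (X w * (X w)ᴴ).trace / (d : ℂ) := fun i =>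
    inv_th lam muK hB p q ρ σ hσ _ hsBM hsInv i
  have hth : ∀ i, MeasurePreserving (th (Z := Z) i) (prZ σ) (prZ σ) := fun i =>
    th_preserves lam muK hB p q ρ σ hσ i
  have hNth : ∀ i, ∀ᵐ w ∂(prZ σ), X (th i w) * (X (th i w))ᴴ =
      ((X w * (X w)ᴴ).trace / (d : ℂ)) • 1 := by
    intro i
    filter_upwards [(hth i).quasiMeasurePreserving.ae hNs, hsth i] with w h1 h2
    rw [← h2]
    exact h1
  -- step (2)
  have hthS : ∀ (i : ℕ) (w : Z × Z), th i (α * w.1, α * w.2) =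
      (α * (th i w).1, α * (th i w).2) := by
    intro i w
    have hc : α * w.2 * (α * w.1)⁻¹ = w.2 * w.1⁻¹ := by
      rw [mul_inv, mul_mul_mul_comm, mul_inv_cancel, one_mul]
    simp only [th, hc, mul_assoc]
  have hXth : ∀ i, ∀ᵐ w ∂(prZ σ), X (th i (α * w.1, α * w.2)) =
      κ • (π (φ (th i w).1) * X (th i w) * (π (φ (th i w).2))ᴴ) := by
    intro i
    filter_upwards [(hth i).quasiMeasurePreserving.ae hXE] with w h1
    rw [hthS]
    exact h1
  let V : ℕ → Z × Z → Matrix (Fin d) (Fin d) ℂ := fun n =>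
    Nat.rec (fun _ => 1) (fun j F w => F w * X (th j w)) n
  have hV0 : ∀ w, V 0 w = 1 := fun w => rfl
  have hV1 : ∀ j w, V (j + 1) w = V j w * X (th j w) := fun j w => rfl
  have hVB : ∀ j, BMM (V j) := by
    intro j
    induction j with
    | zero =>
      intro a b
      exact BM.const _
    | succ j ih => exact ih.mul (hX.comp (hth j).measurable)
  have hVE : ∀ j, ∀ᵐ w ∂(prZ σ), V j (α * w.1, α * w.2) =
      κ ^ j • (π (φ w.1) * V j w * (π (φ (th j w).1))ᴴ) := by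
    intro j
    induction j with
    | zero =>
      refine Eventually.of_forall fun w => ?_
      rw [hV0, hV0, pow_zero, one_smul, Matrix.mul_one]
      have h1 : (th 0 w).1 = w.1 := by simp [th]
      rw [h1, hu]
    | succ j ih =>
      filter_upwards [ih, hXth j] with w h1 h2
      rw [hV1, hV1, h1, h2, Matrix.smul_mul, Matrix.mul_smul, smul_smul, ← pow_succ]
      congr 1
      have h3 : (th (j + 1) w).1 = (th j w).2 := rfl
      rw [h3]
      calc π (φ w.1) * V j w * (π (φ (th j w).1))ᴴ *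
            (π (φ (th j w).1) * X (th j w) * (π (φ (th j w).2))ᴴ)
          = π (φ w.1) * V j w * ((π (φ (th j w).1))ᴴ * π (φ (th j w).1)) * X (th j w) *
              (π (φ (th j w).2))ᴴ := by simp only [Matrix.mul_assoc]
        _ = π (φ w.1) * (V j w * X (th j w)) * (π (φ (th j w).2))ᴴ := by
            rw [hu', Matrix.mul_one]
            simp only [Matrix.mul_assoc]
  have hpow := pow_eq_one_ae lam muK hB p q ρ σ hσ
  have hVp : ∀ᵐ w ∂(prZ σ), V p (α * w.1, α * w.2) =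
      κ ^ p • (π (φ w.1) * V p w * (π (φ w.1))ᴴ) := by
    filter_upwards [hVE p, hpow] with w h1 h2
    have h3 : (th p w).1 = w.1 := by
      show w.1 * (w.2 * w.1⁻¹) ^ p = w.1
      rw [h2, mul_one]
    rw [h1, h3]
  have hζ1 : ‖κ ^ p‖ = 1 := by rw [norm_pow, hκn, one_pow]
  have hζ : ¬ IsEigenvalue (lam.prod muK) (skew (M := K) α φ) (κ ^ p) := by
    intro he
    have h1 : κ ^ p = 1 := eq_one_of_ergodic_iterate hB.erg.toMeasurePreserving q hTq _ he (by rw [← pow_mul, mul_comm, pow_mul, hκ,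
      one_pow])
    have h2 : orderOf κ ∣ p := orderOf_dvd_of_pow_eq_one h1
    have h3 : orderOf κ ∣ q := orderOf_dvd_of_pow_eq_one hκ
    have h4 : orderOf κ ∣ 1 := by
      have h5 := Nat.dvd_gcd h2 h3
      have h6 : Nat.gcd p q = 1 := (Nat.coprime_primes hp hq).mpr (Ne.symm hpq)
      rwa [h6] at h5
    exact hκ1 (orderOf_eq_one_iff.mp (Nat.dvd_one.mp h4))
  have hVzero := kernel_zero lam muK hB (prZ σ) hμ1 hμS hπ.toRep (κ ^ p) hζ1 hζ (V p) (hVB p) hVp
  -- step (3)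
  have hVV : ∀ j, ∀ᵐ w ∂(prZ σ), V j w * (V j w)ᴴ =
      ((X w * (X w)ᴴ).trace / (d : ℂ)) ^ j • 1 := by
    intro j
    induction j with
    | zero =>
      refine Eventually.of_forall fun w => ?_
      rw [hV0, pow_zero, one_smul, Matrix.conjTranspose_one, Matrix.mul_one]
    | succ j ih =>
      filter_upwards [ih, hNth j] with w h1 h2
      rw [hV1, Matrix.conjTranspose_mul]
      calc V j w * X (th j w) * ((X (th j w))ᴴ * (V j w)ᴴ)
          = V j w * (X (th j w) * (X (th j w))ᴴ) * (V j w)ᴴ := by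
            simp only [Matrix.mul_assoc]
        _ = ((X w * (X w)ᴴ).trace / (d : ℂ)) ^ (j + 1) • 1 := by
            rw [h2, Matrix.mul_smul, Matrix.mul_one, Matrix.smul_mul, h1, smul_smul, pow_succ']
  filter_upwards [hVV p, hVzero, hNs] with w h1 h2 h3
  have h4 : ((X w * (X w)ᴴ).trace / (d : ℂ)) ^ p = 0 := by
    rw [h2, Matrix.zero_mul] at h1
    have h5 := congrFun (congrFun h1 ⟨0, hd⟩) ⟨0, hd⟩
    simpa using h5.symm
  have h6 : (X w * (X w)ᴴ).trace / (d : ℂ) = 0 := pow_eq_zero_iff hp.ne_zero |>.mp h4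
  have h7 : X w * (X w)ᴴ = 0 := by
    have h8 : X w * (X w)ᴴ = ((X w * (X w)ᴴ).trace / (d : ℂ)) • 1 := h3
    rw [h8, h6, zero_smul]
  ext i k
  have h9 : ∑ l, X w i l * star (X w i l) = 0 := by
    have h10 := congrFun (congrFun h7 i) i
    simpa [Matrix.mul_apply, Matrix.conjTranspose_apply] using h10
  have h11 : ∑ l, ‖X w i l‖ ^ 2 = 0 := by
    have h12 : ((∑ l, ‖X w i l‖ ^ 2 : ℝ) : ℂ) = ∑ l, X w i l * star (X w i l) := by
      push_cast
      refine Finset.sum_congr rfl fun l _ => ?_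
      have h13 : X w i l * star (X w i l) = X w i l * conj (X w i l) := rfl
      rw [h13, Complex.mul_conj, Complex.normSq_eq_norm_sq]
      push_cast
      rfl
    rw [h9] at h12
    exact_mod_cast h12
  have h14 := (Finset.sum_eq_zero_iff_of_nonneg fun l _ => sq_nonneg ‖X w i l‖).mp h11 k
    (Finset.mem_univ k)
  have h15 : ‖X w i k‖ = 0 := pow_eq_zero_iff two_ne_zero |>.mp h14
  rw [norm_eq_zero.mp h15, Matrix.zero_apply]

end

end Pool.Agent.Lib.H82OG
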