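import Pool.Agent.Lib.H82OG.Defs
import Pool.Agent.Lib.H82OF.Defs
import Pool.Agent.Lib.H22M.SZ

/-!
# Project H82OG, chunk ET1: the maps th i preserve the projection of the relative square
-/

open MeasureTheory Filter Topology Finset ProbabilityTheory
open scoped ENNReal ComplexConjugate Matrix

namespace Pool.Agent.Lib.H82OG

open Pool.Agent.Lib.H22M Pool.Agent.Lib.H82T Pool.Agent.Lib.H82OT Pool.Agent.Lib.H82OF

section

variable {Z K : Type*} [CommGroup Z] [TopologicalSpace Z] [IsTopologicalGroup Z]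
  [CompactSpace Z] [T2Space Z] [SecondCountableTopology Z] [MeasurableSpace Z] [BorelSpace Z]
  [Group K] [TopologicalSpace K] [IsTopologicalGroup K] [CompactSpace K] [T2Space K]
  [SecondCountableTopology K] [MeasurableSpace K] [BorelSpace K]

omit [CompactSpace Z] [T2Space Z] [SecondCountableTopology Z] [MeasurableSpace Z] [BorelSpace Z] in
private theorem et1_pow (χ : PontryaginDual Z) (n : ℕ) (z : Z) : (χ ^ n) z = (χ z) ^ n := by
  induction n with
  | zero => rw [pow_zero, pow_zero]; rfl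
  | succ n ih =>
    rw [pow_succ, pow_succ, ← ih]
    rfl

/-- Proof. By `sigmaZ_integral` (`H22M/SZ.lean`) the Fourier coefficient of `prZ σ` at `(χ, χ')` is
`1` if `χ χ' = 1` and `χ(α)` is a `p`-th power of an eigenvalue, and `0` otherwise. The coefficient of
the image under `th i` at `(χ, χ')` is that of `prZ σ` at
`(χ χ' (χ^i χ'^(i+1))⁻¹, χ^i χ'^(i+1))` (as `χ(z c^i) χ'(z c^(i+1)) = (χ χ')(z) (χ^i χ'^(i+1))(z'/z)`);
the product of the two is `χ χ'`; if `χ χ' = 1` the second one is `χ'`, and `χ'(α)` is a `p`-th power of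
an eigenvalue iff `χ(α) = χ'(α)⁻¹` is (`IsEigenvalue.inv`). Uniqueness: `measure_ext_char_prod` (used in
`sigmaZ_unique`). -/
theorem th_preserves (lam : Measure Z) [lam.IsHaarMeasure] [IsProbabilityMeasure lam]
    (muK : Measure K) [muK.IsHaarMeasure] [IsProbabilityMeasure muK] {α : Z} {φ : Z → K}
    (hB : Base0 lam muK α φ) (p q : ℕ) (ρ σ : Measure ((Z × K) × (Z × K)))
    (hσ : RelSq (lam.prod muK) (skew α φ) p q ρ σ) (i : ℕ) :
    MeasurePreserving (th (Z := Z) i) (prZ σ) (prZ σ) := by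
  classical
  have hp := hσ.prob
  have hc : Measurable fun w : Z × Z => w.2 * w.1⁻¹ := measurable_snd.mul measurable_fst.inv
  have ht : Measurable (th (Z := Z) i) :=
    (measurable_fst.mul (hc.pow_const i)).prodMk (measurable_fst.mul (hc.pow_const (i + 1)))
  unfold prZ
  refine ⟨ht, measure_ext_char_prod _ _ fun χ χ' => ?_⟩
  have hmeas : Measurable fun w : Z × Z => ((χ w.1 : Circle) : ℂ) * ((χ' w.2 : Circle) : ℂ) :=
    ((sz_meas_char χ).comp measurable_fst).mul ((sz_meas_char χ').comp measurable_snd)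
  rw [integral_map ht.aemeasurable hmeas.aestronglyMeasurable]
  have h1 : ∀ w : Z × Z, ((χ (th i w).1 : Circle) : ℂ) * ((χ' (th i w).2 : Circle) : ℂ) =
      (((χ * χ' * (χ ^ i * χ' ^ (i + 1))⁻¹) w.1 : Circle) : ℂ) *
        (((χ ^ i * χ' ^ (i + 1)) w.2 : Circle) : ℂ) := by
    intro w
    rw [← Circle.coe_mul, ← Circle.coe_mul]
    have e1 : χ (th i w).1 = χ w.1 * (χ w.2 * (χ w.1)⁻¹) ^ i := by
      show χ (w.1 * (w.2 * w.1⁻¹) ^ i) = _
      rw [map_mul, map_pow, map_mul, map_inv]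
    have e2 : χ' (th i w).2 = χ' w.1 * (χ' w.2 * (χ' w.1)⁻¹) ^ (i + 1) := by
      show χ' (w.1 * (w.2 * w.1⁻¹) ^ (i + 1)) = _
      rw [map_mul, map_pow, map_mul, map_inv]
    have e3 : (χ * χ' * (χ ^ i * χ' ^ (i + 1))⁻¹) w.1 =
        χ w.1 * χ' w.1 * ((χ w.1) ^ i * (χ' w.1) ^ (i + 1))⁻¹ := by
      rw [← et1_pow, ← et1_pow]
      rfl
    have e4 : (χ ^ i * χ' ^ (i + 1)) w.2 = (χ w.2) ^ i * (χ' w.2) ^ (i + 1) := by
      rw [← et1_pow, ← et1_pow]
      rfl
    rw [e1, e2, e3, e4, mul_pow, mul_pow, mul_inv, inv_pow, inv_pow]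
    have e5 : χ w.1 * (χ w.2 ^ i * (χ w.1 ^ i)⁻¹) *
        (χ' w.1 * (χ' w.2 ^ (i + 1) * (χ' w.1 ^ (i + 1))⁻¹)) =
        χ w.1 * χ' w.1 * ((χ w.1 ^ i)⁻¹ * (χ' w.1 ^ (i + 1))⁻¹) *
          (χ w.2 ^ i * χ' w.2 ^ (i + 1)) := by
      simp only [mul_comm, mul_left_comm, mul_assoc]
    rw [e5]
  simp_rw [h1]
  rw [sigmaZ_integral lam muK α φ p q ρ σ hσ, sigmaZ_integral lam muK α φ p q ρ σ hσ]
  have h2 : χ * χ' * (χ ^ i * χ' ^ (i + 1))⁻¹ * (χ ^ i * χ' ^ (i + 1)) = χ * χ' :=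
    inv_mul_cancel_right _ _
  rw [h2]
  by_cases h3 : χ * χ' = 1
  · have h4 : χ * χ' * (χ ^ i * χ' ^ (i + 1))⁻¹ = χ := by
      rw [pow_succ, ← mul_assoc, ← mul_pow, h3, one_pow, one_mul, one_mul]
      exact inv_eq_of_mul_eq_one_left h3
    rw [h4]
  · rw [if_neg (fun h => h3 h.1), if_neg (fun h => h3 h.1)]

end

end Pool.Agent.Lib.H82OG
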