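import Pool.Agent.Lib.H82OG.Defs
import Pool.Agent.Lib.H82OF.PS1

/-!
# Project H82OG, chunk GS1: the property PST
-/

open MeasureTheory Filter Topology Finset ProbabilityTheory
open scoped ENNReal ComplexConjugate Matrix

namespace Pool.Agent.Lib.H82OG

open Pool.Agent.Lib.H22M Pool.Agent.Lib.H82T Pool.Agent.Lib.H82OT Pool.Agent.Lib.H82OF

private theorem gs1_anti {Y : Type*} [MeasurableSpace Y] {m : Measure Y} {R : Y → Y}
    {F F' : Finset ℂ} (h : F ⊆ F') : goodPrimes m R F' ⊆ goodPrimes m R F :=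
  fun _ hp => ⟨hp.1, fun c hc e he => hp.2 c (h hc) e he⟩

private theorem gs1_key {Y : Type*} [MeasurableSpace Y] {m : Measure Y} [IsProbabilityMeasure m]
    {R : Y → Y} {p q : ℕ} {ρ : Measure (Y × Y)} (hρ : IsJoin m R p q ρ)
    (u v : Y → ℂ) (hu : BM u) (hv : BM v) :
    ‖∫ z, u z.1 * conj (v z.2) ∂ρ - (∫ y, u y ∂m) * conj (∫ y, v y ∂m)‖ ≤
      2 * (l2 m u * l2 m v) := by
  haveI := hρ.prob
  have e1 : l2 ρ (fun z => u z.1) = l2 m u := by
    rw [← hρ.fst, l2_map measurable_fst hu.1]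
  have e2 : l2 ρ (fun z => v z.2) = l2 m v := by
    rw [← hρ.snd, l2_map measurable_snd hv.1]
  have e3 := Pool.Agent.Lib.H22M.norm_integral_mul_conj_le (m := ρ)
    (hu.comp measurable_fst) (hv.comp measurable_snd)
  rw [e1, e2] at e3
  have e4 : ‖(∫ y, u y ∂m) * conj (∫ y, v y ∂m)‖ ≤ l2 m u * l2 m v := by
    rw [norm_mul, RCLike.norm_conj]
    exact mul_le_mul (norm_integral_le_l2 (m := m) hu) (norm_integral_le_l2 (m := m) hv)
      (norm_nonneg _) (l2_nonneg _ _)
  have e5 := norm_sub_le (∫ z, u z.1 * conj (v z.2) ∂ρ) ((∫ y, u y ∂m) * conj (∫ y, v y ∂m))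
  linarith

/-- Port of `PS.sum` (`H82OF/PS1.lean`). -/
theorem PST.sum {Y B : Type*} [MeasurableSpace Y] [MeasurableSpace B] {m : Measure Y}
    [IsProbabilityMeasure m] {R : Y → Y} {mb : Measure B} {T : B → B} {ι κ : Type*} [Fintype ι]
    [Fintype κ] (f : ι → Y → ℂ) (g : κ → Y → ℂ)
    (hf : ∀ i, BM (f i)) (hg : ∀ j, BM (g j)) (h : ∀ i j, PST m R mb T (f i) (g j)) :
    PST m R mb T (fun y => ∑ i, f i y) (fun y => ∑ j, g j y) := by
  classical
  intro ε hε
  set N : ℝ := (Fintype.card ι : ℝ) * (Fintype.card κ : ℝ) + 1 with hN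
  have hN0 : 0 < N := by positivity
  have hε' : 0 < ε / N := div_pos hε hN0
  choose F0 hF0 P0 m0 hm0 using fun i j => h i j (ε / N) hε'
  refine ⟨Finset.univ.biUnion fun x : ι × κ => F0 x.1 x.2, ?_,
    Finset.univ.biUnion fun x : ι × κ => P0 x.1 x.2, ∑ x : ι × κ, m0 x.1 x.2, ?_⟩
  · intro c h1
    obtain ⟨x, _, hx⟩ := Finset.mem_biUnion.1 h1
    exact hF0 x.1 x.2 c hx
  · intro p hp hpP Q hQ
    have hcov : Q ⊆ Finset.univ.biUnion fun x : ι × κ =>
        Q.filter fun q => BadP m R (f x.1) (g x.2) (ε / N) p q := by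
      intro q hq
      obtain ⟨_, _, ρ, hρ, hlt⟩ := hQ q hq
      haveI := hρ.prob
      by_contra hcon
      have hall : ∀ x : ι × κ, ‖∫ z, f x.1 z.1 * conj (g x.2 z.2) ∂ρ -
          (∫ y, f x.1 y ∂m) * conj (∫ y, g x.2 y ∂m)‖ ≤ ε / N := by
        intro x
        by_contra hx
        apply hcon
        rw [Finset.mem_biUnion]
        exact ⟨x, Finset.mem_univ _, Finset.mem_filter.2
          ⟨hq, ρ, hρ, lt_of_not_ge hx⟩⟩
      have hint : ∫ z, (∑ i, f i z.1) * conj (∑ j, g j z.2) ∂ρ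
          = ∑ x : ι × κ, ∫ z, f x.1 z.1 * conj (g x.2 z.2) ∂ρ := by
        rw [← integral_finsetSum]
        · refine integral_congr_ae (Eventually.of_forall fun z => ?_)
          simp only
          rw [map_sum, Finset.sum_mul_sum, Fintype.sum_prod_type]
        · intro x _
          exact (((hf x.1).comp measurable_fst).mul
            (((hg x.2).comp measurable_snd).conj)).integrable
      have hint2 : (∫ y, (∑ i, f i y) ∂m) * conj (∫ y, (∑ j, g j y) ∂m)
          = ∑ x : ι × κ, (∫ y, f x.1 y ∂m) * conj (∫ y, g x.2 y ∂m) := by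
        rw [integral_finsetSum _ fun i _ => (hf i).integrable,
          integral_finsetSum _ fun j _ => (hg j).integrable, map_sum, Finset.sum_mul_sum,
          Fintype.sum_prod_type]
      rw [hint, hint2, ← Finset.sum_sub_distrib] at hlt
      have hle : ‖∑ x : ι × κ, (∫ z, f x.1 z.1 * conj (g x.2 z.2) ∂ρ -
          (∫ y, f x.1 y ∂m) * conj (∫ y, g x.2 y ∂m))‖ ≤ ε := by
        refine (norm_sum_le _ _).trans ((Finset.sum_le_sum fun x _ => hall x).trans ?_)
        rw [Finset.sum_const, Finset.card_univ, Fintype.card_prod, nsmul_eq_mul]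
        push_cast
        rw [mul_div_assoc', div_le_iff₀ hN0, hN]
        nlinarith
      exact absurd hlt (not_lt.2 hle)
    calc Q.card ≤ (Finset.univ.biUnion fun x : ι × κ =>
          Q.filter fun q => BadP m R (f x.1) (g x.2) (ε / N) p q).card := Finset.card_le_card hcov
      _ ≤ ∑ x : ι × κ, (Q.filter fun q => BadP m R (f x.1) (g x.2) (ε / N) p q).card :=
          Finset.card_biUnion_le
      _ ≤ ∑ x : ι × κ, m0 x.1 x.2 := by
          refine Finset.sum_le_sum fun x _ => ?_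
          refine hm0 x.1 x.2 p (gs1_anti ?_ hp) ?_ _ ?_
          · exact Finset.subset_biUnion_of_mem (fun x : ι × κ => F0 x.1 x.2)
              (Finset.mem_univ x)
          · exact fun hh => hpP (Finset.mem_biUnion.2 ⟨x, Finset.mem_univ _, hh⟩)
          · intro q hq
            obtain ⟨hq1, hq2⟩ := Finset.mem_filter.1 hq
            exact ⟨(hQ q hq1).1, (hQ q hq1).2.1, hq2⟩

/-- Port of `PS.approx` (`H82OF/PS1.lean`). -/
theorem PST.approx {Y B : Type*} [MeasurableSpace Y] [MeasurableSpace B] {m : Measure Y}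
    [IsProbabilityMeasure m] {R : Y → Y} {mb : Measure B} {T : B → B} (f g : Y → ℂ) (hf : BM f)
    (hg : BM g)
    (Pf Pg : (Y → ℂ) → Prop) (hPf : ∀ f, Pf f → BM f) (hPg : ∀ f, Pg f → BM f)
    (h1 : ∀ δ : ℝ, 0 < δ → ∃ f', Pf f' ∧ l2 m (fun y => f y - f' y) ≤ δ)
    (h2 : ∀ δ : ℝ, 0 < δ → ∃ g', Pg g' ∧ l2 m (fun y => g y - g' y) ≤ δ)
    (h : ∀ f' g', Pf f' → Pg g' → PST m R mb T f' g') : PST m R mb T f g := by
  intro ε hε
  have hg0 := l2_nonneg m g
  obtain ⟨f', hPf', hf'⟩ := h1 (ε / (8 * (l2 m g + 1))) (by positivity)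
  have hf0 := l2_nonneg m f'
  obtain ⟨g', hPg', hg'⟩ := h2 (ε / (8 * (l2 m f' + 1))) (by positivity)
  have hBf' := hPf f' hPf'
  have hBg' := hPg g' hPg'
  obtain ⟨F0, hF0, P0, m0, hm0⟩ := h f' g' hPf' hPg' (ε / 2) (by positivity)
  refine ⟨F0, hF0, P0, m0, fun p hp hpP Q hQ => hm0 p hp hpP Q fun q hq => ?_⟩
  obtain ⟨hq1, hq2, ρ, hρ, hlt⟩ := hQ q hq
  refine ⟨hq1, hq2, ρ, hρ, ?_⟩
  haveI := hρ.prob
  have k3 : l2 m (fun y => f y - f' y) * l2 m g ≤ ε / 8 := by
    calc l2 m (fun y => f y - f' y) * l2 m g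
        ≤ (ε / (8 * (l2 m g + 1))) * (l2 m g + 1) :=
          mul_le_mul hf' (by linarith) hg0 (by positivity)
      _ = ε / 8 := by field_simp
  have k4 : l2 m f' * l2 m (fun y => g y - g' y) ≤ ε / 8 := by
    calc l2 m f' * l2 m (fun y => g y - g' y)
        ≤ (l2 m f' + 1) * (ε / (8 * (l2 m f' + 1))) :=
          mul_le_mul (by linarith) hg' (l2_nonneg _ _) (by positivity)
      _ = ε / 8 := by field_simp
  have k1 := gs1_key hρ (fun y => f y - f' y) g (hf.sub hBf') hg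
  have k2 := gs1_key hρ f' (fun y => g y - g' y) hBf' (hg.sub hBg')
  have e1 : ∫ z, f z.1 * conj (g z.2) ∂ρ - (∫ y, f y ∂m) * conj (∫ y, g y ∂m)
      = (∫ z, (f z.1 - f' z.1) * conj (g z.2) ∂ρ -
          (∫ y, (f y - f' y) ∂m) * conj (∫ y, g y ∂m))
        + (∫ z, f' z.1 * conj (g z.2 - g' z.2) ∂ρ -
          (∫ y, f' y ∂m) * conj (∫ y, (g y - g' y) ∂m))
        + (∫ z, f' z.1 * conj (g' z.2) ∂ρ - (∫ y, f' y ∂m) * conj (∫ y, g' y ∂m)) := by
    have i2 : Integrable (fun z : Y × Y => (f z.1 - f' z.1) * conj (g z.2)) ρ :=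
      (((hf.sub hBf').comp measurable_fst).mul ((hg.comp measurable_snd).conj)).integrable
    have i3 : Integrable (fun z : Y × Y => f' z.1 * conj (g z.2 - g' z.2)) ρ :=
      ((hBf'.comp measurable_fst).mul (((hg.sub hBg').comp measurable_snd).conj)).integrable
    have i4 : Integrable (fun z : Y × Y => f' z.1 * conj (g' z.2)) ρ :=
      ((hBf'.comp measurable_fst).mul ((hBg'.comp measurable_snd).conj)).integrable
    have i23 : Integrable (fun z : Y × Y => (f z.1 - f' z.1) * conj (g z.2)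
        + f' z.1 * conj (g z.2 - g' z.2)) ρ := i2.add i3
    have e2 : ∫ z, f z.1 * conj (g z.2) ∂ρ
        = (∫ z, (f z.1 - f' z.1) * conj (g z.2) ∂ρ)
          + (∫ z, f' z.1 * conj (g z.2 - g' z.2) ∂ρ)
          + ∫ z, f' z.1 * conj (g' z.2) ∂ρ := by
      rw [← integral_add i2 i3, ← integral_add i23 i4]
      refine integral_congr_ae (Eventually.of_forall fun z => ?_)
      simp only [map_sub]
      ring
    rw [e2, integral_sub hf.integrable hBf'.integrable, integral_sub hg.integrable hBg'.integrable,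
      map_sub]
    ring
  rw [e1] at hlt
  have t1 := norm_add_le ((∫ z, (f z.1 - f' z.1) * conj (g z.2) ∂ρ -
          (∫ y, (f y - f' y) ∂m) * conj (∫ y, g y ∂m))
        + (∫ z, f' z.1 * conj (g z.2 - g' z.2) ∂ρ -
          (∫ y, f' y ∂m) * conj (∫ y, (g y - g' y) ∂m)))
        (∫ z, f' z.1 * conj (g' z.2) ∂ρ - (∫ y, f' y ∂m) * conj (∫ y, g' y ∂m))
  have t2 := norm_add_le (∫ z, (f z.1 - f' z.1) * conj (g z.2) ∂ρ -
          (∫ y, (f y - f' y) ∂m) * conj (∫ y, g y ∂m))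
        (∫ z, f' z.1 * conj (g z.2 - g' z.2) ∂ρ -
          (∫ y, f' y ∂m) * conj (∫ y, (g y - g' y) ∂m))
  linarith

/-- Port of `PS.congr` (`H82OF/PS1.lean`). -/
theorem PST.congr {Y B : Type*} [MeasurableSpace Y] [MeasurableSpace B] {m : Measure Y}
    [IsProbabilityMeasure m] {R : Y → Y} {mb : Measure B} {T : B → B} (f g f' g' : Y → ℂ)
    (hf : BM f) (hg : BM g) (hf' : BM f') (hg' : BM g')
    (h1 : ∀ᵐ y ∂m, f y = f' y) (h2 : ∀ᵐ y ∂m, g y = g' y) (h : PST m R mb T f' g') :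
    PST m R mb T f g := by
  refine PST.approx f g hf hg (fun u => u = f') (fun u => u = g') (fun u hu => hu ▸ hf')
    (fun u hu => hu ▸ hg') (fun δ hδ => ⟨f', rfl, ?_⟩) (fun δ hδ => ⟨g', rfl, ?_⟩)
    (fun u v hu hv => by subst hu; subst hv; exact h)
  · have h3 : l2 m (fun y => f y - f' y) = l2 m (fun _ => (0 : ℂ)) := by
      refine l2_congr m _ _ ?_
      filter_upwards [h1] with y hy
      rw [hy, sub_self]
    rw [h3, l2_const, norm_zero]
    exact hδ.le
  · have h3 : l2 m (fun y => g y - g' y) = l2 m (fun _ => (0 : ℂ)) := by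
      refine l2_congr m _ _ ?_
      filter_upwards [h2] with y hy
      rw [hy, sub_self]
    rw [h3, l2_const, norm_zero]
    exact hδ.le

end Pool.Agent.Lib.H82OG
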