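import Pool.Agent.Lib.H82OG.Defs
import Pool.Agent.Lib.H82OG.ER
import Pool.Agent.Lib.H82OF.PS2

/-!
# Project H82OG, chunk GS2: from QS to PST, splitting
-/

open MeasureTheory Filter Topology Finset ProbabilityTheory
open scoped ENNReal ComplexConjugate Matrix

namespace Pool.Agent.Lib.H82OG

open Pool.Agent.Lib.H22M Pool.Agent.Lib.H82T Pool.Agent.Lib.H82OT Pool.Agent.Lib.H82OF

/-- Port of `PS_of_QS` (`H82OF/PS2.lean`). Difference: let `F0` be the finite set of `QS m R g`; take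
`F0' = F0.filter NR` (classical). A prime in `goodPrimes mb T F0'` is in `goodPrimes m R F0`: let `c ∈ F0`,
`l` an eigenvalue of `R`, `l ^ p = c`. If `c` is not a root of unity then `c ∈ F0'` and `l` is an eigenvalue of
`T` (`hsub`): contradiction. If `c ^ n = 1`, `n ≥ 1`, then `l` is a root of unity, so `l = 1` (`hroot`) and
`c = 1 ∉ F0`: contradiction. -/
theorem PST_of_QS {Y B : Type*} [MeasurableSpace Y] [StandardBorelSpace Y] [MeasurableSpace B]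
    {m : Measure Y} [IsProbabilityMeasure m] (R : Y ≃ᵐ Y) (hR : Ergodic R m) {mb : Measure B}
    {T : B → B}
    (hroot : ∀ c : ℂ, IsEigenvalue m R c → ∀ n : ℕ, 1 ≤ n → c ^ n = 1 → c = 1)
    (hsub : ∀ c : ℂ, IsEigenvalue m R c → IsEigenvalue mb T c)
    (f g : Y → ℂ) (hf : BM f) (hg : BM g) (h : QS m R g) : PST m R mb T f g := by
  classical
  intro ε hε
  obtain ⟨F0, hF0, P0, m0, h1⟩ := PS_of_QS R hR hroot f g hf hg h ε hε
  refine ⟨F0.filter NR, fun c hc => (Finset.mem_filter.1 hc).2, P0, m0, ?_⟩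
  intro p hp hpP Q hQ
  refine h1 p ⟨hp.1, ?_⟩ hpP Q hQ
  intro c hc l hl hlp
  by_cases hNR : NR c
  · exact hp.2 c (Finset.mem_filter.2 ⟨hc, hNR⟩) l (hsub l hl) hlp
  · unfold NR at hNR
    push Not at hNR
    obtain ⟨n, hn, hcn⟩ := hNR
    have h2 : l ^ (p * n) = 1 := by rw [pow_mul, hlp, hcn]
    have h3 : 1 ≤ p * n := Nat.mul_pos hp.1.pos hn
    have h4 : l = 1 := hroot l hl (p * n) h3 h2
    rw [h4, one_pow] at hlp
    exact hF0 (hlp ▸ hc)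

/-- Port of `PS_of_split` (`H82OF/PS2.lean`). -/
theorem PST_of_split {Y B : Type*} [MeasurableSpace Y] [MeasurableSpace B] {m : Measure Y}
    [IsProbabilityMeasure m] {R : Y → Y} {mb : Measure B} {T : B → B} (f g : Y → ℂ) (hf : BM f)
    (hg : BM g)
    (h : ∀ ε : ℝ, 0 < ε → ∃ w : Y → ℂ, BM w ∧ PST m R mb T f w ∧
      ‖∫ y, f y ∂m‖ * ‖∫ y, (g y - w y) ∂m‖ ≤ ε ∧ ∃ F0 : Finset ℂ, (∀ c ∈ F0, NR c) ∧
      ∃ (P0 : Finset ℕ) (m0 : ℕ), ∀ p ∈ goodPrimes mb T F0, p ∉ P0 → ∀ Q : Finset ℕ,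
        (∀ q ∈ Q, q.Prime ∧ q ≠ p ∧ ∃ ρ : Measure (Y × Y), IsJoin m R p q ρ ∧
          ε < ‖∫ z, f z.1 * conj (g z.2 - w z.2) ∂ρ‖) → Q.card ≤ m0) : PST m R mb T f g := by
  classical
  intro ε hε
  obtain ⟨w, hw, hPw, hint, F0, hF0, P0, m0, h0⟩ := h (ε / 3) (by linarith)
  obtain ⟨F1, hF1, P1, m1, h1⟩ := hPw (ε / 3) (by linarith)
  refine ⟨F0 ∪ F1, fun c hc => (Finset.mem_union.1 hc).elim (hF0 c) (hF1 c), P0 ∪ P1, m0 + m1, ?_⟩
  intro p hp hpP Q hQ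
  have hp0 : p ∈ goodPrimes mb T F0 :=
    ⟨hp.1, fun c hc => hp.2 c (Finset.mem_union_left _ hc)⟩
  have hp1 : p ∈ goodPrimes mb T F1 :=
    ⟨hp.1, fun c hc => hp.2 c (Finset.mem_union_right _ hc)⟩
  have hpP0 : p ∉ P0 := fun h' => hpP (Finset.mem_union_left _ h')
  have hpP1 : p ∉ P1 := fun h' => hpP (Finset.mem_union_right _ h')
  have h2 := h1 p hp1 hpP1 (Q.filter fun q => BadP m R f w (ε / 3) p q) (by
    intro q hq
    rw [Finset.mem_filter] at hq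
    exact ⟨(hQ q hq.1).1, (hQ q hq.1).2.1, hq.2⟩)
  have h3 := h0 p hp0 hpP0 (Q.filter fun q => ¬ BadP m R f w (ε / 3) p q) (by
    intro q hq
    rw [Finset.mem_filter] at hq
    obtain ⟨hq1, hq2⟩ := hq
    obtain ⟨hqp, hqne, ρ, hρ, hb⟩ := hQ q hq1
    refine ⟨hqp, hqne, ρ, hρ, ?_⟩
    have hρp : IsProbabilityMeasure ρ := hρ.prob
    have h4 : ‖∫ z, f z.1 * conj (w z.2) ∂ρ - (∫ y, f y ∂m) * conj (∫ y, w y ∂m)‖ ≤ ε / 3 := by
      by_contra hcon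
      exact hq2 ⟨ρ, hρ, not_le.mp hcon⟩
    have h5 : ∫ z, f z.1 * conj (g z.2 - w z.2) ∂ρ =
        ∫ z, f z.1 * conj (g z.2) ∂ρ - ∫ z, f z.1 * conj (w z.2) ∂ρ := by
      rw [← integral_sub]
      · refine integral_congr_ae (Eventually.of_forall fun z => ?_)
        simp only [map_sub]
        ring
      · exact ((hf.comp measurable_fst).mul (hg.comp measurable_snd).conj).integrable
      · exact ((hf.comp measurable_fst).mul (hw.comp measurable_snd).conj).integrable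
    have h6 : ∫ y, (g y - w y) ∂m = ∫ y, g y ∂m - ∫ y, w y ∂m :=
      integral_sub hg.integrable hw.integrable
    have h7 : ∫ z, f z.1 * conj (g z.2) ∂ρ - (∫ y, f y ∂m) * conj (∫ y, g y ∂m) =
        (∫ z, f z.1 * conj (w z.2) ∂ρ - (∫ y, f y ∂m) * conj (∫ y, w y ∂m)) +
        ∫ z, f z.1 * conj (g z.2 - w z.2) ∂ρ - (∫ y, f y ∂m) * conj (∫ y, (g y - w y) ∂m) := by
      rw [h5, h6, map_sub]
      ring
    have h8 : ‖(∫ y, f y ∂m) * conj (∫ y, (g y - w y) ∂m)‖ ≤ ε / 3 := by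
      rw [norm_mul, RCLike.norm_conj]
      exact hint
    rw [h7] at hb
    have h9 := norm_sub_le ((∫ z, f z.1 * conj (w z.2) ∂ρ - (∫ y, f y ∂m) * conj (∫ y, w y ∂m)) +
        ∫ z, f z.1 * conj (g z.2 - w z.2) ∂ρ) ((∫ y, f y ∂m) * conj (∫ y, (g y - w y) ∂m))
    have h10 := norm_add_le (∫ z, f z.1 * conj (w z.2) ∂ρ -
        (∫ y, f y ∂m) * conj (∫ y, w y ∂m)) (∫ z, f z.1 * conj (g z.2 - w z.2) ∂ρ)
    linarith)
  have h4 := Finset.card_filter_add_card_filter_not (s := Q) (fun q => BadP m R f w (ε / 3) p q)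
  omega

end Pool.Agent.Lib.H82OG
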