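import Pool.Agent.Lib.H82OG.Defs
import Pool.Agent.Lib.H82OF.FN1
import Pool.Agent.Lib.H82T.F2
import Pool.Agent.Lib.H82OF.PS3

/-!
# Project H82OG, chunk GS3: the criterion
-/

open MeasureTheory Filter Topology Finset ProbabilityTheory
open scoped ENNReal ComplexConjugate Matrix

namespace Pool.Agent.Lib.H82OG

open Pool.Agent.Lib.H22M Pool.Agent.Lib.H82T Pool.Agent.Lib.H82OT Pool.Agent.Lib.H82OF

private theorem gs3_not_summable_diff (P : Set ℕ) (P0 : Finset ℕ)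
    (h : ¬ Summable (P.indicator fun p : ℕ => 1 / (p : ℝ))) :
    ¬ Summable ((P \ (P0 : Set ℕ)).indicator fun p : ℕ => 1 / (p : ℝ)) := by
  intro h1
  apply h
  refine (summable_congr_cofinite ?_).1 h1
  have h2 : ∀ᶠ p : ℕ in cofinite, p ∉ (P0 : Set ℕ) := P0.finite_toSet.compl_mem_cofinite
  filter_upwards [h2] with p hp
  by_cases hpP : p ∈ P
  · rw [Set.indicator_of_mem (show p ∈ P \ (P0 : Set ℕ) from ⟨hpP, hp⟩), Set.indicator_of_mem hpP]
  · rw [Set.indicator_of_notMem (fun h3 : p ∈ P \ (P0 : Set ℕ) => hpP h3.1),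
      Set.indicator_of_notMem hpP]

private theorem gs3_key {Y : Type*} [MeasurableSpace Y] {m : Measure Y} [IsProbabilityMeasure m]
    {R : Y → Y} {p q : ℕ} {ρ : Measure (Y × Y)} (hρ : IsJoin m R p q ρ)
    (u v : Y → ℂ) (hu : BM u) (hv : BM v) :
    ‖∫ z, u z.1 * conj (v z.2) ∂ρ - (∫ y, u y ∂m) * conj (∫ y, v y ∂m)‖ ≤
      2 * (l2 m u * l2 m v) := by
  haveI := hρ.prob
  have e1 : l2 ρ (fun z => u z.1) = l2 m u := by
    rw [← hρ.fst, l2_map measurable_fst hu.1]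
  have e2 : l2 ρ (fun z => v z.2) = l2 m v := by
    rw [← hρ.snd, l2_map measurable_snd hv.1]
  have e3 := Pool.Agent.Lib.H22M.norm_integral_mul_conj_le (m := ρ)
    (hu.comp measurable_fst) (hv.comp measurable_snd)
  rw [e1, e2] at e3
  have e4 : ‖(∫ y, u y ∂m) * conj (∫ y, v y ∂m)‖ ≤ l2 m u * l2 m v := by
    rw [norm_mul, RCLike.norm_conj]
    exact mul_le_mul (norm_integral_le_l2 (m := m) hu) (norm_integral_le_l2 (m := m) hv)
      (norm_nonneg _) (l2_nonneg _ _)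
  have e5 := norm_sub_le (∫ z, u z.1 * conj (v z.2) ∂ρ) ((∫ y, u y ∂m) * conj (∫ y, v y ∂m))
  linarith


/-- Proof. `S = goodPrimes mb T F0 \ P0` with `F0, P0, m0` from `h ε`: a divergent sum stays divergent after
removing finitely many terms (`FN5_not_summable_diff` in `H82OT/FN5.lean`). -/
theorem BDD_of_PST {Y B : Type*} [MeasurableSpace Y] [MeasurableSpace B] {m : Measure Y}
    {R : Y → Y} {mb : Measure B} {T : B → B} (hT : ManyT mb T) (f : Y → ℂ)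
    (h : PST m R mb T f f) (ε : ℝ) (hε : 0 < ε) : BDD m R f ε := by
  obtain ⟨F0, hF0, P0, m0, hm0⟩ := h ε hε
  exact ⟨goodPrimes mb T F0 \ (P0 : Set ℕ), fun p hp => hp.1.1,
    gs3_not_summable_diff _ P0 (hT F0 hF0), m0,
    fun p hp Q hQ => hm0 p hp.1 (fun hh => hp.2 (Finset.mem_coe.2 hh)) Q hQ⟩

/-- Proof. For a joining `ρ` the number `∫ f(z.1) conj f(z.2) dρ - ∫ f conj ∫ f` changes by at most
`2 (l2 (f - f') l2 f + l2 f' l2 (f - f'))` when `f` is replaced by `f'` (see `PS.approx`, `H82OF/PS1.lean`),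
and `l2 f' ≤ l2 f + δ`. So with `δ` small a prime which is bad for `f`, `ε` is bad for `f'`, `ε / 2`. -/
theorem BDD.approx {Y : Type*} [MeasurableSpace Y] {m : Measure Y} [IsProbabilityMeasure m]
    {R : Y → Y} (f : Y → ℂ) (hf : BM f)
    (h : ∀ δ : ℝ, 0 < δ → ∃ f' : Y → ℂ, BM f' ∧ l2 m (fun y => f y - f' y) ≤ δ ∧
      ∀ ε : ℝ, 0 < ε → BDD m R f' ε) (ε : ℝ) (hε : 0 < ε) : BDD m R f ε := by
  have hf0 := l2_nonneg m f
  set δ : ℝ := min 1 (ε / (4 * (2 * l2 m f + 1))) with hδdef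
  have hδ : 0 < δ := lt_min one_pos (by positivity)
  have hδ1 : δ ≤ 1 := min_le_left _ _
  have hδ2 : δ * (2 * l2 m f + 1) ≤ ε / 4 := by
    calc δ * (2 * l2 m f + 1) ≤ (ε / (4 * (2 * l2 m f + 1))) * (2 * l2 m f + 1) :=
          mul_le_mul_of_nonneg_right (min_le_right _ _) (by linarith)
      _ = ε / 4 := by field_simp
  obtain ⟨f', hBf', hf', hbdd⟩ := h δ hδ
  obtain ⟨S, hSp, hSn, m0, hm0⟩ := hbdd (ε / 2) (by positivity)
  refine ⟨S, hSp, hSn, m0, fun p hp Q hQ => hm0 p hp Q fun q hq => ?_⟩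
  obtain ⟨hq1, hq2, ρ, hρ, hlt⟩ := hQ q hq
  refine ⟨hq1, hq2, ρ, hρ, ?_⟩
  haveI := hρ.prob
  have hd0 := l2_nonneg m (fun y => f y - f' y)
  have hf'0 := l2_nonneg m f'
  have hf'le : l2 m f' ≤ l2 m f + 1 := by
    have t1 : l2 m f' ≤ l2 m f + l2 m (fun y => f' y - f y) := by
      have t2 := Pool.Agent.Lib.H22M.l2_add_le (m := m) hf (hBf'.sub hf)
      refine le_trans (le_of_eq ?_) t2
      refine l2_congr m _ _ (Eventually.of_forall fun y => ?_)
      ring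
    have t3 : l2 m (fun y => f' y - f y) = l2 m (fun y => f y - f' y) := by
      unfold l2
      simp_rw [norm_sub_rev]
    rw [t3] at t1
    linarith
  have k3 : l2 m (fun y => f y - f' y) * l2 m f +
      l2 m f' * l2 m (fun y => f y - f' y) ≤ ε / 4 := by
    calc l2 m (fun y => f y - f' y) * l2 m f + l2 m f' * l2 m (fun y => f y - f' y)
        = l2 m (fun y => f y - f' y) * (l2 m f + l2 m f') := by ring
      _ ≤ δ * (2 * l2 m f + 1) := mul_le_mul hf' (by linarith) (by linarith) hδ.le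
      _ ≤ ε / 4 := hδ2
  have k1 := gs3_key hρ (fun y => f y - f' y) f (hf.sub hBf') hf
  have k2 := gs3_key hρ f' (fun y => f y - f' y) hBf' (hf.sub hBf')
  have e1 : ∫ z, f z.1 * conj (f z.2) ∂ρ - (∫ y, f y ∂m) * conj (∫ y, f y ∂m)
      = (∫ z, (f z.1 - f' z.1) * conj (f z.2) ∂ρ -
          (∫ y, (f y - f' y) ∂m) * conj (∫ y, f y ∂m))
        + (∫ z, f' z.1 * conj (f z.2 - f' z.2) ∂ρ -
          (∫ y, f' y ∂m) * conj (∫ y, (f y - f' y) ∂m))
        + (∫ z, f' z.1 * conj (f' z.2) ∂ρ - (∫ y, f' y ∂m) * conj (∫ y, f' y ∂m)) := by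
    have i2 : Integrable (fun z : Y × Y => (f z.1 - f' z.1) * conj (f z.2)) ρ :=
      (((hf.sub hBf').comp measurable_fst).mul ((hf.comp measurable_snd).conj)).integrable
    have i3 : Integrable (fun z : Y × Y => f' z.1 * conj (f z.2 - f' z.2)) ρ :=
      ((hBf'.comp measurable_fst).mul (((hf.sub hBf').comp measurable_snd).conj)).integrable
    have i4 : Integrable (fun z : Y × Y => f' z.1 * conj (f' z.2)) ρ :=
      ((hBf'.comp measurable_fst).mul ((hBf'.comp measurable_snd).conj)).integrable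
    have i23 : Integrable (fun z : Y × Y => (f z.1 - f' z.1) * conj (f z.2)
        + f' z.1 * conj (f z.2 - f' z.2)) ρ := i2.add i3
    have e2 : ∫ z, f z.1 * conj (f z.2) ∂ρ
        = (∫ z, (f z.1 - f' z.1) * conj (f z.2) ∂ρ)
          + (∫ z, f' z.1 * conj (f z.2 - f' z.2) ∂ρ)
          + ∫ z, f' z.1 * conj (f' z.2) ∂ρ := by
      rw [← integral_add i2 i3, ← integral_add i23 i4]
      refine integral_congr_ae (Eventually.of_forall fun z => ?_)
      simp only [map_sub]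
      ring
    rw [e2, integral_sub hf.integrable hBf'.integrable, map_sub]
    ring
  rw [e1] at hlt
  have t1 := norm_add_le ((∫ z, (f z.1 - f' z.1) * conj (f z.2) ∂ρ -
          (∫ y, (f y - f' y) ∂m) * conj (∫ y, f y ∂m))
        + (∫ z, f' z.1 * conj (f z.2 - f' z.2) ∂ρ -
          (∫ y, f' y ∂m) * conj (∫ y, (f y - f' y) ∂m)))
        (∫ z, f' z.1 * conj (f' z.2) ∂ρ - (∫ y, f' y ∂m) * conj (∫ y, f' y ∂m))
  have t2 := norm_add_le (∫ z, (f z.1 - f' z.1) * conj (f z.2) ∂ρ -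
          (∫ y, (f y - f' y) ∂m) * conj (∫ y, f y ∂m))
        (∫ z, f' z.1 * conj (f z.2 - f' z.2) ∂ρ -
          (∫ y, f' y ∂m) * conj (∫ y, (f y - f' y) ∂m))
  linarith

/-- Port of `PS_all` (`H82OF/PS3.lean`) or `QS_all` (`H82OT/FN4.lean`), with `BDD.approx`. -/
theorem BDD_all {Y ι : Type*} [Nonempty ι] (𝒞 : ι → MeasurableSpace Y) [mY : MeasurableSpace Y]
    {m : Measure Y} [IsProbabilityMeasure m] {R : Y → Y} (hdir : Directed (· ≤ ·) 𝒞)
    (hle : ∀ i, 𝒞 i ≤ mY)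
    (hgen : ∀ A : Set Y, MeasurableSet A → ∃ B, MeasurableSet[⨆ i, 𝒞 i] B ∧ m (symmDiff A B) = 0)
    (hQ : ∀ (i : ι) (f : Y → ℂ), Measurable[𝒞 i] f → (∃ C : ℝ, ∀ y, ‖f y‖ ≤ C) →
      ∀ ε : ℝ, 0 < ε → BDD m R f ε)
    (F : Y → ℂ) (hF : BM F) (ε : ℝ) (hε : 0 < ε) : BDD m R F ε := by
  have hne : (Set.range 𝒞).Nonempty := Set.range_nonempty 𝒞
  have hdir' : DirectedOn (· ≤ ·) (Set.range 𝒞) := directedOn_range.2 hdir
  have hle' : ∀ ℬ ∈ Set.range 𝒞, ℬ ≤ mY := by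
    rintro _ ⟨i, rfl⟩
    exact hle i
  refine BDD.approx F hF (fun δ hδ => ?_) ε hε
  obtain ⟨⟨_, i, rfl⟩, f', hf', hb', hd⟩ := f2_approx (Set.range 𝒞) m hne hdir' hle'
    (by
      rw [sSup_range]
      exact hgen) F hF.1 hF.2 δ hδ
  exact ⟨f', ⟨hf'.mono (hle i) le_rfl, hb'⟩, hd, hQ i f' hf' hb'⟩

/-- Port of `main_of_PS` (`H82OF/FN1.lean`): for `F = g ∘ ψ`, `‖F‖ ≤ 1`, `∫ F dm₁ = 0`, and `ε` take the set
`S` and `m0` of `BDD m R (F ∘ τ) (ε / 2)`; a joining of `R₁^p` and `R₁^q` lifts (`exists_joining_lift`). The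
ergodicity of the iterates from `hroot`. -/
theorem main_of_BDD {Y Y₁ : Type*} [MeasurableSpace Y] [StandardBorelSpace Y]
    [MeasurableSpace Y₁] {m : Measure Y} [IsProbabilityMeasure m] {m₁ : Measure Y₁}
    [IsProbabilityMeasure m₁] (R : Y ≃ᵐ Y) (hR : Ergodic R m)
    (hroot : ∀ c : ℂ, IsEigenvalue m R c → ∀ n : ℕ, 1 ≤ n → c ^ n = 1 → c = 1)
    (hQ : ∀ F : Y → ℂ, BM F → ∀ ε : ℝ, 0 < ε → BDD m R F ε) (R₁ : Y₁ ≃ᵐ Y₁)
    (τ : Y → Y₁) (hτ : MeasurePreserving τ m m₁) (hτR : ∀ᵐ y ∂m, τ (R y) = R₁ (τ y))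
    {X : Type*} [MetricSpace X] [CompactSpace X] [MeasurableSpace X] [BorelSpace X]
    (T : X ≃ₜ X) (ν : Measure X) (θ : X → Y₁) (ψ : Y₁ → X)
    (hmodel : IsUEModel T ν m₁ R₁ θ ψ) (f : C(X, ℂ)) (x : X) :
    Tendsto (fun N : ℕ => (1 / (N : ℂ)) *
      ∑ n ∈ Icc 1 N, f ((⇑T)^[n] x) * (ArithmeticFunction.moebius n : ℂ)) atTop (𝓝 0) := by
  have hergn : ∀ n : ℕ, 1 ≤ n → Ergodic ((⇑R₁)^[n]) m₁ := fun n hn =>
    ergodic_factor R hR.toMeasurePreserving R₁ τ hτ hτR n (ergodic_iterate hR hroot n hn)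
  have hνp : IsProbabilityMeasure ν := hmodel.prob
  set c₀ : ℂ := ∫ x, f x ∂ν with hc₀
  set L : ℝ := 2 * ‖f‖ + 1 with hL
  have hL0 : 0 < L := by positivity
  have hLC : (L : ℂ) ≠ 0 := by exact_mod_cast hL0.ne'
  set g : C(X, ℂ) := (L : ℂ)⁻¹ • (f - ContinuousMap.const X c₀) with hg
  have hgx : ∀ x, g x = (L : ℂ)⁻¹ * (f x - c₀) := fun x => rfl
  have hc₀n : ‖c₀‖ ≤ ‖f‖ := by
    have h1 := norm_integral_le_of_norm_le_const (μ := ν) (f := fun x => f x) (C := ‖f‖)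
      (Eventually.of_forall fun x => f.norm_coe_le_norm x)
    simpa using h1
  have hg1 : ∀ x, ‖g x‖ ≤ 1 := by
    intro x
    rw [hgx, norm_mul, norm_inv, Complex.norm_real, Real.norm_of_nonneg hL0.le,
      inv_mul_le_iff₀ hL0, mul_one]
    calc ‖f x - c₀‖ ≤ ‖f x‖ + ‖c₀‖ := norm_sub_le _ _
      _ ≤ ‖f‖ + ‖f‖ := add_le_add (f.norm_coe_le_norm x) hc₀n
      _ ≤ L := by rw [hL]; linarith
  have hF0 : ∫ y, g (ψ y) ∂m₁ = 0 := by
    have h1 : ∫ y, g (ψ y) ∂m₁ = ∫ x, g x ∂ν := by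
      rw [← hmodel.map_psi, integral_map hmodel.meas_psi.aemeasurable]
      exact g.continuous.measurable.aestronglyMeasurable
    have hfi : Integrable (fun x => f x) ν :=
      Integrable.of_bound f.continuous.measurable.aestronglyMeasurable ‖f‖
        (Eventually.of_forall fun x => f.norm_coe_le_norm x)
    rw [h1]
    simp_rw [hgx]
    rw [integral_const_mul, integral_sub hfi (integrable_const _), integral_const]
    simp [hc₀]
  have hgm : Measurable fun y => g (ψ y) := g.continuous.measurable.comp hmodel.meas_psi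
  have hmain : Tendsto (fun N : ℕ =>
      (∑ n ∈ Icc 1 N, (ArithmeticFunction.moebius n : ℂ) * g ((⇑T)^[n] x)) / N) atTop (𝓝 0) := by
    apply katai_average (fun n => g ((⇑T)^[n] x)) (fun n => hg1 _)
    intro ε hε
    obtain ⟨S, hSp, hSn, m0, hm0⟩ := hQ (fun y => g (ψ (τ y)))
      ⟨hgm.comp hτ.measurable, 1, fun y => hg1 _⟩ (ε / 2) (by positivity)
    refine ⟨S, hSp, hSn, m0, fun p hp Q hQ' hcard => ?_⟩
    have hq0 : ∃ q ∈ Q, ¬ BadP m R (fun y => g (ψ (τ y))) (fun y => g (ψ (τ y))) (ε / 2) p q := by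
      by_contra hcon
      push Not at hcon
      have h3 := hm0 p hp Q fun q hq => ⟨(hQ' q hq).1, (hQ' q hq).2, hcon q hq⟩
      omega
    obtain ⟨q, hq, hbad⟩ := hq0
    refine ⟨q, hq, ?_⟩
    refine eventually_le_of_join T.continuous R₁.measurable hmodel hergn p q (hSp p hp).one_le
      (hQ' q hq).1.one_le g x (ε / 2) ε (by linarith) fun ρ₁ hρ₁ => ?_
    obtain ⟨ρ, hρ, hmap⟩ := exists_joining_lift R hR.toMeasurePreserving R₁ τ hτ hτR hρ₁
    have h4 : ∫ y, g (ψ (τ y)) ∂m = 0 := by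
      rw [← hF0, ← hτ.map_eq, integral_map hτ.measurable.aemeasurable]
      exact hgm.aestronglyMeasurable
    have hmeas : Measurable fun z : Y₁ × Y₁ => g (ψ z.1) * conj (g (ψ z.2)) :=
      (hgm.comp measurable_fst).mul
        (Complex.continuous_conj.measurable.comp (hgm.comp measurable_snd))
    have h5 : ∫ z, g (ψ z.1) * conj (g (ψ z.2)) ∂ρ₁ =
        ∫ z, g (ψ (τ z.1)) * conj (g (ψ (τ z.2))) ∂ρ := by
      rw [← hmap, integral_map (hτ.measurable.prodMap hτ.measurable).aemeasurable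
        hmeas.aestronglyMeasurable]
      rfl
    rw [h5]
    by_contra hcon
    refine hbad ⟨ρ, hρ, ?_⟩
    rw [h4, zero_mul, sub_zero]
    exact not_le.1 hcon
  have h2 := (hmain.const_mul (L : ℂ)).add (moebius_mean.const_mul c₀)
  rw [mul_zero, mul_zero, add_zero] at h2
  refine h2.congr fun N => ?_
  have h3 : ∀ n, f ((⇑T)^[n] x) = (L : ℂ) * g ((⇑T)^[n] x) + c₀ := by
    intro n
    rw [hgx]
    field_simp
    ring
  simp_rw [h3, div_eq_mul_inv, one_mul]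
  rw [Finset.sum_mul, Finset.mul_sum, Finset.sum_mul, Finset.mul_sum, Finset.mul_sum,
    ← Finset.sum_add_distrib]
  refine Finset.sum_congr rfl fun n _ => ?_
  ring

end Pool.Agent.Lib.H82OG
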