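import Pool.Agent.Lib.H82OG.Defs
import Pool.Agent.Lib.H82OF.ME
import Pool.Agent.Lib.H22M.TG
import Pool.Agent.Lib.H22M.TE

/-!
# Project H82OG, chunk HC1: the fibre coordinates are independent of z₁, z₂ and the invariant sets (characters)
-/

open MeasureTheory Filter Topology Finset ProbabilityTheory
open scoped ENNReal ComplexConjugate Matrix

namespace Pool.Agent.Lib.H82OG

open Pool.Agent.Lib.H22M Pool.Agent.Lib.H82T Pool.Agent.Lib.H82OT Pool.Agent.Lib.H82OF

section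

variable {Z K : Type*} [CommGroup Z] [TopologicalSpace Z] [IsTopologicalGroup Z]
  [CompactSpace Z] [T2Space Z] [SecondCountableTopology Z] [MeasurableSpace Z] [BorelSpace Z]
  [Group K] [TopologicalSpace K] [IsTopologicalGroup K] [CompactSpace K] [T2Space K]
  [SecondCountableTopology K] [MeasurableSpace K] [BorelSpace K]

/-- Let `u` have mean zero on `K`; then `u(k) χ(z)` is orthogonal to all functions of `z`, in particular
to the eigenfunctions (`Base.kron`). Proof. `Base.kron` and Fubini. -/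
theorem mean_zero_orth {lam : Measure Z} [IsProbabilityMeasure lam] {muK : Measure K}
    [IsProbabilityMeasure muK] {α : Z} {φ : Z → K} (hB : Base0 lam muK α φ) (u : K → ℂ)
    (hu : BM u) (hu0 : ∫ k, u k ∂muK = 0) (χ : Z → ℂ) (hχ : BM χ) (e : Z × K → ℂ) (l : ℂ)
    (he : BM e) (hl : ∀ᵐ y ∂(lam.prod muK), e (skew α φ y) = l * e y) :
    ∫ y, (u y.2 * χ y.1) * conj (e y) ∂(lam.prod muK) = 0 := by
  obtain ⟨g, hg, hge⟩ := hB.kron e l he hl
  have h1 : ∫ y, (u y.2 * χ y.1) * conj (e y) ∂(lam.prod muK) =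
      ∫ y, (χ y.1 * conj (g y.1)) * u y.2 ∂(lam.prod muK) := by
    refine integral_congr_ae ?_
    filter_upwards [hge] with y hy
    simp only [hy]
    ring
  rw [h1, integral_prod_mul (fun z => χ z * conj (g z)) u, hu0, mul_zero]

private theorem hc1_iter (α : Z) (φ : Z → K) (n : ℕ) (y : Z × K) :
    ((skew α φ)^[n] y).1 = α ^ n * y.1 := by
  induction n with
  | zero => simp
  | succ n ih =>
    rw [Function.iterate_succ_apply']
    show α * ((skew α φ)^[n] y).1 = _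
    rw [ih, pow_succ', mul_assoc]

private theorem hc1_char (χ : PontryaginDual Z) (α z : Z) (n : ℕ) :
    ((χ (α ^ n * z) : Circle) : ℂ) = ((χ α : Circle) : ℂ) ^ n * ((χ z : Circle) : ℂ) := by
  rw [map_mul, map_pow]
  simp

private theorem hc1_char_bm (χ : PontryaginDual Z) : BM fun z : Z => ((χ z : Circle) : ℂ) :=
  ⟨(continuous_subtype_val.comp (ContinuousMonoidHom.continuous_toFun χ)).measurable, 1,
    fun z => (Circle.norm_coe (χ z)).le⟩

/-- Proof. `me_orth` with `Ω = (Z × K) × (Z × K)`, `S = Prod.map R^[p] R^[q]`, `ζ = Prod.snd`, `n = q`,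
`g y = u y.2 * χ₂(y.1)`, `h w = χ₁(w.1.1) * J w`, `c = χ₁(α)^p`: the first coordinate of
`(skew α φ)^[p] y` is `α^p * y.1`. `R^[q]` is ergodic by `ergodic_iterate` (`H22M/TE.lean`) and
`Base.root`; orthogonality by `mean_zero_orth`. -/
theorem haar_char_snd (lam : Measure Z) [lam.IsHaarMeasure] [IsProbabilityMeasure lam]
    (muK : Measure K) [muK.IsHaarMeasure] [IsProbabilityMeasure muK] {α : Z} {φ : Z → K}
    (hB : Base0 lam muK α φ) (p q : ℕ) (hq : 1 ≤ q)
    (hTq : Ergodic ((skew (M := K) α φ)^[q]) (lam.prod muK)) (ρ : Measure ((Z × K) × (Z × K)))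
    (hρ : IsJoin (lam.prod muK) (skew α φ) p q ρ) (u : K → ℂ) (hu : BM u)
    (hu0 : ∫ k, u k ∂muK = 0) (χ₁ χ₂ : PontryaginDual Z) (J : (Z × K) × (Z × K) → ℂ)
    (hJ : BM J)
    (hJS : ∀ᵐ w ∂ρ, J (Prod.map ((skew α φ)^[p]) ((skew α φ)^[q]) w) = J w) :
    ∫ w, u w.2.2 * (((χ₁ w.1.1 : Circle) : ℂ) * ((χ₂ w.2.1 : Circle) : ℂ) * J w) ∂ρ = 0 := by
  haveI := hρ.prob
  have hbu : BM fun y : Z × K => u y.2 := hu.comp measurable_snd
  have hb2 : BM fun y : Z × K => ((χ₂ y.1 : Circle) : ℂ) := (hc1_char_bm χ₂).comp measurable_fst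
  have hb1 : BM fun w : (Z × K) × (Z × K) => ((χ₁ w.1.1 : Circle) : ℂ) :=
    (hc1_char_bm χ₁).comp (measurable_fst.comp measurable_fst)
  have key := me_orth (ρ := ρ) (m := lam.prod muK) (R := skew α φ) hB.erg.toMeasurePreserving q
    hTq
    (S := Prod.map ((skew α φ)^[p]) ((skew α φ)^[q])) hρ.inv (ζ := Prod.snd)
    ⟨measurable_snd, hρ.snd⟩ (Eventually.of_forall fun w => rfl)
    (fun w => ((χ₁ w.1.1 : Circle) : ℂ) * J w) (hb1.mul hJ)
    (((χ₁ α : Circle) : ℂ) ^ p) (by rw [norm_pow, Circle.norm_coe, one_pow])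
    (by
      filter_upwards [hJS] with w hw
      rw [hw]
      show ((χ₁ ((skew α φ)^[p] w.1).1 : Circle) : ℂ) * J w = _
      rw [hc1_iter, hc1_char]
      ring)
    (fun y => u y.2 * ((χ₂ y.1 : Circle) : ℂ)) (hbu.mul hb2)
    (fun e l he hl => mean_zero_orth hB u hu hu0 (fun z => ((χ₂ z : Circle) : ℂ))
      (hc1_char_bm χ₂) e l he hl)
  rw [← key]
  refine integral_congr_ae (Eventually.of_forall fun w => ?_)
  simp only
  ring

/-- Proof. As `haar_char_snd` with `ζ = Prod.fst`, `n = p`. -/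
theorem haar_char_fst (lam : Measure Z) [lam.IsHaarMeasure] [IsProbabilityMeasure lam]
    (muK : Measure K) [muK.IsHaarMeasure] [IsProbabilityMeasure muK] {α : Z} {φ : Z → K}
    (hB : Base0 lam muK α φ) (p q : ℕ) (hp : 1 ≤ p)
    (hTp : Ergodic ((skew (M := K) α φ)^[p]) (lam.prod muK)) (ρ : Measure ((Z × K) × (Z × K)))
    (hρ : IsJoin (lam.prod muK) (skew α φ) p q ρ) (u : K → ℂ) (hu : BM u)
    (hu0 : ∫ k, u k ∂muK = 0) (χ₁ χ₂ : PontryaginDual Z) (J : (Z × K) × (Z × K) → ℂ)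
    (hJ : BM J)
    (hJS : ∀ᵐ w ∂ρ, J (Prod.map ((skew α φ)^[p]) ((skew α φ)^[q]) w) = J w) :
    ∫ w, u w.1.2 * (((χ₁ w.1.1 : Circle) : ℂ) * ((χ₂ w.2.1 : Circle) : ℂ) * J w) ∂ρ = 0 := by
  haveI := hρ.prob
  have hbu : BM fun y : Z × K => u y.2 := hu.comp measurable_snd
  have hb1 : BM fun y : Z × K => ((χ₁ y.1 : Circle) : ℂ) := (hc1_char_bm χ₁).comp measurable_fst
  have hb2 : BM fun w : (Z × K) × (Z × K) => ((χ₂ w.2.1 : Circle) : ℂ) :=
    (hc1_char_bm χ₂).comp (measurable_fst.comp measurable_snd)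
  have key := me_orth (ρ := ρ) (m := lam.prod muK) (R := skew α φ) hB.erg.toMeasurePreserving p
    hTp
    (S := Prod.map ((skew α φ)^[p]) ((skew α φ)^[q])) hρ.inv (ζ := Prod.fst)
    ⟨measurable_fst, hρ.fst⟩ (Eventually.of_forall fun w => rfl)
    (fun w => ((χ₂ w.2.1 : Circle) : ℂ) * J w) (hb2.mul hJ)
    (((χ₂ α : Circle) : ℂ) ^ q) (by rw [norm_pow, Circle.norm_coe, one_pow])
    (by
      filter_upwards [hJS] with w hw
      rw [hw]
      show ((χ₂ ((skew α φ)^[q] w.2).1 : Circle) : ℂ) * J w = _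
      rw [hc1_iter, hc1_char]
      ring)
    (fun y => u y.2 * ((χ₁ y.1 : Circle) : ℂ)) (hbu.mul hb1)
    (fun e l he hl => mean_zero_orth hB u hu hu0 (fun z => ((χ₁ z : Circle) : ℂ))
      (hc1_char_bm χ₁) e l he hl)
  rw [← key]
  refine integral_congr_ae (Eventually.of_forall fun w => ?_)
  simp only
  ring

end

end Pool.Agent.Lib.H82OG
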