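import Pool.Agent.Lib.H82OG.HC1
import Pool.Agent.Lib.H82OF.HC2

/-!
# Project H82OG, chunk HC3: the fibre coordinates are independent of z₁, z₂ and the invariant sets
-/

open MeasureTheory Filter Topology Finset ProbabilityTheory
open scoped ENNReal ComplexConjugate Matrix

namespace Pool.Agent.Lib.H82OG

open Pool.Agent.Lib.H22M Pool.Agent.Lib.H82T Pool.Agent.Lib.H82OT Pool.Agent.Lib.H82OF

section

variable {Z K : Type*} [CommGroup Z] [TopologicalSpace Z] [IsTopologicalGroup Z]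
  [CompactSpace Z] [T2Space Z] [SecondCountableTopology Z] [MeasurableSpace Z] [BorelSpace Z]
  [Group K] [TopologicalSpace K] [IsTopologicalGroup K] [CompactSpace K] [T2Space K]
  [SecondCountableTopology K] [MeasurableSpace K] [BorelSpace K]

/-- Proof. Subtract the mean of `u`: `haar_char_snd` and `zero_of_chars`. -/
theorem haar_snd (lam : Measure Z) [lam.IsHaarMeasure] [IsProbabilityMeasure lam]
    (muK : Measure K) [muK.IsHaarMeasure] [IsProbabilityMeasure muK] {α : Z} {φ : Z → K}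
    (hB : Base0 lam muK α φ) (p q : ℕ) (hq : 1 ≤ q)
    (hTq : Ergodic ((skew (M := K) α φ)^[q]) (lam.prod muK)) (ρ : Measure ((Z × K) × (Z × K)))
    (hρ : IsJoin (lam.prod muK) (skew α φ) p q ρ) (u : K → ℂ) (hu : BM u)
    (H : (Z × K) × (Z × K) → ℂ) (hH : WB (WZ (skew α φ) p q ρ) H) :
    ∫ w, u w.2.2 * H w ∂ρ = (∫ k, u k ∂muK) * ∫ w, H w ∂ρ := by
  have hprob : IsProbabilityMeasure ρ := hρ.prob
  have hHB : BM H := hH.bm (WZ_le _ _ _ _)
  have hv : BM fun k => u k - ∫ k, u k ∂muK := hu.sub (BM.const _)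
  have hv0 : ∫ k, (u k - ∫ k, u k ∂muK) ∂muK = 0 := by
    rw [integral_sub hu.integrable (integrable_const _)]
    simp
  have hm : Measurable fun w : (Z × K) × (Z × K) => w.2.2 := by fun_prop
  have key := zero_of_chars (Z := Z) ρ (Prod.map ((skew α φ)^[p]) ((skew α φ)^[q]))
    (fun w => w.1.1) (fun w => w.2.1) (by fun_prop) (by fun_prop)
    (fun w => u w.2.2 - ∫ k, u k ∂muK) (hv.comp hm)
    (fun χ₁ χ₂ J hJ hJS => haar_char_snd lam muK hB p q hq hTq ρ hρ _ hv hv0 χ₁ χ₂ J hJ hJS) H hH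
  have h1 : ∀ w : (Z × K) × (Z × K), (u w.2.2 - ∫ k, u k ∂muK) * H w =
      u w.2.2 * H w - (∫ k, u k ∂muK) * H w := fun w => by ring
  simp_rw [h1] at key
  rw [integral_sub ((hu.comp hm).mul hHB).integrable (hHB.integrable.const_mul _),
    integral_const_mul] at key
  exact sub_eq_zero.1 key

/-- Proof. As `haar_snd`, with `haar_char_fst`. -/
theorem haar_fst (lam : Measure Z) [lam.IsHaarMeasure] [IsProbabilityMeasure lam]
    (muK : Measure K) [muK.IsHaarMeasure] [IsProbabilityMeasure muK] {α : Z} {φ : Z → K}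
    (hB : Base0 lam muK α φ) (p q : ℕ) (hp : 1 ≤ p)
    (hTp : Ergodic ((skew (M := K) α φ)^[p]) (lam.prod muK)) (ρ : Measure ((Z × K) × (Z × K)))
    (hρ : IsJoin (lam.prod muK) (skew α φ) p q ρ) (u : K → ℂ) (hu : BM u)
    (H : (Z × K) × (Z × K) → ℂ) (hH : WB (WZ (skew α φ) p q ρ) H) :
    ∫ w, u w.1.2 * H w ∂ρ = (∫ k, u k ∂muK) * ∫ w, H w ∂ρ := by
  have hprob : IsProbabilityMeasure ρ := hρ.prob
  have hHB : BM H := hH.bm (WZ_le _ _ _ _)
  have hv : BM fun k => u k - ∫ k, u k ∂muK := hu.sub (BM.const _)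
  have hv0 : ∫ k, (u k - ∫ k, u k ∂muK) ∂muK = 0 := by
    rw [integral_sub hu.integrable (integrable_const _)]
    simp
  have hm : Measurable fun w : (Z × K) × (Z × K) => w.1.2 := by fun_prop
  have key := zero_of_chars (Z := Z) ρ (Prod.map ((skew α φ)^[p]) ((skew α φ)^[q]))
    (fun w => w.1.1) (fun w => w.2.1) (by fun_prop) (by fun_prop)
    (fun w => u w.1.2 - ∫ k, u k ∂muK) (hv.comp hm)
    (fun χ₁ χ₂ J hJ hJS => haar_char_fst lam muK hB p q hp hTp ρ hρ _ hv hv0 χ₁ χ₂ J hJ hJS) H hH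
  have h1 : ∀ w : (Z × K) × (Z × K), (u w.1.2 - ∫ k, u k ∂muK) * H w =
      u w.1.2 * H w - (∫ k, u k ∂muK) * H w := fun w => by ring
  simp_rw [h1] at key
  rw [integral_sub ((hu.comp hm).mul hHB).integrable (hHB.integrable.const_mul _),
    integral_const_mul] at key
  exact sub_eq_zero.1 key

end

end Pool.Agent.Lib.H82OG
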