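import Pool.Agent.Lib.H82OG.Defs
import Pool.Agent.Lib.H82OF.CE
import Pool.Agent.Lib.H22M.CE
import Pool.Agent.Lib.H82T.CV

/-!
# Project H82OG, chunk IQ3: the intertwiner of a joining
-/

open MeasureTheory Filter Topology Finset ProbabilityTheory
open scoped ENNReal ComplexConjugate Matrix

namespace Pool.Agent.Lib.H82OG

open Pool.Agent.Lib.H22M Pool.Agent.Lib.H82T Pool.Agent.Lib.H82OT Pool.Agent.Lib.H82OF

/-- The iterated cocycle. -/
private def iqc {Z K : Type*} [CommGroup Z] [Group K] (α : Z) (φ : Z → K) : ℕ → Z → K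
  | 0, _ => 1
  | n + 1, z => φ (α ^ n * z) * iqc α φ n z

private theorem iqc_iter {Z K : Type*} [CommGroup Z] [Group K] (α : Z) (φ : Z → K) (n : ℕ)
    (y : Z × K) : (skew α φ)^[n] y = (α ^ n * y.1, iqc α φ n y.1 * y.2) := by
  induction n with
  | zero => simp [iqc]
  | succ n ih =>
    rw [Function.iterate_succ_apply', ih]
    simp only [skew, iqc, smul_eq_mul, pow_succ', mul_assoc]

private theorem iqc_meas {Z K : Type*} [CommGroup Z] [MeasurableSpace Z] [MeasurableMul Z]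
    [Group K] [MeasurableSpace K] [MeasurableMul₂ K] (α : Z) {φ : Z → K} (hφ : Measurable φ)
    (n : ℕ) : Measurable (iqc α φ n) := by
  induction n with
  | zero => exact measurable_const
  | succ n ih => exact (hφ.comp (measurable_const_mul (α ^ n))).mul ih

private theorem iq_pre {Z K : Type*} [CommGroup Z] [MeasurableSpace Z] [MeasurableMul Z]
    [Group K] [MeasurableSpace K] [MeasurableMul₂ K] [MeasurableInv K] (α : Z) {φ : Z → K}
    (hφ : Measurable φ) (p q : ℕ) (ρ : Measure ((Z × K) × (Z × K)))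
    (hinv : MeasurePreserving (Prod.map ((skew (M := K) α φ)^[p]) ((skew α φ)^[q])) ρ ρ)
    (s : Set ((Z × K) × (Z × K))) (hs : MeasurableSet[WZ (skew α φ) p q ρ] s) :
    MeasurableSet[WZ (skew α φ) p q ρ] (pairE (skewE (M := K) α φ hφ) p q ⁻¹' s) ∧
      MeasurableSet[WZ (skew α φ) p q ρ] ((pairE (skewE (M := K) α φ hφ) p q).symm ⁻¹' s) := by
  set S := pairE (skewE (M := K) α φ hφ) p q with hSdef
  have hSe : ∀ w, S w = ((skew α φ)^[p] w.1, (skew α φ)^[q] w.2) := fun w => rfl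
  have hS : MeasurePreserving S ρ ρ := hinv
  have hS' : MeasurePreserving S.symm ρ ρ := hS.symm
  have hcoe : Prod.map ((skew (M := K) α φ)^[p]) ((skew α φ)^[q]) = ⇑S := rfl
  have hc1 : ∀ w, (S w).1.1 = α ^ p * w.1.1 := fun w => by rw [hSe, iqc_iter]
  have hc2 : ∀ w, (S w).2.1 = α ^ q * w.2.1 := fun w => by rw [hSe, iqc_iter α φ q]
  constructor
  · have h1 : WZ (skew α φ) p q ρ ≤ MeasurableSpace.map S (WZ (skew α φ) p q ρ) := by
      refine sup_le ?_ ?_
      · rintro _ ⟨B, hB, rfl⟩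
        have h2 : MeasurableSpace.comap (fun w : (Z × K) × (Z × K) => (w.1.1, w.2.1))
          inferInstance ≤ WZ (skew α φ) p q ρ := le_sup_left
        refine h2 _ ⟨(fun w : Z × Z => (α ^ p * w.1, α ^ q * w.2)) ⁻¹' B, ?_, ?_⟩
        · exact ((measurable_fst.const_mul _).prodMk (measurable_snd.const_mul _)) hB
        · ext w
          simp only [Set.mem_preimage, hc1, hc2]
      · intro t ht
        have h2 : aeInv ρ (Prod.map ((skew (M := K) α φ)^[p]) ((skew α φ)^[q])) ≤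
          WZ (skew α φ) p q ρ := le_sup_right
        exact h2 _ ⟨S.measurable ht.1, hS.quasiMeasurePreserving.preimage_ae_eq ht.2⟩
    exact h1 s hs
  · have h1 : WZ (skew α φ) p q ρ ≤ MeasurableSpace.map S.symm (WZ (skew α φ) p q ρ) := by
      refine sup_le ?_ ?_
      · rintro _ ⟨B, hB, rfl⟩
        have h2 : MeasurableSpace.comap (fun w : (Z × K) × (Z × K) => (w.1.1, w.2.1))
          inferInstance ≤ WZ (skew α φ) p q ρ := le_sup_left
        refine h2 _ ⟨(fun w : Z × Z => ((α ^ p)⁻¹ * w.1, (α ^ q)⁻¹ * w.2)) ⁻¹' B, ?_, ?_⟩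
        · exact ((measurable_fst.const_mul _).prodMk (measurable_snd.const_mul _)) hB
        · ext w
          have h3 := hc1 (S.symm w)
          have h4 := hc2 (S.symm w)
          rw [S.apply_symm_apply] at h3 h4
          simp only [Set.mem_preimage, h3, h4, inv_mul_cancel_left]
      · intro t ht
        have h2 : aeInv ρ (Prod.map ((skew (M := K) α φ)^[p]) ((skew α φ)^[q])) ≤
          WZ (skew α φ) p q ρ := le_sup_right
        refine h2 _ ⟨S.symm.measurable ht.1, ?_⟩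
        have h3 : Prod.map ((skew (M := K) α φ)^[p]) ((skew α φ)^[q]) ⁻¹' (S.symm ⁻¹' t) = t := by
          rw [hcoe, ← Set.preimage_comp]
          simp
        rw [h3]
        have h5 := hS'.quasiMeasurePreserving.preimage_ae_eq ht.2
        have h6 : S.symm ⁻¹' (Prod.map ((skew (M := K) α φ)^[p]) ((skew α φ)^[q]) ⁻¹' t) = t := by
          rw [hcoe, ← Set.preimage_comp]
          simp
        rw [h6] at h5
        exact h5
    exact h1 s hs

private theorem iq_mv {d : ℕ} (A B : Matrix (Fin d) (Fin d) ℂ) (v : Fin d → ℂ) (i : Fin d) :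
    ((A * B) *ᵥ v) i = ∑ a, A i a * (B *ᵥ v) a := by
  rw [← Matrix.mulVec_mulVec]
  rfl

section

variable {Z K : Type*} [CommGroup Z] [TopologicalSpace Z] [IsTopologicalGroup Z]
  [CompactSpace Z] [T2Space Z] [SecondCountableTopology Z] [MeasurableSpace Z] [BorelSpace Z]
  [Group K] [TopologicalSpace K] [IsTopologicalGroup K] [CompactSpace K] [T2Space K]
  [SecondCountableTopology K] [MeasurableSpace K] [BorelSpace K]

/-- Proof. `m_ij` = bounded `WZ`-measurable version of the conditional expectation of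
`E_ij(w) = (π(w.2.2) w₀)_i conj ((β(w.1.2) u₀)_j)` (`exists_version`, `H82T/CV.lean`). Let
`S = Prod.map R^[p] R^[q]`, `R = skew α φ`; `(R^[n] (z, k)) = (α^n z, φ_n(z) k)` with `φ_n : Z → K`
measurable (induction). So `E(S w) = π(φ_q(z₂)) E(w) β(φ_p(z₁))ᴴ`, where the outer matrices are functions
of `(z₁, z₂)`, so `WZ`-measurable. `WZ` is invariant under `S` and its inverse (as in `GG_preimage`,
`H22M/CE.lean`; `S` is the measurable equivalence `pairE (skewE α φ hφ) p q`), so by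
`condExp_comp_equiv` and pulling out the `WZ`-measurable factors
`m(S w) = π(φ_q(z₂)) m(w) β(φ_p(z₁))ᴴ` a.e. Since `π(k₂(S w)) = π(φ_q(z₂)) π(k₂)`,
`β(k₁(S w)) = β(φ_p(z₁)) β(k₁)`, the last assertion follows (unitarity). -/
theorem exists_inter (lam : Measure Z) [lam.IsHaarMeasure] [IsProbabilityMeasure lam]
    (muK : Measure K) [muK.IsHaarMeasure] [IsProbabilityMeasure muK] {α : Z} {φ : Z → K}
    (hB : Base0 lam muK α φ) (p q : ℕ) (ρ : Measure ((Z × K) × (Z × K)))
    (hρ : IsJoin (lam.prod muK) (skew α φ) p q ρ)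
    {d e : ℕ} {π : K → Matrix (Fin d) (Fin d) ℂ} {β : K → Matrix (Fin e) (Fin e) ℂ}
    (hπ : Rep π) (hβ : Rep β) (w₀ : Fin d → ℂ) (u₀ : Fin e → ℂ) :
    ∃ m : (Z × K) × (Z × K) → Matrix (Fin d) (Fin e) ℂ, WM (WZ (skew α φ) p q ρ) m ∧
      (∀ i j (H : (Z × K) × (Z × K) → ℂ), WB (WZ (skew α φ) p q ρ) H →
        ∫ w, H w * ((π w.2.2 *ᵥ w₀) i * conj ((β w.1.2 *ᵥ u₀) j)) ∂ρ =
          ∫ w, H w * m w i j ∂ρ) ∧
      ∀ᵐ w ∂ρ, (fun w => (π w.2.2)ᴴ * m w * β w.1.2)
          (Prod.map ((skew α φ)^[p]) ((skew α φ)^[q]) w) = (π w.2.2)ᴴ * m w * β w.1.2 := by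
  have hφ : Measurable φ := hB.meas
  have hprob := hρ.prob
  have hle := WZ_le (skew (M := K) α φ) p q ρ
  have hS : MeasurePreserving (pairE (skewE (M := K) α φ hφ) p q) ρ ρ := hρ.inv
  have hpre := iq_pre (K := K) α hφ p q ρ hρ.inv
  set S := pairE (skewE (M := K) α φ hφ) p q with hSdef
  have hSe : ∀ w, S w = ((skew α φ)^[p] w.1, (skew α φ)^[q] w.2) := fun w => rfl
  let E : Fin d → Fin e → (Z × K) × (Z × K) → ℂ := fun i j w =>
    (π w.2.2 *ᵥ w₀) i * conj ((β w.1.2 *ᵥ u₀) j)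
  have hE : ∀ i j, BM (E i j) := by
    intro i j
    have h1 : BM fun w : (Z × K) × (Z × K) => (π w.2.2 *ᵥ w₀) i := by
      have h2 : BM fun k : K => (π k *ᵥ w₀) i := by
        unfold Matrix.mulVec dotProduct
        exact BM.sum _ fun a _ => (hπ.bmm i a).mul (BM.const _)
      exact h2.comp (measurable_snd.comp measurable_snd)
    have h3 : BM fun w : (Z × K) × (Z × K) => (β w.1.2 *ᵥ u₀) j := by
      have h2 : BM fun k : K => (β k *ᵥ u₀) j := by
        unfold Matrix.mulVec dotProduct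
        exact BM.sum _ fun a _ => (hβ.bmm j a).mul (BM.const _)
      exact h2.comp (measurable_snd.comp measurable_fst)
    exact h1.mul h3.conj
  have hv : ∀ i j, ∃ g : (Z × K) × (Z × K) → ℂ, WB (WZ (skew α φ) p q ρ) g ∧
      ∀ H : (Z × K) × (Z × K) → ℂ, WB (WZ (skew α φ) p q ρ) H →
        ∫ w, H w * E i j w ∂ρ = ∫ w, H w * g w ∂ρ := by
    intro i j
    obtain ⟨h1, C, hC⟩ := hE i j
    have hC0 : 0 ≤ C := (norm_nonneg _).trans (hC ((1, 1), (1, 1)))
    obtain ⟨g, g1, g2, -, g4⟩ := exists_version (WZ (skew α φ) p q ρ) ρ hle (E i j) h1 C hC0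
      (Eventually.of_forall hC)
    refine ⟨g, ⟨g1, C, g2⟩, fun H hH => ?_⟩
    obtain ⟨C', hC'⟩ := hH.2
    exact g4 H hH.1 ⟨C', Eventually.of_forall hC'⟩
  choose g hg hgi using hv
  refine ⟨fun w => Matrix.of fun i j => g i j w, ⟨fun i j => (hg i j).1, ?_⟩,
    fun i j H hH => hgi i j H hH, ?_⟩
  · choose C hC using fun i j => (hg i j).2
    refine ⟨∑ i, ∑ j, |C i j|, fun w i j => ?_⟩
    have h1 : |C i j| ≤ ∑ j', |C i j'| :=
      Finset.single_le_sum (f := fun j' => |C i j'|) (fun _ _ => abs_nonneg _) (Finset.mem_univ j)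
    have h2 : ∑ j', |C i j'| ≤ ∑ i', ∑ j', |C i' j'| :=
      Finset.single_le_sum (f := fun i' => ∑ j', |C i' j'|)
        (fun _ _ => Finset.sum_nonneg fun _ _ => abs_nonneg _) (Finset.mem_univ i)
    exact ((hC i j w).trans (le_abs_self _)).trans (h1.trans h2)
  -- the matrices of the iterated cocycle
  have hA : ∀ i a, WB (WZ (skew α φ) p q ρ)
      fun w : (Z × K) × (Z × K) => π (iqc α φ q w.2.1) i a := by
    intro i a
    obtain ⟨h1, C, hC⟩ := hπ.bmm i a
    refine ⟨?_, C, fun w => hC _⟩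
    have h2 : Measurable fun z : Z × Z => π (iqc α φ q z.2) i a :=
      h1.comp ((iqc_meas α hφ q).comp measurable_snd)
    exact (h2.comp (comap_measurable (fun w : (Z × K) × (Z × K) => (w.1.1, w.2.1)))).mono
      le_sup_left le_rfl
  have hBw : ∀ j b, WB (WZ (skew α φ) p q ρ)
      fun w : (Z × K) × (Z × K) => conj (β (iqc α φ p w.1.1) j b) := by
    intro j b
    obtain ⟨h1, C, hC⟩ := (hβ.bmm j b).conj
    refine ⟨?_, C, fun w => hC _⟩
    have h2 : Measurable fun z : Z × Z => conj (β (iqc α φ p z.1) j b) :=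
      h1.comp ((iqc_meas α hφ p).comp measurable_fst)
    exact (h2.comp (comap_measurable (fun w : (Z × K) × (Z × K) => (w.1.1, w.2.1)))).mono
      le_sup_left le_rfl
  have hwmul : ∀ f f' : (Z × K) × (Z × K) → ℂ, WB (WZ (skew α φ) p q ρ) f →
      WB (WZ (skew α φ) p q ρ) f' → WB (WZ (skew α φ) p q ρ) fun w => f w * f' w := by
    intro f f' hf hf'
    exact @BM.mul _ (WZ (skew α φ) p q ρ) f f' hf hf'
  have hwsum : ∀ f : Fin d → Fin e → (Z × K) × (Z × K) → ℂ,
      (∀ a b, WB (WZ (skew α φ) p q ρ) (f a b)) →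
      WB (WZ (skew α φ) p q ρ) fun w => ∑ a, ∑ b, f a b w := by
    intro f hf
    exact @BM.sum _ _ (WZ (skew α φ) p q ρ) Finset.univ (fun a w => ∑ b, f a b w)
      fun a _ => @BM.sum _ _ (WZ (skew α φ) p q ρ) Finset.univ (fun b w => f a b w)
        fun b _ => hf a b
  have hcompS : ∀ f, WB (WZ (skew α φ) p q ρ) f → WB (WZ (skew α φ) p q ρ) fun w => f (S w) := by
    rintro f ⟨h1, C, hC⟩
    exact ⟨fun s hs => (hpre _ (h1 hs)).1, C, fun w => hC _⟩
  have hcompS' : ∀ f, WB (WZ (skew α φ) p q ρ) f →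
      WB (WZ (skew α φ) p q ρ) fun w => f (S.symm w) := by
    rintro f ⟨h1, C, hC⟩
    exact ⟨fun s hs => (hpre _ (h1 hs)).2, C, fun w => hC _⟩
  have hES : ∀ i j w, E i j (S w) = ∑ a, ∑ b,
      (π (iqc α φ q w.2.1) i a * conj (β (iqc α φ p w.1.1) j b)) * E a b w := by
    intro i j w
    have h1 : (S w).2.2 = iqc α φ q w.2.1 * w.2.2 := by rw [hSe, iqc_iter α φ q]
    have h2 : (S w).1.2 = iqc α φ p w.1.1 * w.1.2 := by rw [hSe, iqc_iter α φ p]
    change (π (S w).2.2 *ᵥ w₀) i * conj ((β (S w).1.2 *ᵥ u₀) j) = _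
    rw [h1, h2, hπ.mul, hβ.mul, iq_mv, iq_mv, map_sum, Finset.sum_mul_sum]
    refine Finset.sum_congr rfl fun a _ => Finset.sum_congr rfl fun b _ => ?_
    rw [map_mul]
    change _ = _ * ((π w.2.2 *ᵥ w₀) a * conj ((β w.1.2 *ᵥ u₀) b))
    ring
  have hmS : ∀ i j, ∀ᵐ w ∂ρ, g i j (S w) = ∑ a, ∑ b,
      (π (iqc α φ q w.2.1) i a * conj (β (iqc α φ p w.1.1) j b)) * g a b w := by
    intro i j
    refine wb_ae_eq (WZ (skew α φ) p q ρ) ρ hle _ _ (hcompS _ (hg i j)) ?_ ?_
    · exact hwsum _ fun a b => hwmul _ _ (hwmul _ _ (hA i a) (hBw j b)) (hg a b)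
    · intro H hH
      have e1 : ∫ w, H w * g i j (S w) ∂ρ = ∫ w, H w * E i j (S w) ∂ρ := by
        have h1 : ∀ f : (Z × K) × (Z × K) → ℂ,
            ∫ w, H w * f (S w) ∂ρ = ∫ w, H (S.symm w) * f w ∂ρ := by
          intro f
          rw [← hS.integral_comp' (fun w => H (S.symm w) * f w)]
          simp only [S.symm_apply_apply]
        rw [h1, h1, hgi i j _ (hcompS' _ hH)]
      have hint : ∀ f : (Z × K) × (Z × K) → ℂ, BM f → Integrable f ρ := fun f hf => hf.integrable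
      have e2 : ∀ f : Fin d → Fin e → (Z × K) × (Z × K) → ℂ, (∀ a b, BM (f a b)) →
          ∫ w, H w * ∑ a, ∑ b, (π (iqc α φ q w.2.1) i a * conj (β (iqc α φ p w.1.1) j b)) *
            f a b w ∂ρ = ∑ a, ∑ b, ∫ w, (H w * (π (iqc α φ q w.2.1) i a *
              conj (β (iqc α φ p w.1.1) j b))) * f a b w ∂ρ := by
        intro f hf
        have hb : ∀ a b, BM fun w : (Z × K) × (Z × K) => (H w * (π (iqc α φ q w.2.1) i a *
              conj (β (iqc α φ p w.1.1) j b))) * f a b w := fun a b =>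
          ((hH.bm hle).mul (((hA i a).bm hle).mul ((hBw j b).bm hle))).mul (hf a b)
        have h1 : ∀ a, ∑ b, ∫ w, (H w * (π (iqc α φ q w.2.1) i a *
              conj (β (iqc α φ p w.1.1) j b))) * f a b w ∂ρ = ∫ w, ∑ b, (H w *
              (π (iqc α φ q w.2.1) i a * conj (β (iqc α φ p w.1.1) j b))) * f a b w ∂ρ :=
          fun a => (integral_finsetSum _ fun b _ => hint _ (hb a b)).symm
        rw [Finset.sum_congr rfl fun a _ => h1 a, ← integral_finsetSum _ fun a _ =>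
          hint _ (BM.sum _ fun b _ => hb a b)]
        refine integral_congr_ae (Eventually.of_forall fun w => ?_)
        simp only [Finset.mul_sum, mul_assoc]
      rw [e1]
      simp only [hES]
      rw [e2 E hE, e2 g fun a b => (hg a b).bm hle]
      refine Finset.sum_congr rfl fun a _ => Finset.sum_congr rfl fun b _ => ?_
      exact hgi a b _ (hwmul _ _ hH (hwmul _ _ (hA i a) (hBw j b)))
  have hall : ∀ᵐ w ∂ρ, ∀ i j, g i j (S w) = ∑ a, ∑ b,
      (π (iqc α φ q w.2.1) i a * conj (β (iqc α φ p w.1.1) j b)) * g a b w :=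
    ae_all_iff.2 fun i => ae_all_iff.2 fun j => hmS i j
  filter_upwards [hall] with w hw
  have hSw : Prod.map ((skew (M := K) α φ)^[p]) ((skew α φ)^[q]) w = S w := rfl
  have h1 : (S w).2.2 = iqc α φ q w.2.1 * w.2.2 := by rw [hSe, iqc_iter α φ q]
  have h2 : (S w).1.2 = iqc α φ p w.1.1 * w.1.2 := by rw [hSe, iqc_iter α φ p]
  have hM : (Matrix.of fun i j => g i j (S w)) = π (iqc α φ q w.2.1) *
      (Matrix.of fun i j => g i j w) * (β (iqc α φ p w.1.1))ᴴ := by
    ext i j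
    rw [Matrix.of_apply, hw i j, Matrix.mul_apply, Finset.sum_comm]
    refine Finset.sum_congr rfl fun b _ => ?_
    rw [Matrix.mul_apply, Finset.sum_mul]
    refine Finset.sum_congr rfl fun a _ => ?_
    rw [Matrix.of_apply, Matrix.conjTranspose_apply]
    change _ = _ * g a b w * conj (β (iqc α φ p w.1.1) j b)
    ring
  simp only [hSw]
  rw [h1, h2, hπ.mul, hβ.mul, hM, Matrix.conjTranspose_mul]
  have h3 := hπ.unit' (iqc α φ q w.2.1)
  have h4 := hβ.unit' (iqc α φ p w.1.1)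
  calc (π w.2.2)ᴴ * (π (iqc α φ q w.2.1))ᴴ * (π (iqc α φ q w.2.1) *
      (Matrix.of fun i j => g i j w) * (β (iqc α φ p w.1.1))ᴴ) *
        (β (iqc α φ p w.1.1) * β w.1.2)
      = (π w.2.2)ᴴ * ((π (iqc α φ q w.2.1))ᴴ * π (iqc α φ q w.2.1)) *
        (Matrix.of fun i j => g i j w) *
          ((β (iqc α φ p w.1.1))ᴴ * β (iqc α φ p w.1.1)) * β w.1.2 := by
        simp only [Matrix.mul_assoc]
    _ = (π w.2.2)ᴴ * (Matrix.of fun i j => g i j w) * β w.1.2 := by
        rw [h3, h4, Matrix.mul_one, Matrix.mul_one]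

end

end Pool.Agent.Lib.H82OG
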