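import Pool.Agent.Lib.H82OF.AV
import Pool.Agent.Lib.H82OG.HC3

/-!
# Project H82OG, chunk IQ4: disjoint supports
-/

open MeasureTheory Filter Topology Finset ProbabilityTheory
open scoped ENNReal ComplexConjugate Matrix

namespace Pool.Agent.Lib.H82OG

open Pool.Agent.Lib.H22M Pool.Agent.Lib.H82T Pool.Agent.Lib.H82OT Pool.Agent.Lib.H82OF

section

variable {Z K : Type*} [CommGroup Z] [TopologicalSpace Z] [IsTopologicalGroup Z]
  [CompactSpace Z] [T2Space Z] [SecondCountableTopology Z] [MeasurableSpace Z] [BorelSpace Z]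
  [Group K] [TopologicalSpace K] [IsTopologicalGroup K] [CompactSpace K] [T2Space K]
  [SecondCountableTopology K] [MeasurableSpace K] [BorelSpace K]

/-- A measurable function which is invariant almost everywhere is measurable for `aeInv`. -/
theorem aeInv_meas {Ω : Type*} [MeasurableSpace Ω] (ρ : Measure Ω) (S : Ω → Ω) (f : Ω → ℂ)
    (hf : Measurable f) (h : ∀ᵐ ω ∂ρ, f (S ω) = f ω) : Measurable[aeInv ρ S] f := by
  intro s hs
  refine ⟨hf hs, ?_⟩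
  filter_upwards [h] with ω hω
  show (f (S ω) ∈ s) = (f ω ∈ s)
  rw [hω]

private theorem iq4_wm {Ω : Type*} (𝒲 : MeasurableSpace Ω) [mΩ : MeasurableSpace Ω] {d e : ℕ}
    {X : Ω → Matrix (Fin d) (Fin e) ℂ} (h1 : ∀ i j, Measurable[𝒲] fun ω => X ω i j)
    (h2 : BMM X) : WM 𝒲 X := by
  have h3 : ∀ i j, ∃ C : ℝ, ∀ ω, ‖X ω i j‖ ≤ C := fun i j => (h2 i j).2
  choose C hC using h3
  refine ⟨h1, ∑ i, ∑ j, |C i j|, fun ω i j => ?_⟩
  calc ‖X ω i j‖ ≤ C i j := hC i j ω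
    _ ≤ |C i j| := le_abs_self _
    _ ≤ ∑ j, |C i j| := Finset.single_le_sum (f := fun j => |C i j|)
        (fun _ _ => abs_nonneg _) (Finset.mem_univ j)
    _ ≤ ∑ i, ∑ j, |C i j| := Finset.single_le_sum (f := fun i => ∑ j, |C i j|)
        (fun _ _ => Finset.sum_nonneg fun _ _ => abs_nonneg _) (Finset.mem_univ i)

private theorem iq4_mulc {Ω : Type*} (𝒲 : MeasurableSpace Ω) {d d' e : ℕ}
    {X : Ω → Matrix (Fin d) (Fin e) ℂ} {X' : Ω → Matrix (Fin d') (Fin e) ℂ}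
    (hX : WM 𝒲 X) (hX' : WM 𝒲 X') : WM 𝒲 fun ω => X ω * (X' ω)ᴴ := by
  have h := (WM.bmm (mΩ := 𝒲) hX le_rfl).mul (WM.bmm (mΩ := 𝒲) hX' le_rfl).conj
  exact iq4_wm 𝒲 (mΩ := 𝒲) (fun i j => (h i j).1) h

private theorem iq4_cmul {Ω : Type*} (𝒲 : MeasurableSpace Ω) {d d' e : ℕ}
    {X : Ω → Matrix (Fin e) (Fin d) ℂ} {X' : Ω → Matrix (Fin e) (Fin d') ℂ}
    (hX : WM 𝒲 X) (hX' : WM 𝒲 X') : WM 𝒲 fun ω => (X ω)ᴴ * X' ω := by
  have h := (WM.bmm (mΩ := 𝒲) hX le_rfl).conj.mul (WM.bmm (mΩ := 𝒲) hX' le_rfl)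
  exact iq4_wm 𝒲 (mΩ := 𝒲) (fun i j => (h i j).1) h

/-- Proof. Let `S = Prod.map R^[p] R^[q]`.
(1) `N = m m'ᴴ`: `n = π(k₂)ᴴ N π'(k₂) = (π(k₂)ᴴ m β(k₁)) (π'(k₂)ᴴ m' β(k₁))ᴴ` is invariant under `S` a.e.,
so measurable for `aeInv` (`aeInv_meas`), in `WM WZ`; `N = π(k₂) n π'(k₂)ᴴ`, so by `avg_formula` with
`κ w = w.2.2` (`haar_snd`) `N_ij = ∫ (π k n π'(k)ᴴ)_ij dk = 0` a.e. (`Ineq`).
(2) `M = mᴴ m`: `n₁ = β(k₁)ᴴ M β(k₁) = (π(k₂)ᴴ m β(k₁))ᴴ (π(k₂)ᴴ m β(k₁))` is invariant; `avg_formula` with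
`κ w = w.1.2` (`haar_fst`) and `schur_same`: `M = s • 1` a.e., `s = trace n₁ / e`, measurable for
`aeInv`.
(3) `D = {s ≠ 0}`. Off `D`: `mᴴ m = 0`, so `m = 0` a.e. On `D`: `s m'ᴴ = mᴴ m m'ᴴ = 0` a.e., so
`m' = 0`. (`e = 0`: the matrices have no columns, all assertions are trivial.) -/
theorem exists_support (lam : Measure Z) [lam.IsHaarMeasure] [IsProbabilityMeasure lam]
    (muK : Measure K) [muK.IsHaarMeasure] [IsProbabilityMeasure muK] {α : Z} {φ : Z → K}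
    (hB : Base0 lam muK α φ) (p q : ℕ) (hp : 1 ≤ p) (hq : 1 ≤ q)
    (hTp : Ergodic ((skew (M := K) α φ)^[p]) (lam.prod muK))
    (hTq : Ergodic ((skew (M := K) α φ)^[q]) (lam.prod muK))
    (ρ : Measure ((Z × K) × (Z × K))) (hρ : IsJoin (lam.prod muK) (skew α φ) p q ρ)
    {d d' e : ℕ} {π : K → Matrix (Fin d) (Fin d) ℂ} {π' : K → Matrix (Fin d') (Fin d') ℂ}
    {β : K → Matrix (Fin e) (Fin e) ℂ} (hπ : Rep π) (hπ' : Rep π') (hβ : Irr β)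
    (hine : Ineq muK π π') (m : (Z × K) × (Z × K) → Matrix (Fin d) (Fin e) ℂ)
    (m' : (Z × K) × (Z × K) → Matrix (Fin d') (Fin e) ℂ) (hm : WM (WZ (skew α φ) p q ρ) m)
    (hm' : WM (WZ (skew α φ) p q ρ) m')
    (hmS : ∀ᵐ w ∂ρ, (fun w => (π w.2.2)ᴴ * m w * β w.1.2)
          (Prod.map ((skew α φ)^[p]) ((skew α φ)^[q]) w) = (π w.2.2)ᴴ * m w * β w.1.2)
    (hmS' : ∀ᵐ w ∂ρ, (fun w => (π' w.2.2)ᴴ * m' w * β w.1.2)
          (Prod.map ((skew α φ)^[p]) ((skew α φ)^[q]) w) = (π' w.2.2)ᴴ * m' w * β w.1.2) :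
    ∃ D : Set ((Z × K) × (Z × K)),
      MeasurableSet[aeInv ρ (Prod.map ((skew α φ)^[p]) ((skew α φ)^[q]))] D ∧
      (∀ᵐ w ∂ρ, w ∉ D → m w = 0) ∧ ∀ᵐ w ∂ρ, w ∈ D → m' w = 0 := by
  haveI : IsProbabilityMeasure ρ := hρ.prob
  have hle := WZ_le (skew α φ) p q ρ
  have hle' : aeInv ρ (Prod.map ((skew α φ)^[p]) ((skew α φ)^[q])) ≤ WZ (skew α φ) p q ρ :=
    le_sup_right
  have hk2 : Measurable fun w : (Z × K) × (Z × K) => w.2.2 :=
    measurable_snd.comp measurable_snd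
  have hk1 : Measurable fun w : (Z × K) × (Z × K) => w.1.2 :=
    measurable_snd.comp measurable_fst
  have hX : BMM fun w : (Z × K) × (Z × K) => (π w.2.2)ᴴ * m w * β w.1.2 :=
    ((hπ.bmm.comp hk2).conj.mul (hm.bmm hle)).mul (hβ.toRep.bmm.comp hk1)
  have hX' : BMM fun w : (Z × K) × (Z × K) => (π' w.2.2)ᴴ * m' w * β w.1.2 :=
    ((hπ'.bmm.comp hk2).conj.mul (hm'.bmm hle)).mul (hβ.toRep.bmm.comp hk1)
  -- (1) `m m'ᴴ = 0`
  have hN : ∀ᵐ w ∂ρ, m w * (m' w)ᴴ = 0 := by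
    have hn : BMM fun w : (Z × K) × (Z × K) =>
        ((π w.2.2)ᴴ * m w * β w.1.2) * ((π' w.2.2)ᴴ * m' w * β w.1.2)ᴴ := hX.mul hX'.conj
    have hn1 : WM (WZ (skew α φ) p q ρ) fun w : (Z × K) × (Z × K) =>
        ((π w.2.2)ᴴ * m w * β w.1.2) * ((π' w.2.2)ᴴ * m' w * β w.1.2)ᴴ := by
      refine iq4_wm _ (fun i j => ?_) hn
      refine (aeInv_meas ρ _ _ (hn i j).1 ?_).mono hle' le_rfl
      filter_upwards [hmS, hmS'] with w h1 h2
      exact congrArg₂ (fun (A : Matrix (Fin d) (Fin e) ℂ) (B : Matrix (Fin d') (Fin e) ℂ) =>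
        (A * Bᴴ) i j) h1 h2
    have h := avg_formula (WZ (skew α φ) p q ρ) muK ρ hle (fun w => w.2.2) hk2
      (fun u H hu hH => haar_snd lam muK hB p q hq hTq ρ hρ u hu H hH) hπ hπ'
      (fun w => m w * (m' w)ᴴ) _ (iq4_mulc _ hm hm') hn1
      (Filter.Eventually.of_forall fun w => by
        simp only [Matrix.conjTranspose_mul, Matrix.conjTranspose_conjTranspose]
        calc m w * (m' w)ᴴ = (π w.2.2 * (π w.2.2)ᴴ) * m w * (β w.1.2 * (β w.1.2)ᴴ) *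
              ((m' w)ᴴ * (π' w.2.2 * (π' w.2.2)ᴴ)) := by
              rw [hπ.unit, hπ'.unit, hβ.unit, Matrix.one_mul, Matrix.mul_one, Matrix.mul_one]
          _ = _ := by simp only [Matrix.mul_assoc])
    filter_upwards [h] with w hw
    ext i j
    rw [hw i j]
    exact hine _ i j
  -- (2) `mᴴ m = s • 1`
  have hn : BMM fun w : (Z × K) × (Z × K) =>
      ((π w.2.2)ᴴ * m w * β w.1.2)ᴴ * ((π w.2.2)ᴴ * m w * β w.1.2) := hX.conj.mul hX
  have hn0 : ∀ i j, Measurable[aeInv ρ (Prod.map ((skew α φ)^[p]) ((skew α φ)^[q]))]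
      fun w : (Z × K) × (Z × K) =>
      (((π w.2.2)ᴴ * m w * β w.1.2)ᴴ * ((π w.2.2)ᴴ * m w * β w.1.2)) i j := by
    intro i j
    refine aeInv_meas ρ _ _ (hn i j).1 ?_
    filter_upwards [hmS] with w h1
    exact congrArg (fun A : Matrix (Fin d) (Fin e) ℂ => (Aᴴ * A) i j) h1
  have hM : ∀ᵐ w ∂ρ, (m w)ᴴ * m w =
      ((((π w.2.2)ᴴ * m w * β w.1.2)ᴴ * ((π w.2.2)ᴴ * m w * β w.1.2)).trace / e) •
        (1 : Matrix (Fin e) (Fin e) ℂ) := by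
    have hn1 : WM (WZ (skew α φ) p q ρ) fun w : (Z × K) × (Z × K) =>
        ((π w.2.2)ᴴ * m w * β w.1.2)ᴴ * ((π w.2.2)ᴴ * m w * β w.1.2) :=
      iq4_wm _ (fun i j => (hn0 i j).mono hle' le_rfl) hn
    have h := avg_formula (WZ (skew α φ) p q ρ) muK ρ hle (fun w => w.1.2) hk1
      (fun u H hu hH => haar_fst lam muK hB p q hp hTp ρ hρ u hu H hH) hβ.toRep hβ.toRep
      (fun w => (m w)ᴴ * m w) _ (iq4_cmul _ hm hm) hn1
      (Filter.Eventually.of_forall fun w => by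
        simp only [Matrix.conjTranspose_mul, Matrix.conjTranspose_conjTranspose]
        calc (m w)ᴴ * m w = (β w.1.2 * (β w.1.2)ᴴ) * ((m w)ᴴ * (π w.2.2 * (π w.2.2)ᴴ)) * m w *
              (β w.1.2 * (β w.1.2)ᴴ) := by
              rw [hπ.unit, hβ.unit, Matrix.one_mul, Matrix.mul_one, Matrix.mul_one]
          _ = _ := by simp only [Matrix.mul_assoc])
    filter_upwards [h] with w hw
    ext i j
    rw [hw i j, schur_same muK hβ]
    simp only [Matrix.smul_apply, Matrix.one_apply, smul_eq_mul, mul_ite, mul_one, mul_zero]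
  have hs : Measurable[aeInv ρ (Prod.map ((skew α φ)^[p]) ((skew α φ)^[q]))]
      fun w : (Z × K) × (Z × K) =>
      (((π w.2.2)ᴴ * m w * β w.1.2)ᴴ * ((π w.2.2)ᴴ * m w * β w.1.2)).trace / (e : ℂ) := by
    refine Measurable.div_const ?_ _
    simp only [Matrix.trace, Matrix.diag]
    exact Finset.measurable_sum _ fun i _ => hn0 i i
  refine ⟨{w | (((π w.2.2)ᴴ * m w * β w.1.2)ᴴ * ((π w.2.2)ᴴ * m w * β w.1.2)).trace /
    (e : ℂ) ≠ 0}, ?_, ?_, ?_⟩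
  · exact (hs (measurableSet_singleton (0 : ℂ))).compl
  · filter_upwards [hM] with w hw hD
    have h0 : (((π w.2.2)ᴴ * m w * β w.1.2)ᴴ * ((π w.2.2)ᴴ * m w * β w.1.2)).trace /
        (e : ℂ) = 0 := by
      by_contra h
      exact hD h
    rw [h0, zero_smul] at hw
    open ComplexOrder in
    exact Matrix.conjTranspose_mul_self_eq_zero.1 hw
  · filter_upwards [hM, hN] with w hw hw' hD
    have h1 : (m w)ᴴ * m w * (m' w)ᴴ = 0 := by rw [Matrix.mul_assoc, hw', Matrix.mul_zero]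
    rw [hw, Matrix.smul_mul, Matrix.one_mul] at h1
    have h2 : (m' w)ᴴ = 0 := (smul_eq_zero.1 h1).resolve_left hD
    exact Matrix.conjTranspose_eq_zero.1 h2

end

end Pool.Agent.Lib.H82OG
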