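import Pool.Agent.Lib.H82OG.Defs
import Pool.Agent.Lib.H82OT.KR3
import Pool.Agent.Lib.H82OF.LVD

/-!
# Project H82OG, chunk LG: levels: σ-algebras, eigenvalues
-/

open MeasureTheory Filter Topology Finset ProbabilityTheory
open scoped ENNReal ComplexConjugate Matrix

namespace Pool.Agent.Lib.H82OG

open Pool.Agent.Lib.H22M Pool.Agent.Lib.H82T Pool.Agent.Lib.H82OT Pool.Agent.Lib.H82OF

section

variable {Z K : Type*} [CommGroup Z] [TopologicalSpace Z] [IsTopologicalGroup Z]
  [CompactSpace Z] [T2Space Z] [SecondCountableTopology Z] [MeasurableSpace Z] [BorelSpace Z]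
  [Group K] [TopologicalSpace K] [IsTopologicalGroup K] [CompactSpace K] [T2Space K]
  [SecondCountableTopology K] [MeasurableSpace K] [BorelSpace K]

/-- Proof. `Kron` for `π ∘ P`; `Kron.kronAlg` (`H82OT/KR3.lean`); compare `Lev.kronAlg` in
`H82OF/LV2.lean`. (`MeasurableEquiv.mulLeft c`.) -/
theorem LevG.kronAlg {Y B W : Type*} [MeasurableSpace Y] [MeasurableSpace B] [CommGroup W] [TopologicalSpace W]
    [IsTopologicalGroup W] [CompactSpace W] [T2Space W] [SecondCountableTopology W]
    [MeasurableSpace W] [BorelSpace W] {m : Measure Y} [IsProbabilityMeasure m]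
    {R : Y → Y} {lam : Measure Z} {muK : Measure K} {α : Z} {φ : Z → K} {mb : Measure B}
    {T : B → B} {P : Y → B} {θ : Z × K → B} {π : B → W} {c : W}
    (h : LevG m R lam muK α φ mb T P θ π c) :
    KronAlg (MeasurableSpace.comap (fun y => π (P y)) inferInstance) m R := by
  have hk : Kron m R (fun y => π (P y)) c := by
    refine ⟨h.measπ.comp h.presP.measurable, ae_of_all _ fun y => ?_, ?_, h.kron⟩
    · rw [h.equiP y, h.equiπ]
    · have h1 : (fun y => π (P y)) ∘ R = (fun w => c * w) ∘ fun y => π (P y) := by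
        funext y
        show π (P (R y)) = c * π (P y)
        rw [h.equiP y, h.equiπ]
      rw [MeasurableSpace.comap_comp, h1, ← MeasurableSpace.comap_comp]
      congr 1
      exact (MeasurableEquiv.mulLeft c).measurableEmbedding.comap_eq
  exact hk.kronAlg

/-- Proof. `comap (P ∘ R) = comap (T ∘ P) = comap P` (`T` is a measurable equivalence). -/
theorem comap_inv {Y B : Type*} [MeasurableSpace B] (R : Y → Y) (T : B ≃ᵐ B) (P : Y → B)
    (h : ∀ y, P (R y) = T (P y)) :
    (MeasurableSpace.comap P inferInstance).comap R = MeasurableSpace.comap P inferInstance := by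
  have h1 : P ∘ R = T ∘ P := funext h
  have h2 : MeasurableSpace.comap T (inferInstance : MeasurableSpace B) =
      (inferInstance : MeasurableSpace B) := T.measurableEmbedding.comap_eq
  rw [MeasurableSpace.comap_comp, h1, ← MeasurableSpace.comap_comp, h2]

theorem comap_le_comap {Y B W : Type*} [MeasurableSpace B] [MeasurableSpace W] (P : Y → B)
    (π : B → W) (hπ : Measurable π) :
    MeasurableSpace.comap (fun y => π (P y)) inferInstance ≤
      MeasurableSpace.comap P inferInstance := by
  have h1 : MeasurableSpace.comap (fun y => π (P y)) (inferInstance : MeasurableSpace W) =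
      MeasurableSpace.comap P (MeasurableSpace.comap π inferInstance) := by
    rw [MeasurableSpace.comap_comp]
    rfl
  rw [h1]
  exact MeasurableSpace.comap_mono hπ.comap_le

/-- Proof. As `rowB_factor` (`H82OF/LV2.lean`). -/
theorem rowB_factorG {Y B : Type*} [MeasurableSpace B] {d : ℕ} (P : Y → B) (F : Y → Fin d → ℂ)
    (hF : RowB (MeasurableSpace.comap P inferInstance) F) :
    ∃ F' : B → Fin d → ℂ, BMR F' ∧ ∀ y, F y = F' (P y) := by
  obtain ⟨hF1, C, hC⟩ := hF
  have hex : ∀ i, ∃ F₀ : B → ℂ, Measurable F₀ ∧ ∀ y, F y i = F₀ (P y) := by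
    intro i
    obtain ⟨F₀, hF₀, hfF⟩ := (hF1 i).exists_eq_measurable_comp
    exact ⟨F₀, hF₀, fun y => congrFun hfF y⟩
  choose F₀ hF₀ hF₀e using hex
  classical
  refine ⟨fun w i => if ‖F₀ i w‖ ≤ C then F₀ i w else 0, fun i => ⟨?_, |C|, fun w => ?_⟩, ?_⟩
  · exact Measurable.ite (measurableSet_le (hF₀ i).norm measurable_const) (hF₀ i) measurable_const
  · dsimp only
    split_ifs with h
    · exact h.trans (le_abs_self C)
    · simp
  · intro y
    funext i
    have h2 : ‖F₀ i (P y)‖ ≤ C := hF₀e i y ▸ hC y i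
    show F y i = if ‖F₀ i (P y)‖ ≤ C then F₀ i (P y) else 0
    rw [if_pos h2, hF₀e i y]

/-- Eigenvalues of `R` are eigenvalues of the group extension. Proof. An eigenfunction of `R` of modulus
one, made bounded (compare `Lev.goodPrimes_eq`, `H82OF/LV1.lean`), is `g ∘ π ∘ P` a.e. (`kron`); so
`g ∘ π` satisfies the relations `mb`-a.e. for `T`, and `g ∘ π ∘ θ` satisfies them a.e. for `skew α φ`
(`preθ`, `equiθ`). -/
theorem LevG.eig {Y B W : Type*} [MeasurableSpace Y] [MeasurableSpace B] [CommGroup W] [TopologicalSpace W]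
    [IsTopologicalGroup W] [CompactSpace W] [T2Space W] [SecondCountableTopology W]
    [MeasurableSpace W] [BorelSpace W] {m : Measure Y} [IsProbabilityMeasure m]
    {R : Y → Y} (hR : MeasurePreserving R m m) {lam : Measure Z} {muK : Measure K} {α : Z}
    {φ : Z → K} {mb : Measure B} {T : B → B} (hT : Measurable T) {P : Y → B} {θ : Z × K → B}
    {π : B → W} {c : W} (h : LevG m R lam muK α φ mb T P θ π c) (l : ℂ)
    (hl : IsEigenvalue m R l) : IsEigenvalue (lam.prod muK) (skew (M := K) α φ) l := by
  obtain ⟨f, hf, hf1, hfe⟩ := hl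
  classical
  set e : Y → ℂ := fun y => if ‖f y‖ = 1 then f y else 1 with he
  have heb : BM e := by
    refine ⟨Measurable.ite (measurableSet_eq_fun hf.norm measurable_const) hf
      measurable_const, 1, fun y => ?_⟩
    simp only [he]
    split_ifs with h1
    · exact h1.le
    · simp
  have hef : ∀ᵐ y ∂m, e y = f y := by
    filter_upwards [hf1] with y hy
    simp only [he]
    rw [if_pos hy]
  have hefR : ∀ᵐ y ∂m, e (R y) = f (R y) := hR.quasiMeasurePreserving.ae hef
  have hee : ∀ᵐ y ∂m, e (R y) = l * e y := by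
    filter_upwards [hef, hefR, hfe] with y h1 h2 h3
    rw [h1, h2, h3]
  obtain ⟨g, hg, hge⟩ := h.kron e l heb hee
  have hgeR : ∀ᵐ y ∂m, e (R y) = g (π (P (R y))) := hR.quasiMeasurePreserving.ae hge
  have hgπ : Measurable fun b : B => g (π b) := hg.1.comp h.measπ
  -- the relations on the factor
  have hn : ∀ᵐ b ∂mb, ‖g (π b)‖ = 1 := by
    rw [← h.presP.map_eq]
    refine (ae_map_iff h.presP.measurable.aemeasurable
      (measurableSet_eq_fun hgπ.norm measurable_const)).2 ?_
    filter_upwards [hge, hef, hf1] with y h1 h2 h3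
    rw [← h1, h2, h3]
  have hq : ∀ᵐ b ∂mb, g (π (T b)) = l * g (π b) := by
    rw [← h.presP.map_eq]
    refine (ae_map_iff h.presP.measurable.aemeasurable
      (measurableSet_eq_fun (hgπ.comp hT) (hgπ.const_mul l))).2 ?_
    filter_upwards [hge, hgeR, hee] with y h1 h2 h3
    show g (π (T (P y))) = l * g (π (P y))
    rw [← h.equiP y, ← h2, h3, h1]
  refine ⟨fun x => g (π (θ x)), hgπ.comp h.preθ.measurable, h.preθ.quasiMeasurePreserving.ae hn, ?_⟩
  filter_upwards [h.preθ.quasiMeasurePreserving.ae hq, h.equiθ] with x h1 h2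
  rw [h2]
  exact h1

/-- Proof. `T` preserves `mb` since `P ∘ R = T ∘ P`, `R` preserves `m` and `mb` is the image of `m`. -/
theorem LevG.presT {Y B W : Type*} [MeasurableSpace Y] [MeasurableSpace B] [CommGroup W] [TopologicalSpace W]
    [IsTopologicalGroup W] [CompactSpace W] [T2Space W] [SecondCountableTopology W]
    [MeasurableSpace W] [BorelSpace W] {m : Measure Y}
    {R : Y → Y} (hR : MeasurePreserving R m m) {lam : Measure Z} {muK : Measure K} {α : Z}
    {φ : Z → K} {mb : Measure B} {T : B → B} (hT : Measurable T) {P : Y → B} {θ : Z × K → B}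
    {π : B → W} {c : W} (h : LevG m R lam muK α φ mb T P θ π c) :
    MeasurePreserving T mb mb := by
  refine ⟨hT, ?_⟩
  have h1 : T ∘ P = P ∘ R := funext fun y => (h.equiP y).symm
  calc Measure.map T mb = Measure.map T (Measure.map P m) := by rw [h.presP.map_eq]
    _ = Measure.map (T ∘ P) m := Measure.map_map hT h.presP.measurable
    _ = Measure.map (P ∘ R) m := by rw [h1]
    _ = Measure.map P (Measure.map R m) := (Measure.map_map h.presP.measurable hR.measurable).symm
    _ = mb := by rw [hR.map_eq, h.presP.map_eq]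

end

end Pool.Agent.Lib.H82OG
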