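import Pool.Agent.Lib.H82OG.ER
import Pool.Agent.Lib.H82OT.WN1

/-!
# Project H82OG, chunk SN: functions orthogonal to the torsion eigenfunctions are small
-/

open MeasureTheory Filter Topology Finset ProbabilityTheory
open scoped ENNReal ComplexConjugate Matrix

namespace Pool.Agent.Lib.H82OG

open Pool.Agent.Lib.H22M Pool.Agent.Lib.H82T Pool.Agent.Lib.H82OT Pool.Agent.Lib.H82OF

private theorem sn_bm_sum {Y ι : Type*} [MeasurableSpace Y] (s : Finset ι) (e : ι → Y → ℂ)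
    (h : ∀ i, BM (e i)) : BM (fun y => ∑ i ∈ s, e i y) := by
  choose D hD using fun i => (h i).2
  exact ⟨Finset.measurable_sum _ fun i _ => (h i).1, ∑ i ∈ s, D i, fun y =>
    (norm_sum_le _ _).trans (Finset.sum_le_sum fun i _ => hD i y)⟩

private theorem sn_int_sq {Y : Type*} [MeasurableSpace Y] {m : Measure Y} [IsProbabilityMeasure m]
    {a : Y → ℂ} (ha : BM a) : Integrable (fun y => ‖a y‖ ^ 2) m := by
  obtain ⟨hm, C, hC⟩ := ha
  refine Integrable.of_bound (hm.norm.pow_const 2).aestronglyMeasurable (C ^ 2)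
    (Eventually.of_forall fun y => ?_)
  rw [Real.norm_eq_abs, abs_of_nonneg (by positivity)]
  exact pow_le_pow_left₀ (norm_nonneg _) (hC y) 2

/-- Pythagoras. -/
private theorem sn_pyth {Y : Type*} [MeasurableSpace Y] {m : Measure Y} [IsProbabilityMeasure m]
    {a b : Y → ℂ} (ha : BM a) (hb : BM b) (h : ∫ y, a y * conj (b y) ∂m = 0) :
    l2 m a ≤ l2 m (fun y => a y - b y) := by
  have h1 : ∫ y, ‖a y - b y‖ ^ 2 ∂m =
      ∫ y, ‖a y‖ ^ 2 ∂m + ∫ y, ‖b y‖ ^ 2 ∂m - 2 * (∫ y, a y * conj (b y) ∂m).re := by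
    have hi : Integrable (fun y => a y * conj (b y)) m := (ha.mul hb.conj).integrable
    have h2 : (∫ y, a y * conj (b y) ∂m).re = ∫ y, (a y * conj (b y)).re ∂m :=
      (integral_re hi).symm
    rw [h2, ← integral_add (sn_int_sq ha) (sn_int_sq hb), ← integral_const_mul, ← integral_sub]
    · refine integral_congr_ae (Eventually.of_forall fun y => ?_)
      show ‖a y - b y‖ ^ 2 = ‖a y‖ ^ 2 + ‖b y‖ ^ 2 - 2 * (a y * conj (b y)).re
      rw [← Complex.normSq_eq_norm_sq, ← Complex.normSq_eq_norm_sq, ← Complex.normSq_eq_norm_sq,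
        Complex.normSq_sub]
    · exact (sn_int_sq ha).add (sn_int_sq hb)
    · exact hi.re.const_mul 2
  rw [h, Complex.zero_re, mul_zero, sub_zero] at h1
  unfold l2
  apply Real.sqrt_le_sqrt
  rw [h1]
  have : 0 ≤ ∫ y, ‖b y‖ ^ 2 ∂m := integral_nonneg fun y => by positivity
  linarith

/-- Eigenfunctions with different eigenvalues are orthogonal. -/
private theorem sn_orth {Y : Type*} [MeasurableSpace Y] {m : Measure Y} [IsProbabilityMeasure m]
    {R : Y → Y} (hR : MeasurePreserving R m m) {a b : Y → ℂ} (ha : BM a) (hb : BM b) {s t : ℂ}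
    (ht : ‖t‖ = 1) (hst : s ≠ t) (has : ∀ᵐ y ∂m, a (R y) = s * a y)
    (hbt : ∀ᵐ y ∂m, b (R y) = t * b y) : ∫ y, a y * conj (b y) ∂m = 0 := by
  have hF : BM (fun y => a y * conj (b y)) := ha.mul hb.conj
  have h1 : ∫ y, a (R y) * conj (b (R y)) ∂m = ∫ y, a y * conj (b y) ∂m := by
    have h4 := integral_map (μ := m) (φ := R) hR.measurable.aemeasurable
      (f := fun y => a y * conj (b y)) (by rw [hR.map_eq]; exact hF.1.aestronglyMeasurable)
    rw [hR.map_eq] at h4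
    exact h4.symm
  have h2 : ∫ y, a (R y) * conj (b (R y)) ∂m = (s * conj t) * ∫ y, a y * conj (b y) ∂m := by
    rw [← integral_const_mul]
    refine integral_congr_ae ?_
    filter_upwards [has, hbt] with y e1 e2
    rw [e1, e2, map_mul]
    ring
  have h3 : (1 - s * conj t) * ∫ y, a y * conj (b y) ∂m = 0 := by
    linear_combination h2 - h1
  rcases mul_eq_zero.1 h3 with h5 | h5
  · exfalso
    apply hst
    have ht2 : conj t * t = 1 := by
      rw [mul_comm, Complex.mul_conj, Complex.normSq_eq_norm_sq, ht]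
      norm_num
    linear_combination (-t) * h5 + s * (-1 : ℂ) * ht2
  · exact h5

/-- Proof. Let `C` bound `g`, `δ = ε / (C + 1)`, `l, e` from `hk.dense`: `l2 m (f - ∑ e i) ≤ δ`. Let `I` be the
set of the `i` for which `l i` is a root of unity, `et = ∑_{i ∈ I} e i`, `en = ∑_{i ∉ I} e i`. Then
`f - en ⟂ et`: for `i ∈ I` either `e i = 0` a.e. or `l i` is an eigenvalue (`isEigenvalue_of_eigen`,
`H22M/EG.lean`), so `l i ^ N = 1` and `∫ f conj (e i) = 0` by `ho`; and `∫ e j conj (e i) = 0` for `l j ≠ l i`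
(`∫ e j conj (e i) = l j conj (l i) ∫ e j conj (e i)`, `‖l i‖ = 1`). So
`l2 m (f - en)² + l2 m et² = l2 m (f - en - et)²` and `l2 m (f - en) ≤ δ`. `F = {l i : i ∉ I}`. If `ν`
kills `F` then `∫ en(z.1) g(z.2) dν = 0` and `‖∫ (f - en)(z.1) g(z.2) dν‖ ≤ l2 m (f - en) C ≤ ε`
(marginal of `ν`). -/
theorem small_nr {Y : Type*} {𝒵 : MeasurableSpace Y} [mY : MeasurableSpace Y]
    {m : Measure Y} [IsProbabilityMeasure m] {R : Y → Y} (hR : Ergodic R m)
    (hk : KronAlg 𝒵 m R) (N : ℕ) (hN : Tors m R N) (f : Y → ℂ) (hf : Measurable[𝒵] f)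
    (hb : ∃ C : ℝ, ∀ y, ‖f y‖ ≤ C)
    (ho : ∀ (e : Y → ℂ) (l : ℂ), BM e → (∀ᵐ y ∂m, e (R y) = l * e y) → l ^ N = 1 →
      ∫ y, f y * conj (e y) ∂m = 0) (g : Y → ℂ) (hg : BM g) (ε : ℝ) (hε : 0 < ε) :
    ∃ F : Finset ℂ, (∀ c ∈ F, NR c) ∧ ∀ ν : Measure (Y × Y), IsSelf m R ν → Kills m R F ν →
      ‖∫ z, f z.1 * g z.2 ∂ν‖ ≤ ε := by
  classical
  have hfB : BM f := ⟨hf.mono hk.le le_rfl, hb⟩
  have hG : 0 ≤ l2 m g := Real.sqrt_nonneg _
  have hδ : 0 < ε / (l2 m g + 1) := by positivity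
  obtain ⟨k, l, e, he, hl⟩ := hk.dense f hf hb _ hδ
  obtain ⟨T, hT⟩ : ∃ T : Finset (Fin k), T = Finset.univ.filter
    (fun i => ∃ n : ℕ, 1 ≤ n ∧ l i ^ n = 1) := ⟨_, rfl⟩
  have hTm : ∀ i, i ∈ T ↔ ∃ n : ℕ, 1 ≤ n ∧ l i ^ n = 1 := fun i => by
    rw [hT, Finset.mem_filter]
    simp
  have hen : BM (fun y => ∑ i ∈ Tᶜ, e i y) := sn_bm_sum _ _ fun i => (he i).1
  have het : BM (fun y => ∑ i ∈ T, e i y) := sn_bm_sum _ _ fun i => (he i).1
  have hsub : BM (fun y => f y - ∑ i ∈ Tᶜ, e i y) := hfB.sub hen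
  -- orthogonality
  have horth : ∫ y, (f y - ∑ i ∈ Tᶜ, e i y) * conj (∑ i ∈ T, e i y) ∂m = 0 := by
    have e1 : (fun y => (f y - ∑ i ∈ Tᶜ, e i y) * conj (∑ i ∈ T, e i y)) =
        fun y => ∑ i ∈ T, (f y - ∑ i ∈ Tᶜ, e i y) * conj (e i y) := by
      funext y
      rw [map_sum, Finset.mul_sum]
    rw [e1, integral_finsetSum]
    swap
    · intro i _
      exact (hsub.mul (he i).1.conj).integrable
    refine Finset.sum_eq_zero fun i hi => ?_
    have h1 : ∫ y, f y * conj (e i y) ∂m = 0 := by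
      by_cases h0 : ∀ᵐ y ∂m, e i y = 0
      · have : ∫ y, f y * conj (e i y) ∂m = ∫ y, (0 : ℂ) ∂m := by
          refine integral_congr_ae ?_
          filter_upwards [h0] with y hy
          rw [hy, map_zero, mul_zero]
        rw [this, integral_zero]
      · have hE := isEigenvalue_of_eigen hR (e i) (he i).1.1 (l i) (he i).2.1 (he i).2.2 h0
        obtain ⟨n, hn1, hn⟩ := (hTm i).1 hi
        exact ho (e i) (l i) (he i).1 (he i).2.2 (hN.2 _ hE n hn1 hn)
    have h2 : ∀ j ∈ Tᶜ, ∫ y, e j y * conj (e i y) ∂m = 0 := by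
      intro j hj
      refine sn_orth hR.toMeasurePreserving (he j).1 (he i).1 (he i).2.1 ?_ (he j).2.2 (he i).2.2
      intro hji
      rw [Finset.mem_compl] at hj
      apply hj
      rw [hTm, hji]
      exact (hTm i).1 hi
    have e2 : (fun y => (f y - ∑ i ∈ Tᶜ, e i y) * conj (e i y)) =
        fun y => f y * conj (e i y) - ∑ j ∈ Tᶜ, e j y * conj (e i y) := by
      funext y
      rw [sub_mul, Finset.sum_mul]
    rw [e2, integral_sub, integral_finsetSum, h1, Finset.sum_eq_zero h2, sub_zero]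
    · intro j _
      exact ((he j).1.mul (he i).1.conj).integrable
    · exact (hfB.mul (he i).1.conj).integrable
    · exact integrable_finsetSum _ fun j _ => ((he j).1.mul (he i).1.conj).integrable
  have hl2 : l2 m (fun y => f y - ∑ i ∈ Tᶜ, e i y) ≤ ε / (l2 m g + 1) := by
    refine (sn_pyth hsub het horth).trans ?_
    refine le_of_eq_of_le ?_ hl
    congr 1
    funext y
    rw [← Finset.sum_add_sum_compl T (fun i => e i y)]
    ring
  refine ⟨Tᶜ.image l, ?_, ?_⟩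
  · intro c hc n hn1 hn
    obtain ⟨i, hi, rfl⟩ := Finset.mem_image.1 hc
    rw [Finset.mem_compl] at hi
    exact hi ((hTm i).2 ⟨n, hn1, hn⟩)
  · intro ν hν hK
    have := hν.prob
    have h1 : ∀ i ∈ Tᶜ, ∫ z, e i z.1 * g z.2 ∂ν = 0 := fun i hi =>
      (hK (l i) (Finset.mem_image_of_mem l hi) (he i).2.1 (e i) (he i).1 (he i).2.2 g hg).1
    have h2 : ∫ z, f z.1 * g z.2 ∂ν = ∫ z, (f z.1 - ∑ i ∈ Tᶜ, e i z.1) * g z.2 ∂ν := by
      have e2 : (fun z : Y × Y => (f z.1 - ∑ i ∈ Tᶜ, e i z.1) * g z.2) =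
          fun z => f z.1 * g z.2 - ∑ j ∈ Tᶜ, e j z.1 * g z.2 := by
        funext z
        rw [sub_mul, Finset.sum_mul]
      rw [e2, integral_sub, integral_finsetSum, Finset.sum_eq_zero h1, sub_zero]
      · intro j _
        exact (((he j).1.comp measurable_fst).mul (hg.comp measurable_snd)).integrable
      · exact ((hfB.comp measurable_fst).mul (hg.comp measurable_snd)).integrable
      · exact integrable_finsetSum _ fun j _ =>
          (((he j).1.comp measurable_fst).mul (hg.comp measurable_snd)).integrable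
    rw [h2]
    refine (hν.norm_le hsub hg).trans ?_
    calc l2 m (fun y => f y - ∑ i ∈ Tᶜ, e i y) * l2 m g ≤ ε / (l2 m g + 1) * l2 m g :=
          mul_le_mul_of_nonneg_right hl2 hG
      _ ≤ ε / (l2 m g + 1) * (l2 m g + 1) :=
          mul_le_mul_of_nonneg_left (by linarith) hδ.le
      _ = ε := by
          field_simp

end Pool.Agent.Lib.H82OG
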