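import Pool.Agent.Lib.H82OG.Defs
import Pool.Agent.Lib.H22M.W2
import Pool.Agent.Lib.H82OT.WN1

/-!
# Project H82OG, chunk WF: small correlations for finite families
-/

open MeasureTheory Filter Topology Finset ProbabilityTheory
open scoped ENNReal ComplexConjugate Matrix

namespace Pool.Agent.Lib.H82OG

open Pool.Agent.Lib.H22M Pool.Agent.Lib.H82T Pool.Agent.Lib.H82OT Pool.Agent.Lib.H82OF

section wf

open scoped InnerProductSpace

private theorem WF_op {H : Type*} [NormedAddCommGroup H] [InnerProductSpace ℂ H]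
    [CompleteSpace H] (U : H →ₗᵢ[ℂ] H) (x : H) :
    ((w2B U x : H →L[ℂ] H) : H →ₗ[ℂ] H).IsSymmetric ∧ (∀ y, 0 ≤ (⟪w2B U x y, y⟫_ℂ).re) ∧
      (∀ (k : ℕ) (e : Fin k → H), Orthonormal ℂ e →
        ∑ i, (⟪w2B U x (e i), e i⟫_ℂ).re ≤ ‖x‖ ^ 2) ∧
      (∀ y, w2B U x (U y) = U (w2B U x y)) ∧
      (∀ a, (∀ n : ℕ, ⟪a, (⇑U)^[n] x⟫_ℂ = 0) → ∀ b, ⟪a, w2B U x b⟫_ℂ = 0) ∧
      (w2B U x = 0 → ∀ δ : ℝ, 0 < δ → ∀ᶠ N : ℕ in (hyperfilter ℕ : Filter ℕ),
        ∑ n ∈ range N, ‖⟪(⇑U)^[n] x, x⟫_ℂ‖ ^ 2 ≤ δ * N) := by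
  have hre : ∀ a, Tendsto (fun N : ℕ => (N : ℝ)⁻¹ * ∑ n ∈ range N, ‖⟪a, (⇑U)^[n] x⟫_ℂ‖ ^ 2)
      (hyperfilter ℕ) (𝓝 (⟪w2B U x a, a⟫_ℂ).re) := by
    intro a
    have h1 := (Complex.continuous_re.tendsto _).comp (w2L_spec U x a a)
    rw [w2B_left]
    refine h1.congr fun N => ?_
    rw [Function.comp, w2S_self, Complex.ofReal_re]
  have hinvN : Tendsto (fun N : ℕ => (N : ℝ)⁻¹) (hyperfilter ℕ) (𝓝 0) :=
    tendsto_inv_atTop_nhds_zero_nat.mono_left Nat.hyperfilter_le_atTop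
  have hzero : ∀ a b, (∀ n : ℕ, 1 ≤ n → ⟪a, (⇑U)^[n] x⟫_ℂ = 0) → w2L U x a b = 0 := by
    intro a b h
    apply w2L_eq
    refine squeeze_zero_norm (a := fun N : ℕ => (N : ℝ)⁻¹ * (‖x‖ * ‖x‖ * ‖a‖ * ‖b‖)) (fun N => ?_) ?_
    · unfold w2S
      rw [norm_mul, norm_inv, Complex.norm_natCast]
      refine mul_le_mul_of_nonneg_left ?_ (by positivity)
      rcases Nat.eq_zero_or_pos N with rfl | hN
      · simp
        positivity
      · rw [Finset.sum_eq_single_of_mem 0 (Finset.mem_range.2 hN)]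
        · exact w2_term U x 0 a b
        · intro n _ hn
          rw [h n (Nat.one_le_iff_ne_zero.2 hn), zero_mul]
    · simpa using hinvN.mul_const (‖x‖ * ‖x‖ * ‖a‖ * ‖b‖)
  have hUU : ∀ a b, w2L U x (U a) (U b) = w2L U x a b := by
    intro a b
    apply w2L_eq
    have h1 : Tendsto (fun N : ℕ => w2S U x N (U a) (U b) - w2S U x N a b) (hyperfilter ℕ) (𝓝 0) := by
      refine squeeze_zero_norm (a := fun N : ℕ => (N : ℝ)⁻¹ * (2 * (‖x‖ * ‖x‖ * ‖a‖ * ‖b‖)))
        (fun N => ?_) ?_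
      · unfold w2S
        rw [← mul_sub, norm_mul, norm_inv, Complex.norm_natCast]
        refine mul_le_mul_of_nonneg_left ?_ (by positivity)
        rcases Nat.eq_zero_or_pos N with rfl | hN
        · simp
          positivity
        · obtain ⟨M, rfl⟩ : ∃ M, N = M + 1 := ⟨N - 1, by omega⟩
          rw [Finset.sum_range_succ', Finset.sum_range_succ]
          have h2 : ∀ n ∈ range M, ⟪U a, (⇑U)^[n + 1] x⟫_ℂ * ⟪(⇑U)^[n + 1] x, U b⟫_ℂ =
              ⟪a, (⇑U)^[n] x⟫_ℂ * ⟪(⇑U)^[n] x, b⟫_ℂ := by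
            intro n _
            rw [Function.iterate_succ_apply', U.inner_map_map, U.inner_map_map]
          rw [Finset.sum_congr rfl h2, add_sub_add_left_eq_sub]
          refine (norm_sub_le _ _).trans ?_
          have h3 := w2_term U x 0 (U a) (U b)
          have h4 := w2_term U x M a b
          rw [U.norm_map, U.norm_map] at h3
          linarith
      · simpa using hinvN.mul_const (2 * (‖x‖ * ‖x‖ * ‖a‖ * ‖b‖))
    have h2 := h1.add (w2L_spec U x a b)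
    simpa using h2
  refine ⟨?_, ?_, ?_, ?_, ?_, ?_⟩
  · intro v w
    exact (w2B_left U x v w).trans (w2B_right U x v w).symm
  · intro y
    exact ge_of_tendsto (hre y) (Eventually.of_forall fun N => by positivity)
  · intro k e he
    have h1 : Tendsto (fun N : ℕ => ∑ i, (N : ℝ)⁻¹ * ∑ n ∈ range N, ‖⟪e i, (⇑U)^[n] x⟫_ℂ‖ ^ 2)
        (hyperfilter ℕ) (𝓝 (∑ i, (⟪w2B U x (e i), e i⟫_ℂ).re)) :=
      tendsto_finsetSum _ fun i _ => hre (e i)
    refine le_of_tendsto h1 (Eventually.of_forall fun N => ?_)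
    rw [← Finset.mul_sum, Finset.sum_comm]
    have h2 : ∀ n ∈ range N, ∑ i, ‖⟪e i, (⇑U)^[n] x⟫_ℂ‖ ^ 2 ≤ ‖x‖ ^ 2 := by
      intro n _
      have := he.sum_inner_products_le ((⇑U)^[n] x) (s := Finset.univ)
      rwa [w2_norm] at this
    have h3 := Finset.sum_le_sum h2
    rw [Finset.sum_const, Finset.card_range, nsmul_eq_mul] at h3
    rcases Nat.eq_zero_or_pos N with rfl | hN
    · simp
    · have hN' : (0 : ℝ) < N := by exact_mod_cast hN
      rw [inv_mul_le_iff₀ hN']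
      exact h3
  · intro b
    rw [← sub_eq_zero]
    set d := w2B U x (U b) - U (w2B U x b) with hd
    have h1 : ∀ a, ⟪U a, d⟫_ℂ = 0 := by
      intro a
      rw [hd, inner_sub_right, w2B_right, hUU, U.inner_map_map, w2B_right, sub_self]
    have h2 : ∀ n : ℕ, 1 ≤ n → ⟪d, (⇑U)^[n] x⟫_ℂ = 0 := by
      intro n hn
      obtain ⟨m, rfl⟩ : ∃ m, n = m + 1 := ⟨n - 1, by omega⟩
      rw [Function.iterate_succ_apply', ← inner_conj_symm, h1, map_zero]
    have h3 : ⟪d, d⟫_ℂ = 0 := by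
      conv_lhs => rw [hd]
      rw [← hd, inner_sub_right, w2B_right, hzero d _ h2, ← inner_conj_symm d (U _), h1, map_zero,
        sub_zero]
    exact inner_self_eq_zero.1 h3
  · intro a h b
    rw [w2B_right]
    exact hzero a b fun n _ => h n
  · intro hB δ hδ
    have h1 := hre x
    rw [hB] at h1
    simp only [zero_apply, inner_zero_left, Complex.zero_re] at h1
    have h2 : ∀ᶠ N : ℕ in (hyperfilter ℕ : Filter ℕ),
        (N : ℝ)⁻¹ * ∑ n ∈ range N, ‖⟪x, (⇑U)^[n] x⟫_ℂ‖ ^ 2 < δ := h1.eventually_lt_const hδ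
    have h3 : ∀ᶠ N : ℕ in (hyperfilter ℕ : Filter ℕ), 1 ≤ N :=
      (eventually_ge_atTop 1).filter_mono Nat.hyperfilter_le_atTop
    filter_upwards [h2, h3] with N hN1 hN2
    have hN' : (0 : ℝ) < N := by exact_mod_cast hN2
    rw [inv_mul_lt_iff₀ hN'] at hN1
    have h4 : ∀ n ∈ range N, ‖⟪(⇑U)^[n] x, x⟫_ℂ‖ ^ 2 = ‖⟪x, (⇑U)^[n] x⟫_ℂ‖ ^ 2 := by
      intro n _
      rw [norm_inner_symm]
    rw [Finset.sum_congr rfl h4]
    linarith

private theorem WF_wiener {H : Type*} [NormedAddCommGroup H] [InnerProductSpace ℂ H] [CompleteSpace H]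
    (U : H →ₗᵢ[ℂ] H) (x : H) (hx : ∀ (c : ℂ) (w : H), U w = c • w → inner ℂ w x = 0) (δ : ℝ)
    (hδ : 0 < δ) :
    ∀ᶠ N : ℕ in (hyperfilter ℕ : Filter ℕ),
      ∑ n ∈ range N, ‖inner ℂ ((⇑U)^[n] x) x‖ ^ 2 ≤ δ * N := by
  obtain ⟨hsym, hpos, htr, hcomm, hort, hlast⟩ := WF_op U x
  set B := w2B U x with hB
  have hB0 : B = 0 := by
    by_contra hne
    have hcpt := isCompactOperator_of_trace B hsym hpos _ htr
    obtain ⟨β, hβ, hE⟩ := exists_eigenvalue_ne_zero B hcpt hsym hne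
    have hfin := finiteDimensional_eigenspace B hcpt β hβ
    have hmem : ∀ v, v ∈ Module.End.eigenspace (B : H →ₗ[ℂ] H) β ↔ B v = β • v :=
      fun v => Module.End.mem_eigenspace_iff
    obtain ⟨c, w, hw, hw0, hc, hUw⟩ := exists_eigenvector U _ hE (by
      intro v hv
      rw [hmem] at hv ⊢
      rw [hcomm, hv, map_smul])
    have h1 : ∀ n : ℕ, (⇑U)^[n] w = c ^ n • w := by
      intro n
      induction n with
      | zero => simp
      | succ n ih => rw [Function.iterate_succ_apply', ih, map_smul, hUw, smul_smul, pow_succ]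
    have h2 : ∀ n : ℕ, ⟪(⇑U)^[n] w, (⇑U)^[n] x⟫_ℂ = ⟪w, x⟫_ℂ := by
      intro n
      induction n with
      | zero => rfl
      | succ n ih => rw [Function.iterate_succ_apply', Function.iterate_succ_apply', U.inner_map_map, ih]
    have hc0 : c ≠ 0 := by
      rintro rfl
      simp at hc
    have h3 : ∀ n : ℕ, ⟪w, (⇑U)^[n] x⟫_ℂ = 0 := by
      intro n
      have h4 := h2 n
      rw [h1, hx c w hUw, inner_smul_left] at h4
      rcases mul_eq_zero.1 h4 with h5 | h5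
      · exfalso
        rw [map_eq_zero] at h5
        exact pow_ne_zero n hc0 h5
      · exact h5
    have h4 := hort w h3 w
    rw [hmem] at hw
    rw [hw, inner_smul_right] at h4
    rcases mul_eq_zero.1 h4 with h5 | h5
    · exact hβ h5
    · exact hw0 (inner_self_eq_zero.1 h5)
  exact hlast hB0 δ hδ

end wf

/-- Proof. As `wiener_aux` (`H22M/W2.lean`): `B = w2B U x` vanishes (this is shown there from
`exists_average_operator`; see how `exists_average_operator` is proved from `w2B`, the operator is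
`w2B U x`; repeat the argument of `wiener_aux` for it), so `w2L U x x x = ⟪w2B U x x, x⟫ = 0` and
`w2L_spec` with `w2S_self` gives the claim along the hyperfilter. -/
theorem wiener_hyper {H : Type*} [NormedAddCommGroup H] [InnerProductSpace ℂ H] [CompleteSpace H]
    (U : H →ₗᵢ[ℂ] H) (x : H) (hx : ∀ (c : ℂ) (w : H), U w = c • w → inner ℂ w x = 0) (δ : ℝ)
    (hδ : 0 < δ) :
    ∀ᶠ N : ℕ in (hyperfilter ℕ : Filter ℕ),
      ∑ n ∈ range N, ‖inner ℂ ((⇑U)^[n] x) x‖ ^ 2 ≤ δ * N := by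
  exact WF_wiener U x hx δ hδ

private theorem WF_one {Y : Type*} [MeasurableSpace Y] {m : Measure Y}
    [IsProbabilityMeasure m] {R : Y → Y} (hR : Ergodic R m) (a : Y → ℂ) (ha : BM a)
    (ho : ∀ (e : Y → ℂ) (l : ℂ), BM e → (∀ᵐ y ∂m, e (R y) = l * e y) →
      ∫ y, a y * conj (e y) ∂m = 0) (δ : ℝ) (hδ : 0 < δ) :
    ∀ᶠ N : ℕ in (hyperfilter ℕ : Filter ℕ), ∑ n ∈ range N, ∑ j ∈ range N,
      ‖∫ y, a (R^[n] y) * conj (a (R^[j] y)) ∂m‖ ≤ δ * (N : ℝ) ^ 2 := by
  classical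
  obtain ⟨ham, C, hC⟩ := ha
  have hMP := hR.toMeasurePreserving
  set U : Lp ℂ 2 m →ₗᵢ[ℂ] Lp ℂ 2 m := Lp.compMeasurePreservingₗᵢ ℂ R hMP with hU
  have ha0 : MemLp a 2 m :=
    MemLp.of_bound ham.aestronglyMeasurable C (Eventually.of_forall hC)
  set x : Lp ℂ 2 m := ha0.toLp _ with hx
  have hxa : x =ᵐ[m] a := ha0.coeFn_toLp
  have hUc : ∀ z : Lp ℂ 2 m, (U z : Y → ℂ) =ᵐ[m] fun y => (z : Y → ℂ) (R y) := fun z =>
    Lp.coeFn_compMeasurePreserving z hMP
  have horth : ∀ (c : ℂ) (w : Lp ℂ 2 m), U w = c • w → inner ℂ w x = 0 := by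
    intro c w hw
    by_cases hw0 : w = 0
    · rw [hw0, inner_zero_left]
    have hc : ‖c‖ = 1 := by
      have h1 : ‖w‖ = ‖c‖ * ‖w‖ := by
        rw [← norm_smul, ← hw, U.norm_map]
      have h2 : ‖w‖ ≠ 0 := norm_ne_zero_iff.2 hw0
      field_simp at h1
      exact h1.symm
    have hwR : ∀ᵐ y ∂m, (w : Y → ℂ) (R y) = c * (w : Y → ℂ) y := by
      have h2 := hUc w
      rw [hw] at h2
      filter_upwards [h2, Lp.coeFn_smul c w] with y e1 e2
      rw [← e1, e2]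
      rfl
    have hwm : Measurable (w : Y → ℂ) := (Lp.stronglyMeasurable w).measurable
    obtain ⟨β, hβ0, hβ⟩ := norm_const_of_eigen hR _ hwm c hc hwR
    obtain ⟨e, he⟩ : ∃ e : Y → ℂ, ∀ y, e y =
      if ‖(w : Y → ℂ) y‖ ≤ β then (w : Y → ℂ) y else 0 := ⟨_, fun _ => rfl⟩
    have hew : ∀ᵐ y ∂m, e y = (w : Y → ℂ) y := by
      filter_upwards [hβ] with y hy
      rw [he, if_pos hy.le]
    have hem : Measurable e := by
      have h1 : e = fun y => if ‖(w : Y → ℂ) y‖ ≤ β then (w : Y → ℂ) y else 0 := by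
        funext y
        exact he y
      rw [h1]
      exact Measurable.ite (measurableSet_le hwm.norm measurable_const) hwm measurable_const
    have hebd : ∀ y, ‖e y‖ ≤ β := by
      intro y
      rw [he]
      split_ifs with h
      · exact h
      · rw [norm_zero]
        exact hβ0
    have heR : ∀ᵐ y ∂m, e (R y) = c * e y := by
      have h1 : ∀ᵐ y ∂m, e (R y) = (w : Y → ℂ) (R y) :=
        hMP.quasiMeasurePreserving.ae hew
      filter_upwards [h1, hew, hwR] with y e1 e2 e3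
      rw [e1, e3, e2]
    rw [← ho e c ⟨hem, β, hebd⟩ heR, L2.inner_def]
    apply integral_congr_ae
    filter_upwards [hxa, hew] with y e1 e2
    rw [RCLike.inner_apply, e1, e2]
  have hint : ∀ n j : ℕ, ∫ y, a (R^[n] y) * conj (a (R^[j] y)) ∂m =
      inner ℂ ((⇑U)^[j] x) ((⇑U)^[n] x) := by
    intro n j
    rw [L2.inner_def]
    apply integral_congr_ae
    filter_upwards [dg_iter hMP U hUc x _ hxa n, dg_iter hMP U hUc x _ hxa j] with y e1 e2
    rw [RCLike.inner_apply, e1, e2]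
  filter_upwards [wiener_hyper U x horth (δ ^ 2 / 4) (by positivity)] with N hN
  have := dg_double U x N δ hδ hN
  refine le_trans (le_of_eq ?_) this
  refine Finset.sum_congr rfl fun n _ => Finset.sum_congr rfl fun j _ => ?_
  rw [hint n j]

/-- Proof. As `exists_small_corr` (`H82OT/WN1.lean`) with `wiener_hyper` instead of `wiener_aux`; finitely
many properties which hold for eventually all `N` along the hyperfilter hold for a common `N ≥ 1`
(`hyperfilter` contains the cofinite sets). -/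
theorem exists_small_corr_family {Y : Type*} [MeasurableSpace Y] {m : Measure Y}
    [IsProbabilityMeasure m] {R : Y → Y} (hR : Ergodic R m) {ι : Type*} [Fintype ι]
    (a : ι → Y → ℂ) (ha : ∀ i, BM (a i))
    (ho : ∀ i (e : Y → ℂ) (l : ℂ), BM e → (∀ᵐ y ∂m, e (R y) = l * e y) →
      ∫ y, a i y * conj (e y) ∂m = 0) (δ : ℝ) (hδ : 0 < δ) :
    ∃ N : ℕ, 1 ≤ N ∧ ∀ i, ∑ n ∈ range N, ∑ j ∈ range N,
      ‖∫ y, a i (R^[n] y) * conj (a i (R^[j] y)) ∂m‖ ≤ δ * (N : ℝ) ^ 2 := by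
  have h1 : ∀ᶠ N : ℕ in (hyperfilter ℕ : Filter ℕ), 1 ≤ N :=
    (eventually_ge_atTop 1).filter_mono Nat.hyperfilter_le_atTop
  have h2 : ∀ᶠ N : ℕ in (hyperfilter ℕ : Filter ℕ), ∀ i, ∑ n ∈ range N, ∑ j ∈ range N,
      ‖∫ y, a i (R^[n] y) * conj (a i (R^[j] y)) ∂m‖ ≤ δ * (N : ℝ) ^ 2 :=
    eventually_all.2 fun i => WF_one hR (a i) (ha i) (ho i) δ hδ
  obtain ⟨N, hN1, hN2⟩ := (h1.and h2).exists
  exact ⟨N, hN1, hN2⟩

/-- Proof. `exists_small_corr_family` for the family of the `a i + s • b i`, `s ∈ {1, -1, i, -i}`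
(index type `ι × Fin 4`) and polarization: `4 a conj b = ∑_s s (a + s b) conj (a + s b)`
with `a = a i (R^[n] y)`, `b = b i (R^[j] y)`; apply it under the integral to
`a i (R^[n] y) conj (b i (R^[j] y))` (the four products are
`(a i + s b i)(R^[n] y) conj ((a i + s b i)(R^[j] y))`; check that
`∑_s s (a n + s b n) conj (a j + s b j) = 4 a n conj (b j)` for `∑_s s = ∑_s s² = 0`, `s conj s = 1`,
`∑_s s * conj s = 4`). -/
theorem exists_small_cross {Y : Type*} [MeasurableSpace Y] {m : Measure Y}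
    [IsProbabilityMeasure m] {R : Y → Y} (hR : Ergodic R m) {ι : Type*} [Fintype ι]
    (a b : ι → Y → ℂ) (ha : ∀ i, BM (a i)) (hb : ∀ i, BM (b i))
    (ho : ∀ i (e : Y → ℂ) (l : ℂ), BM e → (∀ᵐ y ∂m, e (R y) = l * e y) →
      ∫ y, a i y * conj (e y) ∂m = 0)
    (ho' : ∀ i (e : Y → ℂ) (l : ℂ), BM e → (∀ᵐ y ∂m, e (R y) = l * e y) →
      ∫ y, b i y * conj (e y) ∂m = 0) (δ : ℝ) (hδ : 0 < δ) :
    ∃ N : ℕ, 1 ≤ N ∧ ∀ i, ∑ n ∈ range N, ∑ j ∈ range N,
      ‖∫ y, a i (R^[n] y) * conj (b i (R^[j] y)) ∂m‖ ≤ δ * (N : ℝ) ^ 2 := by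
  have hMP := hR.toMeasurePreserving
  obtain ⟨s, hs⟩ : ∃ s : Fin 4 → ℂ, s = ![1, -1, Complex.I, -Complex.I] := ⟨_, rfl⟩
  have hs1 : ∀ k, ‖s k‖ = 1 := by
    intro k
    rw [hs]
    fin_cases k <;> simp
  have hbm : ∀ p : ι × Fin 4, BM (fun y => a p.1 y + s p.2 * b p.1 y) := by
    intro p
    obtain ⟨h1, C, hC⟩ := ha p.1
    obtain ⟨h2, D, hD⟩ := hb p.1
    refine ⟨h1.add (h2.const_mul _), C + D, fun y => ?_⟩
    refine (norm_add_le _ _).trans ?_
    rw [norm_mul, hs1, one_mul]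
    exact add_le_add (hC y) (hD y)
  have hint : ∀ (f g : Y → ℂ), BM f → BM g → Integrable (fun y => f y * conj (g y)) m := by
    intro f g hf hg
    obtain ⟨h1, C, hC⟩ := hf
    obtain ⟨h2, D, hD⟩ := hg
    refine Integrable.of_bound (h1.mul (Complex.continuous_conj.measurable.comp h2)).aestronglyMeasurable
      (C * D) (Eventually.of_forall fun y => ?_)
    rw [norm_mul, RCLike.norm_conj]
    exact mul_le_mul (hC y) (hD y) (norm_nonneg _) ((norm_nonneg _).trans (hC y))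
  have hort : ∀ (p : ι × Fin 4) (e : Y → ℂ) (l : ℂ), BM e → (∀ᵐ y ∂m, e (R y) = l * e y) →
      ∫ y, (a p.1 y + s p.2 * b p.1 y) * conj (e y) ∂m = 0 := by
    intro p e l he hl
    have h1 : ∫ y, (a p.1 y + s p.2 * b p.1 y) * conj (e y) ∂m =
        ∫ y, (a p.1 y * conj (e y) + s p.2 * (b p.1 y * conj (e y))) ∂m := by
      congr 1
      funext y
      ring
    rw [h1, integral_add (hint _ _ (ha p.1) he) ((hint _ _ (hb p.1) he).const_mul _),
      integral_const_mul, ho p.1 e l he hl, ho' p.1 e l he hl, mul_zero, add_zero]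
  obtain ⟨N, hN1, hN⟩ := exists_small_corr_family hR
    (fun (p : ι × Fin 4) y => a p.1 y + s p.2 * b p.1 y) hbm hort δ hδ
  refine ⟨N, hN1, fun i => ?_⟩
  have hit : ∀ (f : Y → ℂ) (n : ℕ), BM f → BM (fun y => f (R^[n] y)) := by
    intro f n hf
    obtain ⟨h1, C, hC⟩ := hf
    exact ⟨h1.comp (hMP.measurable.iterate n), C, fun y => hC _⟩
  have hpol : ∀ u v z w : ℂ, 4 * (u * conj w) =
      ∑ k : Fin 4, s k * ((u + s k * v) * conj (z + s k * w)) := by
    intro u v z w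
    rw [hs, Fin.sum_univ_four]
    simp only [Matrix.cons_val_zero, Matrix.cons_val_one, Matrix.cons_val, map_add, map_mul,
      map_neg, map_one, Complex.conj_I]
    linear_combination (-2 * v * conj z) * Complex.I_sq + (2 * u * conj w) * Complex.I_sq
  have hkey : ∀ n j : ℕ, ‖∫ y, a i (R^[n] y) * conj (b i (R^[j] y)) ∂m‖ ≤
      (1 / 4) * ∑ k : Fin 4, ‖∫ y, (a i (R^[n] y) + s k * b i (R^[n] y)) *
        conj (a i (R^[j] y) + s k * b i (R^[j] y)) ∂m‖ := by
    intro n j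
    have h1 : 4 * ∫ y, a i (R^[n] y) * conj (b i (R^[j] y)) ∂m =
        ∑ k : Fin 4, s k * ∫ y, (a i (R^[n] y) + s k * b i (R^[n] y)) *
          conj (a i (R^[j] y) + s k * b i (R^[j] y)) ∂m := by
      rw [← integral_const_mul]
      simp_rw [← integral_const_mul]
      rw [← integral_finsetSum]
      · congr 1
        funext y
        exact hpol _ _ _ _
      · intro k _
        exact (hint _ _ (hit _ n (hbm (i, k))) (hit _ j (hbm (i, k)))).const_mul _
    have h2 : 4 * ‖∫ y, a i (R^[n] y) * conj (b i (R^[j] y)) ∂m‖ ≤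
        ∑ k : Fin 4, ‖∫ y, (a i (R^[n] y) + s k * b i (R^[n] y)) *
          conj (a i (R^[j] y) + s k * b i (R^[j] y)) ∂m‖ := by
      have h3 := norm_sum_le (Finset.univ : Finset (Fin 4)) (fun k => s k *
        ∫ y, (a i (R^[n] y) + s k * b i (R^[n] y)) *
          conj (a i (R^[j] y) + s k * b i (R^[j] y)) ∂m)
      rw [← h1, norm_mul] at h3
      simp only [norm_mul, hs1, one_mul] at h3
      have h4 : ‖(4 : ℂ)‖ = 4 := by simp
      rw [h4] at h3
      exact h3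
    linarith
  calc ∑ n ∈ range N, ∑ j ∈ range N, ‖∫ y, a i (R^[n] y) * conj (b i (R^[j] y)) ∂m‖
      ≤ ∑ n ∈ range N, ∑ j ∈ range N, (1 / 4) * ∑ k : Fin 4,
        ‖∫ y, (a i (R^[n] y) + s k * b i (R^[n] y)) *
          conj (a i (R^[j] y) + s k * b i (R^[j] y)) ∂m‖ :=
        Finset.sum_le_sum fun n _ => Finset.sum_le_sum fun j _ => hkey n j
    _ = (1 / 4) * ∑ k : Fin 4, ∑ n ∈ range N, ∑ j ∈ range N,
        ‖∫ y, (a i (R^[n] y) + s k * b i (R^[n] y)) *
          conj (a i (R^[j] y) + s k * b i (R^[j] y)) ∂m‖ := by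
        simp_rw [← Finset.mul_sum]
        congr 1
        have h5 : ∀ n ∈ range N, ∑ j ∈ range N, ∑ k : Fin 4,
            ‖∫ y, (a i (R^[n] y) + s k * b i (R^[n] y)) *
              conj (a i (R^[j] y) + s k * b i (R^[j] y)) ∂m‖ =
            ∑ k : Fin 4, ∑ j ∈ range N,
            ‖∫ y, (a i (R^[n] y) + s k * b i (R^[n] y)) *
              conj (a i (R^[j] y) + s k * b i (R^[j] y)) ∂m‖ := fun n _ => Finset.sum_comm
        rw [Finset.sum_congr rfl h5, Finset.sum_comm]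
    _ ≤ (1 / 4) * ∑ k : Fin 4, δ * (N : ℝ) ^ 2 := by
        refine mul_le_mul_of_nonneg_left (Finset.sum_le_sum fun k _ => hN (i, k)) (by norm_num)
    _ = δ * (N : ℝ) ^ 2 := by
        rw [Finset.sum_const, Finset.card_univ, Fintype.card_fin, nsmul_eq_mul]
        push_cast
        ring

end Pool.Agent.Lib.H82OG
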