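import Pool.Agent.Lib.H82OG.LJW
import Pool.Agent.Lib.H82OG.WF
import Pool.Agent.Lib.H82OG.SN
import Pool.Agent.Lib.H82OT.EV3

/-!
# Project H82OG, chunk LJ3: small correlations, with torsion
-/

open MeasureTheory Filter Topology Finset ProbabilityTheory
open scoped ENNReal ComplexConjugate Matrix

namespace Pool.Agent.Lib.H82OG

open Pool.Agent.Lib.H22M Pool.Agent.Lib.H82T Pool.Agent.Lib.H82OT Pool.Agent.Lib.H82OF

private theorem LJ3T_row {Y : Type*} [MeasurableSpace Y] {d : ℕ} {F : Y → Fin d → ℂ}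
    (hF : BMR F) : RowB (inferInstance : MeasurableSpace Y) F := by
  classical
  choose hm C hC using hF
  refine ⟨hm, ∑ i, |C i|, fun y i => (hC i y).trans ((le_abs_self _).trans ?_)⟩
  exact Finset.single_le_sum (f := fun i => |C i|) (fun _ _ => abs_nonneg _) (Finset.mem_univ i)

private theorem LJ3T_sq {Y : Type*} [MeasurableSpace Y] {d : ℕ} {F : Y → Fin d → ℂ}
    (hF : BMR F) : ∃ T : ℝ, 0 ≤ T ∧ ∀ y, ∑ i, ‖F y i‖ ^ 2 ≤ T ^ 2 := by
  obtain ⟨-, C', hC'⟩ := LJ3T_row hF
  refine ⟨Real.sqrt (d * C' ^ 2), Real.sqrt_nonneg _, fun y => ?_⟩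
  rw [Real.sq_sqrt (by positivity)]
  calc ∑ i, ‖F y i‖ ^ 2 ≤ ∑ _i : Fin d, C' ^ 2 :=
        Finset.sum_le_sum fun i _ => pow_le_pow_left₀ (norm_nonneg _) (hC' y i) 2
    _ = d * C' ^ 2 := by
        rw [Finset.sum_const, Finset.card_univ, Fintype.card_fin, nsmul_eq_mul]

/-- Eigenfunctions of modulus one in the iterates. -/
private theorem LJ3T_iter {Y : Type*} [MeasurableSpace Y] {m : Measure Y} {R : Y → Y}
    (hR : MeasurePreserving R m m) {e : Y → ℂ} {l : ℂ} (h : ∀ᵐ y ∂m, e (R y) = l * e y) (j : ℕ) :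
    ∀ᵐ y ∂m, e (R^[j] y) = l ^ j * e y := by
  induction j with
  | zero => exact Eventually.of_forall fun y => by simp
  | succ j ih =>
    have h1 := (hR.iterate j).quasiMeasurePreserving.ae h
    filter_upwards [ih, h1] with y h2 h3
    rw [Function.iterate_succ_apply', h3, h2, pow_succ]
    ring

/-- Eigenfunctions of modulus one for different eigenvalues are orthogonal. -/
private theorem LJ3T_orth {Y : Type*} [MeasurableSpace Y] {m : Measure Y} [IsProbabilityMeasure m]
    {R : Y → Y} (hR : MeasurePreserving R m m) {e e' : Y → ℂ} {l l' : ℂ} (he : BM e) (he' : BM e')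
    (h : ∀ᵐ y ∂m, e (R y) = l * e y) (h' : ∀ᵐ y ∂m, e' (R y) = l' * e' y) (hl' : ‖l'‖ = 1)
    (hll : l ≠ l') : ∫ y, e y * conj (e' y) ∂m = 0 := by
  have h1 : ∫ y, e (R y) * conj (e' (R y)) ∂m = ∫ y, e y * conj (e' y) ∂m := by
    have h2 := (he.mul he'.conj).1.aestronglyMeasurable (μ := m)
    conv_rhs => rw [← hR.map_eq]
    rw [integral_map hR.measurable.aemeasurable]
    rw [hR.map_eq]
    exact h2
  have h3 : ∫ y, e (R y) * conj (e' (R y)) ∂m = (l * conj l') * ∫ y, e y * conj (e' y) ∂m := by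
    rw [← integral_const_mul]
    refine integral_congr_ae ?_
    filter_upwards [h, h'] with y h4 h5
    rw [h4, h5, map_mul]
    ring
  rw [h3] at h1
  have h4 : (l * conj l' - 1) * ∫ y, e y * conj (e' y) ∂m = 0 := by
    rw [sub_mul, h1, one_mul, sub_self]
  rcases mul_eq_zero.1 h4 with h5 | h5
  · exfalso
    apply hll
    have h6 : l' * conj l' = 1 := by
      rw [Complex.mul_conj, Complex.normSq_eq_norm_sq, hl']
      simp
    have h7 : l * conj l' = 1 := sub_eq_zero.1 h5
    have h8 : conj l' ≠ 0 := by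
      intro h9
      rw [h9, mul_zero] at h6
      exact zero_ne_one h6
    exact mul_right_cancel₀ h8 (h7.trans h6.symm)
  · exact h5

section

variable {Z K : Type*} [CommGroup Z] [TopologicalSpace Z] [IsTopologicalGroup Z]
  [CompactSpace Z] [T2Space Z] [SecondCountableTopology Z] [MeasurableSpace Z] [BorelSpace Z]
  [Group K] [TopologicalSpace K] [IsTopologicalGroup K] [CompactSpace K] [T2Space K]
  [SecondCountableTopology K] [MeasurableSpace K] [BorelSpace K]

private theorem LJ3T_comap (α : Z) :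
    MeasurableSpace.comap (fun z : Z => α * z) (inferInstance : MeasurableSpace Z) =
      (inferInstance : MeasurableSpace Z) :=
  (MeasurableEquiv.mulLeft α).measurableEmbedding.comap_eq

private theorem LJ3T_aa {φ : Z → K} (hφ : Measurable φ) (α : Z) {d : ℕ}
    {π : K → Matrix (Fin d) (Fin d) ℂ} (hπ : Rep π) {A : Z → Fin d → ℂ} (hA : BMR A) {T : ℝ}
    (hT0 : 0 ≤ T) (hT : ∀ z, ∑ i, ‖A z i‖ ^ 2 ≤ T ^ 2) (n j : ℕ) :
    Measurable (aa (fun z => α * z) (fun z => π (φ z)) A n j) ∧
      ∀ z, ‖aa (fun z => α * z) (fun z => π (φ z)) A n j z‖ ≤ T ^ 2 := by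
  refine ⟨?_, fun z => ?_⟩
  · exact aa_meas (inferInstance : MeasurableSpace Z) _ (LJ3T_comap α) _
      (fun i k => (hπ.cont i k).measurable.comp hφ) (fun z => hπ.unit _) A (LJ3T_row hA) n j
  · exact aa_bound _ _ (fun z => hπ.unit _) A T hT0 hT n j z

/-- Eigenfunctions of modulus one on the base. -/
private theorem LJ3T_chi (lam : Measure Z) [lam.IsHaarMeasure] [IsProbabilityMeasure lam]
    (muK : Measure K) [muK.IsHaarMeasure] [IsProbabilityMeasure muK] {α : Z} {φ : Z → K}
    (hB : Base0 lam muK α φ) {l : ℂ}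
    (hl : IsEigenvalue (lam.prod muK) (skew (M := K) α φ) l) :
    ∃ χ : Z → ℂ, Measurable χ ∧ (∀ z, ‖χ z‖ = 1) ∧
      ∀ᵐ y ∂(lam.prod muK), χ (skew (M := K) α φ y).1 = l * χ y.1 := by
  classical
  obtain ⟨f, hf, hf1, hfe⟩ := hl
  have hR := hB.erg.toMeasurePreserving
  set e : Z × K → ℂ := fun y => if ‖f y‖ = 1 then f y else 1 with he
  have heb : BM e := by
    refine ⟨Measurable.ite (measurableSet_eq_fun hf.norm measurable_const) hf
      measurable_const, 1, fun y => ?_⟩
    simp only [he]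
    split_ifs with h1
    · exact h1.le
    · simp
  have hef : ∀ᵐ y ∂(lam.prod muK), e y = f y := by
    filter_upwards [hf1] with y hy
    simp only [he]
    rw [if_pos hy]
  have hefR := hR.quasiMeasurePreserving.ae hef
  have hee : ∀ᵐ y ∂(lam.prod muK), e (skew α φ y) = l * e y := by
    filter_upwards [hef, hefR, hfe] with y h1 h2 h3
    rw [h1, h2, h3]
  obtain ⟨g, hg, hge⟩ := hB.kron e l heb hee
  refine ⟨fun z => if ‖g z‖ = 1 then g z else 1,
    Measurable.ite (measurableSet_eq_fun hg.1.norm measurable_const) hg.1 measurable_const,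
    fun z => ?_, ?_⟩
  · show ‖(if ‖g z‖ = 1 then g z else 1 : ℂ)‖ = 1
    split_ifs with h1
    · exact h1
    · simp
  · have h1 : ∀ᵐ y ∂(lam.prod muK), (if ‖g y.1‖ = 1 then g y.1 else 1 : ℂ) = e y := by
      filter_upwards [hge, hef, hf1] with y h2 h3 h4
      rw [if_pos, h2]
      rw [← h2, h3, h4]
    have h2 := hR.quasiMeasurePreserving.ae h1
    filter_upwards [h1, h2, hee] with y h3 h4 h5
    exact h4.trans (h5.trans (congrArg (fun t => l * t) h3.symm))

private theorem LJ3T_kills {Y : Type*} [MeasurableSpace Y] {m : Measure Y} {R : Y → Y}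
    {F F' : Finset ℂ} (h : F ⊆ F') {ν : Measure (Y × Y)} (hν : Kills m R F' ν) : Kills m R F ν :=
  fun c hc => hν c (h hc)

private theorem LJ3T_fst (lam : Measure Z) [IsProbabilityMeasure lam]
    (muK : Measure K) [IsProbabilityMeasure muK] {g : Z → ℂ} (hg : BM g) :
    ∫ y, g y.1 ∂(lam.prod muK) = ∫ z, g z ∂lam := by
  rw [integral_prod _ (hg.comp measurable_fst).integrable]
  simp

/-- Proof. Compare `exists_small_aa` (`H82OF/LJ3.lean`). Let `Ts` be the finite set of the `l` with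
`l ^ N₀ = 1` (`Polynomial.nthRootsFinset N₀ 1`) which are eigenvalues, and for `l ∈ Ts` let `χ_l` be a bounded
function on `Z` such that `χ_l(y.1)` is an eigenfunction for `l` with modulus one a.e. (`Base0.kron`;
`IsEigenvalue` gives an eigenfunction, make it bounded as in `H82OF/LV1.lean`), `‖χ_l‖ ≤ Cχ`.
By `exists_small_cross` (WF) with the family `a_l = f`, `b_l y = f y * χ_l y.1` (both are orthogonal to the
eigenfunctions) there is a common `N` with `∑_{n,j<N} ‖∫ f(R^n y) conj (b_l (R^j y)) dm‖ ≤ δ' N²`. As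
`χ_l ∘ R^j = l^j χ_l` a.e. and `aa_integral_weight` with `h = conj χ_l` (the factor `(∑ ‖w₀ i‖²) / d` is
positive), the numbers `c_l n j = ∫ a n j conj χ_l dlam` satisfy `∑_{n,j} ‖c_l n j‖ ≤ δ'' N²`.
For `n, j < N` let `a = aa … A n j`, `b = conj ∘ aa … A' n j`, bounded measurable functions on `Z`,
`‖b‖ ≤ T'²`, `ar = a - ∑_l c_l n j χ_l`. `ar(y.1)` is orthogonal to all eigenfunctions `e` with eigenvalue
`l`, `l ^ N₀ = 1`: either `e = 0` a.e., or `l ∈ Ts` and `e = κ χ_l(y.1)` a.e. (ergodicity), and different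
`χ_l` are orthogonal. So `small_nr` (SN; `𝒵 = comap Prod.fst`, `base_kronAlg`) gives finite sets `F_nj`
for `f := ar ∘ fst`, `g y := b y.1` and `η / 2`; `F0` = the union. For a self-coupling `σ` killing `F0`:
`‖∫ a(w.1) b(w.2) d(prZ σ)‖ ≤ ∑_l ‖c_l n j‖ Cχ T'² + η / 2`; sum over `n, j`. -/
theorem exists_small_aaT (lam : Measure Z) [lam.IsHaarMeasure] [IsProbabilityMeasure lam]
    (muK : Measure K) [muK.IsHaarMeasure] [IsProbabilityMeasure muK] {α : Z} {φ : Z → K}
    (hB : Base0 lam muK α φ) (N₀ : ℕ) (hN₀ : Tors (lam.prod muK) (skew (M := K) α φ) N₀)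
    {d e : ℕ} {π : K → Matrix (Fin d) (Fin d) ℂ} (hπ : Irr π)
    {π' : K → Matrix (Fin e) (Fin e) ℂ} (hπ' : Rep π')
    (w₀ : Fin d → ℂ) (hw₀ : w₀ ≠ 0) (A : Z → Fin d → ℂ) (hA : BMR A) (A' : Z → Fin e → ℂ)
    (hA' : BMR A') (f : Z × K → ℂ)
    (hf : ∀ y, f y = A y.1 ⬝ᵥ (π y.2 *ᵥ w₀))
    (ho : ∀ (e : Z × K → ℂ) (l : ℂ), BM e →
      (∀ᵐ y ∂(lam.prod muK), e (skew α φ y) = l * e y) →
      ∫ y, f y * conj (e y) ∂(lam.prod muK) = 0) (η : ℝ) (hη : 0 < η) :
    ∃ F0 : Finset ℂ, (∀ c ∈ F0, NR c) ∧ ∃ N : ℕ, 1 ≤ N ∧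
      ∀ σ : Measure ((Z × K) × (Z × K)),
      IsSelf (lam.prod muK) (skew α φ) σ → Kills (lam.prod muK) (skew α φ) F0 σ →
        ∑ n ∈ range N, ∑ j ∈ range N,
          ‖∫ w, aa (fun z => α * z) (fun z => π (φ z)) A n j w.1 *
            conj (aa (fun z => α * z) (fun z => π' (φ z)) A' n j w.2) ∂(prZ σ)‖ ≤
          η * (N : ℝ) ^ 2 := by
  classical
  have hR := hB.erg.toMeasurePreserving
  obtain ⟨T, hT0, hT⟩ := LJ3T_sq hA
  obtain ⟨T', hT'0, hT'⟩ := LJ3T_sq hA'
  set a : ℕ → ℕ → Z → ℂ := fun n j => aa (fun z => α * z) (fun z => π (φ z)) A n j with ha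
  set a' : ℕ → ℕ → Z → ℂ := fun n j => aa (fun z => α * z) (fun z => π' (φ z)) A' n j with ha'
  have haM : ∀ n j, Measurable (a n j) := fun n j =>
    (LJ3T_aa hB.meas α hπ.toRep hA hT0 hT n j).1
  have haB : ∀ n j z, ‖a n j z‖ ≤ T ^ 2 := fun n j =>
    (LJ3T_aa hB.meas α hπ.toRep hA hT0 hT n j).2
  have ha'M : ∀ n j, Measurable (a' n j) := fun n j =>
    (LJ3T_aa hB.meas α hπ' hA' hT'0 hT' n j).1
  have ha'B : ∀ n j z, ‖a' n j z‖ ≤ T' ^ 2 := fun n j =>
    (LJ3T_aa hB.meas α hπ' hA' hT'0 hT' n j).2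
  have haBM : ∀ n j, BM (a n j) := fun n j => ⟨haM n j, _, haB n j⟩
  have ha'BM : ∀ n j, BM (a' n j) := fun n j => ⟨ha'M n j, _, ha'B n j⟩
  -- `f` is bounded and measurable
  have hfBM : BM f := by
    have h1 : f = fun y => ∑ i, A y.1 i * ∑ k, π y.2 i k * w₀ k := by
      funext y
      rw [hf y]
      rfl
    rw [h1]
    refine BM.sum _ fun i _ => ((hA i).comp measurable_fst).mul ?_
    refine BM.sum _ fun k _ => ?_
    exact ((hπ.toRep.bmm i k).comp measurable_snd).mul (BM.const (w₀ k))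
  -- the factor
  have hd : 0 < d := by
    rcases Nat.eq_zero_or_pos d with h | h
    · subst h
      exact absurd (funext fun i => i.elim0) hw₀
    · exact h
  set S : ℝ := ∑ i, ‖w₀ i‖ ^ 2 with hS
  have hS0 : 0 < S := by
    obtain ⟨i, hi⟩ := Function.ne_iff.1 hw₀
    refine Finset.sum_pos' (fun _ _ => by positivity) ⟨i, Finset.mem_univ i, ?_⟩
    have : 0 < ‖w₀ i‖ := norm_pos_iff.2 hi
    positivity
  have hdR : (0 : ℝ) < d := by exact_mod_cast hd
  -- the torsion eigenvalues
  obtain ⟨Ts, hTs⟩ : ∃ Ts : Finset ℂ, ∀ l, l ∈ Ts ↔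
      (l ^ N₀ = 1 ∧ IsEigenvalue (lam.prod muK) (skew (M := K) α φ) l) := by
    refine ⟨(Polynomial.nthRootsFinset N₀ (1 : ℂ)).filter
      fun l => IsEigenvalue (lam.prod muK) (skew (M := K) α φ) l, fun l => ?_⟩
    rw [Finset.mem_filter, Polynomial.mem_nthRootsFinset (by have := hN₀.1; omega)]
  choose χ hχm hχ1 hχe using fun l : Ts => LJ3T_chi lam muK hB ((hTs l.1).1 l.2).2
  have hχBM : ∀ l : Ts, BM (χ l) := fun l => ⟨hχm l, 1, fun z => (hχ1 l z).le⟩
  have hχBM' : ∀ l : Ts, BM fun y : Z × K => χ l y.1 := fun l => (hχBM l).comp measurable_fst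
  have hnorm : ∀ l : Ts, ‖(l : ℂ)‖ = 1 := fun l =>
    Complex.norm_eq_one_of_pow_eq_one ((hTs l.1).1 l.2).1 (by have := hN₀.1; omega)
  have hχχ : ∀ (l : Ts) z, χ l z * conj (χ l z) = 1 := by
    intro l z
    rw [Complex.mul_conj, Complex.normSq_eq_norm_sq, hχ1]
    simp
  -- orthonormality
  have hort : ∀ l l' : Ts, ∫ z, χ l z * conj (χ l' z) ∂lam = if l = l' then 1 else 0 := by
    intro l l'
    split_ifs with h
    · subst h
      simp [hχχ]
    · rw [← LJ3T_fst lam muK ((hχBM l).mul (hχBM l').conj)]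
      exact LJ3T_orth hR (hχBM' l) (hχBM' l') (hχe l) (hχe l') (hnorm l')
        fun h' => h (Subtype.ext h')
  -- the constants
  have hT1 : (0 : ℝ) < T' ^ 2 + 1 := by positivity
  have hcard : (0 : ℝ) < (Ts.card : ℝ) + 1 := by positivity
  set δ : ℝ := η / (2 * ((T' ^ 2 + 1) * ((Ts.card : ℝ) + 1))) with hδ
  have hδ0 : 0 < δ := by positivity
  obtain ⟨N, hN1, hN⟩ := exists_small_cross hB.erg (ι := Ts) (fun _ => f)
    (fun l y => f y * χ l y.1) (fun _ => hfBM) (fun l => hfBM.mul (hχBM' l))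
    (fun _ => ho) (by
      intro l e' l' he' hel
      have h1 : ∫ y, f y * χ l y.1 * conj (e' y) ∂(lam.prod muK) =
          ∫ y, f y * conj (e' y * conj (χ l y.1)) ∂(lam.prod muK) := by
        refine integral_congr_ae (Eventually.of_forall fun y => ?_)
        show f y * χ l y.1 * conj (e' y) = f y * conj (e' y * conj (χ l y.1))
        rw [map_mul, Complex.conj_conj]
        ring
      rw [h1]
      refine ho _ (l' * conj (l : ℂ)) (he'.mul (hχBM' l).conj) ?_
      filter_upwards [hel, hχe l] with y h2 h3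
      rw [h2, h3, map_mul]
      ring) (S / d * δ) (by positivity)
  -- the coefficients
  set c : Ts → ℕ → ℕ → ℂ := fun l n j => ∫ z, a n j z * conj (χ l z) ∂lam with hc
  have hint : ∀ (l : Ts) n j,
      ‖∫ y, f ((skew α φ)^[n] y) * conj (f ((skew α φ)^[j] y) * χ l ((skew α φ)^[j] y).1)
        ∂(lam.prod muK)‖ = S / d * ‖c l n j‖ := by
    intro l n j
    have h1 : ∫ y, f ((skew α φ)^[n] y) * conj (f ((skew α φ)^[j] y) *
        χ l ((skew α φ)^[j] y).1) ∂(lam.prod muK) =
        conj ((l : ℂ) ^ j) * ∫ y, f ((skew α φ)^[n] y) * conj (f ((skew α φ)^[j] y)) *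
          conj (χ l y.1) ∂(lam.prod muK) := by
      rw [← integral_const_mul]
      refine integral_congr_ae ?_
      filter_upwards [LJ3T_iter (e := fun y : Z × K => χ l y.1) hR (hχe l) j] with y hy
      have hy' : χ l ((skew α φ)^[j] y).1 = (l : ℂ) ^ j * χ l y.1 := hy
      rw [hy', map_mul, map_mul]
      ring
    rw [h1, norm_mul, RCLike.norm_conj, norm_pow, hnorm, one_pow, one_mul,
      aa_integral_weight lam muK hB hπ w₀ A hA f hf (fun z => conj (χ l z)) (hχBM l).conj n j,
      norm_mul, norm_div, ← hS, Complex.norm_real, Complex.norm_natCast,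
      Real.norm_of_nonneg hS0.le]
  have hsum : ∀ l : Ts, ∑ n ∈ range N, ∑ j ∈ range N, ‖c l n j‖ ≤ δ * (N : ℝ) ^ 2 := by
    intro l
    have h1 : S / d * ∑ n ∈ range N, ∑ j ∈ range N, ‖c l n j‖ ≤
        S / d * (δ * (N : ℝ) ^ 2) := by
      rw [Finset.mul_sum]
      simp_rw [Finset.mul_sum, ← hint]
      refine (hN l).trans (le_of_eq ?_)
      ring
    exact le_of_mul_le_mul_left h1 (by positivity)
  -- the remainders
  set ar : ℕ → ℕ → Z → ℂ := fun n j z => a n j z - ∑ l, c l n j * χ l z with har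
  have harBM : ∀ n j, BM (ar n j) := by
    intro n j
    have h1 : BM fun z => ∑ l, c l n j * χ l z := BM.sum _ fun l _ => (BM.const _).mul (hχBM l)
    have h2 : ar n j = fun z => a n j z + (-1) * ∑ l, c l n j * χ l z := by
      funext z
      simp only [har]
      ring
    rw [h2]
    exact (haBM n j).add ((BM.const (-1)).mul h1)
  have haro : ∀ n j (l : Ts), ∫ z, ar n j z * conj (χ l z) ∂lam = 0 := by
    intro n j l
    have h1 : ∀ z, ar n j z * conj (χ l z) =
        a n j z * conj (χ l z) - ∑ l', c l' n j * (χ l' z * conj (χ l z)) := by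
      intro z
      simp only [har]
      rw [sub_mul, Finset.sum_mul]
      congr 1
      refine Finset.sum_congr rfl fun l' _ => ?_
      ring
    rw [integral_congr_ae (Eventually.of_forall h1), integral_sub, integral_finsetSum]
    · simp_rw [integral_const_mul, hort]
      simp [hc]
    · intro l' _
      exact ((BM.const (c l' n j)).mul ((hχBM l').mul (hχBM l).conj)).integrable
    · exact ((haBM n j).mul (hχBM l).conj).integrable
    · exact integrable_finsetSum _ fun l' _ =>
        ((BM.const (c l' n j)).mul ((hχBM l').mul (hχBM l).conj)).integrable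
  have hareig : ∀ n j (e' : Z × K → ℂ) (l : ℂ), BM e' →
      (∀ᵐ y ∂(lam.prod muK), e' (skew α φ y) = l * e' y) → l ^ N₀ = 1 →
      ∫ y, ar n j y.1 * conj (e' y) ∂(lam.prod muK) = 0 := by
    intro n j e' l he' hel hl
    by_cases h0 : ∀ᵐ y ∂(lam.prod muK), e' y = 0
    · rw [← integral_zero (Z × K) ℂ (μ := lam.prod muK)]
      refine integral_congr_ae ?_
      filter_upwards [h0] with y hy
      rw [hy, map_zero, mul_zero]
    · have hln : ‖l‖ = 1 :=
        Complex.norm_eq_one_of_pow_eq_one hl (by have := hN₀.1; omega)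
      have hlE := isEigenvalue_of_eigen hB.erg e' he'.1 l hln hel h0
      obtain ⟨l', hl'⟩ : ∃ l' : Ts, (l' : ℂ) = l := ⟨⟨l, (hTs l).2 ⟨hl, hlE⟩⟩, rfl⟩
      obtain ⟨κ, hκ⟩ := const_of_invariant hB.erg (fun y => e' y * conj (χ l' y.1))
        (he'.mul (hχBM' l').conj).1 (by
          filter_upwards [hel, hχe l'] with y h1 h2
          rw [h1, h2, map_mul, hl']
          have h3 : l * conj l = 1 := by
            rw [Complex.mul_conj, Complex.normSq_eq_norm_sq, hln]
            simp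
          calc l * e' y * (conj l * conj (χ l' y.1)) =
              (l * conj l) * (e' y * conj (χ l' y.1)) := by ring
            _ = e' y * conj (χ l' y.1) := by rw [h3, one_mul])
      have h4 : ∫ y, ar n j y.1 * conj (e' y) ∂(lam.prod muK) =
          conj κ * ∫ y, ar n j y.1 * conj (χ l' y.1) ∂(lam.prod muK) := by
        rw [← integral_const_mul]
        refine integral_congr_ae ?_
        filter_upwards [hκ] with y hy
        have h5 : e' y = κ * χ l' y.1 := by
          have h6 : e' y * conj (χ l' y.1) = κ := hy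
          rw [← h6, mul_assoc, mul_comm (conj (χ l' y.1)), hχχ, mul_one]
        rw [h5, map_mul]
        ring
      rw [h4, LJ3T_fst lam muK (g := fun z => ar n j z * conj (χ l' z))
        ((harBM n j).mul (hχBM l').conj), haro, mul_zero]
  -- smallness
  have hg : ∀ n j, BM fun y : Z × K => conj (a' n j y.1) := fun n j =>
    ((ha'BM n j).comp measurable_fst).conj
  have hsn : ∀ n j, ∃ F : Finset ℂ, (∀ c ∈ F, NR c) ∧
      ∀ ν : Measure ((Z × K) × (Z × K)), IsSelf (lam.prod muK) (skew α φ) ν →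
      Kills (lam.prod muK) (skew α φ) F ν →
      ‖∫ z, ar n j z.1.1 * conj (a' n j z.2.1) ∂ν‖ ≤ η / 2 := by
    intro n j
    obtain ⟨-, C, hC⟩ := harBM n j
    exact small_nr hB.erg (base_kronAlg lam muK hB) N₀ hN₀ (fun y => ar n j y.1)
      ((harBM n j).1.comp (comap_measurable (Prod.fst : Z × K → Z))) ⟨C, fun y => hC y.1⟩
      (hareig n j) _ (hg n j) (η / 2) (by positivity)
  choose F hF1 hF using hsn
  refine ⟨(range N).biUnion fun n => (range N).biUnion fun j => F n j, ?_, N, hN1, ?_⟩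
  · intro x hx
    simp only [Finset.mem_biUnion] at hx
    obtain ⟨n, -, j, -, h⟩ := hx
    exact hF1 n j x h
  intro σ hσ hk
  have hσp := hσ.prob
  have hterm : ∀ n ∈ range N, ∀ j ∈ range N,
      ‖∫ w, a n j w.1 * conj (a' n j w.2) ∂(prZ σ)‖ ≤
        η / 2 + ∑ l, ‖c l n j‖ * T' ^ 2 := by
    intro n hn j hj
    have hsub : F n j ⊆ (range N).biUnion fun n => (range N).biUnion fun j => F n j := by
      intro c hc
      simp only [Finset.mem_biUnion]
      exact ⟨n, hn, j, hj, hc⟩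
    have h1 := hF n j σ hσ (LJ3T_kills hsub hk)
    have h2 : ∫ w, a n j w.1 * conj (a' n j w.2) ∂(prZ σ) =
        ∫ z, a n j z.1.1 * conj (a' n j z.2.1) ∂σ := by
      unfold prZ
      rw [integral_map]
      · rfl
      · exact (measurable_fst.prodMap measurable_fst).aemeasurable
      · exact (((haBM n j).comp measurable_fst).mul
          ((ha'BM n j).comp measurable_snd).conj).1.aestronglyMeasurable
    have hm1 : Measurable fun z : (Z × K) × (Z × K) => z.1.1 :=
      measurable_fst.comp measurable_fst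
    have hm2 : Measurable fun z : (Z × K) × (Z × K) => z.2.1 :=
      measurable_fst.comp measurable_snd
    have h3 : ∀ z : (Z × K) × (Z × K), a n j z.1.1 * conj (a' n j z.2.1) =
        ar n j z.1.1 * conj (a' n j z.2.1) +
          ∑ l, c l n j * (χ l z.1.1 * conj (a' n j z.2.1)) := by
      intro z
      simp only [har]
      rw [sub_mul, Finset.sum_mul]
      have h4 : ∑ l, c l n j * χ l z.1.1 * conj (a' n j z.2.1) =
          ∑ l, c l n j * (χ l z.1.1 * conj (a' n j z.2.1)) :=
        Finset.sum_congr rfl fun l _ => by ring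
      rw [h4]
      ring
    have h5 : ∀ l, BM fun z : (Z × K) × (Z × K) => c l n j * (χ l z.1.1 * conj (a' n j z.2.1)) :=
      fun l => (BM.const _).mul (((hχBM l).comp hm1).mul ((ha'BM n j).comp hm2).conj)
    rw [h2, integral_congr_ae (Eventually.of_forall h3), integral_add, integral_finsetSum]
    · refine (norm_add_le _ _).trans (add_le_add h1 ?_)
      refine (norm_sum_le _ _).trans (Finset.sum_le_sum fun l _ => ?_)
      rw [integral_const_mul, norm_mul]
      refine mul_le_mul_of_nonneg_left ?_ (norm_nonneg _)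
      refine (norm_integral_le_of_norm_le_const (C := T' ^ 2)
        (Eventually.of_forall fun z => ?_)).trans ?_
      · rw [norm_mul, hχ1, one_mul, RCLike.norm_conj]
        exact ha'B n j z.2.1
      · simp
    · intro l _
      exact (h5 l).integrable
    · exact (((harBM n j).comp hm1).mul ((ha'BM n j).comp hm2).conj).integrable
    · exact integrable_finsetSum _ fun l _ => (h5 l).integrable
  calc ∑ n ∈ range N, ∑ j ∈ range N, ‖∫ w, a n j w.1 * conj (a' n j w.2) ∂(prZ σ)‖
      ≤ ∑ n ∈ range N, ∑ j ∈ range N, (η / 2 + ∑ l, ‖c l n j‖ * T' ^ 2) :=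
        Finset.sum_le_sum fun n hn => Finset.sum_le_sum fun j hj => hterm n hn j hj
    _ = N ^ 2 * (η / 2) + T' ^ 2 * ∑ l, ∑ n ∈ range N, ∑ j ∈ range N, ‖c l n j‖ := by
        have h6 : ∑ l, ∑ n ∈ range N, ∑ j ∈ range N, ‖c l n j‖ =
            ∑ n ∈ range N, ∑ j ∈ range N, ∑ l, ‖c l n j‖ := by
          rw [Finset.sum_comm]
          refine Finset.sum_congr rfl fun n _ => ?_
          rw [Finset.sum_comm]
        rw [h6]
        simp only [Finset.sum_add_distrib, Finset.sum_const, Finset.card_range, nsmul_eq_mul,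
          ← Finset.sum_mul]
        ring
    _ ≤ N ^ 2 * (η / 2) + T' ^ 2 * ∑ _l : Ts, δ * (N : ℝ) ^ 2 := by
        gcongr with l _
        exact hsum l
    _ ≤ η * (N : ℝ) ^ 2 := by
        rw [Finset.sum_const, Finset.card_univ, Fintype.card_coe, nsmul_eq_mul]
        have h7 : T' ^ 2 * ((Ts.card : ℝ) * δ) ≤ η / 2 := by
          have h8 : (T' ^ 2 + 1) * (((Ts.card : ℝ) + 1) * δ) = η / 2 := by
            rw [hδ]
            field_simp
          rw [← h8]
          gcongr
          · linarith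
          · linarith
        have h9 : (0 : ℝ) ≤ (N : ℝ) ^ 2 := by positivity
        nlinarith

end

end Pool.Agent.Lib.H82OG
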