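import Pool.Agent.Lib.H82OG.LJ3A

/-!
# Project H82OG, chunk LJW: correlations with a weight
-/

open MeasureTheory Filter Topology Finset ProbabilityTheory
open scoped ENNReal ComplexConjugate Matrix

namespace Pool.Agent.Lib.H82OG

open Pool.Agent.Lib.H22M Pool.Agent.Lib.H82T Pool.Agent.Lib.H82OT Pool.Agent.Lib.H82OF

section

variable {Z K : Type*} [CommGroup Z] [TopologicalSpace Z] [IsTopologicalGroup Z]
  [CompactSpace Z] [T2Space Z] [SecondCountableTopology Z] [MeasurableSpace Z] [BorelSpace Z]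
  [Group K] [TopologicalSpace K] [IsTopologicalGroup K] [CompactSpace K] [T2Space K]
  [SecondCountableTopology K] [MeasurableSpace K] [BorelSpace K]

omit [IsTopologicalGroup Z] [CompactSpace Z] [T2Space Z] [SecondCountableTopology Z]
  [MeasurableSpace Z] [BorelSpace Z] [TopologicalSpace Z]
  [IsTopologicalGroup K] [CompactSpace K] [T2Space K]
  [SecondCountableTopology K] [MeasurableSpace K] [BorelSpace K] in
private theorem LJW_iter {α : Z} {φ : Z → K} {d : ℕ} {π : K → Matrix (Fin d) (Fin d) ℂ}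
    (hπ : Rep π) (w₀ : Fin d → ℂ) (n : ℕ) (y : Z × K) : ∀ A : Z → Fin d → ℂ,
    A ((skew (M := K) α φ)^[n] y).1 ⬝ᵥ (π ((skew (M := K) α φ)^[n] y).2 *ᵥ w₀) =
      ((evr (fun z => α * z) (fun z => π (φ z)))^[n] A) y.1 ⬝ᵥ (π y.2 *ᵥ w₀) := by
  induction n with
  | zero => intro A; rfl
  | succ n ih =>
    intro A
    rw [Function.iterate_succ_apply' (skew (M := K) α φ), Function.iterate_succ_apply,
      ← ih (evr (fun z => α * z) (fun z => π (φ z)) A)]
    obtain ⟨x, hx⟩ : ∃ x, x = (skew (M := K) α φ)^[n] y := ⟨_, rfl⟩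
    rw [← hx]
    change A (α * x.1) ⬝ᵥ (π (φ x.1 * x.2) *ᵥ w₀) =
      (A (α * x.1) ᵥ* π (φ x.1)) ⬝ᵥ (π x.2 *ᵥ w₀)
    rw [hπ.mul, ← Matrix.mulVec_mulVec, Matrix.dotProduct_mulVec]

omit [TopologicalSpace Z] [IsTopologicalGroup Z] [CompactSpace Z] [T2Space Z]
  [SecondCountableTopology Z] [BorelSpace Z] [IsTopologicalGroup K] [CompactSpace K] [T2Space K]
  [SecondCountableTopology K] in
private theorem LJW_bmr [MeasurableMul Z] {α : Z} {φ : Z → K} (hφ : Measurable φ) {d : ℕ}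
    {π : K → Matrix (Fin d) (Fin d) ℂ} (hπ : Rep π) (n : ℕ) : ∀ A : Z → Fin d → ℂ, BMR A →
    BMR ((evr (fun z => α * z) (fun z => π (φ z)))^[n] A) := by
  induction n with
  | zero => intro A hA; exact hA
  | succ n ih =>
    intro A hA
    rw [Function.iterate_succ_apply]
    refine ih _ fun i => ?_
    change BM fun z => ∑ k, A (α * z) k * π (φ z) k i
    exact BM.sum _ fun k _ => ((hA k).comp (measurable_const_mul α)).mul ((hπ.bmm k i).comp hφ)

omit [IsTopologicalGroup K] [CompactSpace K] [T2Space K]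
  [SecondCountableTopology K] in
private theorem LJW_bmw {d : ℕ} {π : K → Matrix (Fin d) (Fin d) ℂ} (hπ : Rep π)
    (w₀ : Fin d → ℂ) (i : Fin d) : BM fun k => (π k *ᵥ w₀) i := by
  change BM fun k => ∑ l, π k i l * w₀ l
  exact BM.sum _ fun l _ => (hπ.bmm i l).mul (BM.const _)

private theorem LJW_inner (muK : Measure K) [muK.IsHaarMeasure] [IsProbabilityMeasure muK]
    {d : ℕ} {π : K → Matrix (Fin d) (Fin d) ℂ} (hπ : Irr π) (w₀ b b' : Fin d → ℂ) :
    ∫ k, (b ⬝ᵥ (π k *ᵥ w₀)) * conj (b' ⬝ᵥ (π k *ᵥ w₀)) ∂muK =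
      ((∑ i, ‖w₀ i‖ ^ 2 : ℝ) : ℂ) / d * (b ⬝ᵥ star b') := by
  have h1 : ∀ k, (b ⬝ᵥ (π k *ᵥ w₀)) * conj (b' ⬝ᵥ (π k *ᵥ w₀)) =
      ∑ i, ∑ l, (b i * conj (b' l)) * ((π k *ᵥ w₀) i * conj ((π k *ᵥ w₀) l)) := by
    intro k
    simp only [dotProduct, map_sum, map_mul]
    rw [Finset.sum_mul_sum]
    refine Finset.sum_congr rfl fun i _ => Finset.sum_congr rfl fun l _ => ?_
    ring
  have h2 : ∀ k i l, (π k *ᵥ w₀) i * conj ((π k *ᵥ w₀) l) =
      (π k * Matrix.vecMulVec w₀ (star w₀) * (π k)ᴴ) i l := by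
    intro k i l
    rw [Matrix.mul_vecMulVec, Matrix.vecMulVec_mul, Matrix.vecMulVec_apply, ← Matrix.star_mulVec]
    rfl
  have h3 : ∀ i l, ∫ k, (b i * conj (b' l)) * ((π k *ᵥ w₀) i * conj ((π k *ᵥ w₀) l)) ∂muK =
      (b i * conj (b' l)) *
        (if i = l then (Matrix.vecMulVec w₀ (star w₀)).trace / d else 0) := by
    intro i l
    rw [integral_const_mul]
    congr 1
    rw [← schur_same muK hπ (Matrix.vecMulVec w₀ (star w₀)) i l]
    exact integral_congr_ae (Filter.Eventually.of_forall fun k => h2 k i l)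
  have hbm : ∀ i l, BM fun k => (b i * conj (b' l)) * ((π k *ᵥ w₀) i * conj ((π k *ᵥ w₀) l)) :=
    fun i l => (BM.const _).mul
      ((LJW_bmw hπ.toRep w₀ i).mul (LJW_bmw hπ.toRep w₀ l).conj)
  have htr : (Matrix.vecMulVec w₀ (star w₀)).trace = ((∑ i, ‖w₀ i‖ ^ 2 : ℝ) : ℂ) := by
    rw [Matrix.trace, Complex.ofReal_sum]
    refine Finset.sum_congr rfl fun i _ => ?_
    rw [Matrix.diag_apply, Matrix.vecMulVec_apply, Pi.star_apply, Complex.star_def,
      Complex.mul_conj, Complex.normSq_eq_norm_sq]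
  rw [integral_congr_ae (Filter.Eventually.of_forall h1), integral_finsetSum]
  · rw [dotProduct, Finset.mul_sum]
    refine Finset.sum_congr rfl fun i _ => ?_
    rw [integral_finsetSum]
    · rw [Finset.sum_congr rfl fun l _ => h3 i l, Finset.sum_eq_single i]
      · rw [if_pos rfl, htr, Pi.star_apply, Complex.star_def]
        ring
      · intro l _ hl
        rw [if_neg (Ne.symm hl), mul_zero]
      · intro h
        exact absurd (Finset.mem_univ i) h
    · intro l _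
      exact (hbm i l).integrable
  · intro i _
    exact integrable_finsetSum _ fun l _ => (hbm i l).integrable

/-- Proof. As `aa_integral` (LJ3A, also in `H82OF/LJ3A.lean`), with the weight `h y.1`. -/
theorem aa_integral_weight (lam : Measure Z) [lam.IsHaarMeasure] [IsProbabilityMeasure lam]
    (muK : Measure K) [muK.IsHaarMeasure] [IsProbabilityMeasure muK] {α : Z} {φ : Z → K}
    (hB : Base0 lam muK α φ) {d : ℕ} {π : K → Matrix (Fin d) (Fin d) ℂ} (hπ : Irr π)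
    (w₀ : Fin d → ℂ) (A : Z → Fin d → ℂ) (hA : BMR A) (f : Z × K → ℂ)
    (hf : ∀ y, f y = A y.1 ⬝ᵥ (π y.2 *ᵥ w₀)) (h : Z → ℂ) (hh : BM h) (n j : ℕ) :
    ∫ y, f ((skew α φ)^[n] y) * conj (f ((skew α φ)^[j] y)) * h y.1 ∂(lam.prod muK) =
      ((∑ i, ‖w₀ i‖ ^ 2 : ℝ) : ℂ) / d *
        ∫ z, aa (fun z => α * z) (fun z => π (φ z)) A n j z * h z ∂lam := by
  obtain ⟨B, hBd⟩ : ∃ B : Z → Fin d → ℂ,
      B = (evr (fun z => α * z) (fun z => π (φ z)))^[n] A := ⟨_, rfl⟩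
  obtain ⟨B', hBd'⟩ : ∃ B' : Z → Fin d → ℂ,
      B' = (evr (fun z => α * z) (fun z => π (φ z)))^[j] A := ⟨_, rfl⟩
  have hBm : BMR B := by rw [hBd]; exact LJW_bmr hB.meas hπ.toRep n A hA
  have hBm' : BMR B' := by rw [hBd']; exact LJW_bmr hB.meas hπ.toRep j A hA
  have h1 : ∀ y : Z × K, f ((skew α φ)^[n] y) * conj (f ((skew α φ)^[j] y)) * h y.1 =
      ((B y.1 ⬝ᵥ (π y.2 *ᵥ w₀)) * conj (B' y.1 ⬝ᵥ (π y.2 *ᵥ w₀))) * h y.1 := by
    intro y
    rw [hf, hf, LJW_iter hπ.toRep w₀ n y A, LJW_iter hπ.toRep w₀ j y A, ← hBd, ← hBd']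
  have hdp : ∀ D : Z → Fin d → ℂ, BMR D →
      BM fun y : Z × K => D y.1 ⬝ᵥ (π y.2 *ᵥ w₀) := by
    intro D hD
    change BM fun y : Z × K => ∑ i, D y.1 i * (π y.2 *ᵥ w₀) i
    exact BM.sum _ fun i _ => ((hD i).comp measurable_fst).mul
      ((LJW_bmw hπ.toRep w₀ i).comp measurable_snd)
  rw [integral_congr_ae (Filter.Eventually.of_forall h1),
    integral_prod _ (((hdp B hBm).mul (hdp B' hBm').conj).mul (hh.comp measurable_fst)).integrable,
    ← integral_const_mul]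
  refine integral_congr_ae (Filter.Eventually.of_forall fun z => ?_)
  change ∫ k, ((B z ⬝ᵥ (π k *ᵥ w₀)) * conj (B' z ⬝ᵥ (π k *ᵥ w₀))) * h z ∂muK =
    ((∑ i, ‖w₀ i‖ ^ 2 : ℝ) : ℂ) / d * (aa (fun z => α * z) (fun z => π (φ z)) A n j z * h z)
  rw [integral_mul_const, LJW_inner muK hπ w₀ (B z) (B' z), hBd, hBd', ← mul_assoc]
  rfl

end

end Pool.Agent.Lib.H82OG
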