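import Pool.Agent.Lib.H82OG.Defs

/-!
# Project H82OG, chunk MA1: ergodic components
-/

open MeasureTheory Filter Topology Finset ProbabilityTheory
open scoped ENNReal ComplexConjugate Matrix

namespace Pool.Agent.Lib.H82OG

open Pool.Agent.Lib.H22M Pool.Agent.Lib.H82T Pool.Agent.Lib.H82OT Pool.Agent.Lib.H82OF

/-- Proof. Let `𝓘 = MeasurableSpace.invariants S`, `κ = condExpKernel μ 𝓘`. For a measurable set `A` the
conditional probabilities of `A` and `S⁻¹ A` given `𝓘` agree a.e.: for `B ∈ 𝓘`,
`μ (B ∩ S⁻¹ A) = μ (S⁻¹ (B ∩ A)) = μ (B ∩ A)`. So `κ ω (S⁻¹ A) = κ ω A` for a.e. `ω`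
(`condExpKernel_ae_eq_condExp`), for all `A` of a countable π-system generating the σ-algebra
(`MeasurableSpace.countableGeneratingSet`, `generatePiSystem`; a standard Borel space is countably
generated); `ext_of_generate_finite`. -/
theorem component_invariant {Ω : Type*} [MeasurableSpace Ω] [StandardBorelSpace Ω]
    (μ : Measure Ω) [IsProbabilityMeasure μ] (S : Ω ≃ᵐ Ω) (hS : MeasurePreserving S μ μ) :
    ∀ᵐ ω ∂μ, MeasurePreserving S (condExpKernel μ (MeasurableSpace.invariants S) ω)
      (condExpKernel μ (MeasurableSpace.invariants S) ω) := by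
  classical
  have hm : MeasurableSpace.invariants (S : Ω → Ω) ≤ (inferInstance : MeasurableSpace Ω) := MeasurableSpace.invariants_le _
  have step : ∀ A : Set Ω, MeasurableSet A →
      ∀ᵐ ω ∂μ, (condExpKernel μ (MeasurableSpace.invariants S) ω) (S ⁻¹' A) = (condExpKernel μ (MeasurableSpace.invariants S) ω) A := by
    intro A hA
    have hSA : MeasurableSet (S ⁻¹' A) := S.measurable hA
    have h1 := condExpKernel_ae_eq_condExp (μ := μ) hm hA
    have h2 := condExpKernel_ae_eq_condExp (μ := μ) hm hSA
    have h3 : μ⟦A | MeasurableSpace.invariants S⟧ =ᵐ[μ] μ⟦S ⁻¹' A | MeasurableSpace.invariants S⟧ := by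
      refine ae_eq_condExp_of_forall_setIntegral_eq hm ?_ ?_ ?_ ?_
      · exact (integrable_const (1 : ℝ)).indicator hSA
      · intro s _ _
        exact integrable_condExp.integrableOn
      · intro s hs _
        have hs' : MeasurableSet s := hm s hs
        rw [setIntegral_condExp hm ((integrable_const (1 : ℝ)).indicator hA) hs,
          setIntegral_indicator hA, setIntegral_indicator hSA, setIntegral_const, setIntegral_const]
        congr 1
        have hinv : S ⁻¹' s = s := hs.2
        have e1 : s ∩ S ⁻¹' A = S ⁻¹' (s ∩ A) := by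
          rw [Set.preimage_inter, hinv]
        rw [measureReal_def, measureReal_def, e1, hS.measure_preimage (hs'.inter hA).nullMeasurableSet]
      · exact stronglyMeasurable_condExp.aestronglyMeasurable
    filter_upwards [h1, h2, h3] with ω a1 a2 a3
    have h4 : (condExpKernel μ (MeasurableSpace.invariants S) ω).real (S ⁻¹' A) = (condExpKernel μ (MeasurableSpace.invariants S) ω).real A := by
      rw [a1, a2, a3]
    rw [measureReal_def, measureReal_def] at h4
    exact (ENNReal.toReal_eq_toReal_iff' (measure_ne_top _ _) (measure_ne_top _ _)).mp h4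
  have he := measurableEmbedding_embeddingReal Ω
  have hall : ∀ᵐ ω ∂μ, ∀ a b : ℚ, (condExpKernel μ (MeasurableSpace.invariants S) ω) (S ⁻¹' (embeddingReal Ω ⁻¹' Set.Ioo (a : ℝ) b)) =
      (condExpKernel μ (MeasurableSpace.invariants S) ω) (embeddingReal Ω ⁻¹' Set.Ioo (a : ℝ) b) := by
    rw [ae_all_iff]
    intro a
    rw [ae_all_iff]
    intro b
    exact step _ (he.measurable measurableSet_Ioo)
  filter_upwards [hall] with ω hω
  refine ⟨S.measurable, ?_⟩
  have hmap : ((condExpKernel μ (MeasurableSpace.invariants S) ω).map S).map (embeddingReal Ω) = (condExpKernel μ (MeasurableSpace.invariants S) ω).map (embeddingReal Ω) := by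
    have : IsFiniteMeasure (((condExpKernel μ (MeasurableSpace.invariants S) ω).map S).map (embeddingReal Ω)) := by infer_instance
    refine Real.measure_ext_Ioo_rat fun a b => ?_
    rw [Measure.map_apply he.measurable measurableSet_Ioo, Measure.map_apply he.measurable measurableSet_Ioo,
      Measure.map_apply S.measurable (he.measurable measurableSet_Ioo)]
    exact hω a b
  ext A hA
  have h5 : embeddingReal Ω ⁻¹' (embeddingReal Ω '' A) = A := Set.preimage_image_eq A he.injective
  have h6 := congrArg (fun ν : Measure ℝ => ν (embeddingReal Ω '' A)) hmap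
  rw [he.map_apply, he.map_apply, h5] at h6
  exact h6

end Pool.Agent.Lib.H82OG
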