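import Pool.Agent.Lib.H82OG.MA1

/-!
# Project H82OG, chunk MA2: the components are ergodic
-/

open MeasureTheory Filter Topology Finset ProbabilityTheory
open scoped ENNReal ComplexConjugate Matrix

namespace Pool.Agent.Lib.H82OG

open Pool.Agent.Lib.H22M Pool.Agent.Lib.H82T Pool.Agent.Lib.H82OT Pool.Agent.Lib.H82OF

private theorem exists_cpi2 (X : Type*) [mX : MeasurableSpace X]
    [MeasurableSpace.CountablyGenerated X] :
    ∃ C : Set (Set X), C.Countable ∧ IsPiSystem C ∧ mX = MeasurableSpace.generateFrom C ∧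
      (∀ s ∈ C, MeasurableSet s) := by
  have hb : (MeasurableSpace.countableGeneratingSet X).Countable :=
    MeasurableSpace.countable_countableGeneratingSet
  have hgen : MeasurableSpace.generateFrom (MeasurableSpace.countableGeneratingSet X) = mX :=
    MeasurableSpace.generateFrom_countableGeneratingSet
  have hbm : ∀ s ∈ MeasurableSpace.countableGeneratingSet X, MeasurableSet s := fun s hs =>
    MeasurableSpace.measurableSet_countableGeneratingSet hs
  have hm : ∀ s ∈ (fun F => ⋂₀ F) ''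
      {t : Set (Set X) | t.Finite ∧ t ⊆ MeasurableSpace.countableGeneratingSet X},
      MeasurableSet s := by
    rintro _ ⟨F, ⟨hF, hFb⟩, rfl⟩
    exact MeasurableSet.sInter hF.countable fun s hs => hbm s (hFb hs)
  refine ⟨(fun F => ⋂₀ F) ''
      {t : Set (Set X) | t.Finite ∧ t ⊆ MeasurableSpace.countableGeneratingSet X},
    (Set.countable_setOf_finite_subset hb).image _, ?_, ?_, hm⟩
  · rintro _ ⟨F, ⟨hF, hFb⟩, rfl⟩ _ ⟨G, ⟨hG, hGb⟩, rfl⟩ _
    exact ⟨F ∪ G, ⟨hF.union hG, Set.union_subset hFb hGb⟩, Set.sInter_union F G⟩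
  · refine le_antisymm ?_ (MeasurableSpace.generateFrom_le hm)
    conv_lhs => rw [← hgen]
    refine MeasurableSpace.generateFrom_le fun s hs => ?_
    refine MeasurableSpace.measurableSet_generateFrom ⟨{s}, ⟨Set.finite_singleton s, ?_⟩, ?_⟩
    · exact Set.singleton_subset_iff.2 hs
    · exact Set.sInter_singleton s

/-- Birkhoff averages of the indicator function of a set. -/
private noncomputable def av {Ω : Type*} (S : Ω → Ω) (A : Set Ω) (N : ℕ) (x : Ω) : ℝ :=
  (N : ℝ)⁻¹ * ∑ n ∈ range N, A.indicator (fun _ => (1 : ℝ)) (S^[n] x)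

private theorem ind_bd {Ω : Type*} (A : Set Ω) (x : Ω) :
    0 ≤ A.indicator (fun _ => (1 : ℝ)) x ∧ A.indicator (fun _ => (1 : ℝ)) x ≤ 1 := by
  by_cases h : x ∈ A
  · simp [h]
  · simp [h]

private theorem av_bd {Ω : Type*} (S : Ω → Ω) (A : Set Ω) (N : ℕ) (x : Ω) :
    0 ≤ av S A N x ∧ av S A N x ≤ 1 := by
  unfold av
  constructor
  · exact mul_nonneg (by positivity) (sum_nonneg fun n _ => (ind_bd A _).1)
  · have h1 : ∑ n ∈ range N, A.indicator (fun _ => (1 : ℝ)) (S^[n] x) ≤ N := by
      calc ∑ n ∈ range N, A.indicator (fun _ => (1 : ℝ)) (S^[n] x)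
          ≤ ∑ n ∈ range N, (1 : ℝ) := sum_le_sum fun n _ => (ind_bd A _).2
        _ = N := by simp
    rcases Nat.eq_zero_or_pos N with rfl | hN
    · simp
    · have hN' : (0 : ℝ) < N := by exact_mod_cast hN
      rw [inv_mul_le_iff₀ hN']
      linarith

private theorem av_measurable {Ω : Type*} [MeasurableSpace Ω] {S : Ω → Ω} (hS : Measurable S)
    {A : Set Ω} (hA : MeasurableSet A) (N : ℕ) : Measurable (av S A N) := by
  unfold av
  refine Measurable.const_mul ?_ _
  exact Finset.measurable_sum _ fun n _ => (measurable_const.indicator hA).comp (hS.iterate n)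

private theorem av_shift {Ω : Type*} (S : Ω → Ω) (A : Set Ω) (N : ℕ) (x : Ω) :
    |av S A N (S x) - av S A N x| ≤ (N : ℝ)⁻¹ := by
  unfold av
  rw [← mul_sub, abs_mul, abs_of_nonneg (by positivity : (0 : ℝ) ≤ (N : ℝ)⁻¹)]
  have h1 : ∑ n ∈ range N, A.indicator (fun _ => (1 : ℝ)) (S^[n] (S x)) -
      ∑ n ∈ range N, A.indicator (fun _ => (1 : ℝ)) (S^[n] x) =
      A.indicator (fun _ => (1 : ℝ)) (S^[N] x) - A.indicator (fun _ => (1 : ℝ)) x := by
    have h2 := Finset.sum_range_succ (fun n => A.indicator (fun _ => (1 : ℝ)) (S^[n] x)) N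
    have h3 := Finset.sum_range_succ' (fun n => A.indicator (fun _ => (1 : ℝ)) (S^[n] x)) N
    simp only [Function.iterate_succ_apply, Function.iterate_zero, id_eq] at h3
    linarith
  rw [h1]
  have h4 := ind_bd A (S^[N] x)
  have h5 := ind_bd A x
  have h6 : |A.indicator (fun _ => (1 : ℝ)) (S^[N] x) - A.indicator (fun _ => (1 : ℝ)) x| ≤ 1 := by
    rw [abs_le]
    constructor <;> linarith [h4.1, h4.2, h5.1, h5.2]
  calc (N : ℝ)⁻¹ * _ ≤ (N : ℝ)⁻¹ * 1 := mul_le_mul_of_nonneg_left h6 (by positivity)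
    _ = (N : ℝ)⁻¹ := mul_one _

/-- Mean ergodic theorem, a subsequence. -/
private theorem av_subseq {Ω : Type*} [MeasurableSpace Ω] (μ : Measure Ω)
    [IsProbabilityMeasure μ] {S : Ω → Ω} (hS : MeasurePreserving S μ μ) {A : Set Ω}
    (hA : MeasurableSet A) : ∃ ns : ℕ → ℕ, StrictMono ns ∧
      ∀ᵐ x ∂μ, ∃ l : ℝ, Tendsto (fun k => av S A (ns k) x) atTop (𝓝 l) := by
  let V : Lp ℝ 2 μ →L[ℝ] Lp ℝ 2 μ := (Lp.compMeasurePreservingₗᵢ ℝ S hS).toContinuousLinearMap
  have hV : ∀ g : Lp ℝ 2 μ, V g =ᵐ[μ] fun y => g (S y) := by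
    intro g
    have h1 : V g = Lp.compMeasurePreserving S hS g := rfl
    rw [h1]
    exact Lp.coeFn_compMeasurePreserving g hS
  have hVn : ‖V‖ ≤ 1 := LinearIsometry.norm_toContinuousLinearMap_le _
  let F : Lp ℝ 2 μ := indicatorConstLp 2 hA (measure_ne_top μ A) (1 : ℝ)
  have hF : F =ᵐ[μ] A.indicator (fun _ => (1 : ℝ)) := indicatorConstLp_coeFn
  have hiter : ∀ n : ℕ, (V^[n] F) =ᵐ[μ] fun y => A.indicator (fun _ => (1 : ℝ)) (S^[n] y) := by
    intro n
    induction n with
    | zero => exact hF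
    | succ n ih =>
      rw [Function.iterate_succ_apply']
      have h1 : ∀ᵐ y ∂μ, (V^[n] F) (S y) = A.indicator (fun _ => (1 : ℝ)) (S^[n] (S y)) :=
        hS.quasiMeasurePreserving.ae ih
      filter_upwards [hV (V^[n] F), h1] with y h2 h3
      rw [h2, h3, ← Function.iterate_succ_apply]
  have hlim := ContinuousLinearMap.tendsto_birkhoffAverage_orthogonalProjection V hVn F
  have hcoe : ∀ N : ℕ, (birkhoffAverage ℝ V _root_.id N F : Lp ℝ 2 μ) =ᵐ[μ] av S A N := by
    intro N
    have h1 : birkhoffAverage ℝ V _root_.id N F = (N : ℝ)⁻¹ • ∑ n ∈ range N, V^[n] F := rfl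
    rw [h1]
    have h2 : ∀ᵐ y ∂μ, ∀ n : ℕ, (V^[n] F) y = A.indicator (fun _ => (1 : ℝ)) (S^[n] y) :=
      ae_all_iff.2 hiter
    have h3 : ∀ N : ℕ, (⇑(∑ n ∈ range N, V^[n] F) : Ω → ℝ) =ᵐ[μ]
        fun y => ∑ n ∈ range N, (V^[n] F) y := by
      intro N
      induction N with
      | zero =>
        simp only [range_zero, sum_empty]
        exact Lp.coeFn_zero ℝ 2 μ
      | succ N ih =>
        simp only [sum_range_succ]
        filter_upwards [Lp.coeFn_add (∑ n ∈ range N, V^[n] F) (V^[N] F), ih] with y h4 h5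
        rw [h4, Pi.add_apply, h5]
    filter_upwards [Lp.coeFn_smul (N : ℝ)⁻¹ (∑ n ∈ range N, V^[n] F), h2, h3 N] with y h4 h5 h6
    rw [h4, Pi.smul_apply, h6, smul_eq_mul]
    unfold av
    congr 1
    exact sum_congr rfl fun n _ => h5 n
  obtain ⟨ns, hns, hns2⟩ := (tendstoInMeasure_of_tendsto_Lp hlim).exists_seq_tendsto_ae
  refine ⟨ns, hns, ?_⟩
  have hall : ∀ᵐ y ∂μ, ∀ N, (birkhoffAverage ℝ V _root_.id N F : Lp ℝ 2 μ) y = av S A N y :=
    ae_all_iff.2 hcoe
  filter_upwards [hns2, hall] with y h1 h2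
  exact ⟨_, h1.congr fun k => h2 (ns k)⟩

private theorem preimage_iter {Ω : Type*} {S : Ω → Ω} {B : Set Ω} (hB : S ⁻¹' B = B) (n : ℕ) :
    (S^[n]) ⁻¹' B = B := by
  induction n with
  | zero => rfl
  | succ n ih =>
    rw [Function.iterate_succ, Set.preimage_comp, ih, hB]

/-- The integrals of the averages over an invariant set. -/
private theorem integral_av {Ω : Type*} [MeasurableSpace Ω] (ν : Measure Ω)
    [IsProbabilityMeasure ν] {S : Ω → Ω} (hS : MeasurePreserving S ν ν) {A B : Set Ω}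
    (hA : MeasurableSet A) (hB : MeasurableSet B) (hBS : S ⁻¹' B = B) {N : ℕ} (hN : 0 < N) :
    ∫ x in B, av S A N x ∂ν = ν.real (A ∩ B) := by
  have h1 : ∀ n : ℕ, ∫ x in B, A.indicator (fun _ => (1 : ℝ)) (S^[n] x) ∂ν = ν.real (A ∩ B) := by
    intro n
    have h2 : (fun x => A.indicator (fun _ => (1 : ℝ)) (S^[n] x)) =
        ((S^[n]) ⁻¹' A).indicator (fun _ => (1 : ℝ)) := by
      funext x
      by_cases hx : S^[n] x ∈ A
      · rw [Set.indicator_of_mem hx, Set.indicator_of_mem (show x ∈ (S^[n]) ⁻¹' A from hx)]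
      · rw [Set.indicator_of_notMem hx,
          Set.indicator_of_notMem (show x ∉ (S^[n]) ⁻¹' A from hx)]
    rw [h2, integral_indicator (hS.measurable.iterate n hA), setIntegral_const,
      smul_eq_mul, mul_one]
    rw [measureReal_restrict_apply (hS.measurable.iterate n hA)]
    have h3 : (S^[n]) ⁻¹' A ∩ B = (S^[n]) ⁻¹' (A ∩ B) := by
      rw [Set.preimage_inter, preimage_iter hBS]
    rw [h3, measureReal_def, measureReal_def,
      (hS.iterate n).measure_preimage (hA.inter hB).nullMeasurableSet]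
  have hint : ∀ n : ℕ, Integrable (fun x => A.indicator (fun _ => (1 : ℝ)) (S^[n] x))
      (ν.restrict B) := by
    intro n
    refine Integrable.of_bound ((measurable_const.indicator hA).comp
      (hS.measurable.iterate n)).aestronglyMeasurable 1 (Eventually.of_forall fun x => ?_)
    rw [Real.norm_eq_abs, abs_le]
    constructor <;> linarith [(ind_bd A (S^[n] x)).1, (ind_bd A (S^[n] x)).2]
  unfold av
  rw [integral_const_mul, integral_finset_sum _ fun n _ => hint n, sum_congr rfl fun n _ => h1 n,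
    sum_const, card_range, nsmul_eq_mul, ← mul_assoc, inv_mul_cancel₀, one_mul]
  exact_mod_cast hN.ne'

/-- A function which is measurable for `m` is almost surely constant for the conditional measures. -/
private theorem const_of_meas {Ω : Type*} {m : MeasurableSpace Ω} [mΩ : MeasurableSpace Ω]
    [StandardBorelSpace Ω] (μ : Measure Ω) [IsProbabilityMeasure μ] (hm : m ≤ mΩ) {h : Ω → ℝ}
    (hh : Measurable[m] h) : ∀ᵐ ω ∂μ, ∀ᵐ x ∂(condExpKernel μ m ω), h x = h ω := by
  have h1 : ∀ q : ℚ, ∀ᵐ ω ∂μ, (h ω < q → ∀ᵐ x ∂(condExpKernel μ m ω), h x < q) ∧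
      (¬ h ω < q → ∀ᵐ x ∂(condExpKernel μ m ω), ¬ h x < q) := by
    intro q
    have hC : MeasurableSet[m] {x | h x < q} := hh measurableSet_Iio
    have hC' : MeasurableSet {x | h x < q} := hm _ hC
    have h2 := condExpKernel_ae_eq_condExp (μ := μ) hm hC'
    have h3 : μ[{x | h x < q}.indicator (fun _ => (1 : ℝ)) | m] =
        {x | h x < q}.indicator (fun _ => (1 : ℝ)) := by
      refine condExp_of_stronglyMeasurable hm
        (stronglyMeasurable_const.indicator hC) ?_
      exact (integrable_const 1).indicator hC'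
    have h4 : ∀ᵐ ω ∂μ, (condExpKernel μ m ω).real {x | h x < q} =
        {x | h x < q}.indicator (fun _ => (1 : ℝ)) ω := by
      filter_upwards [h2] with ω hω
      rw [hω]
      exact congrFun h3 ω
    filter_upwards [h4] with ω hω
    refine ⟨fun hlt => ?_, fun hlt => ?_⟩
    · rw [Set.indicator_of_mem (show ω ∈ {x | h x < q} from hlt)] at hω
      have h5 : (condExpKernel μ m ω) {x | h x < q} = 1 := by
        rw [measureReal_def] at hω
        rw [← ENNReal.ofReal_toReal (measure_ne_top _ _), hω, ENNReal.ofReal_one]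
      exact (mem_ae_iff_prob_eq_one hC').2 h5
    · rw [Set.indicator_of_notMem (show ω ∉ {x | h x < q} from hlt)] at hω
      have h5 : (condExpKernel μ m ω) {x | h x < q} = 0 := by
        rw [measureReal_def, ENNReal.toReal_eq_zero_iff] at hω
        exact hω.resolve_right (measure_ne_top _ _)
      exact measure_eq_zero_iff_ae_notMem.1 h5
  filter_upwards [ae_all_iff.2 h1] with ω hω
  have h6 : ∀ᵐ x ∂(condExpKernel μ m ω), ∀ q : ℚ, (h ω < q → h x < q) ∧
      (¬ h ω < q → ¬ h x < q) := by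
    refine ae_all_iff.2 fun q => ?_
    by_cases hq : h ω < q
    · filter_upwards [(hω q).1 hq] with x hx
      exact ⟨fun _ => hx, fun hn => absurd hq hn⟩
    · filter_upwards [(hω q).2 hq] with x hx
      exact ⟨fun hn => absurd hn hq, fun _ => hx⟩
  filter_upwards [h6] with x hx
  rcases lt_trichotomy (h x) (h ω) with h7 | h7 | h7
  · obtain ⟨q, hq1, hq2⟩ := exists_rat_btwn h7
    exact absurd hq1 ((hx q).2 (not_lt.2 hq2.le))
  · exact h7
  · obtain ⟨q, hq1, hq2⟩ := exists_rat_btwn h7
    exact absurd ((hx q).1 hq1) (not_lt.2 hq2.le)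

/-- Almost sure properties hold almost surely for the conditional measures. -/
private theorem ae_cond {Ω : Type*} {m : MeasurableSpace Ω} [mΩ : MeasurableSpace Ω]
    [StandardBorelSpace Ω] (μ : Measure Ω) [IsProbabilityMeasure μ] (hm : m ≤ mΩ)
    {p : Ω → Prop} (hp : ∀ᵐ x ∂μ, p x) : ∀ᵐ ω ∂μ, ∀ᵐ x ∂(condExpKernel μ m ω), p x := by
  rw [← condExpKernel_comp_trim (μ := μ) hm] at hp
  exact ae_of_ae_trim hm (Measure.ae_ae_of_ae_comp hp)

private theorem comp_prod {Ω : Type*} [MeasurableSpace Ω] [StandardBorelSpace Ω]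
    (μ : Measure Ω) [IsProbabilityMeasure μ] (S : Ω ≃ᵐ Ω) (hS : MeasurePreserving S μ μ)
    {A : Set Ω} (hA : MeasurableSet A) :
    ∀ᵐ ω ∂μ, ∀ B, MeasurableSet B → S ⁻¹' B = B →
      condExpKernel μ (MeasurableSpace.invariants S) ω (A ∩ B) =
      condExpKernel μ (MeasurableSpace.invariants S) ω A *
        condExpKernel μ (MeasurableSpace.invariants S) ω B := by
  obtain ⟨ns, hns, hconv⟩ := av_subseq μ hS hA
  have hI := MeasurableSpace.invariants_le (S : Ω → Ω)
  set C : Set Ω := {x | ∃ l : ℝ, Tendsto (fun k => av S A (ns k) x) atTop (𝓝 l)} with hC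
  have hCm : MeasurableSet C :=
    measurableSet_exists_tendsto fun k => av_measurable S.measurable hA (ns k)
  let h : Ω → ℝ := C.indicator fun x => limsup (fun k => av S A (ns k) x) atTop
  have hlim : ∀ x ∈ C, Tendsto (fun k => av S A (ns k) x) atTop (𝓝 (h x)) := by
    intro x hx
    obtain ⟨l, hl⟩ := hx
    have hxC : x ∈ C := ⟨l, hl⟩
    have h1 : h x = limsup (fun k => av S A (ns k) x) atTop := Set.indicator_of_mem hxC _
    rw [h1, hl.limsup_eq]
    exact hl
  have hz : Tendsto (fun k => ((ns k : ℕ) : ℝ)⁻¹) atTop (𝓝 0) :=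
    tendsto_inv_atTop_zero.comp (tendsto_natCast_atTop_atTop.comp hns.tendsto_atTop)
  have hd : ∀ x, Tendsto (fun k => av S A (ns k) (S x) - av S A (ns k) x) atTop (𝓝 0) := by
    intro x
    refine squeeze_zero_norm (fun k => ?_) hz
    rw [Real.norm_eq_abs]
    exact av_shift S A (ns k) x
  have hs1 : ∀ x l, Tendsto (fun k => av S A (ns k) x) atTop (𝓝 l) →
      Tendsto (fun k => av S A (ns k) (S x)) atTop (𝓝 l) := by
    intro x l hl
    have h2 := hl.add (hd x)
    rw [add_zero] at h2
    exact h2.congr fun k => by ring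
  have hs2 : ∀ x l, Tendsto (fun k => av S A (ns k) (S x)) atTop (𝓝 l) →
      Tendsto (fun k => av S A (ns k) x) atTop (𝓝 l) := by
    intro x l hl
    have h2 := hl.sub (hd x)
    rw [sub_zero] at h2
    exact h2.congr fun k => by ring
  have hinv : ∀ x, h (S x) = h x := by
    intro x
    by_cases hx : x ∈ C
    · have h3 := hlim x hx
      have hSx : S x ∈ C := ⟨_, hs1 x _ h3⟩
      exact tendsto_nhds_unique (hlim _ hSx) (hs1 x _ h3)
    · have hSx : S x ∉ C := by
        rintro ⟨l, hl⟩
        exact hx ⟨l, hs2 x l hl⟩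
      exact (Set.indicator_of_notMem hSx _).trans (Set.indicator_of_notMem hx _).symm
  have hhm : Measurable h :=
    (Measurable.limsup fun k => av_measurable S.measurable hA (ns k)).indicator hCm
  have hhI : Measurable[MeasurableSpace.invariants (S : Ω → Ω)] h := by
    rw [MeasurableSpace.measurable_invariants_dom]
    refine ⟨hhm, fun s _ => ?_⟩
    have : h ∘ S = h := funext hinv
    rw [this]
  filter_upwards [component_invariant μ S hS, const_of_meas μ hI hhI, ae_cond μ hI hconv] with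
    ω h1 h2 h3
  set ν := condExpKernel μ (MeasurableSpace.invariants S) ω with hν
  have key : ∀ B, MeasurableSet B → S ⁻¹' B = B → ν.real (A ∩ B) = h ω * ν.real B := by
    intro B hB hBS
    have h4 : Tendsto (fun k => ∫ x in B, av S A (ns k) x ∂ν) atTop (𝓝 (∫ x in B, h ω ∂ν)) := by
      refine tendsto_integral_of_dominated_convergence (fun _ => (1 : ℝ))
        (fun k => (av_measurable S.measurable hA (ns k)).aestronglyMeasurable)
        (integrable_const 1) (fun k => Eventually.of_forall fun x => ?_) ?_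
      · rw [Real.norm_eq_abs, abs_le]
        constructor <;> linarith [(av_bd S A (ns k) x).1, (av_bd S A (ns k) x).2]
      · filter_upwards [ae_restrict_of_ae h2, ae_restrict_of_ae h3] with x hx1 hx2
        rw [← hx1]
        exact hlim x hx2
    have h5 : ∀ᶠ k in atTop, ∫ x in B, av S A (ns k) x ∂ν = ν.real (A ∩ B) := by
      filter_upwards [eventually_ge_atTop 1] with k hk
      exact integral_av ν h1 hA hB hBS (lt_of_lt_of_le hk (hns.id_le k))
    have h6 : Tendsto (fun k => ∫ x in B, av S A (ns k) x ∂ν) atTop (𝓝 (ν.real (A ∩ B))) :=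
      tendsto_const_nhds.congr' (h5.mono fun k hk => hk.symm)
    have h7 := tendsto_nhds_unique h6 h4
    rw [h7, setIntegral_const, smul_eq_mul, mul_comm]
  intro B hB hBS
  have h8 := key Set.univ MeasurableSet.univ rfl
  rw [Set.inter_univ, probReal_univ, mul_one] at h8
  have h9 := key B hB hBS
  rw [← h8] at h9
  rw [← ENNReal.toReal_eq_toReal_iff' (measure_ne_top _ _)
    (ENNReal.mul_ne_top (measure_ne_top _ _) (measure_ne_top _ _)), ENNReal.toReal_mul]
  exact h9

/-- Proof. Notation of MA1. For `A` in the countable π-system `𝒜` let `f = 1_A`. By the mean ergodic theorem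
(`ContinuousLinearMap.tendsto_birkhoffAverage_orthogonalProjection`, or `H22M/E0.lean`) the averages
`A_N f = N⁻¹ ∑_{n<N} f ∘ S^[n]` converge in `L²(μ)` to an invariant function, which is `E(f|𝓘)` (an a.e.
invariant function agrees a.e. with a strictly invariant measurable one, e.g. `limsup_n h (S^[n] ω)`; the
integrals over `B ∈ 𝓘` agree). Hence `∫∫ |A_N f - E(f|𝓘)|² dκ ω dμ → 0`; along a subsequence (common to the
countably many `A ∈ 𝒜`: diagonal argument, or use a weighted sum over `𝒜`) the inner integrals tend to `0`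
for a.e. `ω`, and `E(f|𝓘)` is `κ ω`-a.e. equal to the constant `κ ω A` (a function measurable for `𝓘` is
`κ ω`-a.e. constant for a.e. `ω`: `condExpKernel_ae_eq_condExp` for the sets of the form `{E(f|𝓘) < r}` or
`condExp` of its square). For such an `ω` for which also `κ ω` is invariant: let `S⁻¹ B = B`. Then
`κ ω (A ∩ B) = ∫ 1_B f ∘ S^[n] dκ ω` for all `n`, so `= ∫ 1_B A_N f dκ ω → κ ω B * κ ω A`. Both sides are
measures in `A` (`ext_of_generate_finite`), so `A = B` gives `κ ω B = (κ ω B)²`. -/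
theorem component_ergodic {Ω : Type*} [MeasurableSpace Ω] [StandardBorelSpace Ω]
    (μ : Measure Ω) [IsProbabilityMeasure μ] (S : Ω ≃ᵐ Ω) (hS : MeasurePreserving S μ μ) :
    ∀ᵐ ω ∂μ, Ergodic S (condExpKernel μ (MeasurableSpace.invariants S) ω) := by
  obtain ⟨C, hC, hπ, hgen, hCm⟩ := exists_cpi2 Ω
  filter_upwards [component_invariant μ S hS,
    (ae_ball_iff hC).2 fun A hA => comp_prod μ S hS (hCm A hA)] with ω h1 h2
  set ν := condExpKernel μ (MeasurableSpace.invariants S) ω with hν
  refine { toMeasurePreserving := h1, aeconst_set := fun B hB hBS => ?_ }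
  have h3 : ν.restrict B = ν B • ν := by
    refine ext_of_generate_finite C hgen hπ (fun A hA => ?_) ?_
    · rw [Measure.restrict_apply (hCm A hA), Measure.smul_apply, smul_eq_mul, h2 A hA B hB hBS,
        mul_comm]
    · rw [Measure.restrict_apply MeasurableSet.univ, Set.univ_inter, Measure.smul_apply,
        measure_univ, smul_eq_mul, mul_one]
  have h4 : ν B = ν B * ν B := by
    have h5 : ν.restrict B B = ν B := by
      rw [Measure.restrict_apply hB, Set.inter_self]
    rw [h3, Measure.smul_apply, smul_eq_mul] at h5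
    exact h5.symm
  rw [eventuallyConst_set']
  by_cases h0 : ν B = 0
  · exact Or.inl (ae_eq_empty.2 h0)
  · right
    have h6 : ν B = 1 := by
      have h7 : ν B * 1 = ν B * ν B := by rw [mul_one]; exact h4
      exact ((ENNReal.mul_right_inj h0 (measure_ne_top _ _)).1 h7).symm
    rw [ae_eq_univ, prob_compl_eq_zero_iff hB]
    exact h6

end Pool.Agent.Lib.H82OG
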