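import Pool.Agent.Lib.H82OG.Defs

/-!
# Project H82OG, chunk MA3: an ergodic measure is extremal
-/

open MeasureTheory Filter Topology Finset ProbabilityTheory
open scoped ENNReal ComplexConjugate Matrix

namespace Pool.Agent.Lib.H82OG

open Pool.Agent.Lib.H22M Pool.Agent.Lib.H82T Pool.Agent.Lib.H82OT Pool.Agent.Lib.H82OF

private theorem exists_cpi (X : Type*) [mX : MeasurableSpace X]
    [MeasurableSpace.CountablyGenerated X] :
    ∃ C : Set (Set X), C.Countable ∧ IsPiSystem C ∧ mX = MeasurableSpace.generateFrom C ∧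
      (∀ s ∈ C, MeasurableSet s) := by
  have hb : (MeasurableSpace.countableGeneratingSet X).Countable :=
    MeasurableSpace.countable_countableGeneratingSet
  have hgen : MeasurableSpace.generateFrom (MeasurableSpace.countableGeneratingSet X) = mX :=
    MeasurableSpace.generateFrom_countableGeneratingSet
  have hbm : ∀ s ∈ MeasurableSpace.countableGeneratingSet X, MeasurableSet s := fun s hs =>
    MeasurableSpace.measurableSet_countableGeneratingSet hs
  have hm : ∀ s ∈ (fun F => ⋂₀ F) ''
      {t : Set (Set X) | t.Finite ∧ t ⊆ MeasurableSpace.countableGeneratingSet X},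
      MeasurableSet s := by
    rintro _ ⟨F, ⟨hF, hFb⟩, rfl⟩
    exact MeasurableSet.sInter hF.countable fun s hs => hbm s (hFb hs)
  refine ⟨(fun F => ⋂₀ F) ''
      {t : Set (Set X) | t.Finite ∧ t ⊆ MeasurableSpace.countableGeneratingSet X},
    (Set.countable_setOf_finite_subset hb).image _, ?_, ?_, hm⟩
  · rintro _ ⟨F, ⟨hF, hFb⟩, rfl⟩ _ ⟨G, ⟨hG, hGb⟩, rfl⟩ _
    exact ⟨F ∪ G, ⟨hF.union hG, Set.union_subset hFb hGb⟩, Set.sInter_union F G⟩
  · refine le_antisymm ?_ (MeasurableSpace.generateFrom_le hm)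
    conv_lhs => rw [← hgen]
    refine MeasurableSpace.generateFrom_le fun s hs => ?_
    refine MeasurableSpace.measurableSet_generateFrom ⟨{s}, ⟨Set.finite_singleton s, ?_⟩, ?_⟩
    · exact Set.singleton_subset_iff.2 hs
    · exact Set.sInter_singleton s

/-- Proof. Let `A` be measurable, `E ⊆ Ω` measurable with `μ E > 0`. The probability measure
`M_E = (μ E)⁻¹ ∫_E κ ω dμ` (i.e. `κ ∘ₘ (μ[|E])`) is `T`-invariant and `≤ (μ E)⁻¹ M`, so absolutely
continuous with respect to the ergodic measure `M`: `M_E = M` (`Ergodic.eq_smul_of_absolutelyContinuous`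
or similar in `Mathlib/Dynamics/Ergodic/RadonNikodym.lean`, `Extreme.lean`). So
`∫_E κ ω A dμ = μ E * M A` for all `E`, i.e. `κ ω A = M A` for a.e. `ω`; take all `A` of a countable
generating π-system. -/
theorem ae_eq_of_ergodic {Ω X : Type*} [MeasurableSpace Ω] [MeasurableSpace X]
    [StandardBorelSpace X] (μ : Measure Ω) [IsProbabilityMeasure μ] (M : Measure X)
    [IsProbabilityMeasure M] (T : X → X) (hT : Ergodic T M) (κ : Kernel Ω X) [IsMarkovKernel κ]
    (hκT : ∀ᵐ ω ∂μ, MeasurePreserving T (κ ω) (κ ω)) (hM : κ ∘ₘ μ = M) :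
    ∀ᵐ ω ∂μ, κ ω = M := by
  obtain ⟨C, hC, hπ, hgen, hCm⟩ := exists_cpi X
  have key : ∀ A, MeasurableSet A → ∀ᵐ ω ∂μ, κ ω A = M A := by
    intro A hA
    refine ae_eq_of_forall_setLIntegral_eq_of_sigmaFinite (κ.measurable_coe hA)
      measurable_const ?_
    intro E hE _
    rw [setLIntegral_const]
    have hap : ∀ B, MeasurableSet B →
        (κ ∘ₘ (μ.restrict E)) B = ∫⁻ ω in E, κ ω B ∂μ := fun B hB =>
      Measure.bind_apply hB κ.aemeasurable
    have hapM : ∀ B, MeasurableSet B → M B = ∫⁻ ω, κ ω B ∂μ := by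
      intro B hB
      rw [← hM]
      exact Measure.bind_apply hB κ.aemeasurable
    have hinv : MeasurePreserving T (κ ∘ₘ (μ.restrict E)) (κ ∘ₘ (μ.restrict E)) := by
      refine ⟨hT.measurable, Measure.ext fun B hB => ?_⟩
      rw [Measure.map_apply hT.measurable hB, hap _ (hT.measurable hB), hap _ hB]
      refine lintegral_congr_ae ?_
      filter_upwards [ae_restrict_of_ae hκT] with ω hω
      exact hω.measure_preimage hB.nullMeasurableSet
    have hac : (κ ∘ₘ (μ.restrict E)) ≪ M := by
      refine Measure.AbsolutelyContinuous.mk fun B hB h0 => ?_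
      rw [hap _ hB]
      rw [hapM _ hB] at h0
      refine le_antisymm ?_ zero_le
      rw [← h0]
      exact setLIntegral_le_lintegral _ _
    obtain ⟨c, hc⟩ := hT.eq_smul_of_absolutelyContinuous hinv hac
    have huniv : (κ ∘ₘ (μ.restrict E)) Set.univ = μ E := by
      rw [hap _ MeasurableSet.univ]
      simp
    have hcE : c = μ E := by
      rw [← huniv, hc, Measure.smul_apply, measure_univ, smul_eq_mul, mul_one]
    rw [← hap A hA, hc, Measure.smul_apply, smul_eq_mul, hcE, mul_comm]
  have hall : ∀ᵐ ω ∂μ, ∀ A ∈ C, κ ω A = M A :=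
    (ae_ball_iff hC).2 fun A hA => key A (hCm A hA)
  filter_upwards [hall] with ω hω
  exact ext_of_generate_finite C hgen hπ hω (by rw [measure_univ, measure_univ])

end Pool.Agent.Lib.H82OG
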