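import Pool.Agent.Lib.H82OG.MA2
import Pool.Agent.Lib.H82OG.MA3

/-!
# Project H82OG, chunk MA4: an ergodic lift to the group extension
-/

open MeasureTheory Filter Topology Finset ProbabilityTheory
open scoped ENNReal ComplexConjugate Matrix

namespace Pool.Agent.Lib.H82OG

open Pool.Agent.Lib.H22M Pool.Agent.Lib.H82T Pool.Agent.Lib.H82OT Pool.Agent.Lib.H82OF

private theorem ae_set {Ω : Type*} {m : MeasurableSpace Ω} [mΩ : MeasurableSpace Ω]
    [StandardBorelSpace Ω] (μ : Measure Ω) [IsProbabilityMeasure μ] (hm : m ≤ mΩ) {C : Set Ω}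
    (hC : MeasurableSet[m] C) : ∀ᵐ ω ∂μ, (ω ∈ C → ∀ᵐ x ∂(condExpKernel μ m ω), x ∈ C) ∧
      (ω ∉ C → ∀ᵐ x ∂(condExpKernel μ m ω), x ∉ C) := by
  have hC' : MeasurableSet C := hm _ hC
  have h2 := condExpKernel_ae_eq_condExp (μ := μ) hm hC'
  have h3 : μ[C.indicator (fun _ => (1 : ℝ)) | m] = C.indicator (fun _ => (1 : ℝ)) := by
    refine condExp_of_stronglyMeasurable hm (stronglyMeasurable_const.indicator hC) ?_
    exact (integrable_const 1).indicator hC'
  have h4 : ∀ᵐ ω ∂μ, (condExpKernel μ m ω).real C = C.indicator (fun _ => (1 : ℝ)) ω := by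
    filter_upwards [h2] with ω hω
    rw [hω]
    exact congrFun h3 ω
  filter_upwards [h4] with ω hω
  refine ⟨fun hlt => ?_, fun hlt => ?_⟩
  · rw [Set.indicator_of_mem hlt] at hω
    have h5 : (condExpKernel μ m ω) C = 1 := by
      rw [measureReal_def] at hω
      rw [← ENNReal.ofReal_toReal (measure_ne_top _ _), hω, ENNReal.ofReal_one]
    exact (mem_ae_iff_prob_eq_one hC').2 h5
  · rw [Set.indicator_of_notMem hlt] at hω
    have h5 : (condExpKernel μ m ω) C = 0 := by
      rw [measureReal_def, ENNReal.toReal_eq_zero_iff] at hω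
      exact hω.resolve_right (measure_ne_top _ _)
    exact measure_eq_zero_iff_ae_notMem.1 h5

private theorem const_of_meas' {Ω U : Type*} {m : MeasurableSpace Ω} [mΩ : MeasurableSpace Ω]
    [StandardBorelSpace Ω] (μ : Measure Ω) [IsProbabilityMeasure μ] (hm : m ≤ mΩ)
    [TopologicalSpace U] [T2Space U] [SecondCountableTopology U] [MeasurableSpace U]
    [BorelSpace U] {h : Ω → U} (hh : Measurable[m] h) :
    ∀ᵐ ω ∂μ, ∀ᵐ x ∂(condExpKernel μ m ω), h x = h ω := by
  have hb := TopologicalSpace.isBasis_countableBasis U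
  have hc := TopologicalSpace.countable_countableBasis U
  have h1 : ∀ᵐ ω ∂μ, ∀ V ∈ TopologicalSpace.countableBasis U,
      (ω ∈ h ⁻¹' V → ∀ᵐ x ∂(condExpKernel μ m ω), x ∈ h ⁻¹' V) ∧
      (ω ∉ h ⁻¹' V → ∀ᵐ x ∂(condExpKernel μ m ω), x ∉ h ⁻¹' V) :=
    (ae_ball_iff hc).2 fun V hV => ae_set μ hm (hh (hb.isOpen hV).measurableSet)
  filter_upwards [h1] with ω hω
  have h6 : ∀ᵐ x ∂(condExpKernel μ m ω), ∀ V ∈ TopologicalSpace.countableBasis U,
      (h x ∈ V ↔ h ω ∈ V) := by
    refine (ae_ball_iff hc).2 fun V hV => ?_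
    by_cases hq : ω ∈ h ⁻¹' V
    · filter_upwards [(hω V hV).1 hq] with x hx
      exact ⟨fun _ => hq, fun _ => hx⟩
    · filter_upwards [(hω V hV).2 hq] with x hx
      exact ⟨fun hn => absurd hn hx, fun hn => absurd hn hq⟩
  filter_upwards [h6] with x hx
  exact (hb.inseparable_iff.2 hx).eq

/-- Proof. `μ = m.prod haar` (`haar` the normalised Haar measure of `K`),
`S (y, k) = (R y, φ y * k)`, a measurable equivalence preserving `μ` (compare `skewE` in `H22M/Defs.lean`; the
fibre maps preserve `haar`). `κ = condExpKernel μ (invariants S)`. For `μ`-a.e. `ω`: `κ ω` is invariant and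
ergodic (MA1, MA2); its first marginal is `m`: the kernel `κ.map Prod.fst` consists of `R`-invariant measures
with average `m`, so MA3 with `T = R`; and `w (y, k) = k⁻¹ • u y` is `S`-invariant, so measurable for
`invariants S`, hence `w = w ω` `κ ω`-a.e. for a.e. `ω` (`U` is second countable Hausdorff: countably many
sets separate points; for `B ∈ invariants S`, `κ ω B = 1_B ω` for a.e. `ω`). Take such an `ω`, `ν = κ ω`,
`u₁ = w ω`. (`Y × K` is standard Borel: `standardBorel_of_compact` for `K`.) -/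
theorem exists_ergodic_lift {Y K U : Type*} [MeasurableSpace Y] [StandardBorelSpace Y]
    {m : Measure Y} [IsProbabilityMeasure m] (R : Y ≃ᵐ Y) (hR : Ergodic R m)
    [Group K] [TopologicalSpace K] [IsTopologicalGroup K] [CompactSpace K]
    [T2Space K] [SecondCountableTopology K] [MeasurableSpace K] [BorelSpace K]
    [TopologicalSpace U] [T2Space U] [SecondCountableTopology U] [MeasurableSpace U]
    [BorelSpace U] [MulAction K U] [ContinuousSMul K U] (φ : Y → K) (hφ : Measurable φ)
    (u : Y → U) (hu : Measurable u) (huR : ∀ y, u (R y) = φ y • u y) :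
    ∃ (ν : Measure (Y × K)) (u₁ : U), IsProbabilityMeasure ν ∧ ν.map Prod.fst = m ∧
      Ergodic (fun x : Y × K => (R x.1, φ x.1 * x.2)) ν ∧ ∀ᵐ x ∂ν, u x.1 = x.2 • u₁ := by
  have hKs := standardBorel_of_compact K
  let lam : Measure K := Measure.haarMeasure ⊤
  have hlam : IsProbabilityMeasure lam := ⟨by
    have := Measure.haarMeasure_self (K₀ := (⊤ : TopologicalSpace.PositiveCompacts K))
    simpa using this⟩
  let μ : Measure (Y × K) := m.prod lam
  let S : (Y × K) ≃ᵐ (Y × K) :=
    { toFun := fun x => (R x.1, φ x.1 * x.2)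
      invFun := fun x => (R.symm x.1, (φ (R.symm x.1))⁻¹ * x.2)
      left_inv := fun x => by simp
      right_inv := fun x => by simp
      measurable_toFun := by
        refine Measurable.prodMk (R.measurable.comp measurable_fst) ?_
        exact (hφ.comp measurable_fst).mul measurable_snd
      measurable_invFun := by
        refine Measurable.prodMk (R.symm.measurable.comp measurable_fst) ?_
        exact ((hφ.comp (R.symm.measurable.comp measurable_fst)).inv).mul measurable_snd }
  have hSc : (S : Y × K → Y × K) = fun x => (R x.1, φ x.1 * x.2) := rfl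
  have hS : MeasurePreserving S μ μ := by
    refine MeasurePreserving.skew_product (f := R) (g := fun y k => φ y * k)
      hR.toMeasurePreserving ?_ (Eventually.of_forall fun y => map_mul_left_eq_self lam (φ y))
    exact (hφ.comp measurable_fst).mul measurable_snd
  have hI := MeasurableSpace.invariants_le (S : Y × K → Y × K)
  let κ := condExpKernel μ (MeasurableSpace.invariants S)
  have hint : ∀ A, MeasurableSet A → ∫⁻ ω, κ ω A ∂μ = μ A := by
    intro A hA
    have h1 : μ A = ∫⁻ ω, κ ω A ∂(μ.trim hI) := by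
      conv_lhs => rw [← condExpKernel_comp_trim (μ := μ) hI]
      exact Measure.bind_apply hA κ.aemeasurable
    rw [h1, lintegral_trim hI (κ.measurable_coe hA)]
  let κ₁ : Kernel (Y × K) Y := (κ.comap id (measurable_id'' hI)).map Prod.fst
  have hκ₁ : ∀ ω, κ₁ ω = (κ ω).map Prod.fst := by
    intro ω
    rw [Kernel.map_apply _ measurable_fst]
    rfl
  have hmk : IsMarkovKernel κ₁ := Kernel.IsMarkovKernel.map _ measurable_fst
  have hM : κ₁ ∘ₘ μ = m := by
    refine Measure.ext fun B hB => ?_
    rw [Measure.bind_apply hB κ₁.aemeasurable]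
    have h1 : ∀ ω, κ₁ ω B = κ ω (Prod.fst ⁻¹' B) := fun ω => by
      rw [hκ₁, Measure.map_apply measurable_fst hB]
    simp_rw [h1]
    rw [hint _ (measurable_fst hB)]
    have h2 : (m.prod lam).map Prod.fst = m := by
      rw [Measure.map_fst_prod, measure_univ, one_smul]
    rw [← Measure.map_apply measurable_fst hB]
    exact congrArg (fun ρ : Measure Y => ρ B) h2
  have hκT : ∀ᵐ ω ∂μ, MeasurePreserving R (κ₁ ω) (κ₁ ω) := by
    filter_upwards [component_invariant μ S hS] with ω hω
    rw [hκ₁]
    refine ⟨R.measurable, ?_⟩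
    rw [Measure.map_map R.measurable measurable_fst]
    have h3 : R ∘ Prod.fst = (Prod.fst : Y × K → Y) ∘ S := rfl
    rw [h3, ← Measure.map_map measurable_fst S.measurable, hω.map_eq]
  have hmarg := ae_eq_of_ergodic μ m R hR κ₁ hκT hM
  let w : Y × K → U := fun x => x.2⁻¹ • u x.1
  have hwm : Measurable w := (measurable_snd.inv).smul (hu.comp measurable_fst)
  have hwI : Measurable[MeasurableSpace.invariants (S : Y × K → Y × K)] w := by
    rw [MeasurableSpace.measurable_invariants_dom]
    refine ⟨hwm, fun s _ => ?_⟩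
    have h4 : w ∘ S = w := by
      funext x
      change (φ x.1 * x.2)⁻¹ • u (R x.1) = x.2⁻¹ • u x.1
      rw [huR, mul_inv_rev, mul_smul, inv_smul_smul]
    rw [h4]
  obtain ⟨ω, h1, h2, h3⟩ := ((component_ergodic μ S hS).and
    (hmarg.and (const_of_meas' μ hI hwI))).exists
  refine ⟨κ ω, w ω, inferInstance, ?_, h1, ?_⟩
  · rw [← hκ₁]
    exact h2
  · filter_upwards [h3] with x hx
    have h5 : x.2⁻¹ • u x.1 = w ω := hx
    rw [← h5, smul_inv_smul]

end Pool.Agent.Lib.H82OG
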