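import Pool.Agent.Lib.H82OG.Defs

/-!
# Project H82OG, chunk MA5: the conditional laws are translates of one measure
-/

open MeasureTheory Filter Topology Finset ProbabilityTheory
open scoped ENNReal ComplexConjugate Matrix

namespace Pool.Agent.Lib.H82OG

open Pool.Agent.Lib.H22M Pool.Agent.Lib.H82T Pool.Agent.Lib.H82OT Pool.Agent.Lib.H82OF

section MA5Aux

private lemma ma5_pi (K : Type*) [mK : MeasurableSpace K]
    [MeasurableSpace.CountablyGenerated K] :
    ∃ C : Set (Set K), C.Countable ∧ IsPiSystem C ∧ mK = MeasurableSpace.generateFrom C ∧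
      ∀ A ∈ C, MeasurableSet A := by
  obtain ⟨b, hbc, hb⟩ := MeasurableSpace.CountablyGenerated.isCountablyGenerated (α := K)
  refine ⟨generatePiSystem b, ?_, isPiSystem_generatePiSystem b, ?_, ?_⟩
  · have h1 : ∀ t, generatePiSystem b t → ∃ F : Set (Set K), F.Finite ∧ F ⊆ b ∧ t = ⋂₀ F := by
      intro t ht
      induction ht with
      | base h =>
        rename_i s
        exact ⟨{s}, Set.finite_singleton s, Set.singleton_subset_iff.mpr h, by simp⟩
      | inter _ _ _ ih1 ih2 =>
        obtain ⟨F1, hF1, hF1b, rfl⟩ := ih1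
        obtain ⟨F2, hF2, hF2b, rfl⟩ := ih2
        exact ⟨F1 ∪ F2, hF1.union hF2, Set.union_subset hF1b hF2b, (Set.sInter_union F1 F2).symm⟩
    refine ((Set.countable_ofPred_finite_subset hbc).image (fun F => ⋂₀ F)).mono ?_
    intro t ht
    obtain ⟨F, hF, hFb, rfl⟩ := h1 t ht
    exact ⟨F, ⟨hF, hFb⟩, rfl⟩
  · rw [generateFrom_generatePiSystem_eq, hb]
  · intro A hA
    have : MeasurableSet[MeasurableSpace.generateFrom b] A :=
      generateFrom_measurableSet_of_generatePiSystem A hA
    rw [hb]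
    exact this

private lemma ma5_inv {Ω X K : Type*} [MeasurableSpace Ω] [MeasurableSpace X]
    [Group K] [MeasurableSpace K] [MeasurableMul₂ K]
    (ν : Measure Ω) [IsProbabilityMeasure ν] (S : Ω → Ω)
    (hS : MeasurePreserving S ν ν) (p : Ω → X) (hp : Measurable p) (τ : X ≃ᵐ X)
    (hpS : ∀ᵐ ω ∂ν, p (S ω) = τ (p ω)) (k : Ω → K) (hk : Measurable k) (φ : X → K)
    (hφ : Measurable φ) (hkS : ∀ᵐ ω ∂ν, k (S ω) = φ (p ω) * k ω) :
    (ν.map (fun ω => (p ω, k ω))).map (fun z : X × K => (τ z.1, φ z.1 * z.2)) =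
      ν.map (fun ω => (p ω, k ω)) := by
  have hΦ : Measurable (fun z : X × K => (τ z.1, φ z.1 * z.2)) :=
    (τ.measurable.comp measurable_fst).prodMk ((hφ.comp measurable_fst).mul measurable_snd)
  rw [Measure.map_map hΦ (hp.prodMk hk)]
  have h1 : ((fun z : X × K => (τ z.1, φ z.1 * z.2)) ∘ fun ω => (p ω, k ω)) =ᵐ[ν]
      ((fun ω => (p ω, k ω)) ∘ S) := by
    filter_upwards [hpS, hkS] with ω h1 h2
    simp only [Function.comp_apply, h1, h2]
  rw [Measure.map_congr h1, ← Measure.map_map (hp.prodMk hk) hS.measurable, hS.map_eq]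

private lemma ma5_key {X K : Type*} [MeasurableSpace X]
    [Group K] [MeasurableSpace K] [MeasurableMul₂ K]
    [MeasurableSpace.CountablyGenerated K]
    (μ : Measure X) [IsProbabilityMeasure μ] (τ : X ≃ᵐ X) (hτ : μ.map τ = μ) (φ : X → K)
    (hφ : Measurable φ) (κ : Kernel X K) [IsMarkovKernel κ]
    (hinv : (μ ⊗ₘ κ).map (fun z : X × K => (τ z.1, φ z.1 * z.2)) = μ ⊗ₘ κ) :
    ∀ᵐ x ∂μ, κ (τ x) = (κ x).map (fun g => φ x * g) := by
  have hΦ : Measurable (fun z : X × K => (τ z.1, φ z.1 * z.2)) :=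
    (τ.measurable.comp measurable_fst).prodMk ((hφ.comp measurable_fst).mul measurable_snd)
  have hm : Measurable (fun z : X × K => φ z.1 * z.2) :=
    (hφ.comp measurable_fst).mul measurable_snd
  have hc : Measurable (fun z : K × K => z.2) := measurable_snd
  -- the second kernel
  let κ2 : Kernel X K := (Kernel.id ×ₖ κ).map (fun z : X × K => φ z.1 * z.2)
  have hκ2M : IsMarkovKernel κ2 := Kernel.IsMarkovKernel.map _ hm
  have hκ2 : ∀ x (A : Set K), MeasurableSet A → κ2 x A = κ x {g | φ x * g ∈ A} := by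
    intro x A hA
    have hmx : Measurable (fun g : K => φ x * g) := measurable_const_mul (φ x)
    rw [Kernel.map_apply' _ hm _ hA, Kernel.prod_apply, Kernel.id_apply,
      Measure.dirac_prod, Measure.map_apply measurable_prodMk_left (hm hA)]
    rfl
  have hκ2' : ∀ x, κ2 x = (κ x).map (fun g => φ x * g) := by
    intro x
    ext A hA
    have hmx : Measurable (fun g : K => φ x * g) := measurable_const_mul (φ x)
    rw [hκ2 x A hA, Measure.map_apply hmx hA]
    rfl
  let κ1 : Kernel X K := κ.comap τ τ.measurable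
  have hcomp : μ ⊗ₘ κ1 = μ ⊗ₘ κ2 := by
    ext s hs
    rw [Measure.compProd_apply hs, Measure.compProd_apply hs]
    have e2 : ∫⁻ x, κ2 x (Prod.mk x ⁻¹' s) ∂μ =
        (μ ⊗ₘ κ) ((fun z : X × K => (z.1, φ z.1 * z.2)) ⁻¹' s) := by
      have hΨ : Measurable (fun z : X × K => (z.1, φ z.1 * z.2)) := measurable_fst.prodMk hm
      rw [Measure.compProd_apply (hΨ hs)]
      refine lintegral_congr fun x => ?_
      rw [hκ2 x _ (measurable_prodMk_left hs)]
      rfl
    have hT : Measurable (fun z : X × K => (τ.symm z.1, z.2)) :=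
      (τ.symm.measurable.comp measurable_fst).prodMk measurable_snd
    have e1 : ∫⁻ x, κ1 x (Prod.mk x ⁻¹' s) ∂μ =
        (μ ⊗ₘ κ) ((fun z : X × K => (τ.symm z.1, z.2)) ⁻¹' s) := by
      rw [Measure.compProd_apply (hT hs)]
      have hG : Measurable (fun y => κ y (Prod.mk y ⁻¹'
          ((fun z : X × K => (τ.symm z.1, z.2)) ⁻¹' s))) :=
        Kernel.measurable_kernel_prodMk_left (hT hs)
      calc ∫⁻ x, κ1 x (Prod.mk x ⁻¹' s) ∂μ
          = ∫⁻ x, (fun y => κ y (Prod.mk y ⁻¹'
              ((fun z : X × K => (τ.symm z.1, z.2)) ⁻¹' s))) (τ x) ∂μ := by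
            refine lintegral_congr fun x => ?_
            have h0 : Prod.mk x ⁻¹' s =
                Prod.mk (τ x) ⁻¹' ((fun z : X × K => (τ.symm z.1, z.2)) ⁻¹' s) := by
              ext g
              simp only [Set.mem_preimage, MeasurableEquiv.symm_apply_apply]
            change κ (τ x) (Prod.mk x ⁻¹' s) = _
            rw [h0]
        _ = ∫⁻ y, κ y (Prod.mk y ⁻¹'
              ((fun z : X × K => (τ.symm z.1, z.2)) ⁻¹' s)) ∂(μ.map τ) :=
            (lintegral_map hG τ.measurable).symm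
        _ = _ := by rw [hτ]
    rw [e1, e2]
    rw [← hinv, Measure.map_apply hΦ (hT hs), ]
    rw [hinv]
    have h3 : (fun z : X × K => (τ z.1, φ z.1 * z.2)) ⁻¹'
        ((fun z : X × K => (τ.symm z.1, z.2)) ⁻¹' s) =
        (fun z : X × K => (z.1, φ z.1 * z.2)) ⁻¹' s := by
      ext z
      simp only [Set.mem_preimage, MeasurableEquiv.symm_apply_apply]
    rw [h3]
  have hae := Kernel.ae_eq_of_compProd_eq hcomp
  filter_upwards [hae] with x hx
  rw [← hκ2' x, ← hx]
  rfl

end MA5Aux

/-- Proof. (1) `κ (τ x) = (κ x).map (φ x * ·)` for `ν.map p`-almost every `x`: the law of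
`(p (S ω), k (S ω))` is that of `(p, k)` (`S` preserves `ν`); on the other hand it is the image of
`(ν.map p) ⊗ₘ κ` under `(x, g) ↦ (τ x, φ x g)`; uniqueness of the disintegration
(`Kernel.ae_eq_of_compProd_eq`-type lemma in `Mathlib/Probability/Kernel/Composition` or
`Disintegration/Unique.lean`). (2) For a measurable set `A ⊆ K` the function
`H_A ω = (κ (p ω)).map (fun g => (k ω)⁻¹ * g) A = κ (p ω) {g | (k ω)⁻¹ * g ∈ A}` is measurable
(`Kernel.measurable_kernel_prodMk_left`) and invariant a.e. under `S` by (1), so constant a.e.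
(3) Let `A` run through a countable generating π-system of `K` (second countable); choose `ω₀` outside the
exceptional null sets and `η = (κ (p ω₀)).map (fun g => (k ω₀)⁻¹ * g)`. Then
`(κ (p ω)).map (fun g => (k ω)⁻¹ * g) = η` for a.e. `ω`. -/
theorem exists_eta {Ω X K : Type*} [MeasurableSpace Ω] [MeasurableSpace X]
    [Group K] [TopologicalSpace K] [IsTopologicalGroup K] [CompactSpace K]
    [T2Space K] [SecondCountableTopology K] [MeasurableSpace K] [BorelSpace K]
    (ν : Measure Ω) [IsProbabilityMeasure ν] (S : Ω → Ω)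
    (hS : Ergodic S ν) (p : Ω → X) (hp : Measurable p) (τ : X ≃ᵐ X)
    (hpS : ∀ᵐ ω ∂ν, p (S ω) = τ (p ω)) (k : Ω → K) (hk : Measurable k) (φ : X → K)
    (hφ : Measurable φ) (hkS : ∀ᵐ ω ∂ν, k (S ω) = φ (p ω) * k ω) (κ : Kernel X K) [IsMarkovKernel κ]
    (hκ : (ν.map p) ⊗ₘ κ = ν.map (fun ω => (p ω, k ω))) :
    ∃ η : Measure K, IsProbabilityMeasure η ∧
      ∀ᵐ ω ∂ν, κ (p ω) = η.map (fun g => k ω * g) := by
  obtain ⟨C, hCc, hCpi, hCgen, hCm⟩ := ma5_pi K
  have hμ : IsProbabilityMeasure (ν.map p) := Measure.isProbabilityMeasure_map hp.aemeasurable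
  have hSm : MeasurePreserving S ν ν := hS.toMeasurePreserving
  have hinv := ma5_inv ν S hSm p hp τ hpS k hk φ hφ hkS
  rw [← hκ] at hinv
  have hτ : (ν.map p).map τ = ν.map p := by
    rw [Measure.map_map τ.measurable hp]
    have h1 : (τ ∘ p) =ᵐ[ν] (p ∘ S) := by
      filter_upwards [hpS] with ω h1
      simp only [Function.comp_apply, h1]
    rw [Measure.map_congr h1, ← Measure.map_map hp hSm.measurable, hSm.map_eq]
  have hkey := ma5_key (ν.map p) τ hτ φ hφ κ hinv
  have hkey' : ∀ᵐ ω ∂ν, κ (τ (p ω)) = (κ (p ω)).map (fun g => φ (p ω) * g) :=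
    ae_of_ae_map hp.aemeasurable hkey
  -- the function H
  let κp : Kernel Ω K := κ.comap p hp
  have hset : ∀ A : Set K, MeasurableSet A →
      MeasurableSet {z : Ω × K | (k z.1)⁻¹ * z.2 ∈ A} := by
    intro A hA
    have hm : Measurable (fun z : Ω × K => (k z.1)⁻¹ * z.2) :=
      ((hk.comp measurable_fst).inv).mul measurable_snd
    exact hm hA
  have hHm : ∀ A : Set K, MeasurableSet A →
      Measurable (fun ω => κ (p ω) {g | (k ω)⁻¹ * g ∈ A}) := by
    intro A hA
    exact Kernel.measurable_kernel_prodMk_left (κ := κp) (hset A hA)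
  have hHinv : ∀ A : Set K, MeasurableSet A →
      ((fun ω => κ (p ω) {g | (k ω)⁻¹ * g ∈ A}) ∘ S) =ᵐ[ν]
        (fun ω => κ (p ω) {g | (k ω)⁻¹ * g ∈ A}) := by
    intro A hA
    filter_upwards [hpS, hkS, hkey'] with ω h1 h2 h3
    simp only [Function.comp_apply]
    rw [h1, h2, h3]
    have hmx : Measurable (fun g : K => φ (p ω) * g) := measurable_const_mul (φ (p ω))
    have hmy : Measurable (fun g : K => (φ (p ω) * k ω)⁻¹ * g) :=
      measurable_const_mul (φ (p ω) * k ω)⁻¹
    have hset2 : MeasurableSet {g | (φ (p ω) * k ω)⁻¹ * g ∈ A} := hmy hA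
    rw [Measure.map_apply hmx hset2]
    have hse : (fun g : K => φ (p ω) * g) ⁻¹' {g | (φ (p ω) * k ω)⁻¹ * g ∈ A} =
        {g | (k ω)⁻¹ * g ∈ A} := by
      ext g
      have h4 : (φ (p ω) * k ω)⁻¹ * (φ (p ω) * g) = (k ω)⁻¹ * g := by group
      change (φ (p ω) * k ω)⁻¹ * (φ (p ω) * g) ∈ A ↔ (k ω)⁻¹ * g ∈ A
      rw [h4]
    rw [hse]
  have hconst : ∀ A : Set K, MeasurableSet A → ∃ c : ℝ≥0∞,
      ∀ᵐ ω ∂ν, κ (p ω) {g | (k ω)⁻¹ * g ∈ A} = c := by
    intro A hA
    obtain ⟨c, hc⟩ := hS.ae_eq_const_of_ae_eq_comp₀ (hHm A hA).nullMeasurable (hHinv A hA)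
    exact ⟨c, hc⟩
  choose! c hc using hconst
  have hall : ∀ᵐ ω ∂ν, ∀ A ∈ C, κ (p ω) {g | (k ω)⁻¹ * g ∈ A} = c A := by
    rw [ae_ball_iff hCc]
    intro A hA
    exact hc A (hCm A hA)
  obtain ⟨ω₀, hω₀⟩ := hall.exists
  have hmk : ∀ a : K, Measurable (fun g : K => a * g) := fun a => measurable_const_mul a
  refine ⟨(κ (p ω₀)).map (fun g => (k ω₀)⁻¹ * g),
    Measure.isProbabilityMeasure_map (hmk _).aemeasurable, ?_⟩
  filter_upwards [hall] with ω hω
  have h1 : (κ (p ω)).map (fun g => (k ω)⁻¹ * g) =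
      (κ (p ω₀)).map (fun g => (k ω₀)⁻¹ * g) := by
    have hp1 : IsProbabilityMeasure ((κ (p ω)).map (fun g => (k ω)⁻¹ * g)) :=
      Measure.isProbabilityMeasure_map (hmk _).aemeasurable
    have hp2 : IsProbabilityMeasure ((κ (p ω₀)).map (fun g => (k ω₀)⁻¹ * g)) :=
      Measure.isProbabilityMeasure_map (hmk _).aemeasurable
    refine ext_of_generate_finite C hCgen hCpi ?_ ?_
    · intro A hA
      rw [Measure.map_apply (hmk _) (hCm A hA), Measure.map_apply (hmk _) (hCm A hA)]
      exact (hω A hA).trans (hω₀ A hA).symm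
    · rw [measure_univ, measure_univ]
  rw [← h1, Measure.map_map (hmk _) (hmk _)]
  have h2 : ((fun g : K => k ω * g) ∘ fun g => (k ω)⁻¹ * g) = id := by
    funext g
    simp
  rw [h2, Measure.map_id]

/-- A measurable choice. Proof. `Kernel.exists_measurable_map_eq_unitInterval`
(`Mathlib/Probability/Kernel/Representation.lean`; `K` is standard Borel: `standardBorel_of_compact`):
`f : X → I → K` jointly measurable with `volume.map (f x) = κ x`. So `lam ⊗ₘ κ` is the image of
`lam.prod volume` under `(x, t) ↦ (x, f x t)`, `κ x = η.map (fun g => f x t * g)` for a.e. `(x, t)` (the set of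
the `(x, g')` with `κ x = η.map (g' * ·)` is measurable: countable generating π-system), and by Fubini there
is a `t` for which it holds for a.e. `x`: `b x = f x t`. -/
theorem exists_section {X K : Type*} [MeasurableSpace X] [Group K] [TopologicalSpace K] [IsTopologicalGroup K] [CompactSpace K]
    [T2Space K] [SecondCountableTopology K] [MeasurableSpace K] [BorelSpace K] (lam : Measure X)
    [IsProbabilityMeasure lam] (κ : Kernel X K) [IsMarkovKernel κ] (η : Measure K)
    [IsProbabilityMeasure η]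
    (h : ∀ᵐ z ∂(lam ⊗ₘ κ), κ z.1 = η.map (fun g => z.2 * g)) :
    ∃ b : X → K, Measurable b ∧ ∀ᵐ x ∂lam, κ x = η.map (fun g => b x * g) := by
  obtain ⟨C, hCc, hCpi, hCgen, hCm⟩ := ma5_pi K
  have : StandardBorelSpace K := standardBorel_of_compact K
  have : Nonempty K := ⟨1⟩
  have hmk : ∀ a : K, Measurable (fun g : K => a * g) := fun a => measurable_const_mul a
  obtain ⟨f, hf, hfκ⟩ := Kernel.exists_measurable_map_eq_unitInterval κ
  have hs : MeasurableSet {z : X × K | κ z.1 = η.map (fun g => z.2 * g)} := by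
    have h1 : {z : X × K | κ z.1 = η.map (fun g => z.2 * g)} =
        ⋂ A ∈ C, {z : X × K | κ z.1 A = η {g | z.2 * g ∈ A}} := by
      ext z
      simp only [Set.mem_ofPred_eq, Set.mem_iInter]
      constructor
      · intro hz A hA
        rw [hz, Measure.map_apply (hmk _) (hCm A hA)]
        rfl
      · intro hz
        have hp1 : IsProbabilityMeasure (η.map (fun g => z.2 * g)) :=
          Measure.isProbabilityMeasure_map (hmk _).aemeasurable
        refine ext_of_generate_finite C hCgen hCpi ?_ ?_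
        · intro A hA
          rw [hz A hA, Measure.map_apply (hmk _) (hCm A hA)]
          rfl
        · rw [measure_univ, measure_univ]
    rw [h1]
    refine MeasurableSet.biInter hCc fun A hA => ?_
    refine measurableSet_eq_fun ((Kernel.measurable_coe κ (hCm A hA)).comp measurable_fst) ?_
    have h2 : MeasurableSet {w : (X × K) × K | w.1.2 * w.2 ∈ A} := by
      have hm : Measurable (fun w : (X × K) × K => w.1.2 * w.2) :=
        (measurable_snd.comp measurable_fst).mul measurable_snd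
      exact hm (hCm A hA)
    exact measurable_measure_prodMk_left h2
  have h1 : ∀ᵐ x ∂lam, ∀ᵐ g ∂(κ x), κ x = η.map (fun g' => g * g') :=
    (Measure.ae_compProd_iff hs).mp h
  have hfx : ∀ x, Measurable (f x) := fun x => hf.comp measurable_prodMk_left
  have h2 : ∀ᵐ x ∂lam, ∀ᵐ t ∂(volume : Measure unitInterval),
      κ x = η.map (fun g' => f x t * g') := by
    filter_upwards [h1] with x hx
    have hx' : ∀ᵐ g ∂((volume : Measure unitInterval).map (f x)),
        κ x = η.map (fun g' => g * g') := by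
      rw [hfκ x]; exact hx
    exact ae_of_ae_map (hfx x).aemeasurable hx'
  have h3 : MeasurableSet {z : X × unitInterval | κ z.1 = η.map (fun g' => f z.1 z.2 * g')} := by
    have hm : Measurable (fun z : X × unitInterval => (z.1, f z.1 z.2)) :=
      measurable_fst.prodMk hf
    exact hm hs
  have h4 := (Measure.ae_ae_comm (μ := lam) (ν := (volume : Measure unitInterval))
    (p := fun x t => κ x = η.map (fun g' => f x t * g')) h3).mp h2
  obtain ⟨t, ht⟩ := h4.exists
  exact ⟨fun x => f x t, hf.comp measurable_prodMk_right, ht⟩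

end Pool.Agent.Lib.H82OG
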