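import Pool.Agent.Lib.H82OG.Defs

/-!
# Project H82OG, chunk MA6: the stabiliser of a measure
-/

open MeasureTheory Filter Topology Finset ProbabilityTheory
open scoped ENNReal ComplexConjugate Matrix

namespace Pool.Agent.Lib.H82OG

open Pool.Agent.Lib.H22M Pool.Agent.Lib.H82T Pool.Agent.Lib.H82OT Pool.Agent.Lib.H82OF

/-- Proof. `K₁ = {g | η.map (g * ·) = η}` is a subgroup; it is closed: `g ↦ ∫ F(g x) dη` is continuous for
continuous `F` (dominated convergence; `K` is compact) and finite measures with the same integrals of
continuous functions are equal (`ext_of_forall_integral_eq_of_IsFiniteMeasure`; a compact second countable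
Hausdorff space is metrizable). `η K₁ = 1` by `h`. `ηK = η.comap Subtype.val`, a probability measure on `K₁`
with image `η`, invariant under left translations, so a Haar measure (a left invariant probability measure
on a compact group is positive on nonempty open sets: finitely many translates cover;
`Measure.IsHaarMeasure` constructor, `isHaarMeasure_of_isCompact_nonempty_interior`). -/
theorem stab_haar {K : Type*} [Group K] [TopologicalSpace K] [IsTopologicalGroup K] [CompactSpace K]
    [T2Space K] [SecondCountableTopology K] [MeasurableSpace K] [BorelSpace K] (η : Measure K) [IsProbabilityMeasure η]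
    (h : ∀ᵐ g ∂η, η.map (fun x => g * x) = η) :
    ∃ (K₁ : Subgroup K) (_ : IsClosed (K₁ : Set K)) (ηK : Measure K₁),
      IsProbabilityMeasure ηK ∧ ηK.IsHaarMeasure ∧ ηK.map Subtype.val = η ∧
      ∀ᵐ g ∂η, g ∈ K₁ := by
  classical
  have hmeas : ∀ g : K, Measurable (fun x : K => g * x) := fun g =>
    (continuous_const.mul continuous_id).measurable
  have hmm : ∀ g g' : K, η.map (fun x => g * g' * x) =
      (η.map (fun x => g' * x)).map (fun x => g * x) := by
    intro g g'
    rw [Measure.map_map (hmeas g) (hmeas g')]
    congr 1
    funext x
    simp [mul_assoc]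
  have hone : η.map (fun x => (1 : K) * x) = η := by
    simp
  set K₁ : Subgroup K :=
    { carrier := {g | η.map (fun x => g * x) = η}
      mul_mem' := by
        intro g g' hg hg'
        rw [Set.mem_setOf_eq] at hg hg' ⊢
        rw [hmm, hg', hg]
      one_mem' := hone
      inv_mem' := by
        intro g hg
        rw [Set.mem_setOf_eq] at hg ⊢
        have h1 := hmm g⁻¹ g
        rw [hg, inv_mul_cancel, hone] at h1
        exact h1.symm } with hK₁
  have hmem : ∀ g, g ∈ K₁ ↔ η.map (fun x => g * x) = η := fun g => Iff.rfl
  have hclosed : IsClosed (K₁ : Set K) := by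
    have h1 : (K₁ : Set K) = ⋂ F : BoundedContinuousFunction K ℝ,
        {g | ∫ x, F (g * x) ∂η = ∫ x, F x ∂η} := by
      ext g
      rw [Set.mem_iInter, SetLike.mem_coe, hmem]
      constructor
      · intro hg F
        rw [Set.mem_setOf_eq]
        conv_rhs => rw [← hg]
        rw [integral_map (hmeas g).aemeasurable F.continuous.aestronglyMeasurable]
      · intro hg
        haveI : IsFiniteMeasure (η.map (fun x => g * x)) := by
          infer_instance
        refine ext_of_forall_integral_eq_of_IsFiniteMeasure fun F => ?_
        rw [integral_map (hmeas g).aemeasurable F.continuous.aestronglyMeasurable]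
        exact hg F
    rw [h1]
    refine isClosed_iInter fun F => isClosed_eq ?_ continuous_const
    refine continuous_of_dominated (bound := fun _ => ‖F‖) (fun g => ?_) (fun g => ?_) ?_ ?_
    · exact (F.continuous.comp (continuous_const.mul continuous_id)).aestronglyMeasurable
    · exact Eventually.of_forall fun x => F.norm_coe_le_norm _
    · exact integrable_const _
    · exact Eventually.of_forall fun x => F.continuous.comp (continuous_id.mul continuous_const)
  have hms : MeasurableSet (K₁ : Set K) := hclosed.measurableSet
  have hemb : MeasurableEmbedding (Subtype.val : K₁ → K) := MeasurableEmbedding.subtype_coe hms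
  have hae : ∀ᵐ g ∂η, g ∈ K₁ := h
  have hmap : (η.comap (Subtype.val : K₁ → K)).map Subtype.val = η := by
    rw [hemb.map_comap, Subtype.range_coe_subtype]
    exact Measure.restrict_eq_self_of_ae_mem hae
  have hprob : IsProbabilityMeasure (η.comap (Subtype.val : K₁ → K)) := by
    constructor
    rw [hemb.comap_apply, Set.image_univ, Subtype.range_coe_subtype]
    exact (prob_compl_eq_zero_iff hms).1 hae
  have hleft : (η.comap (Subtype.val : K₁ → K)).IsMulLeftInvariant := by
    constructor
    intro g
    have hg : Measurable (fun x : K₁ => g * x) := (continuous_const.mul continuous_id).measurable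
    have h1 : ((η.comap (Subtype.val : K₁ → K)).map (fun x => g * x)).map Subtype.val =
        (η.comap (Subtype.val : K₁ → K)).map Subtype.val := by
      rw [Measure.map_map measurable_subtype_coe hg]
      have h2 : (Subtype.val : K₁ → K) ∘ (fun x : K₁ => g * x) =
          (fun x : K => (g : K) * x) ∘ Subtype.val := by
        funext x
        rfl
      rw [h2, ← Measure.map_map (hmeas _) measurable_subtype_coe, hmap]
      exact g.2
    have h2 := congrArg (fun μ => μ.comap (Subtype.val : K₁ → K)) h1
    simp only [hemb.comap_map] at h2
    exact h2
  haveI : CompactSpace K₁ := isCompact_iff_compactSpace.1 hclosed.isCompact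
  refine ⟨K₁, hclosed, η.comap Subtype.val, hprob, ?_, hmap, hae⟩
  refine Measure.isHaarMeasure_of_isCompact_nonempty_interior _ Set.univ isCompact_univ ?_ ?_ ?_
  · rw [interior_univ]
    exact ⟨1, Set.mem_univ _⟩
  · rw [measure_univ]
    exact one_ne_zero
  · rw [measure_univ]
    exact ENNReal.one_ne_top

end Pool.Agent.Lib.H82OG
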