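import Pool.Agent.Lib.H82OG.MA5
import Pool.Agent.Lib.H82OG.MA6

/-!
# Project H82OG, chunk MA7: reduction of a cocycle to a subgroup
-/

open MeasureTheory Filter Topology Finset ProbabilityTheory
open scoped ENNReal ComplexConjugate Matrix

namespace Pool.Agent.Lib.H82OG

open Pool.Agent.Lib.H22M Pool.Agent.Lib.H82T Pool.Agent.Lib.H82OT Pool.Agent.Lib.H82OF

private lemma ma7_pi (K : Type*) [mK : MeasurableSpace K]
    [MeasurableSpace.CountablyGenerated K] :
    ∃ C : Set (Set K), C.Countable ∧ IsPiSystem C ∧ mK = MeasurableSpace.generateFrom C ∧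
      ∀ A ∈ C, MeasurableSet A := by
  obtain ⟨b, hbc, hb⟩ := MeasurableSpace.CountablyGenerated.isCountablyGenerated (α := K)
  refine ⟨generatePiSystem b, ?_, isPiSystem_generatePiSystem b, ?_, ?_⟩
  · have h1 : ∀ t, generatePiSystem b t → ∃ F : Set (Set K), F.Finite ∧ F ⊆ b ∧ t = ⋂₀ F := by
      intro t ht
      induction ht with
      | base h =>
        rename_i s
        exact ⟨{s}, Set.finite_singleton s, Set.singleton_subset_iff.mpr h, by simp⟩
      | inter _ _ _ ih1 ih2 =>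
        obtain ⟨F1, hF1, hF1b, rfl⟩ := ih1
        obtain ⟨F2, hF2, hF2b, rfl⟩ := ih2
        exact ⟨F1 ∪ F2, hF1.union hF2, Set.union_subset hF1b hF2b, (Set.sInter_union F1 F2).symm⟩
    refine ((Set.countable_ofPred_finite_subset hbc).image (fun F => ⋂₀ F)).mono ?_
    intro t ht
    obtain ⟨F, hF, hFb, rfl⟩ := h1 t ht
    exact ⟨F, ⟨hF, hFb⟩, rfl⟩
  · rw [generateFrom_generatePiSystem_eq, hb]
  · intro A hA
    have : MeasurableSet[MeasurableSpace.generateFrom b] A :=
      generateFrom_measurableSet_of_generatePiSystem A hA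
    rw [hb]
    exact this

private lemma ma7_meas {X K : Type*} [MeasurableSpace X] [Group K] [MeasurableSpace K]
    [MeasurableMul₂ K] [MeasurableSpace.CountablyGenerated K] (κ : Kernel X K) [IsMarkovKernel κ]
    (η : Measure K) [IsProbabilityMeasure η] :
    MeasurableSet {z : X × K | κ z.1 = η.map (fun g => z.2 * g)} := by
  obtain ⟨C, hCc, hCpi, hCgen, hCm⟩ := ma7_pi K
  have hmk : ∀ a : K, Measurable (fun g : K => a * g) := fun a => measurable_const_mul a
  have h1 : {z : X × K | κ z.1 = η.map (fun g => z.2 * g)} =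
      ⋂ A ∈ C, {z : X × K | κ z.1 A = η {g | z.2 * g ∈ A}} := by
    ext z
    simp only [Set.mem_ofPred_eq, Set.mem_iInter]
    constructor
    · intro hz A hA
      rw [hz, Measure.map_apply (hmk _) (hCm A hA)]
      rfl
    · intro hz
      have hp1 : IsProbabilityMeasure (η.map (fun g => z.2 * g)) :=
        Measure.isProbabilityMeasure_map (hmk _).aemeasurable
      refine ext_of_generate_finite C hCgen hCpi ?_ ?_
      · intro A hA
        rw [hz A hA, Measure.map_apply (hmk _) (hCm A hA)]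
        rfl
      · rw [measure_univ, measure_univ]
  rw [h1]
  refine MeasurableSet.biInter hCc fun A hA => ?_
  refine measurableSet_eq_fun ((Kernel.measurable_coe κ (hCm A hA)).comp measurable_fst) ?_
  have h2 : MeasurableSet {w : (X × K) × K | w.1.2 * w.2 ∈ A} := by
    have hm : Measurable (fun w : (X × K) × K => w.1.2 * w.2) :=
      (measurable_snd.comp measurable_fst).mul measurable_snd
    exact hm (hCm A hA)
  exact measurable_measure_prodMk_left h2

/-- The law of `(x, b(x)⁻¹ g)`. -/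
private lemma ma7_law {X K : Type*} [MeasurableSpace X] [Group K] [MeasurableSpace K]
    [MeasurableMul₂ K] [MeasurableInv K] (μ : Measure X) [IsProbabilityMeasure μ] (κ : Kernel X K)
    [IsMarkovKernel κ] (η : Measure K) [IsProbabilityMeasure η] (b : X → K) (hb : Measurable b)
    (hbx : ∀ᵐ x ∂μ, κ x = η.map (fun g => b x * g)) :
    (μ ⊗ₘ κ).map (fun z : X × K => (z.1, (b z.1)⁻¹ * z.2)) = μ.prod η := by
  have hΨ : Measurable (fun z : X × K => (z.1, (b z.1)⁻¹ * z.2)) :=
    measurable_fst.prodMk (((hb.comp measurable_fst).inv).mul measurable_snd)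
  ext s hs
  rw [Measure.map_apply hΨ hs, Measure.compProd_apply (hΨ hs), Measure.prod_apply hs]
  refine lintegral_congr_ae ?_
  filter_upwards [hbx] with x hx
  rw [hx, Measure.map_apply (measurable_const_mul (b x)) (measurable_prodMk_left (hΨ hs))]
  have h1 : (fun g : K => b x * g) ⁻¹' (Prod.mk x ⁻¹'
      ((fun z : X × K => (z.1, (b z.1)⁻¹ * z.2)) ⁻¹' s)) = Prod.mk x ⁻¹' s := by
    ext g
    have h2 : (b x)⁻¹ * (b x * g) = g := inv_mul_cancel_left (b x) g
    change (x, (b x)⁻¹ * (b x * g)) ∈ s ↔ (x, g) ∈ s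
    rw [h2]
  rw [h1]

/-- Mackey reduction. Proof. `κ = condDistrib k p ν` (`K` standard Borel: `standardBorel_of_compact`;
`compProd_map_condDistrib`), `η` from `exists_eta`; the hypothesis of `exists_section` (`lam = ν.map p`)
holds since `lam ⊗ₘ κ` is the law of `(p, k)`: `b` with `κ x = η.map (b x * ·)` for a.e. `x`. For a.e. `x` and
`κ x`-a.e. `g'`: `η.map (g' * ·) = κ x = η.map (b x * ·)`, and `g' = b x * g` with `g` of law `η`; so
`η.map (g * ·) = η` for `η`-a.e. `g`: `stab_haar` gives `K₁, ηK`. Let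
`h ω = (b (p ω))⁻¹ * k ω` if this is in `K₁` and `1` otherwise: the law of `(p ω, (b (p ω))⁻¹ * k ω)` is
`(ν.map p).prod η`, so it is in `K₁` a.e., and the law of `(p, h)` is `(ν.map p).prod ηK`. Let
`φ₁ x = (b (τ x))⁻¹ * φ x * b x` if this is in `K₁` and `1` otherwise: for a.e. `ω`, with `x = p ω`, it is
`(b (p (S ω)))⁻¹ * k (S ω) * (k ω)⁻¹ * b (p ω) = h (S ω) * (h ω)⁻¹ ∈ K₁`. -/
theorem mackey {Ω X K : Type*} [MeasurableSpace Ω] [MeasurableSpace X]
    [Group K] [TopologicalSpace K] [IsTopologicalGroup K] [CompactSpace K]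
    [T2Space K] [SecondCountableTopology K] [MeasurableSpace K] [BorelSpace K]
    (ν : Measure Ω) [IsProbabilityMeasure ν] (S : Ω → Ω)
    (hS : Ergodic S ν) (p : Ω → X) (hp : Measurable p) (τ : X ≃ᵐ X)
    (hpS : ∀ᵐ ω ∂ν, p (S ω) = τ (p ω)) (k : Ω → K) (hk : Measurable k) (φ : X → K)
    (hφ : Measurable φ) (hkS : ∀ᵐ ω ∂ν, k (S ω) = φ (p ω) * k ω) :
    ∃ (K₁ : Subgroup K) (_ : IsClosed (K₁ : Set K)) (muK : Measure K₁) (b : X → K) (h : Ω → K₁)
      (φ₁ : X → K₁), IsProbabilityMeasure muK ∧ muK.IsHaarMeasure ∧ Measurable b ∧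
      Measurable h ∧ Measurable φ₁ ∧ (∀ᵐ ω ∂ν, k ω = b (p ω) * h ω) ∧
      MeasurePreserving (fun ω => (p ω, h ω)) ν ((ν.map p).prod muK) ∧
      (∀ᵐ ω ∂ν, h (S ω) = φ₁ (p ω) * h ω) ∧
      ∀ᵐ x ∂(ν.map p), b (τ x) * φ₁ x = φ x * b x := by
  have hsb : StandardBorelSpace K := standardBorel_of_compact K
  have hne : Nonempty K := ⟨1⟩
  have hμ : IsProbabilityMeasure (ν.map p) := Measure.isProbabilityMeasure_map hp.aemeasurable
  have hmk : ∀ a : K, Measurable (fun g : K => a * g) := fun a => measurable_const_mul a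
  let κ : Kernel X K := condDistrib k p ν
  have hκ : (ν.map p) ⊗ₘ κ = ν.map (fun ω => (p ω, k ω)) :=
    compProd_map_condDistrib hk.aemeasurable
  obtain ⟨η, hηp, hη⟩ := exists_eta ν S hS p hp τ hpS k hk φ hφ hkS κ hκ
  have hs := ma7_meas κ η
  have hz : ∀ᵐ z ∂((ν.map p) ⊗ₘ κ), κ z.1 = η.map (fun g => z.2 * g) := by
    rw [hκ, ae_map_iff (hp.prodMk hk).aemeasurable hs]
    exact hη
  obtain ⟨b, hb, hbx⟩ := exists_section (ν.map p) κ η hz
  -- the stabiliser
  have hst : ∀ᵐ g ∂η, η.map (fun x => g * x) = η := by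
    have h1 : ∀ᵐ x ∂(ν.map p), ∀ᵐ g ∂(κ x), κ x = η.map (fun g' => g * g') :=
      (Measure.ae_compProd_iff hs).mp hz
    obtain ⟨x, hx1, hx2⟩ := (h1.and hbx).exists
    rw [hx2] at hx1
    have h2 := ae_of_ae_map (hmk (b x)).aemeasurable hx1
    filter_upwards [h2] with g hg
    have h3 := congrArg (fun m => m.map (fun g' => (b x)⁻¹ * g')) hg
    rw [Measure.map_map (hmk _) (hmk _), Measure.map_map (hmk _) (hmk _)] at h3
    have h4 : ((fun g' : K => (b x)⁻¹ * g') ∘ fun g' => b x * g') = id := by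
      funext g'
      simp
    have h5 : ((fun g' : K => (b x)⁻¹ * g') ∘ fun g' => b x * g * g') = fun g' => g * g' := by
      funext g'
      simp [mul_assoc]
    rw [h4, h5, Measure.map_id] at h3
    exact h3.symm
  obtain ⟨K₁, hcl, ηK, hprob, hhaar, hmap, hae⟩ := stab_haar η hst
  have hms : MeasurableSet (K₁ : Set K) := hcl.measurableSet
  have hemb : MeasurableEmbedding (Subtype.val : K₁ → K) := MeasurableEmbedding.subtype_coe hms
  obtain ⟨r, hr, hrv⟩ := hemb.exists_measurable_extend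
    (measurable_id : Measurable (id : K₁ → K₁)) (fun _ => ⟨1⟩)
  have hrv' : ∀ g ∈ K₁, ((r g : K₁) : K) = g := by
    intro g hg
    have h1 : r g = ⟨g, hg⟩ := congrFun hrv ⟨g, hg⟩
    rw [h1]
  -- the new coordinate
  let u : Ω → K := fun ω => (b (p ω))⁻¹ * k ω
  have hu : Measurable u := ((hb.comp hp).inv).mul hk
  have hlaw : ν.map (fun ω => (p ω, u ω)) = (ν.map p).prod η := by
    have h1 := ma7_law (ν.map p) κ η b hb hbx
    have hΨ : Measurable (fun z : X × K => (z.1, (b z.1)⁻¹ * z.2)) :=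
      measurable_fst.prodMk (((hb.comp measurable_fst).inv).mul measurable_snd)
    rw [hκ, Measure.map_map hΨ (hp.prodMk hk)] at h1
    exact h1
  have huη : ν.map u = η := by
    have h1 := congrArg (fun m => m.map Prod.snd) hlaw
    rw [Measure.map_map measurable_snd (hp.prodMk hu), Measure.map_snd_prod, measure_univ,
      one_smul] at h1
    exact h1
  have huK : ∀ᵐ ω ∂ν, u ω ∈ K₁ := by
    have h1 : ∀ᵐ g ∂(ν.map u), g ∈ K₁ := by
      rw [huη]
      exact hae
    exact ae_of_ae_map hu.aemeasurable h1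
  have huSK : ∀ᵐ ω ∂ν, u (S ω) ∈ K₁ :=
    hS.toMeasurePreserving.quasiMeasurePreserving.ae huK
  let v : X → K := fun x => (b (τ x))⁻¹ * φ x * b x
  have hv : Measurable v := (((hb.comp τ.measurable).inv).mul hφ).mul hb
  have huv : ∀ᵐ ω ∂ν, u (S ω) = v (p ω) * u ω := by
    filter_upwards [hpS, hkS] with ω h1 h2
    change (b (p (S ω)))⁻¹ * k (S ω) = (b (τ (p ω)))⁻¹ * φ (p ω) * b (p ω) *
      ((b (p ω))⁻¹ * k ω)
    rw [h1, h2]
    group
  have hvK : ∀ᵐ ω ∂ν, v (p ω) ∈ K₁ := by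
    filter_upwards [huK, huSK, huv] with ω h1 h2 h3
    have h4 : v (p ω) = u (S ω) * (u ω)⁻¹ := by
      rw [h3]
      group
    rw [h4]
    exact K₁.mul_mem h2 (K₁.inv_mem h1)
  refine ⟨K₁, hcl, ηK, b, fun ω => r (u ω), fun x => r (v x), hprob, hhaar, hb, hr.comp hu,
    hr.comp hv, ?_, ⟨hp.prodMk (hr.comp hu), ?_⟩, ?_, ?_⟩
  · filter_upwards [huK] with ω h1
    rw [hrv' _ h1]
    change k ω = b (p ω) * ((b (p ω))⁻¹ * k ω)
    group
  · have h1 : (fun ω => (p ω, r (u ω))) = (Prod.map id r) ∘ fun ω => (p ω, u ω) := rfl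
    rw [h1, ← Measure.map_map (measurable_id.prodMap hr) (hp.prodMk hu), hlaw,
      ← Measure.map_prod_map _ _ measurable_id hr, Measure.map_id]
    have h2 : η.map r = ηK := by
      rw [← hmap, Measure.map_map hr measurable_subtype_coe, hrv, Measure.map_id]
    rw [h2]
  · filter_upwards [huK, huSK, huv, hvK] with ω h1 h2 h3 h4
    apply Subtype.ext
    rw [Subgroup.coe_mul, hrv' _ h1, hrv' _ h2, hrv' _ h4]
    exact h3
  · have h1 : MeasurableSet {x | b (τ x) * (r (v x) : K) = φ x * b x} :=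
      measurableSet_eq_fun ((hb.comp τ.measurable).mul
        (measurable_subtype_coe.comp (hr.comp hv))) (hφ.mul hb)
    rw [ae_map_iff hp.aemeasurable h1]
    filter_upwards [hvK] with ω h2
    rw [hrv' _ h2]
    change b (τ (p ω)) * ((b (τ (p ω)))⁻¹ * φ (p ω) * b (p ω)) = φ (p ω) * b (p ω)
    group

end Pool.Agent.Lib.H82OG
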