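import Pool.Agent.Lib.H82OG.Defs
import Pool.Agent.Lib.H82OT.KR2
import Pool.Agent.Lib.H82OT.KR3

/-!
# Project H82OG, chunk MB1: the Kronecker factor as a compact group
-/

open MeasureTheory Filter Topology Finset ProbabilityTheory
open scoped ENNReal ComplexConjugate Matrix

namespace Pool.Agent.Lib.H82OG

open Pool.Agent.Lib.H22M Pool.Agent.Lib.H82T Pool.Agent.Lib.H82OT Pool.Agent.Lib.H82OF

/-- The orbit of almost every point visits a set of positive measure. -/
private theorem mb1_visit {Y : Type*} [MeasurableSpace Y] {m : Measure Y} [IsProbabilityMeasure m]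
    {R : Y → Y} (hR : Ergodic R m) (V : Set Y) (hV : MeasurableSet V) (h0 : m V ≠ 0) :
    ∀ᵐ y ∂m, ∃ n : ℕ, R^[n] y ∈ V := by
  have hRm : Measurable R := hR.toMeasurePreserving.measurable
  have hA : MeasurableSet {y | ∃ n : ℕ, R^[n] y ∈ V} := by
    have h1 : {y | ∃ n : ℕ, R^[n] y ∈ V} = ⋃ n : ℕ, R^[n] ⁻¹' V := by
      ext y
      simp
    rw [h1]
    exact MeasurableSet.iUnion fun n => (hRm.iterate n) hV
  have h2 : R ⁻¹' {y | ∃ n : ℕ, R^[n] y ∈ V} ⊆ {y | ∃ n : ℕ, R^[n] y ∈ V} := by
    rintro y ⟨n, hn⟩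
    exact ⟨n + 1, by rw [Function.iterate_succ_apply]; exact hn⟩
  rcases hR.ae_empty_or_univ_of_preimage_ae_le hA.nullMeasurableSet
    (Eventually.of_forall h2) with h | h
  · exfalso
    apply h0
    have h3 : V ⊆ {y | ∃ n : ℕ, R^[n] y ∈ V} := fun y hy => ⟨0, hy⟩
    have h4 : m {y | ∃ n : ℕ, R^[n] y ∈ V} = 0 := by
      rw [measure_congr h, measure_empty]
    exact measure_mono_null h3 h4
  · filter_upwards [h] with y hy
    have h5 : {y | ∃ n : ℕ, R^[n] y ∈ V} y = Set.univ y := hy
    have h6 : y ∈ {y | ∃ n : ℕ, R^[n] y ∈ V} := by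
      show {y | ∃ n : ℕ, R^[n] y ∈ V} y
      rw [h5]
      trivial
    exact h6

/-- Almost all values of the factor map onto a rotation lie in one coset of the closed subgroup
generated by the translation. -/
private theorem mb1_coset {Y G : Type*} [MeasurableSpace Y] {m : Measure Y}
    [IsProbabilityMeasure m] [CommGroup G] [TopologicalSpace G] [IsTopologicalGroup G]
    [SecondCountableTopology G] [MeasurableSpace G] [BorelSpace G] {R : Y → Y}
    (hR : Ergodic R m) (P : Y → G) (hP : Measurable P) (c : G)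
    (hPR : ∀ᵐ y ∂m, P (R y) = c * P y) :
    ∃ w₀ : G, ∀ᵐ y ∂m, w₀⁻¹ * P y ∈ (Subgroup.zpowers c).topologicalClosure := by
  classical
  set W := (Subgroup.zpowers c).topologicalClosure with hW
  have hWc : IsClosed (W : Set G) := Subgroup.isClosed_topologicalClosure _
  have hcW : c ∈ W := Subgroup.le_topologicalClosure _ (Subgroup.mem_zpowers c)
  set ℬ := TopologicalSpace.countableBasis G with hℬ
  have hbas := TopologicalSpace.isBasis_countableBasis G
  have hcount : ℬ.Countable := TopologicalSpace.countable_countableBasis G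
  have hopen : ∀ U ∈ ℬ, IsOpen U := fun U hU => hbas.isOpen hU
  have h1 : ∀ᵐ y ∂m, ∀ n : ℕ, P (R^[n] y) = c ^ n * P y := by
    refine ae_all_iff.2 fun n => ?_
    induction n with
    | zero => exact Eventually.of_forall fun y => by simp
    | succ n ih =>
      have h2 := (hR.toMeasurePreserving.iterate n).quasiMeasurePreserving.ae hPR
      filter_upwards [ih, h2] with y h3 h4
      rw [Function.iterate_succ_apply', h4, h3, pow_succ', mul_assoc]
  have h2 : ∀ᵐ y ∂m, ∀ U ∈ ℬ, m (P ⁻¹' U) ≠ 0 → ∃ n : ℕ, R^[n] y ∈ P ⁻¹' U := by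
    refine (ae_ball_iff hcount).2 fun U hU => ?_
    by_cases h0 : m (P ⁻¹' U) = 0
    · exact Eventually.of_forall fun y h => absurd h0 h
    · filter_upwards [mb1_visit hR _ (hP (hopen U hU).measurableSet) h0] with y hy _
      exact hy
  have h3 : ∀ᵐ y ∂m, ∀ U ∈ ℬ, P y ∈ U → m (P ⁻¹' U) ≠ 0 := by
    refine (ae_ball_iff hcount).2 fun U hU => ?_
    by_cases h0 : m (P ⁻¹' U) = 0
    · have h4 : ∀ᵐ y ∂m, y ∉ P ⁻¹' U := measure_eq_zero_iff_ae_notMem.1 h0
      filter_upwards [h4] with y hy h
      exact absurd h hy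
    · exact Eventually.of_forall fun y _ => h0
  obtain ⟨y₀, hy₀⟩ := h3.exists
  refine ⟨P y₀, ?_⟩
  filter_upwards [h1, h2] with y h4 h5
  have h6 : P y₀ ∈ closure {x | ∃ w ∈ W, x = w * P y} := by
    rw [hbas.mem_closure_iff]
    intro U hU hmem
    obtain ⟨n, hn⟩ := h5 U hU (hy₀ U hU hmem)
    refine ⟨P (R^[n] y), hn, c ^ n, W.pow_mem hcW n, h4 n⟩
  have h7 : IsClosed {x | ∃ w ∈ W, x = w * P y} := by
    have h8 : {x | ∃ w ∈ W, x = w * P y} = (fun x => x * (P y)⁻¹) ⁻¹' (W : Set G) := by
      ext x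
      constructor
      · rintro ⟨w, hw, rfl⟩
        show w * P y * (P y)⁻¹ ∈ W
        rwa [mul_inv_cancel_right]
      · intro hx
        exact ⟨x * (P y)⁻¹, hx, by rw [inv_mul_cancel_right]⟩
    rw [h8]
    exact hWc.preimage (continuous_mul_const _)
  rw [h7.closure_eq] at h6
  obtain ⟨w, hw, hw'⟩ := h6
  rw [hw', mul_inv, mul_assoc, inv_mul_cancel, mul_one]
  exact W.inv_mem hw

/-- The law of a factor map onto a rotation with dense orbit is the Haar measure. -/
private theorem mb1_haar {Y G : Type*} [MeasurableSpace Y] {m : Measure Y}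
    [IsProbabilityMeasure m] [CommGroup G] [TopologicalSpace G] [IsTopologicalGroup G]
    [CompactSpace G] [T2Space G] [SecondCountableTopology G] [MeasurableSpace G] [BorelSpace G]
    {R : Y → Y} (hR : MeasurePreserving R m m) (P : Y → G) (hP : Measurable P) (c : G)
    (hc : ∀ g : G, g ∈ closure (Subgroup.zpowers c : Set G))
    (hPR : ∀ᵐ y ∂m, P (R y) = c * P y) : (m.map P).IsHaarMeasure := by
  have hpr : IsProbabilityMeasure (m.map P) := Measure.isProbabilityMeasure_map hP.aemeasurable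
  have hm : ∀ χ : PontryaginDual G, Measurable fun g : G => ((χ g : Circle) : ℂ) := fun χ =>
    (continuous_subtype_val.comp (map_continuous χ)).measurable
  have hinv : ∀ (g : G) (χ : PontryaginDual G),
      ((χ g : Circle) : ℂ) * ∫ w, ((χ w : Circle) : ℂ) ∂(m.map P) =
        ∫ w, ((χ w : Circle) : ℂ) ∂(m.map P) := by
    intro g χ
    have h1 : ((χ c : Circle) : ℂ) * ∫ w, ((χ w : Circle) : ℂ) ∂(m.map P) =
        ∫ w, ((χ w : Circle) : ℂ) ∂(m.map P) := by
      rw [integral_map hP.aemeasurable (hm χ).aestronglyMeasurable]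
      have h2 : ∫ y, ((χ (P (R y)) : Circle) : ℂ) ∂m = ∫ y, ((χ (P y) : Circle) : ℂ) ∂m := by
        have h3 : ∫ y, ((χ (P y) : Circle) : ℂ) ∂(m.map R) =
            ∫ y, ((χ (P (R y)) : Circle) : ℂ) ∂m :=
          integral_map hR.measurable.aemeasurable ((hm χ).comp hP).aestronglyMeasurable
        rw [← h3, hR.map_eq]
      conv_rhs => rw [← h2]
      rw [← integral_const_mul]
      refine integral_congr_ae ?_
      filter_upwards [hPR] with y hy
      rw [hy, map_mul, Circle.coe_mul]
    by_cases h0 : ∫ w, ((χ w : Circle) : ℂ) ∂(m.map P) = 0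
    · rw [h0, mul_zero]
    · have h2 : ((χ c : Circle) : ℂ) = 1 := mul_right_cancel₀ h0 (by rw [h1, one_mul])
      have h3 : χ c = 1 := by
        apply Circle.coe_injective
        rw [h2, Circle.coe_one]
      have h4 : (Subgroup.zpowers c : Set G) ⊆ {g | χ g = 1} := by
        rintro x ⟨n, rfl⟩
        show χ (c ^ n) = 1
        rw [map_zpow, h3, one_zpow]
      have h5 : IsClosed {g : G | χ g = 1} := isClosed_eq (map_continuous χ) continuous_const
      have h6 : χ g = 1 := closure_minimal h4 h5 (hc g)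
      rw [h6, Circle.coe_one, one_mul]
  have hL : (m.map P).IsMulLeftInvariant := by
    refine ⟨fun g => ?_⟩
    have hg : Measurable fun x : G => g * x := (continuous_const_mul g).measurable
    have : IsFiniteMeasure ((m.map P).map fun x => g * x) := Measure.isFiniteMeasure_map _ _
    refine measure_ext_char _ _ fun χ => ?_
    rw [integral_map hg.aemeasurable (hm χ).aestronglyMeasurable, ← hinv g χ,
      ← integral_const_mul]
    refine integral_congr_ae (Eventually.of_forall fun w => ?_)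
    show ((χ (g * w) : Circle) : ℂ) = ((χ g : Circle) : ℂ) * ((χ w : Circle) : ℂ)
    rw [map_mul, Circle.coe_mul]
  refine Measure.isHaarMeasure_of_isCompact_nonempty_interior (m.map P) Set.univ isCompact_univ
    ?_ ?_ ?_
  · rw [interior_univ]
    exact Set.univ_nonempty
  · rw [measure_univ]
    exact one_ne_zero
  · exact measure_ne_top _ _

/-- Proof. `c₀, P₀` from `exists_kron` (`H82OT/KR2.lean`), `G = ℕ → Circle`,
`W = (Subgroup.zpowers c₀).topologicalClosure`, closed. Let `nuP = m.map P₀`.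
(1) `nuP` is invariant under `c₀`, so for a character `χ` of `G`: `∫ χ dnuP = χ(c₀) ∫ χ dnuP`; hence for
`w ∈ W`: `∫ χ(w x) dnuP = ∫ χ dnuP` (if `χ(c₀) = 1` then `χ(w) = 1` by continuity, otherwise both are `0`):
`nuP` is invariant under `W` (`measure_ext_char`, `H22M/FC.lean`).
(2) If `χ` is trivial on `W` then `χ ∘ P₀` is invariant, so constant a.e. The characters of `G` are countable
(or: the quotient group `G ⧸ W` is compact, Hausdorff and second countable, the map `y ↦ [P₀ y]` to it is
invariant under the ergodic `R`, so constant a.e.: countably many open sets separate points). So there is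
`w₀` with `w₀⁻¹ * P₀ y ∈ W` for a.e. `y`. `P y` = this element, and `1` where it is not in `W`; `c` = `c₀`.
(3) `lam = m.map P` is invariant under all translations by `W` by (1), a probability measure, so a Haar
measure of the compact group `W`. (4) Eigenfunctions: `g ∘ P₀ = g(w₀ ·) ∘ P` a.e. -/
theorem exists_kron_haar {Y : Type*} [MeasurableSpace Y] [StandardBorelSpace Y]
    {m : Measure Y} [IsProbabilityMeasure m] [MeasurableSpace Circle] [BorelSpace Circle]
    (R : Y ≃ᵐ Y) (hR : Ergodic R m) :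
    ∃ (W : Subgroup (ℕ → Circle)) (_ : IsClosed (W : Set (ℕ → Circle))) (lam : Measure W)
      (c : W) (P : Y → W), IsProbabilityMeasure lam ∧ lam.IsHaarMeasure ∧
      MeasurePreserving P m lam ∧ (∀ᵐ y ∂m, P (R y) = c * P y) ∧
      ∀ (e : Y → ℂ) (l : ℂ), BM e → (∀ᵐ y ∂m, e (R y) = l * e y) →
        ∃ g : W → ℂ, BM g ∧ ∀ᵐ y ∂m, e y = g (P y) := by
  classical
  obtain ⟨c₀, P₀, hk⟩ := exists_kron R hR
  obtain ⟨w₀, hw₀⟩ := mb1_coset hR P₀ hk.meas c₀ hk.equi
  have hWc : IsClosed ((Subgroup.zpowers c₀).topologicalClosure : Set (ℕ → Circle)) :=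
    Subgroup.isClosed_topologicalClosure _
  have hcW : c₀ ∈ (Subgroup.zpowers c₀).topologicalClosure :=
    Subgroup.le_topologicalClosure _ (Subgroup.mem_zpowers c₀)
  obtain ⟨W, hWdef⟩ : ∃ W : Subgroup (ℕ → Circle),
      W = (Subgroup.zpowers c₀).topologicalClosure := ⟨_, rfl⟩
  rw [← hWdef] at hWc hcW hw₀
  have hWcomp : CompactSpace W := isCompact_iff_compactSpace.1 hWc.isCompact
  have hmul : Measurable fun y => w₀⁻¹ * P₀ y :=
    (continuous_const_mul w₀⁻¹).measurable.comp hk.meas
  let f : Y → ℕ → Circle := fun y => if w₀⁻¹ * P₀ y ∈ W then w₀⁻¹ * P₀ y else 1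
  have hfm : Measurable f := Measurable.ite (hmul hWc.measurableSet) hmul measurable_const
  have hfW : ∀ y, f y ∈ W := by
    intro y
    show (if w₀⁻¹ * P₀ y ∈ W then w₀⁻¹ * P₀ y else 1) ∈ W
    split_ifs with h
    · exact h
    · exact W.one_mem
  have hfe : ∀ᵐ y ∂m, f y = w₀⁻¹ * P₀ y := by
    filter_upwards [hw₀] with y hy
    exact if_pos hy
  let P : Y → W := fun y => ⟨f y, hfW y⟩
  have hPm : Measurable P := hfm.subtype_mk
  let c : W := ⟨c₀, hcW⟩
  have hPR : ∀ᵐ y ∂m, P (R y) = c * P y := by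
    have h1 := hR.toMeasurePreserving.quasiMeasurePreserving.ae hfe
    filter_upwards [h1, hfe, hk.equi] with y h2 h3 h4
    apply Subtype.ext
    show f (R y) = c₀ * f y
    rw [h2, h3, h4, mul_left_comm]
  have hdense : ∀ g : W, g ∈ closure (Subgroup.zpowers c : Set W) := by
    intro g
    rw [closure_subtype]
    have h1 : (g : ℕ → Circle) ∈ closure (Subgroup.zpowers c₀ : Set (ℕ → Circle)) := by
      have h2 : ∀ x ∈ W, x ∈ closure (Subgroup.zpowers c₀ : Set (ℕ → Circle)) := by
        rw [hWdef]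
        exact fun _ h => h
      exact h2 _ g.2
    refine closure_mono ?_ h1
    rintro x ⟨n, rfl⟩
    exact ⟨c ^ n, ⟨n, rfl⟩, rfl⟩
  have hsc : SecondCountableTopology W :=
    TopologicalSpace.Subtype.secondCountableTopology (W : Set (ℕ → Circle))
  have hhaar : (m.map P).IsHaarMeasure := mb1_haar hR.toMeasurePreserving P hPm c hdense hPR
  refine ⟨W, hWc, m.map P, c, P, Measure.isProbabilityMeasure_map hPm.aemeasurable, hhaar,
    ⟨hPm, rfl⟩, hPR, fun e l he hel => ?_⟩
  obtain ⟨g, hg, hge⟩ := hk.all e l he hel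
  have h1 : Measurable fun w : W => w₀ * (w : ℕ → Circle) :=
    (continuous_const_mul w₀).measurable.comp measurable_subtype_coe
  refine ⟨fun w => g (w₀ * (w : ℕ → Circle)), hg.comp h1, ?_⟩
  filter_upwards [hge, hfe] with y h2 h3
  rw [h2]
  show g (P₀ y) = g (w₀ * f y)
  rw [h3, mul_inv_cancel_left]

end Pool.Agent.Lib.H82OG
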