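import Pool.Agent.Lib.H82OG.Defs
import Pool.Agent.Lib.H22M.TG

/-!
# Project H82OG, chunk MB2: rotation factors are functions of the Kronecker factor
-/

open MeasureTheory Filter Topology Finset ProbabilityTheory
open scoped ENNReal ComplexConjugate Matrix

namespace Pool.Agent.Lib.H82OG

open Pool.Agent.Lib.H22M Pool.Agent.Lib.H82T Pool.Agent.Lib.H82OT Pool.Agent.Lib.H82OF

/-- Proof. For every character `χ` of `Z` the function `χ ∘ π` is a bounded eigenfunction, so `= g_χ ∘ P`
a.e. `PontryaginDual Z` is countable (`Z` compact and second countable; search the library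
`Pool/Agent/Lib/CompactAbelian`, `H22M`), or use a countable family of characters separating the points:
`E z = (χ z)_χ` is a continuous injective map of the compact space `Z` into a countable power of `ℂ`, so a
closed embedding and a measurable embedding. Let `ζ w` be the point `z` with `E z = (g_χ w)_χ` if it exists
and `1` otherwise (measurable: `MeasurableEmbedding.measurable_extend` or the inverse on the range). -/
theorem exists_zeta {Y Z W : Type*} [MeasurableSpace Y] [MeasurableSpace W] {m : Measure Y}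
    [IsProbabilityMeasure m] {R : Y → Y} [CommGroup Z] [TopologicalSpace Z]
    [IsTopologicalGroup Z] [CompactSpace Z] [T2Space Z] [SecondCountableTopology Z]
    [MeasurableSpace Z] [BorelSpace Z] (π : Y → Z) (hπ : Measurable π) (α : Z)
    (hπR : ∀ᵐ y ∂m, π (R y) = α * π y) (P : Y → W) (hP : Measurable P)
    (hkron : ∀ (e : Y → ℂ) (l : ℂ), BM e → (∀ᵐ y ∂m, e (R y) = l * e y) →
      ∃ g : W → ℂ, BM g ∧ ∀ᵐ y ∂m, e y = g (P y)) :
    ∃ ζ : W → Z, Measurable ζ ∧ ∀ᵐ y ∂m, π y = ζ (P y) := by
  classical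
  have hcont : ∀ χ : PontryaginDual Z, Continuous (fun z : Z => ((χ z : Circle) : ℂ)) :=
    fun χ => Pool.Agent.Lib.CompactAbelian.continuous_char χ
  -- a countable separating family of characters
  obtain ⟨T, hT, hU⟩ := TopologicalSpace.isOpen_iUnion_countable
    (fun χ : PontryaginDual Z => {p : Z × Z | ((χ p.1 : Circle) : ℂ) ≠ ((χ p.2 : Circle) : ℂ)})
    (fun χ => isOpen_ne_fun ((hcont χ).comp continuous_fst) ((hcont χ).comp continuous_snd))
  have hsep : ∀ a b : Z, a ≠ b → ∃ χ ∈ T, ((χ a : Circle) : ℂ) ≠ ((χ b : Circle) : ℂ) := by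
    intro a b hab
    have h1 : a * b⁻¹ ≠ 1 := by
      intro h
      exact hab (mul_inv_eq_one.1 h)
    obtain ⟨χ, hχ⟩ := Pool.Agent.Lib.CompactAbelian.exists_char_ne_one h1
    have h2 : (a, b) ∈ ⋃ χ : PontryaginDual Z,
        {p : Z × Z | ((χ p.1 : Circle) : ℂ) ≠ ((χ p.2 : Circle) : ℂ)} := by
      refine Set.mem_iUnion.2 ⟨χ, ?_⟩
      intro h3
      apply hχ
      have h4 : χ a = χ b := Circle.coe_injective h3
      rw [map_mul, map_inv, h4, mul_inv_cancel]
    rw [← hU] at h2
    obtain ⟨χ', h5, h6⟩ := Set.mem_iUnion₂.1 h2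
    exact ⟨χ', h5, h6⟩
  have hTc : Countable T := hT.to_subtype
  -- the embedding
  let E : Z → (T → ℂ) := fun z χ => ((χ.1 z : Circle) : ℂ)
  have hE : Continuous E := continuous_pi fun χ => hcont χ.1
  have hEi : Function.Injective E := by
    intro a b hab
    by_contra hne
    obtain ⟨χ, h1, h2⟩ := hsep a b hne
    exact h2 (congrFun hab ⟨χ, h1⟩)
  have hEm : MeasurableEmbedding E := (hE.isClosedEmbedding hEi).measurableEmbedding
  obtain ⟨g', hg', hgE⟩ := hEm.exists_measurable_extend (measurable_id : Measurable (id : Z → Z))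
    (fun _ => ⟨1⟩)
  -- the factor functions
  have hχ : ∀ χ : T, ∃ g : W → ℂ, BM g ∧ ∀ᵐ y ∂m, ((χ.1 (π y) : Circle) : ℂ) = g (P y) := by
    intro χ
    refine hkron (fun y => ((χ.1 (π y) : Circle) : ℂ)) ((χ.1 α : Circle) : ℂ) ?_ ?_
    · refine ⟨((hcont χ.1).measurable).comp hπ, 1, fun y => ?_⟩
      exact (Circle.norm_coe _).le
    · filter_upwards [hπR] with y hy
      rw [hy, map_mul, Circle.coe_mul]
  choose g hgB hgP using hχ
  refine ⟨fun w => g' (fun χ => g χ w), hg'.comp (measurable_pi_iff.2 fun χ => (hgB χ).1), ?_⟩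
  filter_upwards [ae_all_iff.2 hgP] with y hy
  have h1 : (fun χ : T => g χ (P y)) = E (π y) := by
    funext χ
    exact (hy χ).symm
  change π y = g' (fun χ => g χ (P y))
  rw [h1]
  exact (congrFun hgE (π y)).symm

end Pool.Agent.Lib.H82OG
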