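import Pool.Agent.Lib.H82OG.Defs
import Pool.Agent.Lib.H22M.TG

/-!
# Project H82OG, chunk MB3: the characters of the fibre group of an eigenfunction
-/

open MeasureTheory Filter Topology Finset ProbabilityTheory
open scoped ENNReal ComplexConjugate Matrix

namespace Pool.Agent.Lib.H82OG

open Pool.Agent.Lib.H22M Pool.Agent.Lib.H82T Pool.Agent.Lib.H82OT Pool.Agent.Lib.H82OF

section

variable {Z K : Type*} [CommGroup Z] [TopologicalSpace Z] [IsTopologicalGroup Z]
  [CompactSpace Z] [T2Space Z] [SecondCountableTopology Z] [MeasurableSpace Z] [BorelSpace Z]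
  [Group K] [TopologicalSpace K] [IsTopologicalGroup K] [CompactSpace K] [T2Space K]
  [SecondCountableTopology K] [MeasurableSpace K] [BorelSpace K]

private lemma MB3_right (muK : Measure K) [muK.IsHaarMeasure] [IsProbabilityMeasure muK] (g : K) :
    MeasurePreserving (fun k : K => k * g) muK muK := by
  refine ⟨measurable_mul_const g, ?_⟩
  have : IsProbabilityMeasure (muK.map (fun k : K => k * g)) :=
    Measure.isProbabilityMeasure_map (measurable_mul_const g).aemeasurable
  exact Measure.isHaarMeasure_eq_of_isProbabilityMeasure _ _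

private lemma MB3_rg (lam : Measure Z) [IsProbabilityMeasure lam]
    (muK : Measure K) [muK.IsHaarMeasure] [IsProbabilityMeasure muK] (g : K) :
    MeasurePreserving (fun y : Z × K => (y.1, y.2 * g)) (lam.prod muK) (lam.prod muK) :=
  (MeasurePreserving.id lam).prod (MB3_right muK g)

private lemma MB3_cont (lam : Measure Z) [IsProbabilityMeasure lam]
    (muK : Measure K) [muK.IsHaarMeasure] [IsProbabilityMeasure muK] (e : Z × K → ℂ)
    (he : Measurable e) (he1 : ∀ y, ‖e y‖ ≤ 1) :
    Continuous fun g : K => ∫ y, e (y.1, y.2 * g) * conj (e y) ∂(lam.prod muK) := by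
  have hmet : TopologicalSpace.MetrizableSpace (Z × K) :=
    TopologicalSpace.metrizableSpace_of_t3_secondCountable _
  have hei : Integrable e (lam.prod muK) :=
    Integrable.of_bound he.aestronglyMeasurable 1 (Eventually.of_forall he1)
  refine continuous_of_uniform_approx_of_continuous ?_
  intro u hu
  obtain ⟨ε, hε, hεu⟩ := Metric.mem_uniformity_dist.1 hu
  obtain ⟨h, hh, hhi⟩ := hei.exists_boundedContinuous_integral_sub_le (half_pos hε)
  refine ⟨fun g => ∫ y, h (y.1, y.2 * g) * conj (e y) ∂(lam.prod muK), ?_, ?_⟩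
  · refine continuous_of_dominated (bound := fun _ => ‖h‖) ?_ ?_ (integrable_const _) ?_
    · intro g
      have h1 : Measurable fun y : Z × K => h (y.1, y.2 * g) := by
        have : Continuous fun y : Z × K => h (y.1, y.2 * g) := by fun_prop
        exact this.measurable
      exact (h1.mul (Complex.continuous_conj.measurable.comp he)).aestronglyMeasurable
    · intro g
      refine Eventually.of_forall fun y => ?_
      rw [norm_mul, RCLike.norm_conj]
      calc ‖h (y.1, y.2 * g)‖ * ‖e y‖ ≤ ‖h‖ * 1 :=
            mul_le_mul (h.norm_coe_le_norm _) (he1 y) (norm_nonneg _) (norm_nonneg _)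
        _ = ‖h‖ := mul_one _
    · refine Eventually.of_forall fun y => ?_
      fun_prop
  · intro g
    apply hεu
    rw [dist_eq_norm]
    have hrg := MB3_rg lam muK g
    have hA : Integrable (fun y : Z × K => e (y.1, y.2 * g) * conj (e y)) (lam.prod muK) := by
      refine Integrable.of_bound ((he.comp hrg.measurable).mul
        (Complex.continuous_conj.measurable.comp he)).aestronglyMeasurable 1
        (Eventually.of_forall fun y => ?_)
      rw [norm_mul, RCLike.norm_conj]
      exact mul_le_one₀ (he1 _) (norm_nonneg _) (he1 _)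
    have hB : Integrable (fun y : Z × K => h (y.1, y.2 * g) * conj (e y)) (lam.prod muK) := by
      refine Integrable.of_bound ((h.continuous.measurable.comp hrg.measurable).mul
        (Complex.continuous_conj.measurable.comp he)).aestronglyMeasurable ‖h‖
        (Eventually.of_forall fun y => ?_)
      rw [norm_mul, RCLike.norm_conj]
      calc ‖h (y.1, y.2 * g)‖ * ‖e y‖ ≤ ‖h‖ * 1 :=
            mul_le_mul (h.norm_coe_le_norm _) (he1 y) (norm_nonneg _) (norm_nonneg _)
        _ = ‖h‖ := mul_one _
    rw [← integral_sub hA hB]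
    have hC : ∫ y : Z × K, ‖e (y.1, y.2 * g) - h (y.1, y.2 * g)‖ ∂(lam.prod muK) =
        ∫ y : Z × K, ‖e y - h y‖ ∂(lam.prod muK) := by
      have h1 := integral_map (μ := lam.prod muK) (φ := fun y : Z × K => (y.1, y.2 * g))
        (f := fun y => ‖e y - h y‖) hrg.measurable.aemeasurable
        ((he.sub h.continuous.measurable).norm.aestronglyMeasurable)
      rw [hrg.map_eq] at h1
      exact h1.symm
    calc ‖∫ y : Z × K, (e (y.1, y.2 * g) * conj (e y) - h (y.1, y.2 * g) * conj (e y))
          ∂(lam.prod muK)‖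
        ≤ ∫ y : Z × K, ‖e (y.1, y.2 * g) - h (y.1, y.2 * g)‖ ∂(lam.prod muK) := by
          refine norm_integral_le_of_norm_le ?_ (Eventually.of_forall fun y => ?_)
          · exact ((hrg.integrable_comp (he.sub h.continuous.measurable).aestronglyMeasurable).2
              (hei.sub hhi)).norm
          · rw [← sub_mul, norm_mul, RCLike.norm_conj]
            exact mul_le_of_le_one_right (norm_nonneg _) (he1 y)
      _ = ∫ y : Z × K, ‖e y - h y‖ ∂(lam.prod muK) := hC
      _ ≤ ε / 2 := hh
      _ < ε := half_lt_self hε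

/-- Every eigenfunction transforms under the right translations by a continuous character of `K`.
Proof. Let `e` be an eigenfunction of modulus one (make it bounded). Right translation
`R_g (z, k) = (z, k g)` commutes with the skew product and preserves `lam.prod muK` (Haar measure of a
compact group is right invariant), so `e ∘ R_g` is an eigenfunction with the same eigenvalue, and
`(e ∘ R_g) conj e` is invariant, so a constant `χ g` of modulus one: `e (z, k g) = χ g * e (z, k)` a.e.,
`χ g = ∫ e(z, k g) conj e(z, k)` is measurable in `g` (Fubini) and multiplicative, so continuous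
(`MonoidHom.continuous_of_measurable`). -/
theorem exists_fibre_char (lam : Measure Z) [lam.IsHaarMeasure] [IsProbabilityMeasure lam]
    (muK : Measure K) [muK.IsHaarMeasure] [IsProbabilityMeasure muK] {α : Z} {φ : Z → K}
    (hφ : Measurable φ) (herg : Ergodic (skew (M := K) α φ) (lam.prod muK)) (l : ℂ)
    (hl : IsEigenvalue (lam.prod muK) (skew (M := K) α φ) l) :
    ∃ (e : Z × K → ℂ) (χ : ContinuousMonoidHom K Circle), BM e ∧
      (∀ᵐ y ∂(lam.prod muK), ‖e y‖ = 1) ∧ (∀ᵐ y ∂(lam.prod muK), e (skew α φ y) = l * e y) ∧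
      ∀ g : K, ∀ᵐ y ∂(lam.prod muK), e (y.1, y.2 * g) = ((χ g : Circle) : ℂ) * e y := by
  classical
  have hl1 : ‖l‖ = 1 := hl.norm_eq herg.toMeasurePreserving
  obtain ⟨f, hf, hf1, hfe⟩ := hl
  set e : Z × K → ℂ := fun y => if ‖f y‖ = 1 then f y else 1 with he_def
  have hem : Measurable e :=
    Measurable.ite (hf.norm (measurableSet_singleton 1)) hf measurable_const
  have he1 : ∀ y, ‖e y‖ = 1 := by
    intro y
    simp only [he_def]
    split_ifs with h
    · exact h
    · simp
  have hef : ∀ᵐ y ∂(lam.prod muK), e y = f y := by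
    filter_upwards [hf1] with y hy
    simp only [he_def, if_pos hy]
  have heR : ∀ᵐ y ∂(lam.prod muK), e (skew α φ y) = l * e y := by
    have h1 := herg.toMeasurePreserving.quasiMeasurePreserving.ae hef
    filter_upwards [h1, hef, hfe] with y hy1 hy2 hy3
    rw [hy1, hy2, hy3]
  set X : K → ℂ := fun g => ∫ y, e (y.1, y.2 * g) * conj (e y) ∂(lam.prod muK) with hX
  have hXc : Continuous X := MB3_cont lam muK e hem fun y => (he1 y).le
  have hconj : ∀ y, conj (e y) * e y = 1 := by
    intro y
    rw [mul_comm, Complex.mul_conj, Complex.normSq_eq_norm_sq, he1]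
    simp
  have hkey : ∀ g : K, ∀ᵐ y ∂(lam.prod muK), e (y.1, y.2 * g) = X g * e y := by
    intro g
    have hrg := MB3_rg lam muK g
    have h1 : ∀ᵐ y ∂(lam.prod muK), e (skew α φ (y.1, y.2 * g)) = l * e (y.1, y.2 * g) :=
      hrg.quasiMeasurePreserving.ae heR
    set d : Z × K → ℂ := fun y => e (y.1, y.2 * g) * conj (e y) with hd
    have hdm : Measurable d :=
      (hem.comp hrg.measurable).mul (Complex.continuous_conj.measurable.comp hem)
    have h2 : ∀ᵐ y ∂(lam.prod muK), d (skew (M := K) α φ y) = d y := by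
      filter_upwards [h1, heR] with y hy1 hy2
      have h3 : ((skew (M := K) α φ y).1, (skew (M := K) α φ y).2 * g) =
          skew (M := K) α φ (y.1, y.2 * g) := by
        simp [skew, mul_assoc]
      have h4 : l * conj l = 1 := by
        rw [Complex.mul_conj, Complex.normSq_eq_norm_sq, hl1]
        simp
      simp only [hd]
      rw [h3, hy1, hy2, map_mul]
      calc l * e (y.1, y.2 * g) * (conj l * conj (e y))
          = (l * conj l) * (e (y.1, y.2 * g) * conj (e y)) := by ring
        _ = _ := by rw [h4, one_mul]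
    obtain ⟨c, hc⟩ := const_of_invariant herg d hdm h2
    have h3 : X g = c := by
      rw [hX]
      have : ∫ y, d y ∂(lam.prod muK) = ∫ _, c ∂(lam.prod muK) := integral_congr_ae hc
      simpa using this
    filter_upwards [hc] with y hy
    rw [h3, ← hy]
    simp only [hd]
    rw [mul_assoc, hconj, mul_one]
  have hX1 : ∀ g, ‖X g‖ = 1 := by
    intro g
    obtain ⟨y, hy⟩ := (hkey g).exists
    have h1 := congrArg norm hy
    rw [norm_mul, he1, he1, mul_one] at h1
    exact h1.symm
  have hne : ∀ y, e y ≠ 0 := fun y h => by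
    have := he1 y
    rw [h, norm_zero] at this
    exact zero_ne_one this
  have hXm : ∀ g h, X (g * h) = X g * X h := by
    intro g h
    have h1 := (MB3_rg lam muK g).quasiMeasurePreserving.ae (hkey h)
    obtain ⟨y, hy1, hy2, hy3⟩ := ((hkey (g * h)).and ((hkey g).and h1)).exists
    simp only [mul_assoc] at hy3
    rw [hy1, hy2] at hy3
    have h4 : X (g * h) * e y = (X g * X h) * e y := by rw [hy3]; ring
    exact mul_right_cancel₀ (hne y) h4
  have hXone : X 1 = 1 := by
    obtain ⟨y, hy⟩ := (hkey 1).exists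
    simp only [mul_one] at hy
    have h4 : 1 * e y = X 1 * e y := by rw [one_mul]; exact hy
    exact (mul_right_cancel₀ (hne y) h4).symm
  have hmem : ∀ g, X g ∈ Submonoid.unitSphere ℂ := fun g => mem_sphere_zero_iff_norm.2 (hX1 g)
  let χ : ContinuousMonoidHom K Circle :=
    { toFun := fun g => (⟨X g, hmem g⟩ : Circle)
      map_one' := Circle.ext hXone
      map_mul' := fun g h => Circle.ext (hXm g h)
      continuous_toFun := Continuous.subtype_mk hXc _ }
  refine ⟨e, χ, ⟨hem, 1, fun y => (he1 y).le⟩, Eventually.of_forall he1, heR, ?_⟩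
  intro g
  exact hkey g

/-- If `χ = 1` then `l = ψ(α)` for a character `ψ` of `Z`. Proof. `F z = ∫ e(z, k) dk`; for a.e. `(z, k)`
`e (z, k) = F z` (Fubini in `(z, k, g)`: `e (z, k g) = e (z, k)` for a.e. `(z, k, g)`, integrate over `g`), so
`F (α z) = l F z` a.e. and `F ≠ 0`; some Fourier coefficient `∫ F conj ψ dlam` is not `0`
(`Pool.Agent.Lib.CompactAbelian.Parseval`, `tg_approx`), and
`∫ F conj ψ = ∫ F(α z) conj ψ(α z) = l conj ψ(α) ∫ F conj ψ`. -/
theorem eig_of_trivial_char (lam : Measure Z) [lam.IsHaarMeasure] [IsProbabilityMeasure lam]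
    (muK : Measure K) [muK.IsHaarMeasure] [IsProbabilityMeasure muK] {α : Z} {φ : Z → K}
    (hφ : Measurable φ) (l : ℂ) (e : Z × K → ℂ) (he : BM e)
    (he1 : ∀ᵐ y ∂(lam.prod muK), ‖e y‖ = 1)
    (hel : ∀ᵐ y ∂(lam.prod muK), e (skew α φ y) = l * e y)
    (h : ∀ g : K, ∀ᵐ y ∂(lam.prod muK), e (y.1, y.2 * g) = e y) :
    ∃ ψ : PontryaginDual Z, l = ((ψ α : Circle) : ℂ) := by
  classical
  obtain ⟨hem, C, hC⟩ := he
  have hsk : MeasurePreserving (skew (M := K) α φ) (lam.prod muK) (lam.prod muK) := by
    have hα : MeasurePreserving (fun z : Z => α * z) lam lam := measurePreserving_mul_left lam α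
    have hm : Measurable (Function.uncurry fun (z : Z) (k : K) => φ z * k) :=
      (hφ.comp measurable_fst).mul measurable_snd
    have := hα.skew_product (g := fun (z : Z) (k : K) => φ z * k) hm
      (Eventually.of_forall fun z => (measurePreserving_mul_left muK (φ z)).map_eq)
    exact this
  set F : Z → ℂ := fun z => ∫ k, e (z, k) ∂muK with hF
  have hFm : Measurable F := (hem.stronglyMeasurable.integral_prod_right').measurable
  have hFC : ∀ z, ‖F z‖ ≤ C := by
    intro z
    have h1 := norm_integral_le_of_norm_le_const (μ := muK) (f := fun k => e (z, k)) (C := C)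
      (Eventually.of_forall fun k => hC (z, k))
    simpa using h1
  -- `e` is a function of the first coordinate
  have hS : MeasurableSet {x : K × (Z × K) | e (x.2.1, x.2.2 * x.1) = e x.2} := by
    apply measurableSet_eq_fun
    · exact hem.comp ((measurable_fst.comp measurable_snd).prodMk
        ((measurable_snd.comp measurable_snd).mul measurable_fst))
    · exact hem.comp measurable_snd
  have hae : ∀ᵐ y ∂(lam.prod muK), ∀ᵐ g ∂muK, e (y.1, y.2 * g) = e y :=
    (Measure.ae_ae_comm (μ := muK) (ν := lam.prod muK)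
      (p := fun g y => e (y.1, y.2 * g) = e y) hS).1 (Eventually.of_forall h)
  have heF : ∀ᵐ y ∂(lam.prod muK), e y = F y.1 := by
    filter_upwards [hae] with y hy
    have h1 : ∫ g, e (y.1, y.2 * g) ∂muK = ∫ g, e (y.1, g) ∂muK :=
      integral_mul_left_eq_self (μ := muK) (fun g => e (y.1, g)) y.2
    have h2 : ∫ g, e (y.1, y.2 * g) ∂muK = ∫ _, e y ∂muK := integral_congr_ae hy
    have h3 : ∫ _ : K, e y ∂muK = e y := by simp
    rw [← h3, ← h2, h1]
  have hproj : ∀ p : Z → Prop, (∀ᵐ y ∂(lam.prod muK), p y.1) → ∀ᵐ z ∂lam, p z := by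
    intro p hp
    filter_upwards [Measure.ae_ae_of_ae_prod hp] with z hz
    obtain ⟨k, hk⟩ := hz.exists
    exact hk
  have hF1 : ∀ᵐ z ∂lam, ‖F z‖ = 1 := by
    apply hproj
    filter_upwards [heF, he1] with y hy1 hy2
    rw [← hy1, hy2]
  have hFl : ∀ᵐ z ∂lam, F (α * z) = l * F z := by
    apply hproj (fun z => F (α * z) = l * F z)
    filter_upwards [heF, hel, hsk.quasiMeasurePreserving.ae heF] with y hy1 hy2 hy3
    have h1 : (skew (M := K) α φ y).1 = α * y.1 := rfl
    rw [← hy1, ← hy2, hy3, h1]
  have hFi : ∀ ψ : PontryaginDual Z, Integrable (fun z => F z * conj ((ψ z : Circle) : ℂ)) lam := by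
    intro ψ
    refine Integrable.of_bound (hFm.mul (Complex.continuous_conj.measurable.comp
      (CompactAbelian.continuous_char ψ).measurable)).aestronglyMeasurable C
      (Eventually.of_forall fun z => ?_)
    rw [norm_mul, RCLike.norm_conj, Circle.norm_coe, mul_one]
    exact hFC z
  obtain ⟨ψ, hψ⟩ : ∃ ψ : PontryaginDual Z, ∫ z, F z * conj ((ψ z : Circle) : ℂ) ∂lam ≠ 0 := by
    by_contra hcon
    push Not at hcon
    obtain ⟨S, t, hSt⟩ := tg_approx lam F ⟨hFm, C, hFC⟩ (1 / 2) (by norm_num)
    set T : Z → ℂ := fun z => ∑ χ ∈ S, t χ * ((χ z : Circle) : ℂ) with hT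
    have hTc : Continuous T := continuous_finsetSum S fun χ _ =>
      continuous_const.mul (CompactAbelian.continuous_char χ)
    have hTi : Integrable (fun z => F z * conj (T z)) lam := by
      have h1 : (fun z => F z * conj (T z)) =
          fun z => ∑ χ ∈ S, conj (t χ) * (F z * conj ((χ z : Circle) : ℂ)) := by
        funext z
        simp only [hT, map_sum, map_mul, Finset.mul_sum]
        exact Finset.sum_congr rfl fun χ _ => by ring
      rw [h1]
      exact integrable_finsetSum S fun χ _ => (hFi χ).const_mul _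
    have hT0 : ∫ z, F z * conj (T z) ∂lam = 0 := by
      have h1 : (fun z => F z * conj (T z)) =
          fun z => ∑ χ ∈ S, conj (t χ) * (F z * conj ((χ z : Circle) : ℂ)) := by
        funext z
        simp only [hT, map_sum, map_mul, Finset.mul_sum]
        exact Finset.sum_congr rfl fun χ _ => by ring
      rw [h1, integral_finsetSum S fun χ _ => (hFi χ).const_mul _]
      refine Finset.sum_eq_zero fun χ _ => ?_
      rw [integral_const_mul, hcon χ, mul_zero]
    have hre : ∫ z, (F z * conj (T z)).re ∂lam = 0 := by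
      have h1 : ∫ z, RCLike.re (F z * conj (T z)) ∂lam = RCLike.re (∫ z, F z * conj (T z) ∂lam) :=
        integral_re hTi
      rw [hT0] at h1
      simpa using h1
    have hge : ∫ z, (1 - 2 * (F z * conj (T z)).re) ∂lam ≤ ∫ z, ‖F z - T z‖ ^ 2 ∂lam := by
      obtain ⟨D, hD⟩ : ∃ D, ∀ z, ‖T z‖ ≤ D := by
        obtain ⟨D, hD⟩ := (isCompact_range hTc.norm).bddAbove
        exact ⟨D, fun z => hD ⟨z, rfl⟩⟩
      refine integral_mono_ae ((integrable_const _).sub (hTi.re.const_mul 2)) ?_ ?_
      · refine Integrable.of_bound (((hFm.sub hTc.measurable).norm.pow_const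
          2).aestronglyMeasurable) ((C + D) ^ 2) (Eventually.of_forall fun z => ?_)
        rw [Real.norm_eq_abs, abs_of_nonneg (by positivity)]
        exact pow_le_pow_left₀ (norm_nonneg _)
          ((norm_sub_le _ _).trans (add_le_add (hFC z) (hD z))) 2
      · filter_upwards [hF1] with z hz
        have h1 : ‖F z - T z‖ ^ 2 = ‖F z‖ ^ 2 + ‖T z‖ ^ 2 - 2 * (F z * conj (T z)).re := by
          rw [← Complex.normSq_eq_norm_sq, ← Complex.normSq_eq_norm_sq,
            ← Complex.normSq_eq_norm_sq, Complex.normSq_sub]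
        rw [h1, hz]
        nlinarith [sq_nonneg ‖T z‖]
    have hval : ∫ z, (1 - 2 * (F z * conj (T z)).re) ∂lam = 1 := by
      have hTr : Integrable (fun z => 2 * (F z * conj (T z)).re) lam := hTi.re.const_mul 2
      rw [integral_sub (integrable_const _) hTr, integral_const_mul, hre]
      simp
    rw [hval] at hge
    norm_num at hSt
    linarith
  refine ⟨ψ, ?_⟩
  set c : ℂ := ∫ z, F z * conj ((ψ z : Circle) : ℂ) ∂lam with hc
  have h1 : c = ∫ z, F (α * z) * conj ((ψ (α * z) : Circle) : ℂ) ∂lam :=
    (integral_mul_left_eq_self (μ := lam) (fun z => F z * conj ((ψ z : Circle) : ℂ)) α).symm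
  have h2 : ∫ z, F (α * z) * conj ((ψ (α * z) : Circle) : ℂ) ∂lam =
      ∫ z, (l * conj ((ψ α : Circle) : ℂ)) * (F z * conj ((ψ z : Circle) : ℂ)) ∂lam := by
    refine integral_congr_ae ?_
    filter_upwards [hFl] with z hz
    rw [hz, map_mul, Circle.coe_mul, map_mul]
    ring
  rw [integral_const_mul, ← hc] at h2
  have h3 : 1 * c = (l * conj ((ψ α : Circle) : ℂ)) * c := by
    rw [one_mul, ← h2, ← h1]
  have h4 : 1 = l * conj ((ψ α : Circle) : ℂ) := mul_right_cancel₀ hψ h3
  have h5 : conj ((ψ α : Circle) : ℂ) * ((ψ α : Circle) : ℂ) = 1 := by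
    rw [mul_comm, Complex.mul_conj, Complex.normSq_eq_norm_sq, Circle.norm_coe]
    simp
  calc l = l * (conj ((ψ α : Circle) : ℂ) * ((ψ α : Circle) : ℂ)) := by rw [h5, mul_one]
    _ = (l * conj ((ψ α : Circle) : ℂ)) * ((ψ α : Circle) : ℂ) := by ring
    _ = ((ψ α : Circle) : ℂ) := by rw [← h4, one_mul]

end

end Pool.Agent.Lib.H82OG
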