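import Pool.Agent.Lib.H82OG.MB3
import Pool.Agent.Lib.H82OG.ER

/-!
# Project H82OG, chunk MB4: the eigenvalues of a group extension are finitely generated over those of the rotation
-/

open MeasureTheory Filter Topology Finset ProbabilityTheory
open scoped ENNReal ComplexConjugate Matrix

namespace Pool.Agent.Lib.H82OG

open Pool.Agent.Lib.H22M Pool.Agent.Lib.H82T Pool.Agent.Lib.H82OT Pool.Agent.Lib.H82OF

/-- Subgroups of finitely generated commutative groups are finitely generated. -/
private theorem mb4_fg {C : Type*} [CommGroup C] (h : Group.FG C) (I : Subgroup C) : I.FG := by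
  have h1 : AddGroup.FG (Additive C) := GroupFG.iff_add_fg.mp h
  have h2 : Module.Finite ℤ (Additive C) := Module.Finite.iff_addGroup_fg.mpr h1
  rw [Subgroup.fg_iff_add_fg]
  have h3 : (AddSubgroup.toIntSubmodule (Subgroup.toAddSubgroup I)).FG := IsNoetherian.noetherian _
  rw [Submodule.fg_iff_addSubgroup_fg] at h3
  exact h3

section

variable {Z K : Type*} [CommGroup Z] [TopologicalSpace Z] [IsTopologicalGroup Z]
  [CompactSpace Z] [T2Space Z] [SecondCountableTopology Z] [MeasurableSpace Z] [BorelSpace Z]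
  [Group K] [TopologicalSpace K] [IsTopologicalGroup K] [CompactSpace K] [T2Space K]
  [SecondCountableTopology K] [MeasurableSpace K] [BorelSpace K]

/-- Proof. For eigenvalues `l` choose `e_l, χ_l` from `exists_fibre_char`. The set `I` of the characters `χ` of
`K` for which there are an eigenvalue `l` and a bounded `e` of modulus one with the two properties is a
subgroup of `ContinuousMonoidHom K Circle` (products, conjugates of the `e`); this group is finitely
generated and commutative, so `I` is finitely generated (`Subgroup.fg_of_...`: additive version, subgroups of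
finitely generated commutative groups are finitely generated, `ℤ` is Noetherian), by `χ_1, …, χ_r` belonging
to eigenvalues `s_1, …, s_r`; `S` = the finite set of the `s_i` (units: `IsEigenvalue.norm_eq`). For an
eigenvalue `l` with `(e_l, χ_l)`: `χ_l = ∏ χ_i ^ n_i`, so `l' = l * ∏ s_i ^ (-n_i)` is an eigenvalue with an
eigenfunction `e_l ∏ e_i ^ (-n_i)` invariant under right translations: `l' = ψ(α)` by
`eig_of_trivial_char`. -/
theorem eig_fg (lam : Measure Z) [lam.IsHaarMeasure] [IsProbabilityMeasure lam]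
    (muK : Measure K) [muK.IsHaarMeasure] [IsProbabilityMeasure muK] {α : Z} {φ : Z → K}
    (hφ : Measurable φ) (herg : Ergodic (skew (M := K) α φ) (lam.prod muK))
    (hfg : Group.FG (ContinuousMonoidHom K Circle)) :
    ∃ S : Finset ℂˣ, ∀ x : ℂˣ, IsEigenvalue (lam.prod muK) (skew (M := K) α φ) (x : ℂ) →
      x ∈ Subgroup.closure ((S : Set ℂˣ) ∪
        {y : ℂˣ | ∃ ψ : PontryaginDual Z, (y : ℂ) = ((ψ α : Circle) : ℂ)}) := by
  classical
  have hR : MeasurePreserving (skew (M := K) α φ) (lam.prod muK) (lam.prod muK) := herg.toMeasurePreserving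
  -- the group of the data
  let H : Subgroup (ℂˣ × ContinuousMonoidHom K Circle) :=
    { carrier := {x | ∃ e : Z × K → ℂ, BM e ∧ (∀ᵐ y ∂(lam.prod muK), ‖e y‖ = 1) ∧
        (∀ᵐ y ∂(lam.prod muK), e (skew α φ y) = (x.1 : ℂ) * e y) ∧
        ∀ g : K, ∀ᵐ y ∂(lam.prod muK), e (y.1, y.2 * g) = ((x.2 g : Circle) : ℂ) * e y}
      one_mem' := by
        refine ⟨fun _ => 1, BM.const 1, Eventually.of_forall fun y => by simp, Eventually.of_forall fun y => by simp,
          fun g => Eventually.of_forall fun y => by simp⟩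
      mul_mem' := by
        rintro x y ⟨e, he, he1, he2, he3⟩ ⟨f, hf, hf1, hf2, hf3⟩
        refine ⟨fun z => e z * f z, he.mul hf, ?_, ?_, fun g => ?_⟩
        · filter_upwards [he1, hf1] with z a b
          rw [norm_mul, a, b, one_mul]
        · filter_upwards [he2, hf2] with z a b
          rw [a, b, Prod.fst_mul, Units.val_mul]
          ring
        · filter_upwards [he3 g, hf3 g] with z a b
          rw [a, b, Prod.snd_mul, ContinuousMonoidHom.mul_apply, Circle.coe_mul]
          ring
      inv_mem' := by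
        rintro x ⟨e, he, he1, he2, he3⟩
        have hn : ‖((x.1 : ℂˣ) : ℂ)‖ = 1 := IsEigenvalue.norm_eq hR ⟨e, he.1, he1, he2⟩
        refine ⟨fun z => conj (e z), he.conj, ?_, ?_, fun g => ?_⟩
        · filter_upwards [he1] with z a
          rw [RCLike.norm_conj, a]
        · filter_upwards [he2] with z a
          rw [a, map_mul, Prod.fst_inv, Units.val_inv_eq_inv_val, Complex.inv_def, Complex.normSq_eq_norm_sq, hn]
          simp
        · filter_upwards [he3 g] with z a
          rw [a, map_mul, Prod.snd_inv]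
          congr 1
          change conj ((x.2 g : Circle) : ℂ) = (((x.2 g)⁻¹ : Circle) : ℂ)
          rw [Circle.coe_inv_eq_conj] }
  have hHmem : ∀ x : ℂˣ × ContinuousMonoidHom K Circle, x ∈ H ↔ ∃ e : Z × K → ℂ, BM e ∧
      (∀ᵐ y ∂(lam.prod muK), ‖e y‖ = 1) ∧
      (∀ᵐ y ∂(lam.prod muK), e (skew α φ y) = (x.1 : ℂ) * e y) ∧
      ∀ g : K, ∀ᵐ y ∂(lam.prod muK), e (y.1, y.2 * g) = ((x.2 g : Circle) : ℂ) * e y := fun x => Iff.rfl
  -- the group of the characters is finitely generated
  let sn : ℂˣ × ContinuousMonoidHom K Circle →* ContinuousMonoidHom K Circle := MonoidHom.snd _ _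
  obtain ⟨T, hT⟩ := mb4_fg hfg (H.map sn)
  have hTH : ∀ c ∈ T, ∃ x ∈ H, x.2 = c := by
    intro c hc
    have : c ∈ H.map sn := by rw [← hT]; exact Subgroup.subset_closure hc
    obtain ⟨x, hx, rfl⟩ := this
    exact ⟨x, hx, rfl⟩
  choose! F hFH hF2 using hTH
  refine ⟨T.image fun c => (F c).1, fun x hx => ?_⟩
  obtain ⟨e, χ, he, he1, he2, he3⟩ := exists_fibre_char lam muK hφ herg (x : ℂ) hx
  have hxH : (x, χ) ∈ H := (hHmem _).mpr ⟨e, he, he1, he2, he3⟩
  -- an element of `H` over `χ` whose first coordinate lies in the closure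
  have key : ∀ c ∈ Subgroup.closure (T : Set (ContinuousMonoidHom K Circle)),
      ∃ u ∈ Subgroup.closure (((T.image fun c => (F c).1 : Finset ℂˣ)) : Set ℂˣ), (u, c) ∈ H := by
    intro c hc
    induction hc using Subgroup.closure_induction with
    | mem c hc =>
      refine ⟨(F c).1, Subgroup.subset_closure ?_, ?_⟩
      · rw [Finset.coe_image]
        exact ⟨c, hc, rfl⟩
      · have h1 := hFH c hc
        have h2 : ((F c).1, c) = F c := Prod.ext rfl (hF2 c hc).symm
        rw [h2]
        exact h1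
    | one => exact ⟨1, Subgroup.one_mem _, H.one_mem⟩
    | mul a b _ _ ha hb =>
      obtain ⟨u, hu, hu'⟩ := ha
      obtain ⟨v, hv, hv'⟩ := hb
      exact ⟨u * v, Subgroup.mul_mem _ hu hv, H.mul_mem hu' hv'⟩
    | inv a _ ha =>
      obtain ⟨u, hu, hu'⟩ := ha
      exact ⟨u⁻¹, Subgroup.inv_mem _ hu, H.inv_mem hu'⟩
  have hχ : χ ∈ Subgroup.closure (T : Set (ContinuousMonoidHom K Circle)) := by
    rw [hT]
    exact ⟨(x, χ), hxH, rfl⟩
  obtain ⟨u, hu, huH⟩ := key χ hχ
  have h3 : (x * u⁻¹, (1 : ContinuousMonoidHom K Circle)) ∈ H := by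
    have h4 := H.mul_mem hxH (H.inv_mem huH)
    have h5 : (x, χ) * (u, χ)⁻¹ = (x * u⁻¹, (1 : ContinuousMonoidHom K Circle)) :=
      Prod.ext rfl (mul_inv_cancel χ)
    rwa [h5] at h4
  obtain ⟨e', he', he1', he2', he3'⟩ := (hHmem _).mp h3
  obtain ⟨ψ, hψ⟩ := eig_of_trivial_char lam muK hφ _ e' he' he1' he2' (fun g => by
    filter_upwards [he3' g] with z a
    rw [a]
    simp)
  have h6 : x = (x * u⁻¹) * u := by rw [inv_mul_cancel_right]
  rw [h6]
  refine Subgroup.mul_mem _ (Subgroup.subset_closure (Or.inr ⟨ψ, hψ⟩)) ?_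
  exact Subgroup.closure_mono Set.subset_union_left hu

end

end Pool.Agent.Lib.H82OG
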