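import Pool.Agent.Lib.H82OG.MA7
import Pool.Agent.Lib.H82OG.MB1
import Pool.Agent.Lib.H82OG.MB2
import Pool.Agent.Lib.H82OF.JL3

/-!
# Project H82OG, chunk MB5: passing to the Kronecker factor of a group extension
-/

open MeasureTheory Filter Topology Finset ProbabilityTheory
open scoped ENNReal ComplexConjugate Matrix

namespace Pool.Agent.Lib.H82OG

open Pool.Agent.Lib.H22M Pool.Agent.Lib.H82T Pool.Agent.Lib.H82OT Pool.Agent.Lib.H82OF

/-- Proof. `Ω = W × K₀` (standard Borel: `standardBorel_of_compact`), `nu = lamW.prod muK₀`,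
`S = skew c φ₀` (`skewE` is a measurable equivalence). `exists_kron_haar` (MB1) for `S`: `W', lam', c', P'`.
`exists_zeta` (MB2) for `Prod.fst : Ω → W`: `ζ` with `x.1 = ζ (P' x)` a.e. `mackey` (MA7) for `p = P'`,
`τ = MeasurableEquiv.mulLeft c'`, `k = Prod.snd`, the cocycle `φ₀ ∘ ζ`
(`(S x).2 = φ₀ x.1 * x.2 = φ₀ (ζ (P' x)) * x.2` a.e.): `K₁, muK₁, b, h, φ₁` (`nu.map P' = lam'`).
`Pi x = (P' x, h x)`. `Base0`: `erg`: factor of an ergodic map (`Pi ∘ S = skew c' φ₁ ∘ Pi` a.e.; see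
`ergodic_factor` in `H82OF/JL3.lean`); `kron`: for an eigenfunction `e` on `W' × K₁` the function `e ∘ Pi` is
an eigenfunction of `S`, so `= g ∘ P'` a.e., and `e = g ∘ Prod.fst` a.e. -/
theorem exists_base {W K : Type*} [CommGroup W] [TopologicalSpace W] [IsTopologicalGroup W]
    [CompactSpace W] [T2Space W] [SecondCountableTopology W] [MeasurableSpace W]
    [BorelSpace W]
    [Group K] [TopologicalSpace K] [IsTopologicalGroup K] [CompactSpace K]
    [T2Space K] [SecondCountableTopology K] [MeasurableSpace K] [BorelSpace K] [MeasurableSpace Circle] [BorelSpace Circle]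
    (lamW : Measure W) [lamW.IsHaarMeasure] [IsProbabilityMeasure lamW]
    (muK : Measure K) [muK.IsHaarMeasure] [IsProbabilityMeasure muK] (c : W) (φ₀ : W → K)
    (hφ₀ : Measurable φ₀) (herg : Ergodic (skew (M := K) c φ₀) (lamW.prod muK)) :
    ∃ (W' : Subgroup (ℕ → Circle)) (_ : IsClosed (W' : Set (ℕ → Circle))) (K₁ : Subgroup K)
      (_ : IsClosed (K₁ : Set K)) (lam' : Measure W') (muK₁ : Measure K₁) (c' : W')
      (φ₁ : W' → K₁) (Pi : W × K → W' × K₁) (ζ : W' → W) (b : W' → K),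
      IsProbabilityMeasure lam' ∧ lam'.IsHaarMeasure ∧ IsProbabilityMeasure muK₁ ∧
      muK₁.IsHaarMeasure ∧ Base0 lam' muK₁ c' φ₁ ∧
      MeasurePreserving Pi (lamW.prod muK) (lam'.prod muK₁) ∧
      (∀ᵐ x ∂(lamW.prod muK), Pi (skew c φ₀ x) = skew (M := K₁) c' φ₁ (Pi x)) ∧
      Measurable ζ ∧ Measurable b ∧
      ∀ᵐ x ∂(lamW.prod muK), x = (ζ (Pi x).1, b (Pi x).1 * ((Pi x).2 : K)) := by
  classical
  haveI : StandardBorelSpace W := standardBorel_of_compact W
  haveI : StandardBorelSpace K := standardBorel_of_compact K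
  have hpnu : IsProbabilityMeasure (lamW.prod muK) := inferInstance
  let S : (W × K) ≃ᵐ (W × K) := skewE (M := K) c φ₀ hφ₀
  have hSerg : Ergodic S (lamW.prod muK) := herg
  obtain ⟨W', hW'c, lam', c', P', hprob, hhaar, hP', hP'S, hkron⟩ := exists_kron_haar S hSerg
  haveI : CompactSpace W' := isCompact_iff_compactSpace.1 hW'c.isCompact
  haveI : SecondCountableTopology W' :=
    TopologicalSpace.Subtype.secondCountableTopology (W' : Set (ℕ → Circle))
  obtain ⟨ζ, hζm, hζ⟩ := exists_zeta (m := lamW.prod muK) (R := S) (Prod.fst : W × K → W)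
    measurable_fst c (ae_of_all _ fun y => rfl) P' hP'.measurable hkron
  have hkS : ∀ᵐ ω ∂(lamW.prod muK), (S ω).2 = φ₀ (ζ (P' ω)) * ω.2 := by
    filter_upwards [hζ] with ω hω
    show φ₀ ω.1 * ω.2 = φ₀ (ζ (P' ω)) * ω.2
    rw [hω]
  obtain ⟨K₁, hK₁c, muK₁, b, h, φ₁, hpr, hha, hbm, hhm, hφ₁m, hk, hPh, hhS, hbφ⟩ :=
    mackey (lamW.prod muK) S hSerg P' hP'.measurable (MeasurableEquiv.mulLeft c') hP'S
      (Prod.snd : W × K → K) measurable_snd (fun w => φ₀ (ζ w)) (hφ₀.comp hζm) hkS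
  rw [hP'.map_eq] at hPh
  haveI : SecondCountableTopology K₁ :=
    TopologicalSpace.Subtype.secondCountableTopology (K₁ : Set K)
  have hequi : ∀ᵐ x ∂(lamW.prod muK), (P' (S x), h (S x)) = skew (M := K₁) c' φ₁ (P' x, h x) := by
    filter_upwards [hP'S, hhS] with x h1 h2
    rw [h1, h2]
    rfl
  let S₁ : (W' × K₁) ≃ᵐ (W' × K₁) := skewE (M := K₁) c' φ₁ hφ₁m
  have herg₁ : Ergodic (skew (M := K₁) c' φ₁) (lam'.prod muK₁) := by
    have h1 := ergodic_factor S hSerg.toMeasurePreserving S₁ (fun x => (P' x, h x)) hPh hequi 1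
      (by rw [Function.iterate_one]; exact hSerg)
    rw [Function.iterate_one] at h1
    exact h1
  refine ⟨W', hW'c, K₁, hK₁c, lam', muK₁, c', φ₁, fun x => (P' x, h x), ζ, b, hprob, hhaar, hpr, hha,
    ⟨hφ₁m, herg₁, ?_⟩, hPh, hequi, hζm, hbm, ?_⟩
  · intro e l he hel
    have h1 : ∀ᵐ x ∂(lamW.prod muK), e (P' (S x), h (S x)) = l * e (P' x, h x) := by
      filter_upwards [hPh.quasiMeasurePreserving.ae hel, hequi] with x h2 h3
      rw [h3]
      exact h2
    obtain ⟨g, hg, hge⟩ := hkron (fun x => e (P' x, h x)) l (he.comp hPh.measurable) h1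
    refine ⟨g, hg, ?_⟩
    rw [← hPh.map_eq]
    exact (ae_map_iff hPh.measurable.aemeasurable
      (measurableSet_eq_fun he.1 (hg.1.comp measurable_fst))).2 hge
  · filter_upwards [hζ, hk] with x h1 h2
    exact Prod.ext h1 h2

end Pool.Agent.Lib.H82OG
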