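import Pool.Agent.Lib.H82OG.MA4
import Pool.Agent.Lib.H82OG.MA7
import Pool.Agent.Lib.H82OG.MB4
import Pool.Agent.Lib.H82OG.MB5

/-!
# Project H82OG, chunk MB6: the second level is a factor of a group extension
-/

open MeasureTheory Filter Topology Finset ProbabilityTheory
open scoped ENNReal ComplexConjugate Matrix

namespace Pool.Agent.Lib.H82OG

open Pool.Agent.Lib.H22M Pool.Agent.Lib.H82T Pool.Agent.Lib.H82OT Pool.Agent.Lib.H82OF

/-- Proof. (1) `exists_ergodic_lift` (MA4) for `φ ∘ P`: `ν` on `Y × K`, `u₁`; `S₁ (y, k) = (R y, φ (P y) * k)`.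
(2) `mackey` (MA7) for `Ω = Y × K`, `ν`, `S₁`, `p (y, k) = P y` (`ν.map p = lamW`),
`τ = MeasurableEquiv.mulLeft c`, `k = Prod.snd`, `φ`: `K₀, muK₀, b₀, h₀, φ₀`; `Pi₀ = (p, h₀)` carries `ν` to
`lamW.prod muK₀` and `S₁` to `skew c φ₀`, which is therefore ergodic.
(3) `exists_base` (MB5) for `W × K₀`: `W', K₁, …, Pi, ζ, b`.
(4) `θ (w', h) = (ζ w', (b₀ (ζ w') * (b w' : K) * (h : K)) • u₁)`, measurable. With
`Θ (w, h₀) = (w, (b₀ w * (h₀ : K)) • u₁)` on `W × K₀`: `Θ (Pi₀ (y, k)) = (P y, k • u₁) = (P y, u y)` for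
`ν`-a.e. `(y, k)`, and `θ ∘ Pi = Θ` a.e.; so `θ` carries `lam'.prod muK₁` to the law of `Θ` under
`lamW.prod muK₀`, which is the law of `(P, u)`. Equivariance: `Θ (skew c φ₀ x) = skew c φ (Θ x)` for a.e. `x`
(true at `x = Pi₀ (y, k)`, as `Θ (Pi₀ (S₁ (y, k))) = (c * P y, φ (P y) • k • u₁)`; or from
`b₀ (c w) φ₀ w = φ w b₀ w`), and the same for `θ` at `Pi x`.
(5) Eigenvalues of `skew c' φ₁` are eigenvalues of `skew c φ₀` (compose with `Pi`).
(Instances for the closed subgroups: `CompactSpace` from `isCompact_iff_compactSpace`,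
`Subtype.borelSpace`.) -/
theorem exists_cover {Y W K U : Type*} [MeasurableSpace Y] [StandardBorelSpace Y]
    [CommGroup W] [TopologicalSpace W] [IsTopologicalGroup W]
    [CompactSpace W] [T2Space W] [SecondCountableTopology W] [MeasurableSpace W]
    [BorelSpace W]
    [Group K] [TopologicalSpace K] [IsTopologicalGroup K] [CompactSpace K]
    [T2Space K] [SecondCountableTopology K] [MeasurableSpace K] [BorelSpace K]
    [TopologicalSpace U] [T2Space U] [SecondCountableTopology U] [MeasurableSpace U]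
    [BorelSpace U] [MulAction K U] [ContinuousSMul K U]
    [MeasurableSpace Circle] [BorelSpace Circle]
    {m : Measure Y} [IsProbabilityMeasure m] (R : Y ≃ᵐ Y) (hR : Ergodic R m)
    (lamW : Measure W) [lamW.IsHaarMeasure] [IsProbabilityMeasure lamW] (c : W) (P : Y → W)
    (hP : MeasurePreserving P m lamW) (hPR : ∀ y, P (R y) = c * P y)
    (φ : W → K) (hφ : Measurable φ) (u : Y → U) (hu : Measurable u)
    (huR : ∀ y, u (R y) = φ (P y) • u y) :
    ∃ (W' : Subgroup (ℕ → Circle)) (_ : IsClosed (W' : Set (ℕ → Circle))) (K₀ : Subgroup K)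
      (_ : IsClosed (K₀ : Set K)) (K₁ : Subgroup K₀) (_ : IsClosed (K₁ : Set K₀))
      (muK₀ : Measure K₀) (φ₀ : W → K₀) (b₀ : W → K) (u₁ : U)
      (lam' : Measure W') (muK₁ : Measure K₁) (c' : W') (φ₁ : W' → K₁)
      (θ : W' × K₁ → W × U),
      (IsProbabilityMeasure muK₀ ∧ muK₀.IsHaarMeasure ∧ Measurable φ₀ ∧ Measurable b₀ ∧
        Ergodic (skew (M := K₀) c φ₀) (lamW.prod muK₀) ∧
        MeasurePreserving (fun x : W × K₀ => (x.1, (b₀ x.1 * (x.2 : K)) • u₁))
          (lamW.prod muK₀) (m.map fun y => (P y, u y)) ∧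
        ∀ᵐ x ∂(lamW.prod muK₀),
          ((skew (M := K₀) c φ₀ x).1, (b₀ (skew (M := K₀) c φ₀ x).1 *
            ((skew (M := K₀) c φ₀ x).2 : K)) • u₁) =
          skew (M := U) c φ (x.1, (b₀ x.1 * (x.2 : K)) • u₁)) ∧
      IsProbabilityMeasure lam' ∧ lam'.IsHaarMeasure ∧ IsProbabilityMeasure muK₁ ∧
      muK₁.IsHaarMeasure ∧ Base0 lam' muK₁ c' φ₁ ∧
      MeasurePreserving θ (lam'.prod muK₁) (m.map fun y => (P y, u y)) ∧
      (∀ᵐ x ∂(lam'.prod muK₁),
        θ (skew (M := K₁) c' φ₁ x) = skew (M := U) c φ (θ x)) ∧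
      ∀ l : ℂ, IsEigenvalue (lam'.prod muK₁) (skew (M := K₁) c' φ₁) l →
        IsEigenvalue (lamW.prod muK₀) (skew (M := K₀) c φ₀) l := by
  classical
  -- (1) the ergodic lift
  obtain ⟨ν, u₁, hνp, hν1, hνe, hu1⟩ := exists_ergodic_lift R hR (fun y => φ (P y))
    (hφ.comp hP.measurable) u hu huR
  haveI := hνp
  have hpm : Measurable (fun ω : Y × K => P ω.1) := hP.measurable.comp measurable_fst
  have hνpm : ν.map (fun ω : Y × K => P ω.1) = lamW := by
    have h1 : ν.map (fun ω : Y × K => P ω.1) = (ν.map Prod.fst).map P :=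
      (Measure.map_map hP.measurable measurable_fst).symm
    rw [h1, hν1, hP.map_eq]
  -- (2) the Mackey reduction
  obtain ⟨K₀, hK₀c, muK₀, b₀, h₀, φ₀, hpr₀, hha₀, hb₀m, hh₀m, hφ₀m, hk, hPi₀, hh₀S, hbφ⟩ :=
    mackey ν (fun x : Y × K => (R x.1, φ (P x.1) * x.2)) hνe (fun ω : Y × K => P ω.1) hpm
      (MeasurableEquiv.mulLeft c) (ae_of_all _ fun ω => hPR ω.1) (Prod.snd : Y × K → K)
      measurable_snd φ hφ (ae_of_all _ fun ω => rfl)
  rw [hνpm] at hPi₀ hbφ
  haveI : CompactSpace K₀ := isCompact_iff_compactSpace.1 hK₀c.isCompact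
  haveI : SecondCountableTopology K₀ :=
    TopologicalSpace.Subtype.secondCountableTopology (K₀ : Set K)
  let S₀ : (W × K₀) ≃ᵐ (W × K₀) := skewE (M := K₀) c φ₀ hφ₀m
  have hφPm : Measurable (fun y => φ (P y)) := hφ.comp hP.measurable
  let S₁ : (Y × K) ≃ᵐ (Y × K) :=
    { toFun := fun x => (R x.1, φ (P x.1) * x.2)
      invFun := fun x => (R.symm x.1, (φ (P (R.symm x.1)))⁻¹ * x.2)
      left_inv := fun x => by simp
      right_inv := fun x => by simp
      measurable_toFun := (R.measurable.comp measurable_fst).prodMk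
        ((hφPm.comp measurable_fst).mul measurable_snd)
      measurable_invFun := (R.symm.measurable.comp measurable_fst).prodMk
        ((hφPm.comp (R.symm.measurable.comp measurable_fst)).inv.mul measurable_snd) }
  have hS₁e : Ergodic S₁ ν := hνe
  have herg₀ : Ergodic (skew (M := K₀) c φ₀) (lamW.prod muK₀) := by
    have hequi : ∀ᵐ x ∂ν, (P (S₁ x).1, h₀ (S₁ x)) = S₀ (P x.1, h₀ x) := by
      filter_upwards [hh₀S] with x h2
      refine Prod.ext (hPR x.1) ?_
      exact h2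
    have h1 := ergodic_factor S₁ hS₁e.toMeasurePreserving S₀ (fun x => (P x.1, h₀ x)) hPi₀ hequi 1
      (by rw [Function.iterate_one]; exact hS₁e)
    rw [Function.iterate_one] at h1
    exact h1
  -- (3) the Kronecker factor
  obtain ⟨W', hW'c, K₁, hK₁c, lam', muK₁, c', φ₁, Pi, ζ, b, hprob', hhaar', hpr₁, hha₁, hbase, hPi,
    hPiS, hζm, hbm, hx⟩ := exists_base lamW muK₀ c φ₀ hφ₀m herg₀
  haveI : SecondCountableTopology W' :=
    TopologicalSpace.Subtype.secondCountableTopology (W' : Set (ℕ → Circle))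
  haveI : SecondCountableTopology K₁ :=
    TopologicalSpace.Subtype.secondCountableTopology (K₁ : Set K₀)
  set θ : W' × K₁ → W × U := fun x =>
    (ζ x.1, (b₀ (ζ x.1) * ((b x.1 * (x.2 : K₀) : K₀) : K)) • u₁) with hθ
  set Θ : W × K₀ → W × U := fun x => (x.1, (b₀ x.1 * (x.2 : K)) • u₁) with hΘ
  have hθm : Measurable θ := by
    refine (hζm.comp measurable_fst).prodMk (Measurable.smul_const ?_ u₁)
    refine (hb₀m.comp (hζm.comp measurable_fst)).mul (measurable_subtype_coe.comp ?_)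
    exact (hbm.comp measurable_fst).mul (measurable_subtype_coe.comp measurable_snd)
  have hΘm : Measurable Θ := by
    refine measurable_fst.prodMk (Measurable.smul_const ?_ u₁)
    exact (hb₀m.comp measurable_fst).mul (measurable_subtype_coe.comp measurable_snd)
  have hθΘ : ∀ᵐ x ∂(lamW.prod muK₀), θ (Pi x) = Θ x := by
    filter_upwards [hx] with x h1
    have h2 : ζ (Pi x).1 = x.1 := (congrArg Prod.fst h1).symm
    have h3 : b (Pi x).1 * ((Pi x).2 : K₀) = x.2 := (congrArg Prod.snd h1).symm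
    show (ζ (Pi x).1, (b₀ (ζ (Pi x).1) * ((b (Pi x).1 * ((Pi x).2 : K₀) : K₀) : K)) • u₁) =
      (x.1, (b₀ x.1 * (x.2 : K)) • u₁)
    rw [h3, h2]
  have hSpres : MeasurePreserving (skew (M := K₀) c φ₀) (lamW.prod muK₀) (lamW.prod muK₀) :=
    herg₀.toMeasurePreserving
  have hΘS : ∀ᵐ x ∂(lamW.prod muK₀), Θ (skew (M := K₀) c φ₀ x) = skew (M := U) c φ (Θ x) := by
    have h1 : ∀ᵐ x ∂(lamW.prod muK₀), b₀ (MeasurableEquiv.mulLeft c x.1) * φ₀ x.1 =
        φ x.1 * b₀ x.1 := Measure.quasiMeasurePreserving_fst.ae hbφ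
    filter_upwards [h1] with x h2
    have h2' : b₀ (c * x.1) * (φ₀ x.1 : K) = φ x.1 * b₀ x.1 := h2
    show (c * x.1, (b₀ (c * x.1) * ((φ₀ x.1 • x.2 : K₀) : K)) • u₁) =
      (c * x.1, φ x.1 • ((b₀ x.1 * (x.2 : K)) • u₁))
    rw [smul_smul, ← mul_assoc, ← h2', mul_assoc]
    rfl
  have hΘlaw : MeasurePreserving Θ (lamW.prod muK₀) (m.map fun y => (P y, u y)) := by
    refine ⟨hΘm, ?_⟩
    rw [← hPi₀.map_eq, Measure.map_map hΘm hPi₀.measurable]
    have h2 : ν.map (Θ ∘ fun ω : Y × K => (P ω.1, h₀ ω)) =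
        ν.map ((fun y => (P y, u y)) ∘ Prod.fst) := by
      refine Measure.map_congr ?_
      filter_upwards [hk, hu1] with ω h3 h4
      show (P ω.1, (b₀ (P ω.1) * (h₀ ω : K)) • u₁) = (P ω.1, u ω.1)
      rw [← h3, h4]
    rw [h2, ← Measure.map_map (hP.measurable.prodMk hu) measurable_fst, hν1]
  refine ⟨W', hW'c, K₀, hK₀c, K₁, hK₁c, muK₀, φ₀, b₀, u₁, lam', muK₁, c', φ₁, θ,
    ⟨hpr₀, hha₀, hφ₀m, hb₀m, herg₀, hΘlaw, hΘS⟩, hprob', hhaar', hpr₁, hha₁, hbase,
    ⟨hθm, ?_⟩, ?_, ?_⟩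
  · -- the law of `θ`
    rw [← hPi.map_eq, Measure.map_map hθm hPi.measurable]
    have h1 : (lamW.prod muK₀).map (θ ∘ Pi) = (lamW.prod muK₀).map Θ :=
      Measure.map_congr hθΘ
    rw [h1, hΘlaw.map_eq]
  · -- equivariance
    have h1 : MeasurableSet {x : W' × K₁ | θ (skew (M := K₁) c' φ₁ x) =
        skew (M := U) c φ (θ x)} := by
      refine measurableSet_eq_fun (hθm.comp ?_) ?_
      · exact (measurable_fst.const_mul c').prodMk ((hbase.meas.comp measurable_fst).mul measurable_snd)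
      · have h2 : Measurable (skew (M := U) c φ) :=
          (measurable_fst.const_mul c).prodMk ((hφ.comp measurable_fst).smul measurable_snd)
        exact h2.comp hθm
    rw [← hPi.map_eq]
    refine (ae_map_iff hPi.measurable.aemeasurable h1).2 ?_
    filter_upwards [hPiS, hθΘ, hΘS, hSpres.quasiMeasurePreserving.ae hθΘ] with x h2 h3 h4 h5
    rw [← h2, h5, h4, h3]
  · -- eigenvalues
    rintro l ⟨f, hf, hf1, hf2⟩
    refine ⟨fun y => f (Pi y), hf.comp hPi.measurable, hPi.quasiMeasurePreserving.ae hf1, ?_⟩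
    filter_upwards [hPiS, hPi.quasiMeasurePreserving.ae hf2] with y h2 h3
    rw [h2]
    exact h3

end Pool.Agent.Lib.H82OG
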