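import Pool.Agent.Lib.H82OG.MB3

/-!
# Project H82OG, chunk MB7: the eigenvalues of a group extension, virtually finitely generated characters
-/

open MeasureTheory Filter Topology Finset ProbabilityTheory
open scoped ENNReal ComplexConjugate Matrix

namespace Pool.Agent.Lib.H82OG

open Pool.Agent.Lib.H22M Pool.Agent.Lib.H82T Pool.Agent.Lib.H82OT Pool.Agent.Lib.H82OF

/-- The `n`-th powers of the elements of `G` lie in a finitely generated group, for some `n ≥ 1`. -/
def VFG (G : Type*) [CommGroup G] : Prop :=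
  ∃ (n : ℕ) (S : Finset G), 1 ≤ n ∧ ∀ x : G, x ^ n ∈ Subgroup.closure (S : Set G)

private lemma MB7_fg {A : Type*} [CommGroup A] (S : Finset A) (J : Subgroup A)
    (hJ : J ≤ Subgroup.closure (S : Set A)) : ∃ T : Finset A, Subgroup.closure (T : Set A) = J := by
  have h1 : (Subgroup.closure (S : Set A)).FG := ⟨S, rfl⟩
  have h2 := (Subgroup.fg_iff_add_fg _).1 h1
  set N : Submodule ℤ (Additive A) :=
    AddSubgroup.toIntSubmodule (Subgroup.toAddSubgroup (Subgroup.closure (S : Set A))) with hN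
  have h3 : N.FG := (Submodule.fg_iff_addSubgroup_fg N).2 h2
  have h4 : IsNoetherian ℤ N := isNoetherian_of_fg_of_noetherian N h3
  set M : Submodule ℤ (Additive A) :=
    AddSubgroup.toIntSubmodule (Subgroup.toAddSubgroup J) with hM
  have h5 : M ≤ N := fun x hx => hJ hx
  have h6 : IsNoetherian ℤ M := isNoetherian_of_le h5
  have h7 : M.FG := Module.Finite.iff_fg.1 inferInstance
  have h8 : J.FG := (Subgroup.fg_iff_add_fg _).2 ((Submodule.fg_iff_addSubgroup_fg M).1 h7)
  exact h8

private lemma MB7_alg {A B : Type*} [CommGroup A] [CommGroup B] (D : Subgroup (A × B)) (n : ℕ)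
    (S₁ : Finset A) (hS₁ : ∀ x : A, x ^ n ∈ Subgroup.closure (S₁ : Set A)) :
    ∃ S : Finset B, ∀ (a : A) (b : B), (a, b) ∈ D →
      ∃ y ∈ Subgroup.closure (S : Set B), ((1 : A), b ^ n * y⁻¹) ∈ D := by
  classical
  set J : Subgroup A := (D.map (MonoidHom.fst _ _)).map (powMonoidHom n) with hJ
  have hJS : J ≤ Subgroup.closure (S₁ : Set A) := by
    rintro _ ⟨ξ, -, rfl⟩
    exact hS₁ ξ
  obtain ⟨T, hT⟩ := MB7_fg S₁ J hJS
  have hTJ : ∀ t ∈ T, ∃ s : B, (t, s) ∈ D := by
    intro t ht
    have h1 : t ∈ J := by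
      rw [← hT]
      exact Subgroup.subset_closure (Finset.mem_coe.2 ht)
    obtain ⟨ξ, ⟨⟨ξ', s⟩, hs, rfl⟩, rfl⟩ := h1
    exact ⟨s ^ n, D.pow_mem hs n⟩
  choose! s hs using hTJ
  set S : Finset B := T.image s with hSdef
  have hJD : ∀ ξ ∈ J, ∃ y ∈ Subgroup.closure (S : Set B), (ξ, y) ∈ D := by
    intro ξ hξ
    rw [← hT] at hξ
    induction hξ using Subgroup.closure_induction with
    | mem t ht =>
      have ht' : t ∈ T := Finset.mem_coe.1 ht
      refine ⟨s t, Subgroup.subset_closure ?_, hs t ht'⟩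
      exact Finset.mem_coe.2 (Finset.mem_image_of_mem s ht')
    | one => exact ⟨1, Subgroup.one_mem _, D.one_mem⟩
    | mul a b _ _ iha ihb =>
      obtain ⟨x, hx, hxD⟩ := iha
      obtain ⟨y, hy, hyD⟩ := ihb
      exact ⟨x * y, Subgroup.mul_mem _ hx hy, D.mul_mem hxD hyD⟩
    | inv a _ iha =>
      obtain ⟨x, hx, hxD⟩ := iha
      exact ⟨x⁻¹, Subgroup.inv_mem _ hx, D.inv_mem hxD⟩
  refine ⟨S, fun a b hab => ?_⟩
  have haJ : a ^ n ∈ J := ⟨a, ⟨(a, b), hab, rfl⟩, rfl⟩
  obtain ⟨y, hy, hyD⟩ := hJD _ haJ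
  refine ⟨y, hy, ?_⟩
  have h1 := D.mul_mem (D.pow_mem hab n) (D.inv_mem hyD)
  rw [Prod.pow_mk, Prod.inv_mk, Prod.mk_mul_mk, mul_inv_cancel] at h1
  exact h1

/-- the pairs of a character of `H` and an eigenvalue with a common eigenfunction -/
private def MB7_D {Z K : Type*} [CommGroup Z] [TopologicalSpace Z] [IsTopologicalGroup Z]
    [CompactSpace Z] [T2Space Z] [SecondCountableTopology Z] [MeasurableSpace Z] [BorelSpace Z]
    [Group K] [TopologicalSpace K] [IsTopologicalGroup K] [CompactSpace K] [T2Space K]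
    [SecondCountableTopology K] [MeasurableSpace K] [BorelSpace K]
    (lam : Measure Z) [lam.IsHaarMeasure] [IsProbabilityMeasure lam]
    (muK : Measure K) [muK.IsHaarMeasure] [IsProbabilityMeasure muK] (α : Z) (φ : Z → K)
    (hm : MeasurePreserving (skew (M := K) α φ) (lam.prod muK) (lam.prod muK)) (H : Subgroup K) :
    Subgroup (ContinuousMonoidHom H Circle × ℂˣ) where
  carrier := {t | ∃ e : Z × K → ℂ, BM e ∧ (∀ᵐ w ∂(lam.prod muK), ‖e w‖ = 1) ∧
    (∀ᵐ w ∂(lam.prod muK), e (skew α φ w) = (t.2 : ℂ) * e w) ∧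
    ∀ g : H, ∀ᵐ w ∂(lam.prod muK), e (w.1, w.2 * (g : K)) = ((t.1 g : Circle) : ℂ) * e w}
  one_mem' := by
    refine ⟨fun _ => 1, ⟨measurable_const, 1, fun _ => by simp⟩, Eventually.of_forall fun _ => by simp,
      Eventually.of_forall fun _ => by simp, fun g => Eventually.of_forall fun _ => by simp⟩
  mul_mem' := by
    rintro ⟨a, x⟩ ⟨b, y⟩ ⟨e, ⟨hem, C, hC⟩, he1, hes, heg⟩ ⟨f, ⟨hfm, D, hD⟩, hf1, hfs, hfg⟩
    refine ⟨fun w => e w * f w, ⟨hem.mul hfm, C * D, fun w => ?_⟩, ?_, ?_, fun g => ?_⟩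
    · rw [norm_mul]
      exact mul_le_mul (hC w) (hD w) (norm_nonneg _) ((norm_nonneg _).trans (hC w))
    · filter_upwards [he1, hf1] with w h1 h2
      rw [norm_mul, h1, h2, one_mul]
    · filter_upwards [hes, hfs] with w h1 h2
      show e (skew α φ w) * f (skew α φ w) = ((x * y : ℂˣ) : ℂ) * (e w * f w)
      rw [h1, h2, Units.val_mul]
      ring
    · filter_upwards [heg g, hfg g] with w h1 h2
      show e (w.1, w.2 * (g : K)) * f (w.1, w.2 * (g : K)) =
        ((a g * b g : Circle) : ℂ) * (e w * f w)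
      rw [h1, h2, Circle.coe_mul]
      ring
  inv_mem' := by
    rintro ⟨a, x⟩ ⟨e, ⟨hem, C, hC⟩, he1, hes, heg⟩
    refine ⟨fun w => conj (e w), ⟨Complex.continuous_conj.measurable.comp hem, C, fun w => ?_⟩,
      ?_, ?_, fun g => ?_⟩
    · rw [RCLike.norm_conj]
      exact hC w
    · filter_upwards [he1] with w h1
      rw [RCLike.norm_conj, h1]
    · have hx : ‖(x : ℂ)‖ = 1 :=
        IsEigenvalue.norm_eq hm (a := (x : ℂ)) ⟨e, hem, he1, hes⟩
      filter_upwards [hes] with w h1
      show conj (e (skew α φ w)) = ((x⁻¹ : ℂˣ) : ℂ) * conj (e w)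
      rw [h1, map_mul]
      congr 1
      rw [Units.val_inv_eq_inv_val, Complex.inv_def, Complex.normSq_eq_norm_sq, hx]
      simp
    · filter_upwards [heg g] with w h1
      show conj (e (w.1, w.2 * (g : K))) = (((a g)⁻¹ : Circle) : ℂ) * conj (e w)
      rw [h1, map_mul, Circle.coe_inv_eq_conj]

/-- From almost everywhere invariance under the right translations by a closed subgroup to exact
invariance. Proof. `e' (z, k) = ∫ e (z, k * h) dη(h)`, `η` the Haar probability measure of the compact group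
`H` (`Measure.haarMeasure`, `haarMeasure ⊤`; `Subtype.borelSpace`); it is bounded and measurable (Fubini),
`e' = e` a.e. (Fubini: for a.e. `(z, k)` the relation holds for `η`-a.e. `h`), and exactly invariant:
`∫ e (z, k * h' * h) dη(h) = ∫ e (z, k * h) dη(h)` (left invariance of `η`). -/
theorem exists_strict {Z K : Type*} [CommGroup Z] [TopologicalSpace Z] [IsTopologicalGroup Z]
    [CompactSpace Z] [T2Space Z] [SecondCountableTopology Z] [MeasurableSpace Z] [BorelSpace Z]
    [Group K] [TopologicalSpace K] [IsTopologicalGroup K] [CompactSpace K] [T2Space K]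
    [SecondCountableTopology K] [MeasurableSpace K] [BorelSpace K]
    (lam : Measure Z) [lam.IsHaarMeasure] [IsProbabilityMeasure lam]
    (muK : Measure K) [muK.IsHaarMeasure] [IsProbabilityMeasure muK] (H : Subgroup K)
    (hH : IsClosed (H : Set K)) (e : Z × K → ℂ) (he : BM e)
    (h : ∀ g : K, g ∈ H → ∀ᵐ y ∂(lam.prod muK), e (y.1, y.2 * g) = e y) :
    ∃ e' : Z × K → ℂ, BM e' ∧ (∀ᵐ y ∂(lam.prod muK), e' y = e y) ∧
      ∀ g : K, g ∈ H → ∀ y : Z × K, e' (y.1, y.2 * g) = e' y := by
  classical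
  have hcomp : CompactSpace H := isCompact_iff_compactSpace.1 hH.isCompact
  let η : Measure H := Measure.haarMeasure (⊤ : TopologicalSpace.PositiveCompacts H)
  have hη : IsProbabilityMeasure η := by
    refine ⟨?_⟩
    have h1 := Measure.haarMeasure_self (K₀ := (⊤ : TopologicalSpace.PositiveCompacts H))
    simpa using h1
  obtain ⟨hem, C, hC⟩ := he
  have hm : Measurable fun x : (Z × K) × H => e (x.1.1, x.1.2 * (x.2 : K)) := by
    refine hem.comp ?_
    exact (measurable_fst.comp measurable_fst).prodMk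
      ((measurable_snd.comp measurable_fst).mul (measurable_subtype_coe.comp measurable_snd))
  refine ⟨fun y => ∫ g : H, e (y.1, y.2 * (g : K)) ∂η, ⟨?_, C, fun y => ?_⟩, ?_, ?_⟩
  · exact (hm.stronglyMeasurable.integral_prod_right').measurable
  · have h1 := norm_integral_le_of_norm_le_const (μ := η)
      (f := fun g : H => e (y.1, y.2 * (g : K))) (C := C) (Eventually.of_forall fun k => hC _)
    simpa using h1
  · have hS : MeasurableSet {x : H × (Z × K) | e (x.2.1, x.2.2 * (x.1 : K)) = e x.2} := by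
      apply measurableSet_eq_fun
      · exact hm.comp (measurable_snd.prodMk measurable_fst)
      · exact hem.comp measurable_snd
    have hae : ∀ᵐ y ∂(lam.prod muK), ∀ᵐ g ∂η, e (y.1, y.2 * ((g : H) : K)) = e y :=
      (Measure.ae_ae_comm (μ := η) (ν := lam.prod muK)
        (p := fun (g : H) y => e (y.1, y.2 * (g : K)) = e y) hS).1
        (Eventually.of_forall fun g => h g g.2)
    filter_upwards [hae] with y hy
    have h2 : ∫ g : H, e (y.1, y.2 * (g : K)) ∂η = ∫ _ : H, e y ∂η := integral_congr_ae hy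
    have h3 : ∫ _ : H, e y ∂η = e y := by simp
    rw [← h3, ← h2]
  · intro g hg y
    have h1 := integral_mul_left_eq_self (μ := η) (fun k : H => e (y.1, y.2 * (k : K))) ⟨g, hg⟩
    simp only [Subgroup.coe_mul, ← mul_assoc] at h1
    exact h1

/-- Proof. `n, S₁` from `hv`; `F = closure S₁`, a finitely generated commutative group. Let `I` be the set of
the restrictions to `H` of the characters `χ` of `K` for which there are an eigenvalue `l` and a bounded `e`
of modulus one a.e. with the two properties of `exists_fibre_char` (MB3). `I` is a subgroup (products,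
conjugates of the `e`), and the `n`-th powers of the elements of `I` form a subgroup of `F`, which is finitely
generated (subgroups of finitely generated commutative groups are finitely generated, `ℤ` is Noetherian), by
the `χ_1|H ^ n, …, χ_r|H ^ n`, `χ_i` belonging to `(s_i, e_i)`; `S` = the set of the `s_i` (units:
`IsEigenvalue.norm_eq`). For an eigenvalue `x` with `(e_x, χ_x)`: `χ_x|H ^ n = ∏ (χ_i|H ^ n) ^ k_i`, so
`e' = e_x ^ n ∏ e_i ^ (-n k_i)` (conjugates for negative exponents) is an eigenfunction with eigenvalue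
`x' = x ^ n ∏ s_i ^ (-n k_i)`, invariant a.e. under right translation by every `g ∈ H`. `exists_strict`;
the strictly invariant function is an eigenfunction as well. -/
theorem eig_vfg {Z K : Type*} [CommGroup Z] [TopologicalSpace Z] [IsTopologicalGroup Z]
    [CompactSpace Z] [T2Space Z] [SecondCountableTopology Z] [MeasurableSpace Z] [BorelSpace Z]
    [Group K] [TopologicalSpace K] [IsTopologicalGroup K] [CompactSpace K] [T2Space K]
    [SecondCountableTopology K] [MeasurableSpace K] [BorelSpace K]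
    (lam : Measure Z) [lam.IsHaarMeasure] [IsProbabilityMeasure lam]
    (muK : Measure K) [muK.IsHaarMeasure] [IsProbabilityMeasure muK] {α : Z} {φ : Z → K}
    (hφ : Measurable φ) (herg : Ergodic (skew (M := K) α φ) (lam.prod muK)) (H : Subgroup K)
    (hH : IsClosed (H : Set K)) (hv : VFG (ContinuousMonoidHom H Circle)) :
    ∃ (n : ℕ) (S : Finset ℂˣ), 1 ≤ n ∧ ∀ x : ℂˣ,
      IsEigenvalue (lam.prod muK) (skew (M := K) α φ) (x : ℂ) →
      x ^ n ∈ Subgroup.closure ((S : Set ℂˣ) ∪ {y : ℂˣ | ∃ e : Z × K → ℂ, BM e ∧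
        (∀ᵐ w ∂(lam.prod muK), ‖e w‖ = 1) ∧
        (∀ᵐ w ∂(lam.prod muK), e (skew α φ w) = (y : ℂ) * e w) ∧
        ∀ g : K, g ∈ H → ∀ w : Z × K, e (w.1, w.2 * g) = e w}) := by
  classical
  obtain ⟨n, S₁, hn, hS₁⟩ := hv
  have hmp := herg.toMeasurePreserving
  obtain ⟨S, hS⟩ := MB7_alg (MB7_D lam muK α φ hmp H) n S₁ hS₁
  refine ⟨n, S, hn, fun x hx => ?_⟩
  obtain ⟨e, χ, heBM, he1, hes, heg⟩ := exists_fibre_char lam muK hφ herg (x : ℂ) hx
  -- the restriction of the character
  let ξ : ContinuousMonoidHom H Circle :=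
    χ.comp { toMonoidHom := H.subtype, continuous_toFun := continuous_subtype_val }
  have hξ : (ξ, x) ∈ MB7_D lam muK α φ hmp H := ⟨e, heBM, he1, hes, fun g => heg g⟩
  obtain ⟨y, hy, h1⟩ := hS ξ x hξ
  obtain ⟨f, hf, hf1, hfs, hfg⟩ := h1
  have hfg' : ∀ g : K, g ∈ H → ∀ᵐ y ∂(lam.prod muK), f (y.1, y.2 * g) = f y := by
    intro g hg
    filter_upwards [hfg ⟨g, hg⟩] with w hw
    have h4 : (((1 : ContinuousMonoidHom H Circle) ⟨g, hg⟩ : Circle) : ℂ) = 1 := by
      rfl
    have h5 : f (w.1, w.2 * g) =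
      (((1 : ContinuousMonoidHom H Circle) ⟨g, hg⟩ : Circle) : ℂ) * f w := hw
    rw [h5, h4, one_mul]
  obtain ⟨f', hf'BM, hf', hf'g⟩ := exists_strict lam muK H hH f hf hfg'
  have h3 : x ^ n = (x ^ n * y⁻¹) * y := by rw [inv_mul_cancel_right]
  rw [h3]
  refine Subgroup.mul_mem _ (Subgroup.subset_closure (Or.inr ⟨f', hf'BM, ?_, ?_, hf'g⟩))
    (Subgroup.closure_mono Set.subset_union_left hy)
  · filter_upwards [hf', hf1] with w h4 h5
    rw [h4, h5]
  · filter_upwards [hf', hfs, hmp.quasiMeasurePreserving.ae hf'] with w h4 h5 h6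
    rw [h4, h6, h5]

end Pool.Agent.Lib.H82OG
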