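import Pool.Agent.Lib.H82OG.MB7

/-!
# Project H82OG, chunk MB8: functions which are constant on the fibres; eigenvalues of the factor
-/

open MeasureTheory Filter Topology Finset ProbabilityTheory
open scoped ENNReal ComplexConjugate Matrix

namespace Pool.Agent.Lib.H82OG

open Pool.Agent.Lib.H22M Pool.Agent.Lib.H82T Pool.Agent.Lib.H82OT Pool.Agent.Lib.H82OF

/-- A measurable function on a standard Borel space which is constant on the fibres of a measurable map `f`
is a measurable function of `f`. Proof. For measurable `s ⊆ ℂ` the set `A = e ⁻¹' s` is saturated,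
`A = f ⁻¹' (f '' A)`, so by `Measurable.measurableSet_preimage_iff_preimage_val`
(`Mathlib/MeasureTheory/Constructions/Polish/Basic.lean`; `CountablySeparated (Set.range f)`) there is a
measurable `B` with `A = f ⁻¹' B`: `e` is measurable for `comap f`; `Measurable.exists_eq_measurable_comp`-type
lemma (compare `rowB_factor` in `H82OF/LV2.lean`), and truncate to keep the bound. -/
theorem factor_const {X V : Type*} [MeasurableSpace X] [StandardBorelSpace X] [MeasurableSpace V]
    [MeasurableSpace.CountablySeparated V] (f : X → V) (hf : Measurable f) (e : X → ℂ) (he : BM e)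
    (h : ∀ x x', f x = f x' → e x = e x') : ∃ g : V → ℂ, BM g ∧ ∀ x, e x = g (f x) := by
  classical
  obtain ⟨he1, C, hC⟩ := he
  let g₀ : V → ℂ := fun v => if hv : ∃ x, f x = v then e hv.choose else 0
  have hg₀ : ∀ x, g₀ (f x) = e x := by
    intro x
    have hx : ∃ x', f x' = f x := ⟨x, rfl⟩
    have h1 : g₀ (f x) = e hx.choose := dif_pos hx
    rw [h1]
    exact h _ _ hx.choose_spec
  have hge : g₀ ∘ f = e := funext hg₀
  have hsep : MeasurableSpace.CountablySeparated (Set.range f) :=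
    MeasurableSpace.Subtype.countablySeparated
  have hr := (hf.measurable_comp_iff_restrict (g := g₀)).1 (by rw [hge]; exact he1)
  have hm : Measurable[MeasurableSpace.comap f inferInstance] e := by
    intro s hs
    obtain ⟨B, hB, hBs⟩ := hr hs
    refine ⟨B, hB, ?_⟩
    ext x
    have h1 := Set.ext_iff.1 hBs ⟨f x, x, rfl⟩
    have h2 : f x ∈ B ↔ g₀ (f x) ∈ s := h1
    rw [hg₀] at h2
    exact h2
  obtain ⟨F₀, hF₀, hfF⟩ := hm.exists_eq_measurable_comp
  refine ⟨fun v => if ‖F₀ v‖ ≤ C then F₀ v else 0, ⟨?_, |C|, fun v => ?_⟩, fun x => ?_⟩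
  · exact Measurable.ite (measurableSet_le hF₀.norm measurable_const) hF₀ measurable_const
  · dsimp only
    split_ifs with h1
    · exact h1.trans (le_abs_self C)
    · simp
  · have h1 : e x = F₀ (f x) := congrFun hfF x
    have h2 : ‖F₀ (f x)‖ ≤ C := h1 ▸ hC x
    show e x = if ‖F₀ (f x)‖ ≤ C then F₀ (f x) else 0
    rw [if_pos h2, h1]

/-- Proof. `H = {h ∈ K₀ : h • u₁ = u₁}`, closed. `eig_vfg` (MB7) for `W × K₀` and `H`: it is enough that an
eigenvalue `y` with a strictly `H`-invariant eigenfunction `e` is an eigenvalue of `(mU, skew c φ)`. With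
`Θ (w, h) = (w, (b₀ w * h) • u₁)`: if `Θ (w, h) = Θ (w', h')` then `w = w'` and `h⁻¹ * h' ∈ H`, so `e` is constant
on the fibres of `Θ`, `e = g ∘ Θ` (`factor_const`; `W × K₀` is standard Borel), and `g (skew c φ (Θ x)) =
g (Θ (skew c φ₀ x)) = y * g (Θ x)` for a.e. `x`, i.e. `g ∘ skew c φ = y * g` a.e. for `mU` (the image measure). -/
theorem eig_cover {W K U : Type*} [CommGroup W] [TopologicalSpace W] [IsTopologicalGroup W]
    [CompactSpace W] [T2Space W] [SecondCountableTopology W] [MeasurableSpace W]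
    [BorelSpace W]
    [Group K] [TopologicalSpace K] [IsTopologicalGroup K] [CompactSpace K]
    [T2Space K] [SecondCountableTopology K] [MeasurableSpace K] [BorelSpace K]
    [TopologicalSpace U] [T2Space U] [SecondCountableTopology U] [MeasurableSpace U]
    [BorelSpace U] [MulAction K U] [ContinuousSMul K U]
    (lamW : Measure W) [lamW.IsHaarMeasure] [IsProbabilityMeasure lamW] (c : W)
    (φ : W → K) (hφ : Measurable φ) (K₀ : Subgroup K) (hK₀ : IsClosed (K₀ : Set K))
    (muK₀ : Measure K₀) [muK₀.IsHaarMeasure] [IsProbabilityMeasure muK₀] (φ₀ : W → K₀)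
    (hφ₀ : Measurable φ₀) (herg : Ergodic (skew (M := K₀) c φ₀) (lamW.prod muK₀)) (b₀ : W → K)
    (hb₀ : Measurable b₀) (u₁ : U) (mU : Measure (W × U))
    (hΘ : MeasurePreserving (fun x : W × K₀ => (x.1, (b₀ x.1 * (x.2 : K)) • u₁))
      (lamW.prod muK₀) mU)
    (hΘR : ∀ᵐ x ∂(lamW.prod muK₀),
      ((skew (M := K₀) c φ₀ x).1, (b₀ (skew (M := K₀) c φ₀ x).1 *
        ((skew (M := K₀) c φ₀ x).2 : K)) • u₁) =
      skew (M := U) c φ (x.1, (b₀ x.1 * (x.2 : K)) • u₁))
    (hv : ∀ H : Subgroup K₀, IsClosed (H : Set K₀) →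
      (∀ h : K₀, h ∈ H → (h : K) • u₁ = u₁) → VFG (ContinuousMonoidHom H Circle)) :
    ∃ (n : ℕ) (S : Finset ℂˣ), 1 ≤ n ∧ ∀ x : ℂˣ,
      IsEigenvalue (lamW.prod muK₀) (skew (M := K₀) c φ₀) (x : ℂ) →
      x ^ n ∈ Subgroup.closure ((S : Set ℂˣ) ∪
        {y : ℂˣ | IsEigenvalue mU (skew (M := U) c φ) (y : ℂ)}) := by
  classical
  have : CompactSpace K₀ := isCompact_iff_compactSpace.1 hK₀.isCompact
  have : SecondCountableTopology K₀ :=
    TopologicalSpace.Subtype.secondCountableTopology (K₀ : Set K)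
  have : StandardBorelSpace W := standardBorel_of_compact W
  have : StandardBorelSpace K₀ := standardBorel_of_compact K₀
  let H : Subgroup K₀ :=
    { carrier := {h : K₀ | (h : K) • u₁ = u₁}
      one_mem' := by
        show ((1 : K₀) : K) • u₁ = u₁
        rw [Subgroup.coe_one, one_smul]
      mul_mem' := by
        intro g h hg hh
        show ((g * h : K₀) : K) • u₁ = u₁
        have hg' : (g : K) • u₁ = u₁ := hg
        have hh' : (h : K) • u₁ = u₁ := hh
        rw [Subgroup.coe_mul, mul_smul, hh', hg']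
      inv_mem' := by
        intro g hg
        show ((g⁻¹ : K₀) : K) • u₁ = u₁
        have hg' : (g : K) • u₁ = u₁ := hg
        rw [Subgroup.coe_inv, inv_smul_eq_iff, hg'] }
  have hHm : ∀ h : K₀, h ∈ H ↔ (h : K) • u₁ = u₁ := fun h => Iff.rfl
  have hHc : IsClosed (H : Set K₀) := by
    have h1 : Continuous fun h : K₀ => (h : K) • u₁ := continuous_subtype_val.smul continuous_const
    exact isClosed_eq h1 continuous_const
  obtain ⟨n, S, hn, hx⟩ := eig_vfg lamW muK₀ hφ₀ herg H hHc (hv H hHc fun h hh => hh)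
  refine ⟨n, S, hn, fun x hxe => Subgroup.closure_mono ?_ (hx x hxe)⟩
  refine Set.union_subset_union_right _ ?_
  rintro y ⟨e, he, he1, hey, heH⟩
  -- `e` is a function of `Θ`
  have hfib : ∀ x x' : W × K₀, ((x.1, (b₀ x.1 * (x.2 : K)) • u₁) : W × U) =
      (x'.1, (b₀ x'.1 * (x'.2 : K)) • u₁) → e x = e x' := by
    rintro ⟨w, k⟩ ⟨w', k'⟩ hxx
    have h1 : w = w' := congrArg Prod.fst hxx
    subst h1
    have h2 : (b₀ w * (k : K)) • u₁ = (b₀ w * (k' : K)) • u₁ := congrArg Prod.snd hxx
    rw [mul_smul, mul_smul] at h2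
    have h3 : (k : K) • u₁ = (k' : K) • u₁ := MulAction.injective (b₀ w) h2
    have h4 : k⁻¹ * k' ∈ H := by
      rw [hHm, Subgroup.coe_mul, Subgroup.coe_inv, mul_smul, ← h3, inv_smul_smul]
    have h5 := heH _ h4 (w, k)
    have h6 : e (w, k * (k⁻¹ * k')) = e (w, k) := h5
    rw [mul_inv_cancel_left] at h6
    exact h6.symm
  obtain ⟨g, hg, hge⟩ := factor_const (fun x : W × K₀ => ((x.1, (b₀ x.1 * (x.2 : K)) • u₁) : W × U))
    hΘ.measurable e he hfib
  have hskm : Measurable (skew (M := U) c φ) := by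
    refine Measurable.prodMk (measurable_fst.const_mul c) ?_
    exact (hφ.comp measurable_fst).smul measurable_snd
  refine ⟨g, hg.1, ?_, ?_⟩
  · rw [← hΘ.map_eq]
    refine (ae_map_iff hΘ.measurable.aemeasurable
      (measurableSet_eq_fun hg.1.norm measurable_const)).2 ?_
    filter_upwards [he1] with x hx1
    rw [← hge x]
    exact hx1
  · rw [← hΘ.map_eq]
    refine (ae_map_iff hΘ.measurable.aemeasurable
      (measurableSet_eq_fun (hg.1.comp hskm) (hg.1.const_mul (y : ℂ)))).2 ?_
    filter_upwards [hey, hΘR] with x h1 h2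
    show g (skew (M := U) c φ (x.1, (b₀ x.1 * (x.2 : K)) • u₁)) =
      (y : ℂ) * g (x.1, (b₀ x.1 * (x.2 : K)) • u₁)
    rw [← h2, ← hge x, ← hge (skew (M := K₀) c φ₀ x), h1]

end Pool.Agent.Lib.H82OG
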