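import Pool.Agent.Lib.H82OG.PG6
import Pool.Agent.Lib.H82OG.GS1
import Pool.Agent.Lib.H82OT.FN2
import Pool.Agent.Lib.H82OF.PM6

/-!
# Project H82OG, chunk PG7: functions of the top step
-/

open MeasureTheory Filter Topology Finset ProbabilityTheory
open scoped ENNReal ComplexConjugate Matrix

namespace Pool.Agent.Lib.H82OG

open Pool.Agent.Lib.H22M Pool.Agent.Lib.H82T Pool.Agent.Lib.H82OT Pool.Agent.Lib.H82OF

section

variable {Z K : Type*} [CommGroup Z] [TopologicalSpace Z] [IsTopologicalGroup Z]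
  [CompactSpace Z] [T2Space Z] [SecondCountableTopology Z] [MeasurableSpace Z] [BorelSpace Z]
  [Group K] [TopologicalSpace K] [IsTopologicalGroup K] [CompactSpace K] [T2Space K]
  [SecondCountableTopology K] [MeasurableSpace K] [BorelSpace K]

/-- Bounded measurable rows for the σ-algebra of `P` are functions of `P`. -/
private theorem PG7_factor {Y B : Type*} [MeasurableSpace B] {d : ℕ} (P : Y → B)
    (F : Y → Fin d → ℂ) (hF : RowB (MeasurableSpace.comap P inferInstance) F) :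
    ∃ F' : B → Fin d → ℂ, BMR F' ∧ ∀ y, F y = F' (P y) := by
  obtain ⟨hF1, C, hC⟩ := hF
  have hex : ∀ i, ∃ F₀ : B → ℂ, Measurable F₀ ∧ ∀ y, F y i = F₀ (P y) := by
    intro i
    obtain ⟨F₀, hF₀, hfF⟩ := (hF1 i).exists_eq_measurable_comp
    exact ⟨F₀, hF₀, fun y => congrFun hfF y⟩
  choose F₀ hF₀ hF₀e using hex
  classical
  refine ⟨fun w i => if ‖F₀ i w‖ ≤ C then F₀ i w else 0, fun i => ⟨?_, |C|, fun w => ?_⟩, ?_⟩
  · exact Measurable.ite (measurableSet_le (hF₀ i).norm measurable_const) (hF₀ i) measurable_const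
  · dsimp only
    split_ifs with h
    · exact h.trans (le_abs_self C)
    · simp
  · intro y
    funext i
    have h1 : ‖F₀ i (P y)‖ ≤ C := by
      rw [← hF₀e i y]
      exact hC y i
    show F y i = if ‖F₀ i (P y)‖ ≤ C then F₀ i (P y) else 0
    rw [if_pos h1]
    exact hF₀e i y

/-- Port of `PS_top` (`H82OF/PM6.lean`). -/
theorem PST_top {Y B W L M : Type*} [mY : MeasurableSpace Y] [StandardBorelSpace Y]
    [MeasurableSpace B] [CommGroup W] [TopologicalSpace W]
    [IsTopologicalGroup W] [CompactSpace W] [T2Space W] [SecondCountableTopology W]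
    [MeasurableSpace W] [BorelSpace W] {m : Measure Y} [IsProbabilityMeasure m]
    (R : Y ≃ᵐ Y) (hR : Ergodic R m) (lam : Measure Z) [lam.IsHaarMeasure]
    [IsProbabilityMeasure lam] (muK : Measure K) [muK.IsHaarMeasure] [IsProbabilityMeasure muK]
    {α : Z} {φ : Z → K} {mb : Measure B} [IsProbabilityMeasure mb] (T : B ≃ᵐ B) {P : Y → B}
    {θ : Z × K → B} {π : B → W} {c : W} (hL : LevG m R lam muK α φ mb T P θ π c)
    (hroot : ∀ c : ℂ, IsEigenvalue m R c → ∀ n : ℕ, 1 ≤ n → c ^ n = 1 → c = 1)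
    (N₀ : ℕ) (hN₀ : Tors (lam.prod muK) (skew (M := K) α φ) N₀)
    [Group L] [TopologicalSpace L] [IsTopologicalGroup L] [CompactSpace L] [T2Space L]
    [SecondCountableTopology L] [MeasurableSpace L] [BorelSpace L]
    [TopologicalSpace M] [CompactSpace M] [T2Space M] [SecondCountableTopology M]
    [MeasurableSpace M] [BorelSpace M]
    [MulAction L M] [ContinuousSMul L M] [MulAction.IsPretransitive L M]
    (muM : Measure M) [IsProbabilityMeasure muM] [SMulInvariantMeasure L M muM]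
    (v : Y → M) (hv : MeasurePreserving v m muM) (g : B → L) (hg : Measurable g)
    (hvR : ∀ y, v (R y) = g (P y) • v y) (f f' : Y → ℂ)
    (hf : Measurable[MeasurableSpace.comap P inferInstance ⊔
      MeasurableSpace.comap v inferInstance] f)
    (hb : ∃ C : ℝ, ∀ y, ‖f y‖ ≤ C)
    (hf' : Measurable[MeasurableSpace.comap P inferInstance ⊔
      MeasurableSpace.comap v inferInstance] f')
    (hb' : ∃ C : ℝ, ∀ y, ‖f' y‖ ≤ C) :
    PST m R (lam.prod muK) (skew (M := K) α φ) f f' := by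
  have hle : MeasurableSpace.comap P inferInstance ≤ mY := hL.presP.measurable.comap_le
  have hvm : Measurable v := hv.measurable
  have hfm : Measurable f := hf.mono (sup_le hle hvm.comap_le) le_rfl
  have hfm' : Measurable f' := hf'.mono (sup_le hle hvm.comap_le) le_rfl
  have hGB : ∀ (d : ℕ) (G : Fin d → M → ℂ) (D : L → Fin d → Fin d → ℂ), FTD muM G D →
      BMR (fun y i => G i (v y)) := by
    intro d G D hD i
    refine ⟨(hD.cont i).measurable.comp hvm, ?_⟩
    obtain ⟨C, hC⟩ := (isCompact_range (hD.cont i)).isBounded.exists_norm_le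
    exact ⟨C, fun y => hC _ ⟨v y, rfl⟩⟩
  have hunit : ∀ (d : ℕ) (G : Fin d → M → ℂ) (D : L → Fin d → Fin d → ℂ), FTD muM G D →
      ∀ x : B, Matrix.of (D (g x)) * (Matrix.of (D (g x)))ᴴ = 1 := by
    intro d G D hD x
    ext i j
    rw [Matrix.mul_apply, Matrix.one_apply]
    exact hD.unit (g x) i j
  have hbm : ∀ (d : ℕ) (G : Fin d → M → ℂ) (D : L → Fin d → Fin d → ℂ), FTD muM G D →
      BMM (fun x : B => Matrix.of (D (g x))) := by
    intro d G D hD i j
    exact ⟨(hD.measD i j).comp hg, 1, fun x => unit_entry (hunit d G D hD x) i j⟩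
  have hrel : ∀ (d : ℕ) (G : Fin d → M → ℂ) (D : L → Fin d → Fin d → ℂ), FTD muM G D →
      ∀ᵐ y ∂m, (fun i => G i (v (R y))) =
        (Matrix.of (D (g (P y)))) *ᵥ (fun i => G i (v y)) := by
    intro d G D hD
    refine Eventually.of_forall fun y => ?_
    funext i
    show G i (v (R y)) = ∑ j, D (g (P y)) i j * G j (v y)
    rw [hvR]
    exact hD.rel (g (P y)) (v y) i
  let Pf : (Y → ℂ) → Prop := fun q =>
    ∃ (d : ℕ) (G : Fin d → M → ℂ) (D : L → Fin d → Fin d → ℂ) (F : Y → Fin d → ℂ),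
      FTD muM G D ∧ RowB (MeasurableSpace.comap P inferInstance) F ∧
        q = fun y => ∑ i, F y i * G i (v y)
  have hPf : ∀ q, Pf q → BM q := by
    rintro q ⟨d, G, D, F, hD, hF, rfl⟩
    obtain ⟨C, hC⟩ := hF.2
    refine BM.sum _ fun i _ => ?_
    exact BM.mul ⟨(hF.1 i).mono hle le_rfl, C, fun y => hC y i⟩ (hGB d G D hD i)
  have happ : ∀ q : Y → ℂ, Measurable[MeasurableSpace.comap P inferInstance ⊔
      MeasurableSpace.comap v inferInstance] q →
      (∃ C : ℝ, ∀ y, ‖q y‖ ≤ C) → ∀ δ : ℝ, 0 < δ →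
      ∃ q', Pf q' ∧ l2 m (fun y => q y - q' y) ≤ δ := by
    intro q hq hqb δ hδ
    obtain ⟨d, G, D, F, hD, hF, hl2⟩ :=
      exists_finite_type (K := L) (MeasurableSpace.comap P inferInstance) muM m hle v hv q hq
        hqb δ hδ
    exact ⟨_, ⟨d, G, D, F, hD, hF, rfl⟩, hl2⟩
  refine PST.approx f f' ⟨hfm, hb⟩ ⟨hfm', hb'⟩ Pf Pf hPf hPf (happ f hf hb) (happ f' hf' hb') ?_
  rintro _ _ ⟨d, G, D, F, hD, hF, rfl⟩ ⟨d', G', D', F', hD', hF', rfl⟩
  obtain ⟨F₁, hF₁, hF₁e⟩ := PG7_factor P F hF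
  obtain ⟨F₂, hF₂, hF₂e⟩ := PG7_factor P F' hF'
  have key := PST_module R hR lam muK T hL hroot N₀ hN₀ (fun x => Matrix.of (D (g x)))
    (fun x => Matrix.of (D' (g x))) (hbm d G D hD) (hbm d' G' D' hD') (hunit d G D hD)
    (hunit d' G' D' hD') (fun y i => G i (v y)) (hGB d G D hD) (hrel d G D hD)
    (fun y i => G' i (v y)) (hGB d' G' D' hD') (hrel d' G' D' hD') F₁ hF₁ F₂ hF₂
  have e1 : (fun y => ∑ i, F y i * G i (v y)) =
      fun y => F₁ (P y) ⬝ᵥ (fun i => G i (v y)) := by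
    funext y
    rw [hF₁e]
    rfl
  have e2 : (fun y => ∑ i, F' y i * G' i (v y)) =
      fun y => F₂ (P y) ⬝ᵥ (fun i => G' i (v y)) := by
    funext y
    rw [hF₂e]
    rfl
  rw [e1, e2]
  exact key

end

end Pool.Agent.Lib.H82OG
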