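import Pool.Agent.Lib.H82OG.MB6
import Pool.Agent.Lib.H82OG.PG7
import Pool.Agent.Lib.H82OG.GS3
import Pool.Agent.Lib.H82OG.AE2
import Pool.Agent.Lib.H82OG.MB8

/-!
# Project H82OG, chunk MC1: one level
-/

open MeasureTheory Filter Topology Finset ProbabilityTheory
open scoped ENNReal ComplexConjugate Matrix

namespace Pool.Agent.Lib.H82OG

open Pool.Agent.Lib.H22M Pool.Agent.Lib.H82T Pool.Agent.Lib.H82OT Pool.Agent.Lib.H82OF

private lemma MC1_vfg {G G' : Type*} [CommGroup G] [CommGroup G'] (π : G' →* G)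
    (hπ : Function.Surjective π) (h : VFG G') : VFG G := by
  classical
  obtain ⟨n, S, hn, hS⟩ := h
  refine ⟨n, S.image π, hn, fun x => ?_⟩
  obtain ⟨x', rfl⟩ := hπ x
  have h1 := Subgroup.mem_map_of_mem π (hS x')
  rw [MonoidHom.map_closure] at h1
  rw [Finset.coe_image, ← map_pow]
  exact h1

private lemma MC1_chars {K : Type*} [Group K] [TopologicalSpace K] [IsTopologicalGroup K]
    (K₀ : Subgroup K) (H : Subgroup K₀)
    (h : VFG (ContinuousMonoidHom (H.map K₀.subtype) Circle)) :
    VFG (ContinuousMonoidHom H Circle) := by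
  have hmem : ∀ x : H, ((x : K₀) : K) ∈ H.map K₀.subtype := fun x => ⟨x.1, x.2, rfl⟩
  let ι : ContinuousMonoidHom H (H.map K₀.subtype) :=
    { toFun := fun x => ⟨((x : K₀) : K), hmem x⟩
      map_one' := rfl
      map_mul' := fun _ _ => rfl
      continuous_toFun := Continuous.subtype_mk
        (continuous_subtype_val.comp continuous_subtype_val) _ }
  have hmem0 : ∀ x : H.map K₀.subtype, (x : K) ∈ K₀ := by
    rintro ⟨x, y, hy, rfl⟩
    exact y.2
  have hmem1 : ∀ x : H.map K₀.subtype, (⟨(x : K), hmem0 x⟩ : K₀) ∈ H := by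
    rintro ⟨x, y, hy, rfl⟩
    exact hy
  let κ : ContinuousMonoidHom (H.map K₀.subtype) H :=
    { toFun := fun x => ⟨⟨(x : K), hmem0 x⟩, hmem1 x⟩
      map_one' := rfl
      map_mul' := fun _ _ => rfl
      continuous_toFun := Continuous.subtype_mk
        (Continuous.subtype_mk continuous_subtype_val _) _ }
  refine MC1_vfg ((ContinuousMonoidHom.compLeft Circle ι).toMonoidHom) ?_ h
  intro χ
  refine ⟨χ.comp κ, ?_⟩
  ext x
  rfl

/-- Proof. `exists_cover` (MB6): `K₀, muK₀, φ₀, b₀, u₁, W', K₁, …, θ`. `eig_cover` (MB8) for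
`mU = m.map (fun y => (P y, u y))`: `n, S` (its hypothesis `hv`: a closed subgroup `H` of `K₀` fixing `u₁` is
isomorphic, also topologically, to its image `H.map K₀.subtype`, a closed subgroup of `K` which fixes `u₁`, so
the two groups of characters are isomorphic: `hfg u₁`). Eigenvalues of `(mU, skew c φ)` are eigenvalues of
`R` (compose with `(P, u)`), so for every eigenvalue `x` of `skew c' φ₁` the power `x ^ n` is in the closure of
`S ∪ {eigenvalues of R}`; `tors_manyT_pow` (AE2): `N₀` and `ManyT` for `skew c' φ₁`. `LevG` with `Z := W'`,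
`K := K₁`, `B := W × U`, `mb := mU`, `T := skewE c φ` on `W × U` (`H22M/Defs.lean`), `P := (P, u)`,
`π := Prod.fst`, `c`. `hroot` by `eq_one_of_root hD` (`H22M/TE.lean`). `PST_top` (PG7), `BDD_of_PST` (GS3). -/
theorem level_BDD {Y W K U L M : Type*} [mY : MeasurableSpace Y] [StandardBorelSpace Y]
    [CommGroup W] [TopologicalSpace W] [IsTopologicalGroup W]
    [CompactSpace W] [T2Space W] [SecondCountableTopology W] [MeasurableSpace W]
    [BorelSpace W]
    [Group K] [TopologicalSpace K] [IsTopologicalGroup K] [CompactSpace K]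
    [T2Space K] [SecondCountableTopology K] [MeasurableSpace K] [BorelSpace K]
    [TopologicalSpace U] [T2Space U] [SecondCountableTopology U] [MeasurableSpace U]
    [BorelSpace U] [MulAction K U] [ContinuousSMul K U]
    [Group L] [TopologicalSpace L] [IsTopologicalGroup L] [CompactSpace L]
    [T2Space L] [SecondCountableTopology L] [MeasurableSpace L] [BorelSpace L]
    [TopologicalSpace M] [CompactSpace M] [T2Space M] [SecondCountableTopology M]
    [MeasurableSpace M] [BorelSpace M]
    [MulAction L M] [ContinuousSMul L M] [MulAction.IsPretransitive L M]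
    {m : Measure Y} [IsProbabilityMeasure m] (R : Y ≃ᵐ Y) (hR : Ergodic R m)
    (hD : ManyGoodPrimes m R)
    (lamW : Measure W) [lamW.IsHaarMeasure] [IsProbabilityMeasure lamW] (c : W) (P : Y → W)
    (hP : MeasurePreserving P m lamW) (hPR : ∀ y, P (R y) = c * P y)
    (hkron : ∀ (e : Y → ℂ) (l : ℂ), BM e → (∀ᵐ y ∂m, e (R y) = l * e y) →
      ∃ g : W → ℂ, BM g ∧ ∀ᵐ y ∂m, e y = g (P y))
    (hfg : ∀ (x : U) (H : Subgroup K), IsClosed (H : Set K) →
      (∀ h : K, h ∈ H → h • x = x) → VFG (ContinuousMonoidHom H Circle))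
    (φ : W → K) (hφ : Measurable φ) (u : Y → U) (hu : Measurable u)
    (huR : ∀ y, u (R y) = φ (P y) • u y)
    (muM : Measure M) [IsProbabilityMeasure muM] [SMulInvariantMeasure L M muM]
    (v : Y → M) (hv : MeasurePreserving v m muM)
    (g : W × U → L) (hg : Measurable g) (hvR : ∀ y, v (R y) = g (P y, u y) • v y)
    (f : Y → ℂ)
    (hf : Measurable[MeasurableSpace.comap (fun y => (P y, u y)) inferInstance ⊔
      MeasurableSpace.comap v inferInstance] f)
    (hb : ∃ C : ℝ, ∀ y, ‖f y‖ ≤ C) (ε : ℝ) (hε : 0 < ε) : BDD m R f ε := by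
  classical
  set pu : Y → W × U := fun y => (P y, u y) with hpu
  have hpum : Measurable pu := hP.measurable.prodMk hu
  have hpuR : ∀ y, pu (R y) = skew (M := U) c φ (pu y) := by
    intro y
    simp only [hpu, skew, hPR, huR]
  set mU : Measure (W × U) := m.map pu with hmU
  have : IsProbabilityMeasure mU := Measure.isProbabilityMeasure_map hpum.aemeasurable
  have hpup : MeasurePreserving pu m mU := ⟨hpum, rfl⟩
  let _ : MeasurableSpace Circle := borel Circle
  have : BorelSpace Circle := ⟨rfl⟩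
  obtain ⟨W', hW', K₀, hK₀, K₁, hK₁, muK₀, φ₀, b₀, u₁, lam', muK₁, c', φ₁, θ,
    ⟨hpK₀, hhK₀, hφ₀, hb₀, herg₀, hΘ, hΘR⟩, hpl, hhl, hpK₁, hhK₁, hbase, hθ, hθR, heig⟩ :=
    exists_cover R hR lamW c P hP hPR φ hφ u hu huR
  have : SecondCountableTopology W' := TopologicalSpace.Subtype.secondCountableTopology _
  have : SecondCountableTopology K₀ := TopologicalSpace.Subtype.secondCountableTopology _
  have : SecondCountableTopology K₁ := TopologicalSpace.Subtype.secondCountableTopology _
  have : CompactSpace W' := isCompact_iff_compactSpace.1 hW'.isCompact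
  have : CompactSpace K₀ := isCompact_iff_compactSpace.1 hK₀.isCompact
  have : CompactSpace K₁ := isCompact_iff_compactSpace.1 hK₁.isCompact
  obtain ⟨n, S, hn, hS⟩ := eig_cover lamW c φ hφ K₀ hK₀ muK₀ φ₀ hφ₀ herg₀ b₀ hb₀ u₁ mU hΘ hΘR
    (fun H hH hfix => by
      refine MC1_chars K₀ H (hfg u₁ (H.map K₀.subtype) ?_ ?_)
      · have h1 := hK₀.isClosedEmbedding_subtypeVal.isClosedMap _ hH
        rw [Subgroup.coe_map]
        exact h1
      · rintro _ ⟨h, hh, rfl⟩
        exact hfix h hh)
  have heigU : ∀ y : ℂ, IsEigenvalue mU (skew (M := U) c φ) y → IsEigenvalue m R y := by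
    rintro y ⟨e, he, he1, he2⟩
    refine ⟨fun x => e (pu x), he.comp hpum, hpup.quasiMeasurePreserving.ae he1, ?_⟩
    filter_upwards [hpup.quasiMeasurePreserving.ae he2] with x hx
    rw [hpuR, hx]
  obtain ⟨⟨N₀, hN₀⟩, hMT⟩ := tors_manyT_pow hR hbase.erg.toMeasurePreserving hD n hn S
    (fun x hx => by
      refine Subgroup.closure_mono (Set.union_subset_union_right _ ?_) (hS x (heig _ hx))
      intro y hy
      exact heigU _ hy)
  have hL : LevG m R lam' muK₁ c' φ₁ mU (skewE c φ hφ : (W × U) ≃ᵐ (W × U)) pu θ Prod.fst c :=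
    { base := hbase
      presP := hpup
      equiP := hpuR
      preθ := hθ
      equiθ := hθR
      measπ := measurable_fst
      equiπ := fun _ => rfl
      kron := hkron }
  have hPST := PST_top R hR lam' muK₁ (skewE c φ hφ) hL
    (fun x hx k hk h => eq_one_of_root hD x hx k hk h) N₀ hN₀ muM v hv g hg hvR f f hf hb hf hb
  exact BDD_of_PST hMT f hPST ε hε

end Pool.Agent.Lib.H82OG
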