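import Pool.Agent.Lib.H82OG.Defs
import Pool.Agent.Lib.H82OF.JL2

/-!
# Project H82OG, chunk MC2: bad primes and factors; restriction to a subset of full measure
-/

open MeasureTheory Filter Topology Finset ProbabilityTheory
open scoped ENNReal ComplexConjugate Matrix

namespace Pool.Agent.Lib.H82OG

open Pool.Agent.Lib.H22M Pool.Agent.Lib.H82T Pool.Agent.Lib.H82OT Pool.Agent.Lib.H82OF

/-- Proof. The same set `S` and `m0`: a joining of `R₁^p`, `R₁^q` lifts (`exists_joining_lift`,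
`H82OF/JL2.lean`), the integrals agree, so a prime which is bad for `f` is bad for `f ∘ τ`. -/
theorem BDD_of_factor {Y Y₁ : Type*} [MeasurableSpace Y] [StandardBorelSpace Y]
    [MeasurableSpace Y₁] {m : Measure Y} [IsProbabilityMeasure m] {m₁ : Measure Y₁}
    [IsProbabilityMeasure m₁] (R : Y ≃ᵐ Y) (hR : MeasurePreserving R m m) (R₁ : Y₁ ≃ᵐ Y₁)
    (τ : Y → Y₁) (hτ : MeasurePreserving τ m m₁) (hτR : ∀ᵐ y ∂m, τ (R y) = R₁ (τ y))
    (f : Y₁ → ℂ) (hf : BM f) (ε : ℝ) (h : BDD m R (fun y => f (τ y)) ε) : BDD m₁ R₁ f ε := by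
  obtain ⟨S, hS, hsum, m0, hm0⟩ := h
  refine ⟨S, hS, hsum, m0, fun p hp Q hQ => hm0 p hp Q fun q hq => ?_⟩
  obtain ⟨h1, h2, ρ₁, hρ₁, hε⟩ := hQ q hq
  obtain ⟨ρ, hρ, hmap⟩ := exists_joining_lift R hR R₁ τ hτ hτR hρ₁
  refine ⟨h1, h2, ρ, hρ, ?_⟩
  have hττ : Measurable (Prod.map τ τ) := hτ.measurable.prodMap hτ.measurable
  have hff : BM (fun z : Y₁ × Y₁ => f z.1 * conj (f z.2)) :=
    (hf.comp measurable_fst).mul (hf.comp measurable_snd).conj
  have e1 : ∫ z, f z.1 * conj (f z.2) ∂ρ₁ = ∫ z, f (τ z.1) * conj (f (τ z.2)) ∂ρ := by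
    rw [← hmap, integral_map hττ.aemeasurable hff.1.aestronglyMeasurable]
    rfl
  have e2 : ∫ y, f y ∂m₁ = ∫ y, f (τ y) ∂m := by
    rw [← hτ.map_eq, integral_map hτ.measurable.aemeasurable hf.1.aestronglyMeasurable]
  rw [e1, e2] at hε
  exact hε

/-- The restriction to an invariant subset of full measure. Proof. `Y₀` = the intersection over all integers
`n` of the preimages of `G` under `R^n` (`(⇑R)^[n]` and `(⇑R.symm)^[n]`). `R₀` = the restriction of `R`
(`MeasurableEquiv`), `m₀ = m.comap Subtype.val`. `IsEigenvalue m₀ R₀ ↔ IsEigenvalue m R` (extend an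
eigenfunction by `1` outside `Y₀`). -/
theorem exists_restrict {Y : Type*} [MeasurableSpace Y] {m : Measure Y}
    [IsProbabilityMeasure m] (R : Y ≃ᵐ Y) (hR : Ergodic R m) (G : Set Y)
    (hG : MeasurableSet G) (hfull : ∀ᵐ y ∂m, y ∈ G) :
    ∃ (Y₀ : Set Y) (m₀ : Measure Y₀) (R₀ : Y₀ ≃ᵐ Y₀), MeasurableSet Y₀ ∧ Y₀ ⊆ G ∧
      IsProbabilityMeasure m₀ ∧ MeasurePreserving (Subtype.val : Y₀ → Y) m₀ m ∧
      (∀ y : Y₀, ((R₀ y : Y₀) : Y) = R y) ∧ Ergodic R₀ m₀ ∧
      (∀ l : ℂ, IsEigenvalue m₀ R₀ l ↔ IsEigenvalue m R l) := by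
  classical
  set Y₀ : Set Y := {y | ∀ n : ℕ, (R : Y → Y)^[n] y ∈ G ∧ (R.symm : Y → Y)^[n] y ∈ G} with hY₀
  have hRm : MeasurePreserving R m m := hR.toMeasurePreserving
  have hRsm : MeasurePreserving R.symm m m := hRm.symm R
  have hmeas : MeasurableSet Y₀ := by
    rw [hY₀, Set.ofPred_forall]
    refine MeasurableSet.iInter fun n => ?_
    exact ((R.measurable.iterate n) hG).inter ((R.symm.measurable.iterate n) hG)
  have hsub : Y₀ ⊆ G := fun y hy => (hy 0).1
  have hR1 : ∀ y ∈ Y₀, R y ∈ Y₀ := by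
    intro y hy n
    refine ⟨(hy (n + 1)).1, ?_⟩
    cases n with
    | zero => exact (hy 1).1
    | succ k =>
      rw [Function.iterate_succ_apply, MeasurableEquiv.symm_apply_apply]
      exact (hy k).2
  have hR2 : ∀ y ∈ Y₀, R.symm y ∈ Y₀ := by
    intro y hy n
    refine ⟨?_, (hy (n + 1)).2⟩
    cases n with
    | zero => exact (hy 1).2
    | succ k =>
      rw [Function.iterate_succ_apply, MeasurableEquiv.apply_symm_apply]
      exact (hy k).1
  have hY₀full : ∀ᵐ y ∂m, y ∈ Y₀ := by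
    rw [hY₀]
    refine ae_all_iff.2 fun n => ?_
    have h1 := (hRm.iterate n).quasiMeasurePreserving.ae hfull
    have h2 := (hRsm.iterate n).quasiMeasurePreserving.ae hfull
    filter_upwards [h1, h2] with y hy1 hy2
    exact ⟨hy1, hy2⟩
  have hemb : MeasurableEmbedding (Subtype.val : Y₀ → Y) := MeasurableEmbedding.subtype_coe hmeas
  set m₀ : Measure Y₀ := m.comap Subtype.val with hm₀
  have hmap : m₀.map Subtype.val = m := by
    rw [hm₀, map_comap_subtype_coe hmeas, Measure.restrict_eq_self_of_ae_mem hY₀full]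
  have hval : MeasurePreserving (Subtype.val : Y₀ → Y) m₀ m := ⟨measurable_subtype_coe, hmap⟩
  have hprob : IsProbabilityMeasure m₀ := by
    refine ⟨?_⟩
    have h := hval.measure_preimage (s := Set.univ) MeasurableSet.univ.nullMeasurableSet
    rw [Set.preimage_univ] at h
    exact h.trans measure_univ
  have hae : ∀ p : Y → Prop, (∀ᵐ y ∂m, p y) ↔ ∀ᵐ (y : Y₀) ∂m₀, p (y : Y) := by
    intro p
    have := hemb.ae_map_iff (μ := m₀) (p := p)
    rw [hmap] at this
    exact this
  set R₀ : Y₀ ≃ᵐ Y₀ :=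
    { toFun := fun y => ⟨R y, hR1 y y.2⟩
      invFun := fun y => ⟨R.symm y, hR2 y y.2⟩
      left_inv := fun y => Subtype.ext (R.symm_apply_apply _)
      right_inv := fun y => Subtype.ext (R.apply_symm_apply _)
      measurable_toFun := (R.measurable.comp measurable_subtype_coe).subtype_mk
      measurable_invFun := (R.symm.measurable.comp measurable_subtype_coe).subtype_mk } with hR₀
  have hR₀v : ∀ y : Y₀, ((R₀ y : Y₀) : Y) = R y := fun y => rfl
  have hR₀m : MeasurePreserving R₀ m₀ m₀ := by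
    refine ⟨R₀.measurable, ?_⟩
    have h1 : (m₀.map R₀).map Subtype.val = m₀.map Subtype.val := by
      rw [Measure.map_map measurable_subtype_coe R₀.measurable]
      have h2 : (Subtype.val : Y₀ → Y) ∘ R₀ = R ∘ Subtype.val := rfl
      rw [h2, ← Measure.map_map R.measurable measurable_subtype_coe, hmap, hRm.map_eq]
    rw [← hemb.comap_map (m₀.map R₀), h1, hemb.comap_map]
  refine ⟨Y₀, m₀, R₀, hmeas, hsub, hprob, hval, hR₀v, ?_, ?_⟩
  · refine ⟨hR₀m, ⟨fun {s} hs hinv => ?_⟩⟩
    have hs' : MeasurableSet ((Subtype.val : Y₀ → Y) '' s) := hemb.measurableSet_image.2 hs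
    have hinv' : R ⁻¹' ((Subtype.val : Y₀ → Y) '' s) = (Subtype.val : Y₀ → Y) '' s := by
      ext y
      constructor
      · rintro ⟨z, hz, hzy⟩
        have hyY : y ∈ Y₀ := by
          have h3 := hR2 z z.2
          rw [hzy, MeasurableEquiv.symm_apply_apply] at h3
          exact h3
        refine ⟨⟨y, hyY⟩, ?_, rfl⟩
        rw [← hinv]
        have h4 : R₀ ⟨y, hyY⟩ = z := Subtype.ext hzy.symm
        show R₀ ⟨y, hyY⟩ ∈ s
        rw [h4]
        exact hz
      · rintro ⟨z, hz, rfl⟩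
        rw [← hinv] at hz
        exact ⟨R₀ z, hz, rfl⟩
    have h5 := hR.toPreErgodic.aeconst_set hs' hinv'
    rw [Filter.eventuallyConst_set] at h5 ⊢
    rcases h5 with h5 | h5
    · left
      filter_upwards [(hae _).1 h5] with y hy
      obtain ⟨z, hz, hzy⟩ := hy
      rwa [← Subtype.ext hzy]
    · right
      filter_upwards [(hae _).1 h5] with y hy hys
      exact hy ⟨y, hys, rfl⟩
  · intro l
    constructor
    · rintro ⟨f, hf, hf1, hf2⟩
      refine ⟨Function.extend Subtype.val f (fun _ => 1),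
        hemb.measurable_extend hf measurable_const, ?_, ?_⟩
      · rw [hae]
        filter_upwards [hf1] with y hy
        rw [hemb.injective.extend_apply]
        exact hy
      · rw [hae]
        filter_upwards [hf2] with y hy
        rw [hemb.injective.extend_apply, ← hR₀v, hemb.injective.extend_apply]
        exact hy
    · rintro ⟨f, hf, hf1, hf2⟩
      refine ⟨fun y => f y, hf.comp measurable_subtype_coe, ?_, ?_⟩
      · exact (hae _).1 hf1
      · exact (hae _).1 hf2

end Pool.Agent.Lib.H82OG
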