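import Pool.Agent.Lib.H82OG.MC1
import Pool.Agent.Lib.H82OG.MC2
import Pool.Agent.Lib.H82OG.MB1
import Pool.Agent.Lib.H82OG.MB2

/-!
# Project H82OG, chunk MC3: one level, general first step
-/

open MeasureTheory Filter Topology Finset ProbabilityTheory
open scoped ENNReal ComplexConjugate Matrix

namespace Pool.Agent.Lib.H82OG

open Pool.Agent.Lib.H22M Pool.Agent.Lib.H82T Pool.Agent.Lib.H82OT Pool.Agent.Lib.H82OF

/-- Proof. `letI : MeasurableSpace Circle := borel Circle`. `exists_kron_haar` (MB1): `W, lamW, c, P` with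
`P (R y) = c * P y` a.e.; `exists_zeta` (MB2): `ζ` with `π y = ζ (P y)` a.e. Let `G` be the set of the `y` with
both relations, `exists_restrict` (MC2): `Y₀, m₀, R₀` (`Y₀` is standard Borel: `MeasurableSet.standardBorel`).
`level_BDD` (MC1) for `(Y₀, m₀, R₀)`, `P ∘ val`, the cocycles `φ ∘ ζ` and `(w, x) ↦ g (ζ w, x)`, `u ∘ val`,
`v ∘ val`, and `f ∘ val`: it is measurable for `comap (P, u) ⊔ comap v` on `Y₀`, since
`π (val y) = ζ (P (val y))`. `hD` for `m₀`: the eigenvalues agree, so do the `goodPrimes`. `hkron`: extend an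
eigenfunction of `R₀` by `0` to `Y`. `BDD_of_factor` for `val`. -/
theorem level_BDD_general {Y Z K U L M : Type*} [mY : MeasurableSpace Y]
    [StandardBorelSpace Y]
    [CommGroup Z] [TopologicalSpace Z] [IsTopologicalGroup Z]
    [CompactSpace Z] [T2Space Z] [SecondCountableTopology Z] [MeasurableSpace Z]
    [BorelSpace Z]
    [Group K] [TopologicalSpace K] [IsTopologicalGroup K] [CompactSpace K]
    [T2Space K] [SecondCountableTopology K] [MeasurableSpace K] [BorelSpace K]
    [TopologicalSpace U] [T2Space U] [SecondCountableTopology U] [MeasurableSpace U]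
    [BorelSpace U] [MulAction K U] [ContinuousSMul K U]
    [Group L] [TopologicalSpace L] [IsTopologicalGroup L] [CompactSpace L]
    [T2Space L] [SecondCountableTopology L] [MeasurableSpace L] [BorelSpace L]
    [TopologicalSpace M] [CompactSpace M] [T2Space M] [SecondCountableTopology M]
    [MeasurableSpace M] [BorelSpace M]
    [MulAction L M] [ContinuousSMul L M] [MulAction.IsPretransitive L M]
    {m : Measure Y} [IsProbabilityMeasure m] (R : Y ≃ᵐ Y) (hR : Ergodic R m)
    (hD : ManyGoodPrimes m R) (π : Y → Z) (hπ : Measurable π) (α : Z)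
    (hπR : ∀ y, π (R y) = α * π y)
    (hfg : ∀ (x : U) (H : Subgroup K), IsClosed (H : Set K) →
      (∀ h : K, h ∈ H → h • x = x) → VFG (ContinuousMonoidHom H Circle))
    (φ : Z → K) (hφ : Measurable φ) (u : Y → U) (hu : Measurable u)
    (huR : ∀ y, u (R y) = φ (π y) • u y)
    (muM : Measure M) [IsProbabilityMeasure muM] [SMulInvariantMeasure L M muM]
    (v : Y → M) (hv : MeasurePreserving v m muM)
    (g : Z × U → L) (hg : Measurable g) (hvR : ∀ y, v (R y) = g (π y, u y) • v y)
    (f : Y → ℂ)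
    (hf : Measurable[MeasurableSpace.comap (fun y => (π y, u y)) inferInstance ⊔
      MeasurableSpace.comap v inferInstance] f)
    (hb : ∃ C : ℝ, ∀ y, ‖f y‖ ≤ C) (ε : ℝ) (hε : 0 < ε) : BDD m R f ε := by
  classical
  let _ : MeasurableSpace Circle := borel Circle
  have : BorelSpace Circle := ⟨rfl⟩
  obtain ⟨W, hWc, lamW, c, P, hlamp, hhaar, hP, hPR, hkron⟩ := exists_kron_haar R hR
  have : CompactSpace W := isCompact_iff_compactSpace.1 hWc.isCompact
  have : SecondCountableTopology W :=
    TopologicalSpace.Subtype.secondCountableTopology (W : Set (ℕ → Circle))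
  obtain ⟨ζ, hζ, hζP⟩ := exists_zeta π hπ α (Eventually.of_forall hπR) P hP.measurable hkron
  have hG1 : MeasurableSet {y | P (R y) = c * P y} := by
    have h1 : Measurable fun y => ((P (R y), c * P y) : W × W) :=
      (hP.measurable.comp R.measurable).prodMk
        ((continuous_const_mul c).measurable.comp hP.measurable)
    exact h1 (isClosed_diagonal (X := W)).measurableSet
  have hG2 : MeasurableSet {y | π y = ζ (P y)} := by
    have h1 : Measurable fun y => ((π y, ζ (P y)) : Z × Z) :=
      hπ.prodMk (hζ.comp hP.measurable)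
    exact h1 (isClosed_diagonal (X := Z)).measurableSet
  obtain ⟨Y₀, m₀, R₀, hY₀, hsub, hprob, hval, hR₀v, hR₀, heig⟩ :=
    exists_restrict R hR ({y | P (R y) = c * P y} ∩ {y | π y = ζ (P y)}) (hG1.inter hG2)
      (by filter_upwards [hPR, hζP] with y h1 h2; exact ⟨h1, h2⟩)
  have hP0 : ∀ y : Y₀, P (R y) = c * P y := fun y => (hsub y.2).1
  have hπ0 : ∀ y : Y₀, π y = ζ (P y) := fun y => (hsub y.2).2
  have hemb : MeasurableEmbedding (Subtype.val : Y₀ → Y) := MeasurableEmbedding.subtype_coe hY₀
  have hae : ∀ p : Y → Prop, (∀ᵐ y ∂m, p y) ↔ ∀ᵐ (y : Y₀) ∂m₀, p (y : Y) := by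
    intro p
    have := hemb.ae_map_iff (μ := m₀) (p := p)
    rw [hval.map_eq] at this
    exact this
  have : StandardBorelSpace Y₀ := hY₀.standardBorel
  have hfm : Measurable f := by
    refine hf.mono (sup_le ?_ ?_) le_rfl
    · exact (hπ.prodMk hu).comap_le
    · exact hv.measurable.comap_le
  have hD' : ManyGoodPrimes m₀ R₀ := by
    intro F hF
    have h1 : goodPrimes m₀ R₀ F = goodPrimes m R F := by
      ext p
      constructor
      · rintro ⟨h1, h2⟩
        exact ⟨h1, fun d hd e he => h2 d hd e ((heig e).2 he)⟩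
      · rintro ⟨h1, h2⟩
        exact ⟨h1, fun d hd e he => h2 d hd e ((heig e).1 he)⟩
    rw [h1]
    exact hD F hF
  have hkron' : ∀ (e : Y₀ → ℂ) (l : ℂ), BM e → (∀ᵐ y ∂m₀, e (R₀ y) = l * e y) →
      ∃ g : W → ℂ, BM g ∧ ∀ᵐ (y : Y₀) ∂m₀, e y = g (P y) := by
    intro e l he hel
    have h1 : BM (Function.extend Subtype.val e (fun _ : Y => (0 : ℂ))) := by
      obtain ⟨h2, C, hC⟩ := he
      refine ⟨hemb.measurable_extend h2 measurable_const, max C 0, fun y => ?_⟩
      by_cases hy : y ∈ Y₀
      · have h3 := hemb.injective.extend_apply e (fun _ : Y => (0 : ℂ)) ⟨y, hy⟩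
        rw [h3]
        exact (hC _).trans (le_max_left _ _)
      · rw [Function.extend_apply' _ _ _ (by rintro ⟨z, rfl⟩; exact hy z.2), norm_zero]
        exact le_max_right _ _
    have h2 : ∀ᵐ y ∂m, Function.extend Subtype.val e (fun _ : Y => (0 : ℂ)) (R y) =
        l * Function.extend Subtype.val e (fun _ : Y => (0 : ℂ)) y := by
      rw [hae]
      filter_upwards [hel] with y hy
      rw [hemb.injective.extend_apply, ← hR₀v, hemb.injective.extend_apply]
      exact hy
    obtain ⟨g', hg', h3⟩ := hkron _ l h1 h2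
    refine ⟨g', hg', ?_⟩
    filter_upwards [(hae _).1 h3] with y hy
    rw [hemb.injective.extend_apply] at hy
    exact hy
  have hf' : Measurable[MeasurableSpace.comap (fun y : Y₀ => (P y, u y)) inferInstance ⊔
      MeasurableSpace.comap (fun y : Y₀ => v y) inferInstance] (fun y : Y₀ => f y) := by
    have h1 : Measurable[MeasurableSpace.comap (Subtype.val : Y₀ → Y)
        (MeasurableSpace.comap (fun y => (π y, u y)) inferInstance ⊔
          MeasurableSpace.comap v inferInstance)] (fun y : Y₀ => f y) := by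
      intro s hs
      exact ⟨f ⁻¹' s, hf hs, rfl⟩
    refine h1.mono ?_ le_rfl
    rw [MeasurableSpace.comap_sup, MeasurableSpace.comap_comp, MeasurableSpace.comap_comp]
    refine sup_le_sup ?_ le_rfl
    have h2 : (fun y => (π y, u y)) ∘ (Subtype.val : Y₀ → Y) =
        (fun w : W × U => (ζ w.1, w.2)) ∘ (fun y : Y₀ => (P y, u y)) := by
      funext y
      show (π y, u y) = (ζ (P y), u y)
      rw [hπ0 y]
    rw [h2, ← MeasurableSpace.comap_comp]
    refine MeasurableSpace.comap_mono ?_
    exact ((hζ.comp measurable_fst).prodMk measurable_snd).comap_le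
  have key : BDD m₀ R₀ (fun y : Y₀ => f y) ε := by
    refine level_BDD R₀ hR₀ hD' lamW c (fun y : Y₀ => P y) (hP.comp hval) ?_ hkron' hfg
      (fun w => φ (ζ w)) (hφ.comp hζ) (fun y : Y₀ => u y) (hu.comp measurable_subtype_coe) ?_
      muM (fun y : Y₀ => v y) (hv.comp hval) (fun w => g (ζ w.1, w.2))
      (hg.comp ((hζ.comp measurable_fst).prodMk measurable_snd)) ?_ (fun y : Y₀ => f y) hf' ?_ ε hε
    · intro y
      show P (R₀ y : Y₀) = c * P y
      rw [hR₀v]
      exact hP0 y
    · intro y
      show u (R₀ y : Y₀) = φ (ζ (P y)) • u y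
      rw [hR₀v, huR, hπ0]
    · intro y
      show v (R₀ y : Y₀) = g (ζ (P y), u y) • v y
      rw [hR₀v, hvR, hπ0]
    · obtain ⟨C, hC⟩ := hb
      exact ⟨C, fun y => hC y⟩
  exact BDD_of_factor R₀ hR₀.toMeasurePreserving R Subtype.val hval
    (Eventually.of_forall hR₀v) f ⟨hfm, hb⟩ ε key

end Pool.Agent.Lib.H82OG
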