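import Pool.Agent.Lib.H82OG.MC3
import Pool.Agent.Lib.H82OG.GS3

/-!
# Project H82OG, chunk MC4: the main theorem
-/

open MeasureTheory Filter Topology Finset ProbabilityTheory
open scoped ENNReal ComplexConjugate Matrix

namespace Pool.Agent.Lib.H82OG

open Pool.Agent.Lib.H22M Pool.Agent.Lib.H82T Pool.Agent.Lib.H82OT Pool.Agent.Lib.H82OF

/-- Proof. `hroot` by `eq_one_of_root hD`; `level_BDD_general` (MC3) for every `i`; `BDD_all` (GS3) for
`𝒞 i = comap (π i, u i) ⊔ comap (v i)`; `main_of_BDD` (GS3). -/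
theorem main_order_three {Y Y₁ X ι : Type*} [Nonempty ι] [MeasurableSpace Y]
    [StandardBorelSpace Y] [MeasurableSpace Y₁] {m : Measure Y} [IsProbabilityMeasure m]
    {m₁ : Measure Y₁} [IsProbabilityMeasure m₁] (R : Y ≃ᵐ Y) (hR : Ergodic R m)
    (hD : ManyGoodPrimes m R) {Z K U L M : ι → Type*}
    [∀ i, CommGroup (Z i)] [∀ i, TopologicalSpace (Z i)] [∀ i, IsTopologicalGroup (Z i)]
    [∀ i, CompactSpace (Z i)] [∀ i, T2Space (Z i)] [∀ i, SecondCountableTopology (Z i)]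
    [∀ i, MeasurableSpace (Z i)] [∀ i, BorelSpace (Z i)]
    [∀ i, Group (K i)] [∀ i, TopologicalSpace (K i)] [∀ i, IsTopologicalGroup (K i)]
    [∀ i, CompactSpace (K i)] [∀ i, T2Space (K i)] [∀ i, SecondCountableTopology (K i)]
    [∀ i, MeasurableSpace (K i)] [∀ i, BorelSpace (K i)]
    [∀ i, TopologicalSpace (U i)] [∀ i, T2Space (U i)] [∀ i, SecondCountableTopology (U i)]
    [∀ i, MeasurableSpace (U i)] [∀ i, BorelSpace (U i)]
    [∀ i, MulAction (K i) (U i)] [∀ i, ContinuousSMul (K i) (U i)]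
    [∀ i, Group (L i)] [∀ i, TopologicalSpace (L i)] [∀ i, IsTopologicalGroup (L i)]
    [∀ i, CompactSpace (L i)] [∀ i, T2Space (L i)] [∀ i, SecondCountableTopology (L i)]
    [∀ i, MeasurableSpace (L i)] [∀ i, BorelSpace (L i)]
    [∀ i, TopologicalSpace (M i)] [∀ i, CompactSpace (M i)] [∀ i, T2Space (M i)]
    [∀ i, SecondCountableTopology (M i)] [∀ i, MeasurableSpace (M i)] [∀ i, BorelSpace (M i)]
    [∀ i, MulAction (L i) (M i)] [∀ i, ContinuousSMul (L i) (M i)]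
    [∀ i, MulAction.IsPretransitive (L i) (M i)]
    (hfg : ∀ (i : ι) (x : U i) (H : Subgroup (K i)), IsClosed (H : Set (K i)) →
      (∀ h : K i, h ∈ H → h • x = x) → VFG (ContinuousMonoidHom H Circle))
    (π : ∀ i, Y → Z i) (hπ : ∀ i, Measurable (π i)) (α : ∀ i, Z i)
    (hπR : ∀ i y, π i (R y) = α i * π i y)
    (φ : ∀ i, Z i → K i) (hφ : ∀ i, Measurable (φ i)) (u : ∀ i, Y → U i)
    (hu : ∀ i, Measurable (u i)) (huR : ∀ i y, u i (R y) = φ i (π i y) • u i y)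
    (muM : ∀ i, Measure (M i)) [∀ i, IsProbabilityMeasure (muM i)]
    [∀ i, SMulInvariantMeasure (L i) (M i) (muM i)]
    (v : ∀ i, Y → M i) (hv : ∀ i, MeasurePreserving (v i) m (muM i))
    (g : ∀ i, Z i × U i → L i) (hg : ∀ i, Measurable (g i))
    (hvR : ∀ i y, v i (R y) = g i (π i y, u i y) • v i y)
    (hdir : Directed (· ≤ ·) fun i =>
      MeasurableSpace.comap (fun y => (π i y, u i y)) inferInstance ⊔
        MeasurableSpace.comap (v i) inferInstance)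
    (hgen : ∀ A : Set Y, MeasurableSet A → ∃ B,
      MeasurableSet[⨆ i, (MeasurableSpace.comap (fun y => (π i y, u i y)) inferInstance ⊔
        MeasurableSpace.comap (v i) inferInstance)] B ∧ m (symmDiff A B) = 0)
    (R₁ : Y₁ ≃ᵐ Y₁) (τ : Y → Y₁) (hτ : MeasurePreserving τ m m₁)
    (hτR : ∀ᵐ y ∂m, τ (R y) = R₁ (τ y))
    [MetricSpace X] [CompactSpace X] [MeasurableSpace X] [BorelSpace X]
    (T : X ≃ₜ X) (ν : Measure X) (θ : X → Y₁) (ψ : Y₁ → X)
    (hmodel : IsUEModel T ν m₁ R₁ θ ψ) (f : C(X, ℂ)) (x : X) :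
    Tendsto (fun N : ℕ => (1 / (N : ℂ)) *
      ∑ n ∈ Icc 1 N, f ((⇑T)^[n] x) * (ArithmeticFunction.moebius n : ℂ)) atTop (𝓝 0) := by
  refine main_of_BDD R hR (eq_one_of_root hD) (fun F hF ε hε => BDD_all (fun i =>
    MeasurableSpace.comap (fun y => (π i y, u i y)) inferInstance ⊔
      MeasurableSpace.comap (v i) inferInstance) hdir
    (fun i => sup_le ((hπ i).prodMk (hu i)).comap_le (hv i).measurable.comap_le) hgen
    (fun i f' hf' hb' ε' hε' => ?_) F hF ε hε) R₁ τ hτ hτR T ν θ ψ hmodel f x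
  exact level_BDD_general R hR hD (π i) (hπ i) (α i) (hπR i) (hfg i) (φ i) (hφ i) (u i) (hu i)
    (huR i) (muM i) (v i) (hv i) (g i) (hg i) (hvR i) f' hf' hb' ε' hε'

end Pool.Agent.Lib.H82OG
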