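import Pool.Agent.Lib.H82OG.LG
import Pool.Agent.Lib.H82OF.CE
import Pool.Agent.Lib.H22M.TG

/-!
# Project H82OG, chunk OL: functions orthogonal to the Kronecker factor, upstairs
-/

open MeasureTheory Filter Topology Finset ProbabilityTheory
open scoped ENNReal ComplexConjugate Matrix

namespace Pool.Agent.Lib.H82OG

open Pool.Agent.Lib.H22M Pool.Agent.Lib.H82T Pool.Agent.Lib.H82OT Pool.Agent.Lib.H82OF

section

variable {Z K : Type*} [CommGroup Z] [TopologicalSpace Z] [IsTopologicalGroup Z]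
  [CompactSpace Z] [T2Space Z] [SecondCountableTopology Z] [MeasurableSpace Z] [BorelSpace Z]
  [Group K] [TopologicalSpace K] [IsTopologicalGroup K] [CompactSpace K] [T2Space K]
  [SecondCountableTopology K] [MeasurableSpace K] [BorelSpace K]

private theorem OL_char {Y B W : Type*} [MeasurableSpace Y] [MeasurableSpace B] [CommGroup W]
    [TopologicalSpace W]
    [IsTopologicalGroup W] [CompactSpace W] [T2Space W] [SecondCountableTopology W]
    [MeasurableSpace W] [BorelSpace W] {m : Measure Y} [IsProbabilityMeasure m]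
    (R : Y ≃ᵐ Y) (hR : Ergodic R m) (lam : Measure Z) [lam.IsHaarMeasure]
    [IsProbabilityMeasure lam] (muK : Measure K) [muK.IsHaarMeasure] [IsProbabilityMeasure muK]
    {α : Z} {φ : Z → K} {mb : Measure B} [IsProbabilityMeasure mb] (T : B ≃ᵐ B) {P : Y → B}
    {θ : Z × K → B} {π : B → W} {c : W} (hL : LevG m R lam muK α φ mb T P θ π c) (a : B → ℂ)
    (ha : BM a) (ho : ∀ h : W → ℂ, BM h → ∫ x, a x * conj (h (π x)) ∂mb = 0)
    (χ : PontryaginDual Z) :
    ∫ x, a (θ x) * conj ((χ x.1 : Circle) : ℂ) ∂(lam.prod muK) = 0 := by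
  have hθ := hL.preθ
  have hRm : MeasurePreserving R m m := hR.toMeasurePreserving
  have hTm : MeasurePreserving T mb mb := hL.presT hRm T.measurable
  have hsk : MeasurePreserving (skew (M := K) α φ) (lam.prod muK) (lam.prod muK) :=
    hL.base.erg.toMeasurePreserving
  have he : BM fun x : Z × K => ((χ x.1 : Circle) : ℂ) := sz_bm_char χ
  obtain ⟨v, hv, hvC, -, hvi⟩ := exists_cond (lam.prod muK) θ hθ.measurable
    (fun x : Z × K => ((χ x.1 : Circle) : ℂ)) he.1 1 zero_le_one
    (fun x => by rw [Circle.norm_coe])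
  have hvb : BM v := ⟨hv, 1, hvC⟩
  have hmap : ∀ f : B → ℂ, BM f → ∫ x, f (θ x) ∂(lam.prod muK) = ∫ b, f b ∂mb := by
    intro f hf
    have h1 := integral_map (μ := lam.prod muK) (φ := θ) hθ.measurable.aemeasurable (f := f)
      hf.1.aestronglyMeasurable
    rw [hθ.map_eq] at h1
    exact h1.symm
  have hmapT : ∀ f : B → ℂ, BM f → ∫ b, f (T b) ∂mb = ∫ b, f b ∂mb := by
    intro f hf
    have h1 := integral_map (μ := mb) (φ := T) hTm.measurable.aemeasurable (f := f)
      hf.1.aestronglyMeasurable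
    rw [hTm.map_eq] at h1
    exact h1.symm
  have hmapS : ∀ f : Z × K → ℂ, BM f → ∫ x, f (skew (M := K) α φ x) ∂(lam.prod muK) =
      ∫ x, f x ∂(lam.prod muK) := by
    intro f hf
    have h1 := integral_map (μ := lam.prod muK) (φ := skew (M := K) α φ)
      hsk.measurable.aemeasurable (f := f) hf.1.aestronglyMeasurable
    rw [hsk.map_eq] at h1
    exact h1.symm
  have hvT : ∀ᵐ b ∂mb, v (T b) = ((χ α : Circle) : ℂ) * v b := by
    refine wb_ae_eq (inferInstance : MeasurableSpace B) mb le_rfl (fun b => v (T b))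
      (fun b => ((χ α : Circle) : ℂ) * v b) (hvb.comp T.measurable)
      ((BM.const _).mul hvb) ?_
    intro H hH
    have hHb : BM H := hH
    have hH' : BM fun b => H (T.symm b) := hHb.comp T.symm.measurable
    have h1 : ∫ b, H b * v (T b) ∂mb = ∫ b, H (T.symm b) * v b ∂mb := by
      have h2 := hmapT (fun b => H (T.symm b) * v b) (hH'.mul hvb)
      rw [← h2]
      refine integral_congr_ae (ae_of_all _ fun b => ?_)
      simp
    have h3 : ∫ b, H (T.symm b) * v b ∂mb =
        ∫ x, H (T.symm (θ x)) * ((χ x.1 : Circle) : ℂ) ∂(lam.prod muK) := by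
      rw [hvi (fun b => H (T.symm b)) hH']
      exact (hmap (fun b => H (T.symm b) * v b) (hH'.mul hvb)).symm
    have h4 : ∫ x, H (T.symm (θ x)) * ((χ x.1 : Circle) : ℂ) ∂(lam.prod muK) =
        ∫ x, ((χ α : Circle) : ℂ) * (H (θ x) * ((χ x.1 : Circle) : ℂ)) ∂(lam.prod muK) := by
      have h5 := hmapS (fun x => H (T.symm (θ x)) * ((χ x.1 : Circle) : ℂ))
        ((hH'.comp hθ.measurable).mul he)
      rw [← h5]
      refine integral_congr_ae ?_
      filter_upwards [hL.equiθ] with x hx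
      have h6 : (χ (skew (M := K) α φ x).1 : Circle) = χ α * χ x.1 := by
        show χ (α * x.1) = _
        rw [map_mul]
      show H (T.symm (θ (skew (M := K) α φ x))) * ((χ (skew (M := K) α φ x).1 : Circle) : ℂ) = _
      rw [hx, h6, MeasurableEquiv.symm_apply_apply, Circle.coe_mul]
      ring
    have h7 : ∫ x, H (θ x) * ((χ x.1 : Circle) : ℂ) ∂(lam.prod muK) = ∫ b, H b * v b ∂mb := by
      rw [hvi H hHb]
      exact hmap (fun b => H b * v b) (hHb.mul hvb)
    rw [h1, h3, h4, integral_const_mul, h7, ← integral_const_mul]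
    refine integral_congr_ae (ae_of_all _ fun b => ?_)
    dsimp only
    ring
  have hvY : ∀ᵐ y ∂m, v (P (R y)) = ((χ α : Circle) : ℂ) * v (P y) := by
    have h1 := hL.presP.quasiMeasurePreserving.ae hvT
    filter_upwards [h1] with y hy
    rw [hL.equiP y]
    exact hy
  obtain ⟨g, hg, hge⟩ := hL.kron (fun y => v (P y)) ((χ α : Circle) : ℂ)
    (hvb.comp hL.presP.measurable) hvY
  have hvg : ∀ᵐ b ∂mb, v b = g (π b) := by
    rw [← hL.presP.map_eq]
    exact (ae_map_iff hL.presP.measurable.aemeasurable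
      (measurableSet_eq_fun hv (hg.1.comp hL.measπ))).2 hge
  have h8 : ∫ x, a (θ x) * conj ((χ x.1 : Circle) : ℂ) ∂(lam.prod muK) =
      conj (∫ x, conj (a (θ x)) * ((χ x.1 : Circle) : ℂ) ∂(lam.prod muK)) := by
    rw [← integral_conj]
    refine integral_congr_ae (ae_of_all _ fun x => ?_)
    dsimp only
    rw [map_mul, Complex.conj_conj]
  have h9 : ∫ x, conj (a (θ x)) * ((χ x.1 : Circle) : ℂ) ∂(lam.prod muK) =
      ∫ b, conj (a b) * v b ∂mb := by
    rw [hvi (fun b => conj (a b)) ha.conj]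
    exact hmap (fun b => conj (a b) * v b) (ha.conj.mul hvb)
  have h10 : ∫ b, conj (a b) * v b ∂mb = conj (∫ b, a b * conj (g (π b)) ∂mb) := by
    rw [← integral_conj]
    refine integral_congr_ae ?_
    filter_upwards [hvg] with b hb
    rw [map_mul, Complex.conj_conj, hb]
  rw [h8, h9, h10, ho g hg, map_zero, map_zero]

/-- Proof. First `h = χ` a character of `Z`: `e x = χ (x.1)` satisfies `e (skew α φ x) = χ(α) e x`. Let `ē` be
the function of `exists_cond` (`H82OF/CE.lean`) for `θ` and `e`: `ē ∘ θ` is the conditional expectation of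
`e`; then `ē (T b) = χ(α) ē b` for `mb`-almost every `b` (test against `h(T ·)`: `∫ h(T b) ē(T b) dmb =
∫ h ē dmb = ∫ h(θ x) e x = ∫ h(θ (skew x)) e (skew x) = χ(α) ∫ h(T (θ x)) e x = χ(α) ∫ h(T b) ē b dmb`, every
bounded measurable function is some `h ∘ T`), so `ē ∘ P` is an eigenfunction of `R`, `ē (P y) = g (π (P y))`
a.e. (`kron`), `ē = g ∘ π` a.e. (`presP`), and `∫ a(θ x) conj (e x) = ∫ a conj ē dmb = ∫ a conj (g ∘ π) dmb = 0`.
General `h`: approximate in `L²(lam)` by trigonometric polynomials (`tg_approx`, `H22M/TG.lean`). -/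
theorem orth_lift {Y B W : Type*} [MeasurableSpace Y] [MeasurableSpace B] [CommGroup W] [TopologicalSpace W]
    [IsTopologicalGroup W] [CompactSpace W] [T2Space W] [SecondCountableTopology W]
    [MeasurableSpace W] [BorelSpace W] {m : Measure Y} [IsProbabilityMeasure m]
    (R : Y ≃ᵐ Y) (hR : Ergodic R m) (lam : Measure Z) [lam.IsHaarMeasure]
    [IsProbabilityMeasure lam] (muK : Measure K) [muK.IsHaarMeasure] [IsProbabilityMeasure muK]
    {α : Z} {φ : Z → K} {mb : Measure B} [IsProbabilityMeasure mb] (T : B ≃ᵐ B) {P : Y → B}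
    {θ : Z × K → B} {π : B → W} {c : W} (hL : LevG m R lam muK α φ mb T P θ π c) (a : B → ℂ) (ha : BM a)
    (ho : ∀ h : W → ℂ, BM h → ∫ x, a x * conj (h (π x)) ∂mb = 0) (h : Z → ℂ) (hh : BM h) :
    ∫ x, a (θ x) * conj (h x.1) ∂(lam.prod muK) = 0 := by
  have hθ := hL.preθ
  have hRm : MeasurePreserving R m m := hR.toMeasurePreserving
  have hTm : MeasurePreserving T mb mb := hL.presT hRm T.measurable
  have haθ : BM fun x : Z × K => a (θ x) := ha.comp hθ.measurable
  have hchar : ∀ χ : PontryaginDual Z,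
      ∫ x, a (θ x) * conj ((χ x.1 : Circle) : ℂ) ∂(lam.prod muK) = 0 := by
    intro χ
    exact OL_char R hR lam muK T hL a ha ho χ
  obtain ⟨D, hD0, hD⟩ : ∃ D : ℝ, 0 ≤ D ∧ l2 (lam.prod muK) (fun x => a (θ x)) ≤ D :=
    ⟨l2 (lam.prod muK) (fun x => a (θ x)), Real.sqrt_nonneg _, le_rfl⟩
  have hsmall : ∀ k : ℝ, 0 < k →
      ‖∫ x, a (θ x) * conj (h x.1) ∂(lam.prod muK)‖ ≤ D * k := by
    intro k hk
    obtain ⟨F, t, hFt⟩ := tg_approx lam h hh k hk
    have hS : BM fun x : Z × K => ∑ χ ∈ F, t χ * ((χ x.1 : Circle) : ℂ) :=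
      BM.sum F fun χ _ => (BM.const (t χ)).mul (sz_bm_char χ)
    have hh1 : BM fun x : Z × K => h x.1 := hh.comp measurable_fst
    have hd : BM fun x : Z × K => h x.1 - ∑ χ ∈ F, t χ * ((χ x.1 : Circle) : ℂ) := hh1.sub hS
    have hSint : ∫ x, a (θ x) * conj (∑ χ ∈ F, t χ * ((χ x.1 : Circle) : ℂ))
        ∂(lam.prod muK) = 0 := by
      have h1 : ∀ x : Z × K, a (θ x) * conj (∑ χ ∈ F, t χ * ((χ x.1 : Circle) : ℂ)) =
          ∑ χ ∈ F, conj (t χ) * (a (θ x) * conj ((χ x.1 : Circle) : ℂ)) := by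
        intro x
        rw [map_sum, Finset.mul_sum]
        refine Finset.sum_congr rfl fun χ _ => ?_
        rw [map_mul]
        ring
      simp_rw [h1]
      rw [integral_finsetSum]
      · refine Finset.sum_eq_zero fun χ _ => ?_
        rw [integral_const_mul, hchar χ, mul_zero]
      · intro χ _
        exact ((BM.const (conj (t χ))).mul (haθ.mul (sz_bm_char χ).conj)).integrable
    have heq : ∫ x, a (θ x) * conj (h x.1) ∂(lam.prod muK) =
        ∫ x, a (θ x) * conj (h x.1 - ∑ χ ∈ F, t χ * ((χ x.1 : Circle) : ℂ))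
          ∂(lam.prod muK) := by
      have h2 : ∀ x : Z × K, a (θ x) * conj (h x.1 - ∑ χ ∈ F, t χ * ((χ x.1 : Circle) : ℂ)) =
          a (θ x) * conj (h x.1) -
            a (θ x) * conj (∑ χ ∈ F, t χ * ((χ x.1 : Circle) : ℂ)) := by
        intro x
        rw [map_sub, mul_sub]
      simp_rw [h2]
      rw [integral_sub (haθ.mul hh1.conj).integrable (haθ.mul hS.conj).integrable, hSint,
        sub_zero]
    rw [heq]
    refine (norm_integral_mul_conj_le (m := lam.prod muK) haθ hd).trans ?_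
    have hl : l2 (lam.prod muK) (fun x : Z × K => h x.1 -
        ∑ χ ∈ F, t χ * ((χ x.1 : Circle) : ℂ)) ≤ k := by
      unfold l2
      rw [Real.sqrt_le_left hk.le]
      have hfst : MeasurePreserving (Prod.fst : Z × K → Z) (lam.prod muK) lam :=
        measurePreserving_fst
      have h3 : ∫ x : Z × K, ‖h x.1 - ∑ χ ∈ F, t χ * ((χ x.1 : Circle) : ℂ)‖ ^ 2
          ∂(lam.prod muK) = ∫ z, ‖h z - ∑ χ ∈ F, t χ * ((χ z : Circle) : ℂ)‖ ^ 2 ∂lam := by
        have hmz : Measurable fun z : Z => ∑ χ ∈ F, t χ * ((χ z : Circle) : ℂ) :=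
          Finset.measurable_fun_sum F fun χ _ => (sz_meas_char χ).const_mul (t χ)
        have h4 := integral_map (μ := lam.prod muK) (φ := (Prod.fst : Z × K → Z))
          hfst.measurable.aemeasurable
          (f := fun z => ‖h z - ∑ χ ∈ F, t χ * ((χ z : Circle) : ℂ)‖ ^ 2)
          (((hh.1.sub hmz).norm.pow_const 2).aestronglyMeasurable)
        rw [hfst.map_eq] at h4
        exact h4.symm
      rw [h3]
      exact hFt
    exact mul_le_mul hD hl (Real.sqrt_nonneg _) hD0
  have hle : ‖∫ x, a (θ x) * conj (h x.1) ∂(lam.prod muK)‖ ≤ 0 := by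
    refine le_of_forall_pos_le_add fun ε hε => ?_
    have h5 := hsmall (ε / (D + 1)) (by positivity)
    refine h5.trans ?_
    rw [zero_add, mul_div_assoc', div_le_iff₀ (by positivity)]
    nlinarith
  exact norm_le_zero_iff.mp hle

end

end Pool.Agent.Lib.H82OG
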