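import Pool.Agent.Lib.H82OG.LG
import Pool.Agent.Lib.H82OF.PM1
import Pool.Agent.Lib.H82OF.CE

/-!
# Project H82OG, chunk PG1: the conditional expectation of the correlations
-/

open MeasureTheory Filter Topology Finset ProbabilityTheory
open scoped ENNReal ComplexConjugate Matrix

namespace Pool.Agent.Lib.H82OG

open Pool.Agent.Lib.H22M Pool.Agent.Lib.H82T Pool.Agent.Lib.H82OT Pool.Agent.Lib.H82OF

section

variable {Z K : Type*} [CommGroup Z] [TopologicalSpace Z] [IsTopologicalGroup Z]
  [CompactSpace Z] [T2Space Z] [SecondCountableTopology Z] [MeasurableSpace Z] [BorelSpace Z]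
  [Group K] [TopologicalSpace K] [IsTopologicalGroup K] [CompactSpace K] [T2Space K]
  [SecondCountableTopology K] [MeasurableSpace K] [BorelSpace K]

private theorem pg1_cond {Y B W : Type*} [MeasurableSpace B] [MeasurableSpace W]
    [MeasurableSpace Y] {m : Measure Y} [IsProbabilityMeasure m] (mb : Measure B)
    [IsProbabilityMeasure mb] (P : Y → B) (hP : MeasurePreserving P m mb) (π : B → W)
    (hπ : Measurable π) (u : B → ℂ) (hu : BM u) (a₀ : W → ℂ) (ha₀ : BM a₀)
    (hint : ∀ h : W → ℂ, BM h → ∫ x, h (π x) * u x ∂mb = ∫ x, h (π x) * a₀ (π x) ∂mb) :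
    (fun y => a₀ (π (P y))) =ᵐ[m]
      m[fun y => u (P y)|MeasurableSpace.comap (fun y => π (P y)) inferInstance] := by
  have hm : Measurable fun y => π (P y) := hπ.comp hP.measurable
  have hle : MeasurableSpace.comap (fun y => π (P y)) inferInstance ≤
      (inferInstance : MeasurableSpace Y) := hm.comap_le
  have huP : BM fun y => u (P y) := hu.comp hP.measurable
  have ha0π : BM fun x => a₀ (π x) := ha₀.comp hπ
  have ha0P : BM fun y => a₀ (π (P y)) := ha₀.comp hm
  refine ae_eq_condExp_of_forall_setIntegral_eq hle huP.integrable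
    (fun s _ _ => ha0P.integrable.integrableOn) ?_ ?_
  · rintro s ⟨A, hA, rfl⟩ _
    have hA' : MeasurableSet (π ⁻¹' A) := hπ hA
    have key : ∀ v : B → ℂ, BM v →
        ∫ y in (fun y => π (P y)) ⁻¹' A, v (P y) ∂m = ∫ x in π ⁻¹' A, v x ∂mb := by
      intro v hv
      rw [← hP.map_eq]
      rw [setIntegral_map hA' ?_ hP.measurable.aemeasurable]
      · rfl
      · rw [hP.map_eq]
        exact hv.1.aestronglyMeasurable
    have h1 := key (fun x => a₀ (π x)) ha0π
    have h2 := key u hu
    have h3 : ∫ x in π ⁻¹' A, a₀ (π x) ∂mb = ∫ x in π ⁻¹' A, u x ∂mb := by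
      have hh : BM (A.indicator fun _ : W => (1 : ℂ)) := by
        refine ⟨measurable_const.indicator hA, 1, fun w => ?_⟩
        by_cases hw : w ∈ A
        · rw [Set.indicator_of_mem hw]
          simp
        · rw [Set.indicator_of_notMem hw]
          simp
      have h4 := hint _ hh
      have h5 : ∀ v : B → ℂ, ∫ x, (A.indicator (fun _ : W => (1 : ℂ)) (π x)) * v x ∂mb =
          ∫ x in π ⁻¹' A, v x ∂mb := by
        intro v
        rw [← integral_indicator hA']
        refine integral_congr_ae (ae_of_all _ fun x => ?_)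
        by_cases hx : π x ∈ A
        · have hx' : x ∈ π ⁻¹' A := hx
          simp only [Set.indicator_of_mem hx, Set.indicator_of_mem hx', one_mul]
        · have hx' : x ∉ π ⁻¹' A := hx
          simp only [Set.indicator_of_notMem hx, Set.indicator_of_notMem hx', zero_mul]
      rw [h5, h5] at h4
      exact h4.symm
    rw [h1, h2, h3]
  · have h4 : Measurable[MeasurableSpace.comap (fun y => π (P y)) inferInstance]
        fun y => a₀ (π (P y)) := ha₀.1.comp (comap_measurable fun y => π (P y))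
    exact (h4.stronglyMeasurable).aestronglyMeasurable

/-- Port of `aa_zero_part` (`H82OF/PM1.lean`) to a general base. Proof. `a₀` = the function of
`exists_cond` (`H82OF/CE.lean`) for the measure `mb`, the map `π` and `f = aa T Ψ G n j` (`aa_bm`,
`H82OF/PM1.lean`). The last equality: by `aa_condExp` (`H82OT/EV3.lean`) and `aa_comp` (`H82OF/PM1.lean`) the
conditional expectation of the correlation given `comap P` is `(aa T Ψ G n j) ∘ P`, and by the tower
property the one given `comap (π ∘ P)` is `a₀ ∘ π ∘ P` (`P` carries `m` to `mb`). -/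
theorem aa_zero_partG {Y B W : Type*} [MeasurableSpace Y] [MeasurableSpace B]
    [MeasurableSpace W] {m : Measure Y} [IsProbabilityMeasure m] (R : Y ≃ᵐ Y)
    (hR : MeasurePreserving R m m) {mb : Measure B} [IsProbabilityMeasure mb] (T : B → B)
    (hT : Measurable T) (P : Y → B) (hP : MeasurePreserving P m mb)
    (hPR : ∀ y, P (R y) = T (P y)) (π : B → W) (hπ : Measurable π)
    (hinv : (MeasurableSpace.comap P inferInstance).comap R =
      MeasurableSpace.comap P inferInstance)
    {e : ℕ} (Ψ : B → Matrix (Fin e) (Fin e) ℂ) (hΨ : BMM Ψ)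
    (hu : ∀ x, Ψ x * (Ψ x)ᴴ = 1) {Γ : Y → Matrix (Fin e) (Fin e) ℂ} {E : Y → Fin e → ℂ}
    (hM : IsMod (MeasurableSpace.comap P inferInstance) m R (fun y => Ψ (P y)) Γ E) (g : Y → ℂ)
    (hg : BM g) (G : B → Fin e → ℂ) (hG : BMR G) (hGΓ : ∀ y, G (P y) ᵥ* Γ y = G (P y))
    (hgG : ∀ᵐ y ∂m, g y = G (P y) ⬝ᵥ E y) (n j : ℕ) :
    ∃ a₀ : W → ℂ, BM a₀ ∧
      (∀ h : W → ℂ, BM h → ∫ x, h (π x) * aa T Ψ G n j x ∂mb = ∫ x, h (π x) * a₀ (π x) ∂mb) ∧
      ∫ x, ‖a₀ (π x)‖ ∂mb = ∫ y, ‖(m[fun x => g (R^[n] x) * conj (g (R^[j] x))|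
        MeasurableSpace.comap (fun y => π (P y)) inferInstance]) y‖ ∂m := by
  have hu1 := aa_bm T hT Ψ hΨ G hG n j
  obtain ⟨C, hC⟩ := hu1.2
  obtain ⟨a₀, ha₀m, ha₀C, -, ha₀i⟩ := exists_cond mb π hπ (aa T Ψ G n j) hu1.1 |C| (abs_nonneg C)
    fun x => (hC x).trans (le_abs_self C)
  have ha₀ : BM a₀ := ⟨ha₀m, |C|, ha₀C⟩
  refine ⟨a₀, ha₀, ha₀i, ?_⟩
  have hle : MeasurableSpace.comap P inferInstance ≤ (inferInstance : MeasurableSpace Y) :=
    hP.measurable.comap_le
  have hZB : MeasurableSpace.comap (fun y => π (P y)) inferInstance ≤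
      MeasurableSpace.comap P inferInstance := by
    have h1 : Measurable[MeasurableSpace.comap P inferInstance] fun y => π (P y) :=
      hπ.comp (comap_measurable P)
    exact h1.comap_le
  choose! CG hCG using fun i => (hG i).2
  have hF : RowB (MeasurableSpace.comap P inferInstance) fun y => G (P y) := by
    refine ⟨fun i => (hG i).1.comp (comap_measurable P), ∑ i, |CG i|, fun y i => ?_⟩
    refine (hCG i (P y)).trans ((le_abs_self _).trans ?_)
    exact Finset.single_le_sum (f := fun i => |CG i|) (fun i _ => abs_nonneg _)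
      (Finset.mem_univ i)
  have h1 := aa_condExp (MeasurableSpace.comap P inferInstance) hle hR hinv hM
    (fun y => G (P y)) hF hGΓ n j
  have hgn := ((hR.iterate n).quasiMeasurePreserving).ae hgG
  have hgj := ((hR.iterate j).quasiMeasurePreserving).ae hgG
  have h2 : (fun x => g (R^[n] x) * conj (g (R^[j] x))) =ᵐ[m]
      fun y => (G (P (R^[n] y)) ⬝ᵥ E (R^[n] y)) * conj (G (P (R^[j] y)) ⬝ᵥ E (R^[j] y)) := by
    filter_upwards [hgn, hgj] with y h1 h2
    rw [h1, h2]
  have h3 : m[fun x => g (R^[n] x) * conj (g (R^[j] x))|MeasurableSpace.comap P inferInstance]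
      =ᵐ[m] fun y => aa T Ψ G n j (P y) := by
    refine (condExp_congr_ae h2).trans (h1.trans ?_)
    exact ae_of_all _ fun y => aa_comp R T P hPR Ψ G n j y
  have h4 : m[fun x => g (R^[n] x) * conj (g (R^[j] x))|
        MeasurableSpace.comap (fun y => π (P y)) inferInstance] =ᵐ[m]
      fun y => a₀ (π (P y)) := by
    refine (condExp_condExp_of_le hZB hle).symm.trans ((condExp_congr_ae h3).trans ?_)
    exact (pg1_cond mb P hP π hπ _ hu1 a₀ ha₀ ha₀i).symm
  have h5 : ∫ y, ‖(m[fun x => g (R^[n] x) * conj (g (R^[j] x))|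
        MeasurableSpace.comap (fun y => π (P y)) inferInstance]) y‖ ∂m =
      ∫ y, ‖a₀ (π (P y))‖ ∂m := by
    refine integral_congr_ae ?_
    filter_upwards [h4] with y hy
    rw [hy]
  rw [h5]
  have ha0π : BM fun x => a₀ (π x) := ha₀.comp hπ
  rw [← hP.map_eq, integral_map hP.measurable.aemeasurable]
  rw [hP.map_eq]
  exact ha0π.1.norm.aestronglyMeasurable

end

end Pool.Agent.Lib.H82OG
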