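import Pool.Agent.Lib.H82OG.Defs
import Pool.Agent.Lib.H82OF.XK1
import Pool.Agent.Lib.H82OF.XK2
import Pool.Agent.Lib.H82OF.XK3
import Pool.Agent.Lib.H22M.JB

/-!
# Project H82OG, chunk PG2: the kernel upstairs
-/

open MeasureTheory Filter Topology Finset ProbabilityTheory
open scoped ENNReal ComplexConjugate Matrix

namespace Pool.Agent.Lib.H82OG

open Pool.Agent.Lib.H22M Pool.Agent.Lib.H82T Pool.Agent.Lib.H82OT Pool.Agent.Lib.H82OF

private theorem PG2_ver {Ω : Type*} (𝒢 : MeasurableSpace Ω) [mΩ : MeasurableSpace Ω]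
    (ν : Measure Ω) [IsProbabilityMeasure ν] (h𝒢 : 𝒢 ≤ mΩ) (Y : Ω → ℂ) (hY : BM Y) :
    ∃ L : Ω → ℂ, BM L ∧ L =ᵐ[ν] ν[Y|𝒢] ∧ l2 ν L ≤ l2 ν Y ∧
      ∀ f : Ω → ℂ, Measurable[𝒢] f → (∃ C' : ℝ, ∀ᵐ ω ∂ν, ‖f ω‖ ≤ C') →
        ∫ ω, f ω * Y ω ∂ν = ∫ ω, f ω * L ω ∂ν := by
  obtain ⟨hm, C, hC⟩ := hY
  obtain ⟨g, hg1, hg2, hg3, hg4⟩ := exists_version 𝒢 ν h𝒢 Y hm (max C 0) (le_max_right _ _)
    (Eventually.of_forall fun ω => (hC ω).trans (le_max_left _ _))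
  refine ⟨g, ⟨hg1.mono h𝒢 le_rfl, _, hg2⟩, hg3, ?_, hg4⟩
  rw [Pool.Agent.Lib.H22M.l2_congr hg3]
  exact l2_condExp_le 𝒢 ν h𝒢 Y ⟨hm, C, hC⟩

private theorem PG2_cs {Ω : Type*} [MeasurableSpace Ω] (ν : Measure Ω) [IsProbabilityMeasure ν]
    {d : ℕ} (f g : Fin d → Ω → ℂ) (hf : ∀ i, BM (f i)) (hg : ∀ i, BM (g i)) :
    ‖∑ i, ∫ w, f i w * g i w ∂ν‖ ^ 2 ≤ (∑ i, l2 ν (f i) ^ 2) * ∑ i, l2 ν (g i) ^ 2 := by
  have h1 : ‖∑ i, ∫ w, f i w * g i w ∂ν‖ ≤ ∑ i, l2 ν (f i) * l2 ν (g i) :=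
    (norm_sum_le _ _).trans (Finset.sum_le_sum fun i _ =>
      Pool.Agent.Lib.H82OT.norm_integral_mul_le ν _ _ (hf i) (hg i))
  exact (pow_le_pow_left₀ (norm_nonneg _) h1 2).trans (Finset.sum_mul_sq_le_sq_mul_sq _ _ _)

private theorem PG2_conj {Ω : Type*} [MeasurableSpace Ω] (ν : Measure Ω) (f : Ω → ℂ) :
    l2 ν (fun w => conj (f w)) = l2 ν f := by
  unfold l2
  simp only [RCLike.norm_conj]

/-- The iterates and the iterated cocycle upstairs. -/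
private theorem PG2_iter {B B' : Type*} [MeasurableSpace B] [MeasurableSpace B']
    {mb' : Measure B'} {T : B → B} {T' : B' → B'} (hT' : MeasurePreserving T' mb' mb')
    {θ : B' → B} (hθT : ∀ᵐ x ∂mb', θ (T' x) = T (θ x)) {d : ℕ}
    (Ψ : B → Matrix (Fin d) (Fin d) ℂ) (n : ℕ) :
    ∀ᵐ x ∂mb', θ (T'^[n] x) = T^[n] (θ x) ∧
      cm T' (fun x => Ψ (θ x)) n x = cm T Ψ n (θ x) := by
  induction n with
  | zero => exact ae_of_all _ fun x => ⟨rfl, rfl⟩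
  | succ n ih =>
    filter_upwards [ih, (hT'.iterate n).quasiMeasurePreserving.ae hθT] with x h1 h2
    refine ⟨?_, ?_⟩
    · rw [Function.iterate_succ_apply', h2, h1.1, Function.iterate_succ_apply']
    · show Ψ (θ (T'^[n] x)) * cm T' (fun x => Ψ (θ x)) n x = Ψ (T^[n] (θ x)) * cm T Ψ n (θ x)
      rw [h1.1, h1.2]

/-- Port of `pair_kernel` (`H82OF/XK3.lean`). Proof. `X₀` from `exists_X` (`H82OF/XK1.lean`) for `P, T`; put
`X₁ w = X₀ (θ w.1, θ w.2)` on `B' × B'`. `ρ'` is carried to `ρ.map (P × P)` by `θ × θ`, so `X₁` satisfies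
`X₁(T'^[p] w.1, T'^[q] w.2) = cm T' (Ψ ∘ θ) p w.1 * X₁ w * (cm T' (Ψ' ∘ θ) q w.2)ᴴ` for `ρ'`-a.e. `w`
(`θ (T'^[n] x) = T^[n] (θ x)` and `cm T' (Ψ ∘ θ) n x = cm T Ψ n (θ x)` for `mb'`-a.e. `x`, marginals of `ρ'`).
`X` from `exists_kernel_square` (`H82OF/XK2.lean`) for `T'`, `ρ'`, `σ`, `X₁`. The two inequalities as in
`pair_kernel`, with all integrals over `ρ.map (P × P)` written as integrals over `ρ'`. -/
theorem pair_kernel_lift {Y B B' : Type*} [MeasurableSpace Y] [MeasurableSpace B] [MeasurableSpace B']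
    [StandardBorelSpace B'] {m : Measure Y}
    [IsProbabilityMeasure m] {mb : Measure B} [IsProbabilityMeasure mb] {mb' : Measure B'}
    [IsProbabilityMeasure mb'] (R : Y ≃ᵐ Y) (hR : MeasurePreserving R m m)
    (T : B ≃ᵐ B) (hT : MeasurePreserving T mb mb) (T' : B' ≃ᵐ B')
    (hT' : MeasurePreserving T' mb' mb') {P : Y → B}
    (hP : MeasurePreserving P m mb) (hPR : ∀ y, P (R y) = T (P y)) {θ : B' → B}
    (hθ : MeasurePreserving θ mb' mb) (hθT : ∀ᵐ x ∂mb', θ (T' x) = T (θ x))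
    {d e : ℕ} {Ψ : B → Matrix (Fin d) (Fin d) ℂ} {Ψ' : B → Matrix (Fin e) (Fin e) ℂ}
    (hΨ : BMM Ψ) (hΨ' : BMM Ψ') (hu : ∀ x, Ψ x * (Ψ x)ᴴ = 1) (hu' : ∀ x, Ψ' x * (Ψ' x)ᴴ = 1)
    (E : Y → Fin d → ℂ) (E' : Y → Fin e → ℂ) (hE : BMR E) (hE' : BMR E')
    (hER : ∀ᵐ y ∂m, E (R y) = Ψ (P y) *ᵥ E y) (hER' : ∀ᵐ y ∂m, E' (R y) = Ψ' (P y) *ᵥ E' y)
    (CE CE' : ℝ) (hCE0 : 0 ≤ CE) (hCE0' : 0 ≤ CE') (hCE : ∀ y, ∑ i, ‖E y i‖ ^ 2 ≤ CE)
    (hCE' : ∀ y, ∑ i, ‖E' y i‖ ^ 2 ≤ CE')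
    {p q : ℕ} {ρ : Measure (Y × Y)} (hρ : IsJoin m R p q ρ) {ρ' σ : Measure (B' × B')}
    (hρ' : IsJoin mb' T' p q ρ') (hlift : ρ'.map (Prod.map θ θ) = ρ.map (Prod.map P P))
    (hσ : IsRel T' p q ρ' σ) :
    ∃ X : B' × B' → Matrix (Fin e) (Fin e) ℂ, BMM X ∧
      (∀ w i j, ‖X w i j‖ ≤ d * (CE * CE')) ∧
      (∀ᵐ w ∂σ, ((tw T' (fun x => Ψ' (θ x)))^[q] X) w = X w) ∧
      (∀ (F : B → Fin d → ℂ) (G : B → Fin e → ℂ), BMR F → BMR G →
        ‖∫ z, (F (P z.1) ⬝ᵥ E z.1) * conj (G (P z.2) ⬝ᵥ E' z.2) ∂ρ‖ ^ 2 ≤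
          (∫ x, ∑ i, ‖F x i‖ ^ 2 ∂mb) * ‖QQ σ X (fun x => G (θ x)) (fun x => G (θ x))‖) ∧
      ∀ G H : B → Fin e → ℂ, BMR G → BMR H →
        ‖QQ σ X (fun x => G (θ x)) (fun x => H (θ x))‖ ≤
        CE * (l2 m (fun y => G (P y) ⬝ᵥ E' y) * l2 m (fun y => H (P y) ⬝ᵥ E' y)) := by
  have hjB : IsJoin mb T p q (ρ.map (Prod.map P P)) := isJoin_map T.measurable hP hPR hρ
  haveI := hρ.prob
  haveI := hjB.prob
  haveI := hσ.prob
  haveI := hρ'.prob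
  have hθm : Measurable θ := hθ.measurable
  have hθθ : MeasurePreserving (Prod.map θ θ) ρ' (ρ.map (Prod.map P P)) :=
    ⟨hθm.prodMap hθm, hlift⟩
  obtain ⟨X, hX, hXC, hXH, hXS, hXl⟩ := exists_X R hR T hP hPR hΨ hΨ' hu hu' E E' hE hE' hER hER'
    CE CE' hCE hCE' hρ
  have hX1 : BMM fun w : B' × B' => X (θ w.1, θ w.2) := fun i j => (hX i j).comp hθθ.measurable
  have hΨθ : BMM fun x => Ψ (θ x) := fun i j => (hΨ i j).comp hθm
  have hΨθ' : BMM fun x => Ψ' (θ x) := fun i j => (hΨ' i j).comp hθm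
  have hfst : MeasurePreserving (Prod.fst : B' × B' → B') ρ' mb' := ⟨measurable_fst, hρ'.fst⟩
  have hsnd : MeasurePreserving (Prod.snd : B' × B' → B') ρ' mb' := ⟨measurable_snd, hρ'.snd⟩
  have hX1S : ∀ᵐ w ∂ρ', X (θ ((⇑T')^[p] w.1), θ ((⇑T')^[q] w.2)) =
      cm T' (fun x => Ψ (θ x)) p w.1 * X (θ w.1, θ w.2) *
        (cm T' (fun x => Ψ' (θ x)) q w.2)ᴴ := by
    filter_upwards [hθθ.quasiMeasurePreserving.ae hXS,
      hfst.quasiMeasurePreserving.ae (PG2_iter hT' hθT Ψ p),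
      hsnd.quasiMeasurePreserving.ae (PG2_iter hT' hθT Ψ' q)] with w h1 h2 h3
    rw [h2.1, h2.2, h3.1, h3.2]
    exact h1
  obtain ⟨X', hX', hXC', hXt, hXQ⟩ := exists_kernel_square T' hT' hρ' hσ hΨθ hΨθ'
    (fun x => hu (θ x)) (fun x => hu' (θ x)) (fun w : B' × B' => X (θ w.1, θ w.2)) hX1
    (Real.sqrt (CE * CE')) (Real.sqrt_nonneg _) (fun w i j => hXC _ i j) hX1S
  have hGθ : ∀ G : B → Fin e → ℂ, BMR G → BMR fun x => G (θ x) := fun G hG i =>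
    (hG i).comp hθm
  have hY : ∀ G : B → Fin e → ℂ, BMR G → ∀ i,
      BM fun w : B' × B' => ∑ j, X (θ w.1, θ w.2) i j * conj (G (θ w.2) j) := fun G hG i =>
    BM.sum _ fun j _ => (hX1 i j).mul ((hGθ G hG j).comp measurable_snd).conj
  have hver : ∀ G : B → Fin e → ℂ, BMR G → ∃ L : Fin d → B' × B' → ℂ, (∀ i, BM (L i)) ∧
      (∀ i, L i =ᵐ[ρ'] ρ'[fun w => ∑ j, X (θ w.1, θ w.2) i j *
        conj (G (θ w.2) j)|GG T' p q ρ']) ∧
      (∀ i, l2 ρ' (L i) ≤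
        l2 ρ' (fun w => ∑ j, X (θ w.1, θ w.2) i j * conj (G (θ w.2) j))) ∧
      ∀ i (f : B' × B' → ℂ), Measurable[GG T' p q ρ'] f →
        (∃ C' : ℝ, ∀ᵐ ω ∂ρ', ‖f ω‖ ≤ C') →
        ∫ w, f w * (∑ j, X (θ w.1, θ w.2) i j * conj (G (θ w.2) j)) ∂ρ' =
          ∫ w, f w * L i w ∂ρ' := by
    intro G hG
    choose L h1 h2 h3 h4 using fun i => PG2_ver (GG T' p q ρ') ρ' (GG_le _ _ _ _) _ (hY G hG i)
    exact ⟨L, h1, h2, h3, h4⟩
  have hQ : ∀ G H : B → Fin e → ℂ, BMR G → BMR H → ∀ L M : Fin d → B' × B' → ℂ,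
      (∀ i, BM (L i)) → (∀ i, BM (M i)) →
      (∀ i, L i =ᵐ[ρ'] ρ'[fun w => ∑ j, X (θ w.1, θ w.2) i j *
        conj (G (θ w.2) j)|GG T' p q ρ']) →
      (∀ i, M i =ᵐ[ρ'] ρ'[fun w => ∑ j, X (θ w.1, θ w.2) i j *
        conj (H (θ w.2) j)|GG T' p q ρ']) →
      QQ σ X' (fun x => G (θ x)) (fun x => H (θ x)) = ∑ i, ∫ w, conj (L i w) * M i w ∂ρ' := by
    intro G H hG hH L M hLb hMb hL hM
    rw [hXQ _ _ (hGθ G hG) (hGθ H hH),
      ← integral_finset_sum _ fun i _ => ((hLb i).conj.mul (hMb i)).integrable]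
    refine integral_congr_ae ?_
    filter_upwards [ae_all_iff.2 hL, ae_all_iff.2 hM] with w h1 h2
    refine Finset.sum_congr rfl fun i _ => ?_
    rw [h1 i, h2 i]
  refine ⟨X', hX', ?_, hXt, ?_, ?_⟩
  · intro w i j
    have h1 := hXC' w i j
    rwa [Real.sq_sqrt (mul_nonneg hCE0 hCE0')] at h1
  · intro F G hF hG
    obtain ⟨L, hLb, hL, hLl, hLf⟩ := hver G hG
    have hFb : ∀ i, BM fun w : B × B => F w.1 i := fun i => (hF i).comp measurable_fst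
    have hFθ : ∀ i, BM fun w : B' × B' => F (θ w.1) i := fun i => (hFb i).comp hθθ.measurable
    have h1 : ∫ z, (F (P z.1) ⬝ᵥ E z.1) * conj (G (P z.2) ⬝ᵥ E' z.2) ∂ρ =
        ∑ i, ∫ w, F (θ w.1) i * L i w ∂ρ' := by
      have h2 : ∀ z : Y × Y, (F (P z.1) ⬝ᵥ E z.1) * conj (G (P z.2) ⬝ᵥ E' z.2) =
          ∑ i, ∑ j, (F (P z.1) i * conj (G (P z.2) j)) * (E z.1 i * conj (E' z.2 j)) := by
        intro z
        rw [dotProduct, dotProduct, map_sum, Finset.sum_mul_sum]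
        refine Finset.sum_congr rfl fun i _ => Finset.sum_congr rfl fun j _ => ?_
        rw [map_mul]
        ring
      have h3 : ∀ i j, BM fun z : Y × Y =>
          (F (P z.1) i * conj (G (P z.2) j)) * (E z.1 i * conj (E' z.2 j)) := fun i j =>
        (((hF i).comp (hP.measurable.comp measurable_fst)).mul
          ((hG j).comp (hP.measurable.comp measurable_snd)).conj).mul
          (((hE i).comp measurable_fst).mul ((hE' j).comp measurable_snd).conj)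
      simp_rw [h2]
      rw [integral_finset_sum _ fun i _ => (BM.sum _ fun j _ => h3 i j).integrable]
      refine Finset.sum_congr rfl fun i _ => ?_
      rw [integral_finset_sum _ fun j _ => (h3 i j).integrable]
      have h4 : ∀ j, ∫ z, (F (P z.1) i * conj (G (P z.2) j)) * (E z.1 i * conj (E' z.2 j)) ∂ρ =
          ∫ w, (F w.1 i * conj (G w.2 j)) * X w i j ∂(ρ.map (Prod.map P P)) := fun j =>
        hXH (fun w => F w.1 i * conj (G w.2 j)) i j ((hFb i).mul ((hG j).comp measurable_snd).conj)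
      have h4' : ∀ j, ∫ w, (F w.1 i * conj (G w.2 j)) * X w i j ∂(ρ.map (Prod.map P P)) =
          ∫ w, (F (θ w.1) i * conj (G (θ w.2) j)) * X (θ w.1, θ w.2) i j ∂ρ' := fun j => by
        rw [← hlift, integral_map hθθ.measurable.aemeasurable
          (((hFb i).mul ((hG j).comp measurable_snd).conj).mul (hX i j)).1.aestronglyMeasurable]
        rfl
      have h4'' : ∀ j, BM fun w : B' × B' =>
          (F (θ w.1) i * conj (G (θ w.2) j)) * X (θ w.1, θ w.2) i j := fun j =>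
        ((hFθ i).mul ((hGθ G hG j).comp measurable_snd).conj).mul (hX1 i j)
      rw [Finset.sum_congr rfl fun j _ => (h4 j).trans (h4' j), ← integral_finset_sum _ fun j _ =>
        (h4'' j).integrable]
      have hFm : Measurable[GG T' p q ρ'] (fun w : B' × B' => F (θ w.1) i) := by
        have h5 : Measurable[MeasurableSpace.comap Prod.fst inferInstance ⊔
            aeInv ρ' (Prod.map ((⇑T')^[p]) ((⇑T')^[q]))]
            (fun w : B' × B' => F (θ w.1) i) :=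
          Measurable.mono (((hF i).1.comp hθm).comp (comap_measurable Prod.fst)) le_sup_left le_rfl
        exact h5
      rw [← hLf i (fun w => F (θ w.1) i) hFm]
      · refine integral_congr_ae (Eventually.of_forall fun w => ?_)
        simp only
        rw [Finset.mul_sum]
        refine Finset.sum_congr rfl fun j _ => ?_
        ring
      · obtain ⟨C', hC'⟩ := (hFθ i).2
        exact ⟨C', Eventually.of_forall hC'⟩
    have h6 : ‖QQ σ X' (fun x => G (θ x)) (fun x => G (θ x))‖ = ∑ i, l2 ρ' (L i) ^ 2 := by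
      rw [hQ G G hG hG L L hLb hLb hL hL]
      have h7 : ∀ i, ∫ w, conj (L i w) * L i w ∂ρ' = ((l2 ρ' (L i) ^ 2 : ℝ) : ℂ) := fun i => by
        rw [← integral_mul_conj]
        exact integral_congr_ae (Eventually.of_forall fun w => mul_comm _ _)
      rw [Finset.sum_congr rfl fun i _ => h7 i, ← Complex.ofReal_sum, Complex.norm_real,
        Real.norm_of_nonneg (Finset.sum_nonneg fun i _ => sq_nonneg _)]
    have h8 : ∫ x, ∑ i, ‖F x i‖ ^ 2 ∂mb =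
        ∑ i, l2 ρ' (fun w => F (θ w.1) i) ^ 2 := by
      rw [integral_finset_sum _ fun i _ => ?_]
      · refine Finset.sum_congr rfl fun i _ => ?_
        rw [← Pool.Agent.Lib.H82OT.l2_sq]
        congr 1
        have h9 : MeasurePreserving (fun w : B' × B' => θ w.1) ρ' mb := hθ.comp hfst
        conv_lhs => rw [← h9.map_eq]
        exact (l2_map h9.measurable (hF i).1)
      · obtain ⟨hm, C', hC'⟩ := hF i
        refine Integrable.of_bound (hm.norm.pow_const 2).aestronglyMeasurable (C' ^ 2)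
          (Eventually.of_forall fun x => ?_)
        rw [Real.norm_of_nonneg (sq_nonneg _)]
        exact pow_le_pow_left₀ (norm_nonneg _) (hC' x) 2
    rw [h1, h6, h8]
    exact PG2_cs ρ' (fun i w => F (θ w.1) i) L hFθ hLb
  · intro G H hG hH
    obtain ⟨L, hLb, hL, hLl, hLf⟩ := hver G hG
    obtain ⟨M, hMb, hM, hMl, hMf⟩ := hver H hH
    have key : ∀ (G : B → Fin e → ℂ) (L : Fin d → B' × B' → ℂ), BMR G →
        (∀ i, l2 ρ' (L i) ≤
        l2 ρ' (fun w => ∑ j, X (θ w.1, θ w.2) i j * conj (G (θ w.2) j))) →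
        ∑ i, l2 ρ' (L i) ^ 2 ≤ CE * l2 m (fun y => G (P y) ⬝ᵥ E' y) ^ 2 := by
      intro G L hG hL
      refine le_trans (Finset.sum_le_sum fun i _ => ?_) (hXl G hG)
      rw [← Pool.Agent.Lib.H82OT.l2_sq, ← hlift,
        l2_map hθθ.measurable (BM.sum _ fun j _ => (hX i j).mul
          ((hG j).comp measurable_snd).conj).1]
      exact pow_le_pow_left₀ (l2_nonneg _ _) (hL i) 2
    have h1 := PG2_cs ρ' (fun i w => conj (L i w)) M (fun i => (hLb i).conj) hMb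
    rw [← hQ G H hG hH L M hLb hMb hL hM] at h1
    simp_rw [PG2_conj] at h1
    have h2 := key G L hG hLl
    have h3 := key H M hH hMl
    have h4 : ‖QQ σ X' (fun x => G (θ x)) (fun x => H (θ x))‖ ^ 2 ≤
        (CE * (l2 m (fun y => G (P y) ⬝ᵥ E' y) * l2 m (fun y => H (P y) ⬝ᵥ E' y))) ^ 2 := by
      refine h1.trans ((mul_le_mul h2 h3 (Finset.sum_nonneg fun i _ => sq_nonneg _)
        (mul_nonneg hCE0 (sq_nonneg _))).trans (le_of_eq ?_))
      ring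
    exact (pow_le_pow_iff_left₀ (norm_nonneg _)
      (mul_nonneg hCE0 (mul_nonneg (l2_nonneg _ _) (l2_nonneg _ _))) two_ne_zero).1 h4

end Pool.Agent.Lib.H82OG
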