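import Pool.Agent.Lib.H82OG.PG2
import Pool.Agent.Lib.H82OF.CQ2
import Pool.Agent.Lib.H82OF.PM1

/-!
# Project H82OG, chunk PG3: the bound for one joining
-/

open MeasureTheory Filter Topology Finset ProbabilityTheory
open scoped ENNReal ComplexConjugate Matrix

namespace Pool.Agent.Lib.H82OG

open Pool.Agent.Lib.H22M Pool.Agent.Lib.H82T Pool.Agent.Lib.H82OT Pool.Agent.Lib.H82OF

private theorem pg3_evr {B B' : Type*} [MeasurableSpace B] [MeasurableSpace B']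
    {mb' : Measure B'} {d : ℕ} (T' : B' → B') (hT' : MeasurePreserving T' mb' mb') (T : B → B)
    (θ : B' → B) (hθT : ∀ᵐ x ∂mb', θ (T' x) = T (θ x)) (Ψ : B → Matrix (Fin d) (Fin d) ℂ)
    (G : B → Fin d → ℂ) (n : ℕ) :
    ∀ᵐ x ∂mb', ((evr T' (fun y => Ψ (θ y)))^[n] (fun y => G (θ y))) x =
      ((evr T Ψ)^[n] G) (θ x) := by
  induction n with
  | zero => exact Eventually.of_forall fun x => rfl
  | succ n ih =>
    have h1 := hT'.quasiMeasurePreserving.ae ih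
    filter_upwards [h1, hθT] with x hx hx'
    rw [Function.iterate_succ_apply', Function.iterate_succ_apply']
    unfold evr at hx ⊢
    rw [hx, hx']

private theorem pg3_aa {B B' : Type*} [MeasurableSpace B] [MeasurableSpace B']
    {mb' : Measure B'} {d : ℕ} (T' : B' → B') (hT' : MeasurePreserving T' mb' mb') (T : B → B)
    (θ : B' → B) (hθT : ∀ᵐ x ∂mb', θ (T' x) = T (θ x)) (Ψ : B → Matrix (Fin d) (Fin d) ℂ)
    (G : B → Fin d → ℂ) (n j : ℕ) :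
    ∀ᵐ x ∂mb', aa T' (fun y => Ψ (θ y)) (fun y => G (θ y)) n j x = aa T Ψ G n j (θ x) := by
  filter_upwards [pg3_evr T' hT' T θ hθT Ψ G n, pg3_evr T' hT' T θ hθT Ψ G j] with x h1 h2
  unfold aa
  rw [h1, h2]

/-- Port of `pair_bound` (`H82OF/PM2.lean`). Proof. `X` from `pair_kernel_lift` (PG2), `γ` from `central`
(`H82OF/CQ2.lean`) for `T'`, `Ψ' ∘ θ`, `X`; `aa T' (Ψ' ∘ θ) (G ∘ θ) n j x = aa T Ψ' G n j (θ x)` for
`mb'`-almost every `x` (as `aa_comp` in `H82OF/PM1.lean`, with the relation `θ (T' x) = T (θ x)` almost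
everywhere), and the marginals of `σ` are `mb'` (`relSq_marginals`, `H22M/JA.lean`, used in `H82OF/LJ5.lean`). -/
theorem pair_bound_lift {Y B B' : Type*} [MeasurableSpace Y] [MeasurableSpace B] [MeasurableSpace B']
    [StandardBorelSpace B'] {m : Measure Y}
    [IsProbabilityMeasure m] {mb : Measure B} [IsProbabilityMeasure mb] {mb' : Measure B'}
    [IsProbabilityMeasure mb'] (R : Y ≃ᵐ Y) (hR : MeasurePreserving R m m)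
    (T : B ≃ᵐ B) (hT : MeasurePreserving T mb mb) (T' : B' ≃ᵐ B')
    (hT' : MeasurePreserving T' mb' mb') {P : Y → B}
    (hP : MeasurePreserving P m mb) (hPR : ∀ y, P (R y) = T (P y)) {θ : B' → B}
    (hθ : MeasurePreserving θ mb' mb) (hθT : ∀ᵐ x ∂mb', θ (T' x) = T (θ x))
    {d e : ℕ} {Ψ : B → Matrix (Fin d) (Fin d) ℂ} {Ψ' : B → Matrix (Fin e) (Fin e) ℂ}
    (hΨ : BMM Ψ) (hΨ' : BMM Ψ') (hu : ∀ x, Ψ x * (Ψ x)ᴴ = 1) (hu' : ∀ x, Ψ' x * (Ψ' x)ᴴ = 1)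
    (E : Y → Fin d → ℂ) (E' : Y → Fin e → ℂ) (hE : BMR E) (hE' : BMR E')
    (hER : ∀ᵐ y ∂m, E (R y) = Ψ (P y) *ᵥ E y) (hER' : ∀ᵐ y ∂m, E' (R y) = Ψ' (P y) *ᵥ E' y)
    (CE CE' CF : ℝ) (hCE0 : 0 ≤ CE) (hCE0' : 0 ≤ CE') (hCF0 : 0 ≤ CF)
    (hCE : ∀ y, ∑ i, ‖E y i‖ ^ 2 ≤ CE) (hCE' : ∀ y, ∑ i, ‖E' y i‖ ^ 2 ≤ CE')
    (F : B → Fin d → ℂ) (hF : BMR F) (hCF : ∀ x, ∑ i, ‖F x i‖ ^ 2 ≤ CF)
    (G₁ G₂ : B → Fin e → ℂ) (hG₁ : BMR G₁) (hG₂ : BMR G₂)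
    {p q : ℕ} {ρ : Measure (Y × Y)} (hρ : IsJoin m R p q ρ) {ρ' σ : Measure (B' × B')}
    (hρ' : IsJoin mb' T' p q ρ') (hlift : ρ'.map (Prod.map θ θ) = ρ.map (Prod.map P P))
    (hσ : IsRel T' p q ρ' σ)
    (hσT : MeasurePreserving (Prod.map T' T') σ σ) (N : ℕ) (hN : 1 ≤ N) :
    ∃ γ : ℕ → ℕ → B' × B' → ℂ, (∀ n j, BM (γ n j) ∧
        (∀ w, ‖γ n j w‖ ≤ (e : ℝ) ^ 2 * (d * (CE * CE')) ^ 2) ∧
        ∀ᵐ w ∂σ, γ n j (Prod.map (T'^[q]) (T'^[q]) w) = γ n j w) ∧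
      ∃ S : ℝ, 0 ≤ S ∧ S ^ 2 * (N : ℝ) ^ 2 ≤ (e : ℝ) ^ 2 * ∑ n ∈ range N, ∑ j ∈ range N,
          ‖∫ w, γ n j w * (aa T Ψ' G₂ n j (θ w.1) * conj (aa T Ψ' G₁ n j (θ w.2))) ∂σ‖ ∧
        ‖∫ z, (F (P z.1) ⬝ᵥ E z.1) * conj (G₂ (P z.2) ⬝ᵥ E' z.2) ∂ρ‖ ^ 2 ≤
          CF * (S + CE * (l2 m (fun y => G₂ (P y) ⬝ᵥ E' y) *
            l2 m (fun y => G₂ (P y) ⬝ᵥ E' y - G₁ (P y) ⬝ᵥ E' y))) := by
  have hσ1 : IsProbabilityMeasure σ := hσ.prob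
  obtain ⟨hm1, hm2⟩ := relSq_marginals (⇑T') hρ' hσ.int
  have hfst : MeasurePreserving Prod.fst σ mb' := ⟨measurable_fst, hm1⟩
  have hsnd : MeasurePreserving Prod.snd σ mb' := ⟨measurable_snd, hm2⟩
  obtain ⟨X, hX, hXC, hXq, hK, hQ⟩ := pair_kernel_lift R hR T hT T' hT' hP hPR hθ hθT hΨ hΨ' hu hu'
    E E' hE hE' hER hER' CE CE' hCE0 hCE0' hCE hCE' hρ hρ' hlift hσ
  have hΨθ : BMM (fun x => Ψ' (θ x)) := fun i j => (hΨ' i j).comp hθ.measurable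
  obtain ⟨γ, hγ, hc⟩ := central σ T' T'.measurable hσT (fun x => Ψ' (θ x)) hΨθ
    (fun x => hu' (θ x)) X hX (d * (CE * CE')) (by positivity) hXC q hXq
  have hGθ : ∀ H : B → Fin e → ℂ, BMR H → BMR (fun x => H (θ x)) :=
    fun H hH i => (hH i).comp hθ.measurable
  have hcN : ‖QQ σ X (fun x => G₂ (θ x)) (fun x => G₁ (θ x))‖ ^ 2 * (N : ℝ) ^ 2 ≤
      (e : ℝ) ^ 2 * ∑ n ∈ range N, ∑ j ∈ range N,
        ‖∫ w, γ n j w * (aa T Ψ' G₂ n j (θ w.1) * conj (aa T Ψ' G₁ n j (θ w.2))) ∂σ‖ := by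
    have h0 := hc (fun x => G₂ (θ x)) (fun x => G₁ (θ x)) (hGθ G₂ hG₂) (hGθ G₁ hG₁) N
    have h1 : ∀ n j : ℕ, ∫ w, γ n j w * (aa T' (fun x => Ψ' (θ x)) (fun x => G₂ (θ x)) n j w.1 *
        conj (aa T' (fun x => Ψ' (θ x)) (fun x => G₁ (θ x)) n j w.2)) ∂σ =
        ∫ w, γ n j w * (aa T Ψ' G₂ n j (θ w.1) * conj (aa T Ψ' G₁ n j (θ w.2))) ∂σ := by
      intro n j
      refine integral_congr_ae ?_
      have h2 := hfst.quasiMeasurePreserving.ae (pg3_aa T' hT' T θ hθT Ψ' G₂ n j)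
      have h3 := hsnd.quasiMeasurePreserving.ae (pg3_aa T' hT' T θ hθT Ψ' G₁ n j)
      filter_upwards [h2, h3] with w hw1 hw2
      rw [hw1, hw2]
    simp only [h1] at h0
    exact h0
  refine ⟨γ, hγ, ‖QQ σ X (fun x => G₂ (θ x)) (fun x => G₁ (θ x))‖, norm_nonneg _, hcN, ?_⟩
  have hG : BMR fun x i => G₂ x i - G₁ x i := fun i => (hG₂ i).sub (hG₁ i)
  have hint : ∀ H : B → Fin e → ℂ, BMR H → Integrable
      (fun w : B' × B' => ∑ i, ∑ j, G₂ (θ w.1) i * X w i j * conj (H (θ w.2) j)) σ := by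
    intro H hH
    refine integrable_finsetSum _ fun i _ => integrable_finsetSum _ fun j _ => ?_
    exact ((((hGθ G₂ hG₂ i).comp measurable_fst).mul (hX i j)).mul
      ((hGθ H hH j).comp measurable_snd).conj).integrable
  have hlin : QQ σ X (fun x => G₂ (θ x)) (fun x => G₂ (θ x)) =
      QQ σ X (fun x => G₂ (θ x)) (fun x => G₁ (θ x)) +
      QQ σ X (fun x => G₂ (θ x)) (fun x => (fun i => G₂ (θ x) i - G₁ (θ x) i)) := by
    unfold QQ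
    rw [← integral_add (hint G₁ hG₁) (hint _ hG)]
    refine integral_congr_ae (Eventually.of_forall fun w => ?_)
    simp only
    rw [← Finset.sum_add_distrib]
    refine Finset.sum_congr rfl fun i _ => ?_
    rw [← Finset.sum_add_distrib]
    refine Finset.sum_congr rfl fun j _ => ?_
    rw [map_sub]
    ring
  have h1 : ∫ x, ∑ i, ‖F x i‖ ^ 2 ∂mb ≤ CF := by
    have h2 : ∫ x, ∑ i, ‖F x i‖ ^ 2 ∂mb ≤ ∫ _, CF ∂mb := by
      refine integral_mono_of_nonneg (Eventually.of_forall fun x => ?_) (integrable_const _)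
        (Eventually.of_forall hCF)
      exact Finset.sum_nonneg fun i _ => by positivity
    simpa using h2
  have h3 : ‖QQ σ X (fun x => G₂ (θ x)) (fun x => G₂ (θ x))‖ ≤
      ‖QQ σ X (fun x => G₂ (θ x)) (fun x => G₁ (θ x))‖ +
      CE * (l2 m (fun y => G₂ (P y) ⬝ᵥ E' y) *
      l2 m (fun y => G₂ (P y) ⬝ᵥ E' y - G₁ (P y) ⬝ᵥ E' y)) := by
    rw [hlin]
    refine (norm_add_le _ _).trans (add_le_add le_rfl ?_)
    have h4 := hQ G₂ (fun x i => G₂ x i - G₁ x i) hG₂ hG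
    have h5 : (fun y => (fun i => G₂ (P y) i - G₁ (P y) i) ⬝ᵥ E' y) =
        fun y => G₂ (P y) ⬝ᵥ E' y - G₁ (P y) ⬝ᵥ E' y := by
      funext y
      exact sub_dotProduct (G₂ (P y)) (G₁ (P y)) (E' y)
    rw [h5] at h4
    exact h4
  calc ‖∫ z, (F (P z.1) ⬝ᵥ E z.1) * conj (G₂ (P z.2) ⬝ᵥ E' z.2) ∂ρ‖ ^ 2
      ≤ (∫ x, ∑ i, ‖F x i‖ ^ 2 ∂mb) * ‖QQ σ X (fun x => G₂ (θ x)) (fun x => G₂ (θ x))‖ :=
        hK F G₂ hF hG₂
    _ ≤ CF * ‖QQ σ X (fun x => G₂ (θ x)) (fun x => G₂ (θ x))‖ :=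
        mul_le_mul_of_nonneg_right h1 (norm_nonneg _)
    _ ≤ _ := mul_le_mul_of_nonneg_left h3 hCF0

end Pool.Agent.Lib.H82OG
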