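import Pool.Agent.Lib.H82OG.PG1
import Pool.Agent.Lib.H82OG.PG3
import Pool.Agent.Lib.H82OG.OL
import Pool.Agent.Lib.H82OG.LJ6
import Pool.Agent.Lib.H82OG.SI
import Pool.Agent.Lib.H82OG.ER
import Pool.Agent.Lib.H82OF.JL2
import Pool.Agent.Lib.H82OF.XK1
import Pool.Agent.Lib.H82OT.EV1
import Pool.Agent.Lib.H82OF.PM3

/-!
# Project H82OG, chunk PG4: pairs of functions of modules
-/

open MeasureTheory Filter Topology Finset ProbabilityTheory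
open scoped ENNReal ComplexConjugate Matrix

namespace Pool.Agent.Lib.H82OG

open Pool.Agent.Lib.H22M Pool.Agent.Lib.H82T Pool.Agent.Lib.H82OT Pool.Agent.Lib.H82OF

/-- One term. -/
private theorem pg4_term {Ω B : Type*} [MeasurableSpace Ω] [MeasurableSpace B] {mb : Measure B}
    (σ : Measure Ω) [IsProbabilityMeasure σ] {u v : Ω → B} (hu : MeasurePreserving u σ mb)
    (hv : Measurable v) (J : Ω → ℂ) (hJ : BM J) (c : ℝ) (hc0 : 0 ≤ c) (hc : ∀ z, ‖J z‖ ≤ c)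
    (a a₀ b : B → ℂ) (ha : BM a) (ha₀ : BM a₀) (hb : BM b) (C : ℝ) (hC : ∀ y, ‖b y‖ ≤ C) (η : ℝ)
    (h : ‖∫ w, J w * ((a (u w) - a₀ (u w)) * conj (b (v w))) ∂σ‖ ≤ η) :
    ‖∫ w, J w * (a (u w) * conj (b (v w))) ∂σ‖ ≤ η + c * C * ∫ x, ‖a₀ x‖ ∂mb := by
  have hbz : BM fun w : Ω => conj (b (v w)) := (hb.comp hv).conj
  have ha₀1 : BM fun w : Ω => a₀ (u w) := ha₀.comp hu.measurable
  have ha1 : BM fun w : Ω => a (u w) := ha.comp hu.measurable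
  have h1 : BM fun w : Ω => J w * ((a (u w) - a₀ (u w)) * conj (b (v w))) :=
    hJ.mul ((ha1.sub ha₀1).mul hbz)
  have h2 : BM fun w : Ω => J w * (a₀ (u w) * conj (b (v w))) :=
    hJ.mul (ha₀1.mul hbz)
  have h3 : ∫ w, J w * (a (u w) * conj (b (v w))) ∂σ =
      ∫ w, J w * ((a (u w) - a₀ (u w)) * conj (b (v w))) ∂σ +
        ∫ w, J w * (a₀ (u w) * conj (b (v w))) ∂σ := by
    rw [← integral_add h1.integrable h2.integrable]
    refine integral_congr_ae (Eventually.of_forall fun w => ?_)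
    show J w * (a (u w) * conj (b (v w))) = J w * ((a (u w) - a₀ (u w)) * conj (b (v w))) +
      J w * (a₀ (u w) * conj (b (v w)))
    ring
  have h4 : ‖∫ w, J w * (a₀ (u w) * conj (b (v w))) ∂σ‖ ≤ c * C * ∫ x, ‖a₀ x‖ ∂mb := by
    have h5 : ∫ x, ‖a₀ x‖ ∂mb = ∫ w, ‖a₀ (u w)‖ ∂σ := by
      rw [← hu.map_eq, integral_map hu.measurable.aemeasurable ha₀.1.norm.aestronglyMeasurable]
    rw [h5, ← integral_const_mul]
    refine (norm_integral_le_integral_norm _).trans ?_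
    refine integral_mono h2.integrable.norm ?_ fun w => ?_
    · exact (ha₀1.integrable (m := σ)).norm.const_mul _
    · show ‖J w * (a₀ (u w) * conj (b (v w)))‖ ≤ c * C * ‖a₀ (u w)‖
      rw [norm_mul, norm_mul, RCLike.norm_conj]
      calc ‖J w‖ * (‖a₀ (u w)‖ * ‖b (v w)‖) ≤ c * (‖a₀ (u w)‖ * C) :=
            mul_le_mul (hc w) (mul_le_mul_of_nonneg_left (hC _) (norm_nonneg _))
              (mul_nonneg (norm_nonneg _) (norm_nonneg _)) hc0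
        _ = c * C * ‖a₀ (u w)‖ := by ring
  rw [h3]
  exact (norm_add_le _ _).trans (add_le_add h h4)

/-- Equal norms in `L²` for functions equal almost everywhere. -/
private theorem pg4_l2 {Y : Type*} [MeasurableSpace Y] {m : Measure Y} {f g : Y → ℂ}
    (h : ∀ᵐ y ∂m, f y = g y) : l2 m f = l2 m g := by
  unfold l2
  congr 1
  refine integral_congr_ae ?_
  filter_upwards [h] with y hy
  rw [hy]

/-- The final estimate. -/
private theorem pg4_arith (e2 C₁ T2 δ ε' S2 N2 I A : ℝ) (he : 0 ≤ e2) (hC : 0 ≤ C₁) (hT : 0 ≤ T2)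
    (hN : 0 < N2) (hε : 0 < ε') (h1 : S2 * N2 ≤ e2 * I)
    (h2 : I ≤ N2 * ((C₁ + 1) * (ε' / ((e2 + 1) * (C₁ + 1)))) + C₁ * T2 * A)
    (h3 : A ≤ δ * N2) : S2 ≤ e2 * (C₁ * T2 * δ) + ε' := by
  have h4 : (C₁ + 1) * (ε' / ((e2 + 1) * (C₁ + 1))) = ε' / (e2 + 1) := by
    field_simp
  rw [h4] at h2
  have h5 : C₁ * T2 * A ≤ C₁ * T2 * (δ * N2) :=
    mul_le_mul_of_nonneg_left h3 (mul_nonneg hC hT)
  have h6 : e2 * (ε' / (e2 + 1)) ≤ ε' := by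
    rw [mul_div_assoc', div_le_iff₀ (by linarith)]
    nlinarith
  refine le_of_mul_le_mul_right ?_ hN
  calc S2 * N2 ≤ e2 * (N2 * (ε' / (e2 + 1)) + C₁ * T2 * (δ * N2)) :=
        h1.trans (mul_le_mul_of_nonneg_left (h2.trans (by linarith)) he)
    _ = (e2 * (C₁ * T2 * δ) + e2 * (ε' / (e2 + 1))) * N2 := by ring
    _ ≤ (e2 * (C₁ * T2 * δ) + ε') * N2 :=
        mul_le_mul_of_nonneg_right (by linarith) hN.le

section

variable {Z K : Type*} [CommGroup Z] [TopologicalSpace Z] [IsTopologicalGroup Z]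
  [CompactSpace Z] [T2Space Z] [SecondCountableTopology Z] [MeasurableSpace Z] [BorelSpace Z]
  [Group K] [TopologicalSpace K] [IsTopologicalGroup K] [CompactSpace K] [T2Space K]
  [SecondCountableTopology K] [MeasurableSpace K] [BorelSpace K]

/-- Port of `mod_pair_P` (`H82OF/PM3.lean`). Differences: `a₀` from `aa_zero_partG` (PG1) with
`T`, `P`, `π`; `a' = a - a₀ ∘ π` on `B`, orthogonal to the functions of `π`, so `a' ∘ θ` is orthogonal to the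
functions of `z` (`orth_lift`, OL); `lemma_JT` (LJ6) for `a' ∘ θ` and `b ∘ θ` on `Z × K`; `P0` = the union of
the finite sets of `lemma_JT` and of `N₀.primeFactors`, `m0` = the sum of the `m_nj` plus
`N₀.primeFactors.card`. For `p ∉ P0` and `q ∈ Q`, `q ∤ N₀`, with joining `ρ`: `ρ.map (P × P)` is a joining
for `T` (`isJoin_map`, `H82OF/XK1.lean`), it lifts to a joining `ρ'` for `skew α φ` (`exists_joining_lift`,
`H82OF/JL2.lean`, with `R := skewE α φ`, `R₁ := T`, `τ := θ`), `σ` = its relative square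
(`exists_isRel`), `relSq_invariant_RR` (SI; `Tors.ergodic`), `pair_bound_lift` (PG3). The `a₀`-part:
`‖∫ γ a₀(π (θ w.1)) conj (b (θ w.2)) dσ‖ ≤ C₁ T₀² ∫ ‖a₀ (π x)‖ dmb`. -/
theorem mod_pair_G {Y B W : Type*} [MeasurableSpace Y] [MeasurableSpace B] [CommGroup W] [TopologicalSpace W]
    [IsTopologicalGroup W] [CompactSpace W] [T2Space W] [SecondCountableTopology W]
    [MeasurableSpace W] [BorelSpace W] {m : Measure Y} [IsProbabilityMeasure m]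
    (R : Y ≃ᵐ Y) (hR : Ergodic R m) (lam : Measure Z) [lam.IsHaarMeasure]
    [IsProbabilityMeasure lam] (muK : Measure K) [muK.IsHaarMeasure] [IsProbabilityMeasure muK]
    {α : Z} {φ : Z → K} {mb : Measure B} [IsProbabilityMeasure mb] (T : B ≃ᵐ B) {P : Y → B}
    {θ : Z × K → B} {π : B → W} {c : W} (hL : LevG m R lam muK α φ mb T P θ π c)
    (N₀ : ℕ) (hN₀ : Tors (lam.prod muK) (skew (M := K) α φ) N₀) {d e : ℕ}
    (Ψ : B → Matrix (Fin d) (Fin d) ℂ) (Ψ' : B → Matrix (Fin e) (Fin e) ℂ)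
    (hΨ : BMM Ψ) (hΨ' : BMM Ψ') (hu : ∀ x, Ψ x * (Ψ x)ᴴ = 1) (hu' : ∀ x, Ψ' x * (Ψ' x)ᴴ = 1)
    (E : Y → Fin d → ℂ) (hE : BMR E) (hER : ∀ᵐ y ∂m, E (R y) = Ψ (P y) *ᵥ E y)
    {Γ' : Y → Matrix (Fin e) (Fin e) ℂ} (E' : Y → Fin e → ℂ)
    (hM : IsMod (MeasurableSpace.comap P inferInstance) m R (fun y => Ψ' (P y)) Γ' E')
    (CE CE' CF : ℝ) (hCE0 : 0 ≤ CE) (hCE0' : 0 ≤ CE') (hCF0 : 0 ≤ CF)
    (hCE : ∀ y, ∑ i, ‖E y i‖ ^ 2 ≤ CE) (hCE' : ∀ y, ∑ i, ‖E' y i‖ ^ 2 ≤ CE')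
    (F : B → Fin d → ℂ) (hF : BMR F) (hCF : ∀ x, ∑ i, ‖F x i‖ ^ 2 ≤ CF)
    (g₂ : Y → ℂ) (hg₂ : ModV (MeasurableSpace.comap P inferInstance) m E' g₂) (g₁ : Y → ℂ)
    (G₁ : B → Fin e → ℂ)
    (hG₁ : BMR G₁) (hg₁ : ∀ᵐ y ∂m, g₁ y = G₁ (P y) ⬝ᵥ E' y) (T₀ : ℝ) (hT0 : 0 ≤ T₀)
    (hT : ∀ x, ∑ i, ‖G₁ x i‖ ^ 2 ≤ T₀ ^ 2) (δ : ℝ) (hδ : 0 ≤ δ) (N : ℕ) (hN : 1 ≤ N)
    (hcorr : ∑ n ∈ range N, ∑ j ∈ range N,
      ∫ y, ‖(m[fun x => g₂ (R^[n] x) * conj (g₂ (R^[j] x))|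
        MeasurableSpace.comap (fun y => π (P y)) inferInstance]) y‖ ∂m ≤ δ * (N : ℝ) ^ 2)
    (ε' : ℝ) (hε' : 0 < ε') :
    ∃ F0 : Finset ℂ, (∀ c ∈ F0, NR c) ∧ ∃ (P0 : Finset ℕ) (m0 : ℕ),
      ∀ p ∈ goodPrimes (lam.prod muK) (skew (M := K) α φ) F0, p ∉ P0 → ∀ Q : Finset ℕ,
      (∀ q ∈ Q, q.Prime ∧ q ≠ p ∧ ∃ ρ : Measure (Y × Y), IsJoin m R p q ρ ∧
        CF * (Real.sqrt ((e : ℝ) ^ 2 * ((e : ℝ) ^ 2 * (d * (CE * CE')) ^ 2 * T₀ ^ 2 * δ) + ε') +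
          CE * (l2 m g₂ * l2 m (fun y => g₂ y - g₁ y))) <
        ‖∫ z, (F (P z.1) ⬝ᵥ E z.1) * conj (g₂ z.2) ∂ρ‖ ^ 2) → Q.card ≤ m0 := by
  classical
  have hMP : MeasurePreserving R m m := hR.toMeasurePreserving
  have hPm : Measurable P := hL.presP.measurable
  have hθm : Measurable θ := hL.preθ.measurable
  have hπm : Measurable π := hL.measπ
  have hle : MeasurableSpace.comap P inferInstance ≤ (inferInstance : MeasurableSpace Y) :=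
    hPm.comap_le
  have hmE : BMR E' := fun i => hM.bmE i
  have : StandardBorelSpace Z := standardBorel_of_compact Z
  have : StandardBorelSpace K := standardBorel_of_compact K
  have hTp : MeasurePreserving (skew (M := K) α φ) (lam.prod muK) (lam.prod muK) :=
    hL.base.erg.toMeasurePreserving
  have hTm : MeasurePreserving T mb mb := hL.presT hMP T.measurable
  have hinv := comap_inv R T P hL.equiP
  obtain ⟨F₂, hF₂, hF₂Γ, hgF₂⟩ := ModV.normal (MeasurableSpace.comap P inferInstance) hle hM g₂ hg₂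
  obtain ⟨G₂, hG₂, hFG₂⟩ := rowB_factorG P F₂ hF₂
  have hG₂Γ : ∀ y, G₂ (P y) ᵥ* Γ' y = G₂ (P y) := fun y => by rw [← hFG₂ y]; exact hF₂Γ y
  have hgG₂ : ∀ᵐ y ∂m, g₂ y = G₂ (P y) ⬝ᵥ E' y := by
    filter_upwards [hgF₂] with y hy
    rw [hy, hFG₂ y]
  have haB : ∀ n j, BM (aa T Ψ' G₂ n j) := fun n j => aa_bm _ T.measurable Ψ' hΨ' G₂ hG₂ n j
  have hbB : ∀ n j, BM (aa T Ψ' G₁ n j) := fun n j => aa_bm _ T.measurable Ψ' hΨ' G₁ hG₁ n j
  have hbb : ∀ n j y, ‖aa T Ψ' G₁ n j y‖ ≤ T₀ ^ 2 := fun n j y =>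
    aa_bound _ Ψ' hu' G₁ T₀ hT0 hT n j y
  have hzero : ∀ n j : ℕ, ∃ a₀ : W → ℂ, BM a₀ ∧
      (∀ h : W → ℂ, BM h → ∫ x, h (π x) * aa T Ψ' G₂ n j x ∂mb =
        ∫ x, h (π x) * a₀ (π x) ∂mb) ∧
      ∫ x, ‖a₀ (π x)‖ ∂mb = ∫ y, ‖(m[fun x => g₂ (R^[n] x) * conj (g₂ (R^[j] x))|
        MeasurableSpace.comap (fun y => π (P y)) inferInstance]) y‖ ∂m := fun n j =>
    aa_zero_partG R hMP T T.measurable P hL.presP hL.equiP π hπm hinv Ψ' hΨ'
      hu' hM g₂ hg₂.1 G₂ hG₂ hG₂Γ hgG₂ n j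
  choose a₀ ha₀B ha₀o ha₀i using hzero
  have ha₀π : ∀ n j, BM fun x => a₀ n j (π x) := fun n j => (ha₀B n j).comp hπm
  set C₁ : ℝ := (e : ℝ) ^ 2 * (d * (CE * CE')) ^ 2 with hC₁
  have hC₁0 : 0 ≤ C₁ := by positivity
  have hη : 0 < ε' / (((e : ℝ) ^ 2 + 1) * (C₁ + 1)) := by positivity
  have ha'B : ∀ n j, BM fun x => aa T Ψ' G₂ n j x - a₀ n j (π x) := fun n j =>
    (haB n j).sub (ha₀π n j)
  have ha'o : ∀ n j, ∀ h : W → ℂ, BM h →
      ∫ x, (aa T Ψ' G₂ n j x - a₀ n j (π x)) * conj (h (π x)) ∂mb = 0 := by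
    intro n j h hh
    have hc : BM fun w => conj (h w) := hh.conj
    have hcπ : BM fun x => conj (h (π x)) := hc.comp hπm
    have h1 := ha₀o n j (fun w => conj (h w)) hc
    have h2 : ∀ x, (aa T Ψ' G₂ n j x - a₀ n j (π x)) * conj (h (π x)) =
        conj (h (π x)) * aa T Ψ' G₂ n j x - conj (h (π x)) * a₀ n j (π x) := fun x => by ring
    rw [integral_congr_ae (Eventually.of_forall h2),
      integral_sub (hcπ.mul (haB n j)).integrable (hcπ.mul (ha₀π n j)).integrable]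
    exact sub_eq_zero.2 h1
  have hSm : ∀ n j : ℕ, SmT (lam.prod muK) (skew (M := K) α φ)
      (fun x => aa T Ψ' G₂ n j (θ x) - a₀ n j (π (θ x)))
      (fun x => aa T Ψ' G₁ n j (θ x)) := fun n j =>
    lemma_JT lam muK hL.base N₀ hN₀ _ _ ((ha'B n j).comp hθm) ((hbB n j).comp hθm)
      (fun h hh => orth_lift R hR lam muK T hL (fun x => aa T Ψ' G₂ n j x - a₀ n j (π x))
        (ha'B n j) (ha'o n j) h hh)
  choose FF hFF1 PP MM hFF using fun n j : ℕ => hSm n j _ hη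
  refine ⟨(range N ×ˢ range N).biUnion fun t => FF t.1 t.2, ?_,
    ((range N ×ˢ range N).biUnion fun t => PP t.1 t.2) ∪ N₀.primeFactors,
    ∑ t ∈ range N ×ˢ range N, MM t.1 t.2 + N₀.primeFactors.card, ?_⟩
  · intro c hc
    obtain ⟨t, _, ht⟩ := Finset.mem_biUnion.1 hc
    exact hFF1 _ _ c ht
  intro p hp hpP Q hQ
  rw [Finset.mem_union, not_or] at hpP
  obtain ⟨hpP1, hpP2⟩ := hpP
  have hN₀0 : N₀ ≠ 0 := Nat.one_le_iff_ne_zero.1 hN₀.1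
  have hndvd : ∀ q : ℕ, q.Prime → q ∉ N₀.primeFactors → ¬ q ∣ N₀ := fun q hq hq' hd =>
    hq' (Nat.mem_primeFactors.2 ⟨hq, hd, hN₀0⟩)
  have hep : Ergodic ((skew (M := K) α φ)^[p]) (lam.prod muK) :=
    hN₀.ergodic hL.base.erg p hp.1 (hndvd p hp.1 hpP2)
  have hpp : ∀ t ∈ range N ×ˢ range N,
      p ∈ goodPrimes (lam.prod muK) (skew (M := K) α φ) (FF t.1 t.2) := fun t ht =>
    ⟨hp.1, fun c hc => hp.2 c (Finset.mem_biUnion.2 ⟨t, ht, hc⟩)⟩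
  have hpP' : ∀ t ∈ range N ×ˢ range N, p ∉ PP t.1 t.2 := fun t ht h =>
    hpP1 (Finset.mem_biUnion.2 ⟨t, ht, h⟩)
  have hcov : Q ⊆ ((range N ×ˢ range N).biUnion fun t => Q.filter fun q =>
      BadJ (lam.prod muK) (skew (M := K) α φ)
        (fun x => aa T Ψ' G₂ t.1 t.2 (θ x) - a₀ t.1 t.2 (π (θ x)))
        (fun x => aa T Ψ' G₁ t.1 t.2 (θ x)) (ε' / (((e : ℝ) ^ 2 + 1) * (C₁ + 1))) p q) ∪
      N₀.primeFactors := by
    intro q hq
    by_contra hcon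
    rw [Finset.mem_union, not_or] at hcon
    obtain ⟨hcon1, hcon2⟩ := hcon
    obtain ⟨hq1, hqp, ρ, hρ, hlt⟩ := hQ q hq
    have heq : Ergodic ((skew (M := K) α φ)^[q]) (lam.prod muK) :=
      hN₀.ergodic hL.base.erg q hq1 (hndvd q hq1 hcon2)
    have hnb : ∀ t ∈ range N ×ˢ range N, ¬ BadJ (lam.prod muK) (skew (M := K) α φ)
        (fun x => aa T Ψ' G₂ t.1 t.2 (θ x) - a₀ t.1 t.2 (π (θ x)))
        (fun x => aa T Ψ' G₁ t.1 t.2 (θ x)) (ε' / (((e : ℝ) ^ 2 + 1) * (C₁ + 1))) p q := by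
      intro t ht hbad
      exact hcon1 (Finset.mem_biUnion.2 ⟨t, ht, Finset.mem_filter.2 ⟨hq, hbad⟩⟩)
    have hρp := hρ.prob
    have hρB : IsJoin mb T p q (ρ.map (Prod.map P P)) :=
      isJoin_map T.measurable hL.presP hL.equiP hρ
    have hρBp := hρB.prob
    obtain ⟨ρ', hρ', hlift⟩ := exists_joining_lift (skewE (M := K) α φ hL.base.meas) hTp T θ
      hL.preθ hL.equiθ hρB
    have hρ'' : IsJoin (lam.prod muK) (skew (M := K) α φ) p q ρ' := hρ'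
    have hρ'p := hρ'.prob
    obtain ⟨σ, hσ⟩ := exists_isRel (skew (M := K) α φ) p q ρ'
    obtain ⟨hσR, hσT⟩ := relSq_invariant_RR lam muK hL.base p q hp.1 hq1 hqp hep heq _ σ hρ'' hσ
    have hσp := hσ.prob
    obtain ⟨γ, hγ, S, hS0, hS1, hS2⟩ := pair_bound_lift R hMP T hTm
      (skewE (M := K) α φ hL.base.meas) hTp hL.presP hL.equiP hL.preθ hL.equiθ
      hΨ hΨ' hu hu' E E' hE hmE hER hM.rel CE CE' CF hCE0 hCE0' hCF0 hCE hCE'
      F hF hCF G₁ G₂ hG₁ hG₂ hρ hρ' hlift hσ hσT N hN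
    have hσ1 : MeasurePreserving (fun w : (Z × K) × (Z × K) => θ w.1) σ mb :=
      hL.preθ.comp ⟨measurable_fst, hσR.fst⟩
    have hterm : ∀ n ∈ range N, ∀ j ∈ range N,
        ‖∫ w, γ n j w * (aa T Ψ' G₂ n j (θ w.1) * conj (aa T Ψ' G₁ n j (θ w.2))) ∂σ‖ ≤
        (C₁ + 1) * (ε' / (((e : ℝ) ^ 2 + 1) * (C₁ + 1))) + C₁ * T₀ ^ 2 *
          ∫ y, ‖(m[fun x => g₂ (R^[n] x) * conj (g₂ (R^[j] x))|
            MeasurableSpace.comap (fun y => π (P y)) inferInstance]) y‖ ∂m := by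
      intro n hn j hj
      rw [← ha₀i n j]
      obtain ⟨hγB, hγb, hγi⟩ := hγ n j
      refine pg4_term σ hσ1 (hθm.comp measurable_snd) (γ n j) hγB C₁ hC₁0 hγb
        (aa T Ψ' G₂ n j) (fun x => a₀ n j (π x)) (aa T Ψ' G₁ n j) (haB n j) (ha₀π n j)
        (hbB n j) (T₀ ^ 2) (hbb n j) _ ?_
      have hnb' := hnb (n, j) (Finset.mem_product.2 ⟨hn, hj⟩)
      by_contra hgt
      rw [not_le] at hgt
      refine hnb' ⟨ρ', σ, fun w => ((C₁ + 1 : ℝ) : ℂ)⁻¹ * γ n j w, hρ'', hσ,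
        (BM.const _).mul hγB, fun w => ?_, ?_, ?_⟩
      · rw [norm_mul, norm_inv, Complex.norm_real, Real.norm_of_nonneg (by linarith),
          inv_mul_le_iff₀ (by linarith), mul_one]
        exact (hγb w).trans (by linarith)
      · filter_upwards [hγi] with w hw
        have hw' : γ n j (Prod.map ((skew (M := K) α φ)^[q]) ((skew (M := K) α φ)^[q]) w) =
            γ n j w := hw
        rw [hw']
      · have hfac : ∫ w, ((C₁ + 1 : ℝ) : ℂ)⁻¹ * γ n j w *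
            ((aa T Ψ' G₂ n j (θ w.1) - a₀ n j (π (θ w.1))) *
              conj (aa T Ψ' G₁ n j (θ w.2))) ∂σ =
            ((C₁ + 1 : ℝ) : ℂ)⁻¹ * ∫ w, γ n j w *
            ((aa T Ψ' G₂ n j (θ w.1) - a₀ n j (π (θ w.1))) *
              conj (aa T Ψ' G₁ n j (θ w.2))) ∂σ := by
          rw [← integral_const_mul]
          refine integral_congr_ae (Eventually.of_forall fun w => ?_)
          exact mul_assoc _ _ _
        show _ < ‖∫ w, ((C₁ + 1 : ℝ) : ℂ)⁻¹ * γ n j w *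
            ((aa T Ψ' G₂ n j (θ w.1) - a₀ n j (π (θ w.1))) *
              conj (aa T Ψ' G₁ n j (θ w.2))) ∂σ‖
        rw [hfac, norm_mul, norm_inv, Complex.norm_real, Real.norm_of_nonneg (by linarith),
          lt_inv_mul_iff₀ (by linarith)]
        exact hgt
    have hsum : ∑ n ∈ range N, ∑ j ∈ range N,
        ‖∫ w, γ n j w * (aa T Ψ' G₂ n j (θ w.1) * conj (aa T Ψ' G₁ n j (θ w.2))) ∂σ‖ ≤
        (N : ℝ) ^ 2 * ((C₁ + 1) * (ε' / (((e : ℝ) ^ 2 + 1) * (C₁ + 1)))) + C₁ * T₀ ^ 2 *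
          ∑ n ∈ range N, ∑ j ∈ range N,
            ∫ y, ‖(m[fun x => g₂ (R^[n] x) * conj (g₂ (R^[j] x))|
              MeasurableSpace.comap (fun y => π (P y)) inferInstance]) y‖ ∂m := by
      refine (Finset.sum_le_sum fun n hn => Finset.sum_le_sum fun j hj =>
        hterm n hn j hj).trans (le_of_eq ?_)
      simp_rw [Finset.sum_add_distrib, ← Finset.mul_sum]
      rw [Finset.sum_const, Finset.sum_const, Finset.card_range, nsmul_eq_mul, nsmul_eq_mul]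
      ring
    have hN0 : (0 : ℝ) < (N : ℝ) ^ 2 := by
      have : (0 : ℝ) < N := by exact_mod_cast hN
      positivity
    have hS3 : S ^ 2 ≤ (e : ℝ) ^ 2 * (C₁ * T₀ ^ 2 * δ) + ε' :=
      pg4_arith ((e : ℝ) ^ 2) C₁ (T₀ ^ 2) δ ε' (S ^ 2) ((N : ℝ) ^ 2) _ _ (sq_nonneg _) hC₁0
        (sq_nonneg _) hN0 hε' hS1 hsum hcorr
    have hS4 : S ≤ Real.sqrt ((e : ℝ) ^ 2 * (C₁ * T₀ ^ 2 * δ) + ε') :=
      Real.le_sqrt_of_sq_le hS3
    have hI : ∫ z, (F (P z.1) ⬝ᵥ E z.1) * conj (g₂ z.2) ∂ρ =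
        ∫ z, (F (P z.1) ⬝ᵥ E z.1) * conj (G₂ (P z.2) ⬝ᵥ E' z.2) ∂ρ := by
      have e2 : ∀ᵐ z ∂ρ, g₂ z.2 = G₂ (P z.2) ⬝ᵥ E' z.2 := by
        have h2 := hgG₂
        rw [← hρ.snd] at h2
        exact ae_of_ae_map measurable_snd.aemeasurable h2
      refine integral_congr_ae ?_
      filter_upwards [e2] with z h3
      rw [h3]
    have hl1 : l2 m (fun y => G₂ (P y) ⬝ᵥ E' y) = l2 m g₂ := by
      refine pg4_l2 ?_
      filter_upwards [hgG₂] with y hy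
      rw [hy]
    have hl2 : l2 m (fun y => G₂ (P y) ⬝ᵥ E' y - G₁ (P y) ⬝ᵥ E' y) =
        l2 m (fun y => g₂ y - g₁ y) := by
      refine pg4_l2 ?_
      filter_upwards [hgG₂, hg₁] with y hy hy'
      rw [hy, hy']
    rw [hI] at hlt
    rw [hl1, hl2] at hS2
    refine absurd hlt (not_lt.2 (hS2.trans ?_))
    exact mul_le_mul_of_nonneg_left (add_le_add hS4 le_rfl) hCF0
  refine (Finset.card_le_card hcov).trans ((Finset.card_union_le _ _).trans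
    (add_le_add (Finset.card_biUnion_le.trans (Finset.sum_le_sum fun t ht => ?_)) le_rfl))
  refine hFF t.1 t.2 p (hpp t ht) (hpP' t ht) _ fun q hq => ?_
  obtain ⟨hq1, hq2⟩ := Finset.mem_filter.1 hq
  exact ⟨(hQ q hq1).1, (hQ q hq1).2.1, hq2⟩

end

end Pool.Agent.Lib.H82OG
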